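import Pool.Agent.Hhelper27.LpBasis.TwoWeight

/-!
Existence of `A_2` majorants, from the two-weight lemma.
-/

set_option autoImplicit false
set_option linter.unusedSectionVars false

namespace Pool.Agent.LpBasis

open Finset

section general
variable {V : Type*} [Fintype V] [DecidableEq V]

/-- the harmonic mean argument -/
theorem a2_harm {C : ℝ} (hC : 1 ≤ C) (w : ℕ → (V → Bool) → ℝ) (hw : ∀ k x, 0 < w k x) (n : ℕ)
    (hn : 0 < n) (hlast : ∀ x, (1 / (2 * C)) ^ n * w n x ≤ w 0 x) (F : Finset V)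
    (hF : ∀ k x, ce F (w k) x * ce F (fun y => (w (k + 1) y)⁻¹) x ≤ 1) (x : V → Bool) :
    ce F (fun y => ∑ k ∈ range (n + 1), (1 / (2 * C)) ^ k * w k y) x *
      ce F (fun y => (∑ k ∈ range (n + 1), (1 / (2 * C)) ^ k * w k y)⁻¹) x ≤ 4 * C := by
  set a : ℝ := 1 / (2 * C) with ha
  have ha0 : 0 < a := by rw [ha]; positivity
  set m : ℕ → ℝ := fun k => ce F (w k) x with hm
  have hm0 : ∀ k, 0 < m k := fun k => ce_pos F (hw k) x
  set D : ℝ := ∑ k ∈ range n, a ^ (k + 1) * m k with hD
  have hD0 : 0 < D := by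
    apply Finset.sum_pos
    · intro k _
      exact mul_pos (by positivity) (hm0 k)
    · exact ⟨0, by simpa using hn⟩
  set W : (V → Bool) → ℝ := fun y => ∑ k ∈ range (n + 1), a ^ k * w k y with hW
  have hW0 : ∀ y, 0 < W y := by
    intro y
    apply Finset.sum_pos
    · intro k _
      exact mul_pos (by positivity) (hw k y)
    · exact ⟨0, by simp⟩
  -- the upper bound of the average
  have hup : ce F W x ≤ 4 * C * D := by
    have e1 : ce F W x = ∑ k ∈ range (n + 1), a ^ k * m k := by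
      rw [hW, ce_sum]
      apply Finset.sum_congr rfl
      intro k _
      rw [ce_const_mul]
    have e2 : a ^ n * m n ≤ m 0 := by
      have := ce_mono F hlast x
      rw [ce_const_mul] at this
      exact this
    have e3 : m 0 ≤ ∑ k ∈ range n, a ^ k * m k := by
      have := Finset.single_le_sum (f := fun k => a ^ k * m k)
        (fun k _ => (mul_pos (by positivity) (hm0 k)).le) (Finset.mem_range.2 hn)
      simpa using this
    have e4 : ∑ k ∈ range n, a ^ k * m k = 2 * C * D := by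
      rw [hD, Finset.mul_sum]
      apply Finset.sum_congr rfl
      intro k _
      rw [pow_succ, ha]
      field_simp
    rw [e1, Finset.sum_range_succ]
    linarith
  -- the lower bound of the harmonic mean
  have hlow : D ^ 2 * ce F (fun y => (W y)⁻¹) x ≤ D := by
    have hpt : ∀ y, D ^ 2 * (W y)⁻¹ ≤
        ∑ k ∈ range n, (a ^ (k + 1) * m k ^ 2) * (w (k + 1) y)⁻¹ := by
      intro y
      have h1 : 0 < ∑ k ∈ range n, a ^ (k + 1) * w (k + 1) y := by
        apply Finset.sum_pos
        · intro k _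
          exact mul_pos (by positivity) (hw _ y)
        · exact ⟨0, by simpa using hn⟩
      have h2 : ∑ k ∈ range n, a ^ (k + 1) * w (k + 1) y ≤ W y := by
        simp only [hW]
        rw [Finset.sum_range_succ' (fun k => a ^ k * w k y)]
        have := hw 0 y
        simp
        exact this.le
      calc D ^ 2 * (W y)⁻¹ ≤ D ^ 2 * (∑ k ∈ range n, a ^ (k + 1) * w (k + 1) y)⁻¹ := by
            apply mul_le_mul_of_nonneg_left _ (by positivity)
            exact inv_anti₀ h1 h2
        _ = D ^ 2 / (∑ k ∈ range n, a ^ (k + 1) * w (k + 1) y) := by rw [div_eq_mul_inv]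
        _ ≤ ∑ k ∈ range n, (a ^ (k + 1) * m k) ^ 2 / (a ^ (k + 1) * w (k + 1) y) :=
            Finset.sq_sum_div_le_sum_sq_div _ _ (fun k _ => mul_pos (by positivity) (hw _ y))
        _ = ∑ k ∈ range n, (a ^ (k + 1) * m k ^ 2) * (w (k + 1) y)⁻¹ := by
            apply Finset.sum_congr rfl
            intro k _
            have := hw (k + 1) y
            have h3 : 0 < a ^ (k + 1) := by positivity
            field_simp
    have h2 := ce_mono F hpt x
    rw [ce_const_mul, ce_sum] at h2
    refine h2.trans ?_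
    rw [hD]
    apply Finset.sum_le_sum
    intro k _
    rw [ce_const_mul]
    have h3 := hF k x
    have h4 : 0 < a ^ (k + 1) := by positivity
    calc a ^ (k + 1) * m k ^ 2 * ce F (fun y => (w (k + 1) y)⁻¹) x =
        a ^ (k + 1) * m k * (m k * ce F (fun y => (w (k + 1) y)⁻¹) x) := by ring
      _ ≤ a ^ (k + 1) * m k * 1 := mul_le_mul_of_nonneg_left h3 (mul_pos h4 (hm0 k)).le
      _ = a ^ (k + 1) * m k := mul_one _
  have hinv0 : 0 < ce F (fun y => (W y)⁻¹) x := ce_pos F (fun y => inv_pos.2 (hW0 y)) x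
  have hlow' : D * ce F (fun y => (W y)⁻¹) x ≤ 1 := by
    have : D * (D * ce F (fun y => (W y)⁻¹) x) ≤ D * 1 := by
      calc _ = D ^ 2 * ce F (fun y => (W y)⁻¹) x := by ring
        _ ≤ D * 1 := by rw [mul_one]; exact hlow
    exact le_of_mul_le_mul_left this hD0
  calc ce F W x * ce F (fun y => (W y)⁻¹) x ≤ (4 * C * D) * ce F (fun y => (W y)⁻¹) x :=
        mul_le_mul_of_nonneg_right hup hinv0.le
    _ = 4 * C * (D * ce F (fun y => (W y)⁻¹) x) := by ring
    _ ≤ 4 * C * 1 := mul_le_mul_of_nonneg_left hlow' (by positivity)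
    _ = 4 * C := mul_one _

/-- the norm of a geometric series -/
theorem a2_norm {C s : ℝ} (hC : 1 ≤ C) (hs : 1 < s) (w : ℕ → (V → Bool) → ℝ)
    (hw : ∀ k x, 0 < w k x) (n : ℕ) (R : ℝ)
    (hR : ∀ k, av (fun x => w k x ^ s) ≤ (C ^ k) ^ s * R) :
    av (fun x => (∑ k ∈ range (n + 1), (1 / (2 * C)) ^ k * w k x) ^ s) ≤ 2 ^ s * R := by
  have hC0 : 0 < C := by linarith
  have hs0 : 0 < s := by linarith
  set S : ℝ := ∑ k ∈ range (n + 1), (1 / 2 : ℝ) ^ k with hS
  have hS2 : S ≤ 2 := by
    have h2 : S = 2 - 2 * (1 / 2) ^ (n + 1) := by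
      rw [hS, geom_sum_eq (by norm_num)]
      field_simp
      ring
    rw [h2]
    have : 0 < (1 / 2 : ℝ) ^ (n + 1) := by positivity
    linarith
  have hS0 : 0 < S := Finset.sum_pos (fun k _ => by positivity) ⟨0, by simp⟩
  have hR0 : 0 ≤ R := by
    have h1 := hR 0
    have h2 : 0 < av (fun x => w 0 x ^ s) := av_pos fun x => Real.rpow_pos_of_pos (hw 0 x) s
    simp at h1
    linarith
  have hpt : ∀ x, (∑ k ∈ range (n + 1), (1 / (2 * C)) ^ k * w k x) ^ s ≤
      S ^ s * ∑ k ∈ range (n + 1), ((1 / 2) ^ k / S) * (w k x / C ^ k) ^ s := by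
    intro x
    have e1 : ∑ k ∈ range (n + 1), (1 / (2 * C)) ^ k * w k x =
        S * ∑ k ∈ range (n + 1), ((1 / 2) ^ k / S) * (w k x / C ^ k) := by
      rw [Finset.mul_sum]
      apply Finset.sum_congr rfl
      intro k _
      rw [div_pow, mul_pow, div_pow]
      field_simp
    have hnn : 0 ≤ ∑ k ∈ range (n + 1), ((1 / 2) ^ k / S) * (w k x / C ^ k) := by
      apply Finset.sum_nonneg
      intro k _
      have := hw k x
      positivity
    rw [e1, Real.mul_rpow hS0.le hnn]
    apply mul_le_mul_of_nonneg_left _ (by positivity)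
    apply Real.rpow_arith_mean_le_arith_mean_rpow
    · intro k _
      positivity
    · rw [← Finset.sum_div, ← hS, div_self hS0.ne']
    · intro k _
      have := hw k x
      positivity
    · exact hs.le
  refine (av_mono hpt).trans ?_
  rw [av_const_mul, av_sum]
  have hk : ∀ k ∈ range (n + 1), av (fun x => ((1 / 2) ^ k / S) * (w k x / C ^ k) ^ s) ≤
      ((1 / 2) ^ k / S) * R := by
    intro k _
    rw [av_const_mul]
    apply mul_le_mul_of_nonneg_left _ (by positivity)
    have e2 : (fun x => (w k x / C ^ k) ^ s) = fun x => ((C ^ k) ^ s)⁻¹ * w k x ^ s := by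
      funext x
      rw [Real.div_rpow (hw k x).le (by positivity), div_eq_inv_mul]
    rw [e2, av_const_mul]
    have h1 : 0 < (C ^ k) ^ s := by positivity
    rw [inv_mul_le_iff₀ h1]
    exact hR k
  calc S ^ s * ∑ k ∈ range (n + 1), av (fun x => ((1 / 2) ^ k / S) * (w k x / C ^ k) ^ s)
      ≤ S ^ s * ∑ k ∈ range (n + 1), ((1 / 2) ^ k / S) * R :=
        mul_le_mul_of_nonneg_left (Finset.sum_le_sum hk) (by positivity)
    _ = S ^ s * R := by
        rw [← Finset.sum_mul, ← Finset.sum_div, ← hS, div_self hS0.ne', one_mul]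
    _ ≤ 2 ^ s * R := by
        apply mul_le_mul_of_nonneg_right _ hR0
        exact Real.rpow_le_rpow hS0.le hS2 hs0.le

end general

/-- C2: `A_2` weights above a given weight -/
theorem exists_A2 (s : ℝ) (hs : 1 < s) : ∃ A : ℝ, 1 ≤ A ∧
    ∀ (V : Type) [Fintype V] [DecidableEq V] (T : Forest V) (τ : ℕ)
      (w : (V → Bool) → ℝ) (_ : ∀ x, 0 < w x),
      ∃ W : (V → Bool) → ℝ, (∀ x, w x ≤ W x) ∧
        av (fun x => W x ^ s) ≤ A * av (fun x => w x ^ s) ∧
        (∀ x, ce ∅ W x * ce ∅ (fun y => (W y)⁻¹) x ≤ A) ∧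
        ∀ t < τ, ∀ z x, ce (T.P t z) W x * ce (T.P t z) (fun y => (W y)⁻¹) x ≤ A := by
  have hs0 : 0 < s := by linarith
  obtain ⟨C, hC, hTW⟩ := two_weight s hs
  have hC0 : 0 < C := by linarith
  refine ⟨max (2 ^ s) (4 * C), le_max_of_le_right (by linarith), ?_⟩
  intro V _ _ T τ w hw
  rcases isEmpty_or_nonempty V with hV | hV
  · -- trivial case
    refine ⟨w, fun x => le_rfl, ?_, ?_, fun t _ z => hV.elim z⟩
    · have h1 : 0 ≤ av (fun x => w x ^ s) := av_nonneg fun x => Real.rpow_nonneg (hw x).le s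
      have h2 : 1 ≤ max ((2 : ℝ) ^ s) (4 * C) := le_max_of_le_right (by linarith)
      nlinarith
    · intro x
      have e1 : ∀ f : (V → Bool) → ℝ, ce ∅ f x = f x := by
        intro f
        have : f = fun _ => f x := by
          funext y; congr 1; exact Subsingleton.elim _ _
        rw [this, ce_const]
      rw [e1, e1, mul_inv_cancel₀ (hw x).ne']
      exact le_max_of_le_right (by linarith)
  -- the combined forest
  set n := Fintype.card V with hn
  have hn0 : 0 < n := Fintype.card_pos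
  have hmono : ∀ z, Monotone (fun j => T.P j z) := fun z => monotone_nat_of_le_succ (T.mono · z)
  let T' : Forest V :=
    { P := fun j z => T.P (j / n) z
      self_mem := fun j z => T.self_mem _ z
      trans := fun j x z h => T.trans _ x z h
      chain := fun j x y z hx hy => T.chain _ x y z hx hy
      mono := fun j z => hmono z (Nat.div_le_div_right (Nat.le_succ j)) }
  let e : Fin n ≃ V := (Fintype.equivFin V).symm
  let z' : ℕ → V := fun j => e ⟨j % n, Nat.mod_lt _ hn0⟩
  have hstep : ∀ w : (V → Bool) → ℝ, (∀ x, 0 < w x) →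
      ∃ W : (V → Bool) → ℝ, (∀ x, 0 < W x) ∧ (∀ x, av w ≤ W x) ∧
        av (fun x => W x ^ s) ≤ C ^ s * av (fun x => w x ^ s) ∧
        ∀ t < τ, ∀ z x, ce (T.P t z) w x * ce (T.P t z) (fun y => (W y)⁻¹) x ≤ 1 := by
    intro w hw
    obtain ⟨W, h1, h2, h3, h4⟩ := hTW V T' z' (τ * n) w hw
    refine ⟨W, h1, h2, h3, ?_⟩
    intro t ht z x
    have hj : t * n + (e.symm z : ℕ) < τ * n := by
      have h5 : (e.symm z : ℕ) < n := (e.symm z).2
      calc t * n + (e.symm z : ℕ) < t * n + n := by omega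
        _ = (t + 1) * n := by ring
        _ ≤ τ * n := Nat.mul_le_mul_right n ht
    have h6 := h4 _ hj x
    have e1 : (t * n + (e.symm z : ℕ)) / n = t := by
      rw [mul_comm, Nat.mul_add_div hn0, Nat.div_eq_of_lt (e.symm z).2, add_zero]
    have e2 : z' (t * n + (e.symm z : ℕ)) = z := by
      simp only [z']
      have : (⟨(t * n + (e.symm z : ℕ)) % n, Nat.mod_lt _ hn0⟩ : Fin n) = e.symm z := by
        apply Fin.ext
        simp only
        rw [mul_comm, Nat.mul_add_mod, Nat.mod_eq_of_lt (e.symm z).2]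
      rw [this, Equiv.apply_symm_apply]
    simp only [T', e1, e2] at h6
    exact h6
  choose! Φ hΦ0 hΦav hΦs hΦc using hstep
  -- the iteration
  set wk : ℕ → (V → Bool) → ℝ := fun k => Φ^[k] w with hwk
  have hwk_succ : ∀ k, wk (k + 1) = Φ (wk k) := fun k => Function.iterate_succ_apply' Φ k w
  have hwk0 : ∀ k x, 0 < wk k x := by
    intro k
    induction k with
    | zero => exact hw
    | succ k ih => rw [hwk_succ]; exact hΦ0 _ ih
  set R : ℝ := av (fun x => w x ^ s) with hR
  have hR0 : 0 < R := av_pos fun x => Real.rpow_pos_of_pos (hw x) s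
  have hwkR : ∀ k, av (fun x => wk k x ^ s) ≤ (C ^ k) ^ s * R := by
    intro k
    induction k with
    | zero => simp [hwk, hR]
    | succ k ih =>
      rw [hwk_succ]
      calc av (fun x => Φ (wk k) x ^ s) ≤ C ^ s * av (fun x => wk k x ^ s) := hΦs _ (hwk0 k)
        _ ≤ C ^ s * ((C ^ k) ^ s * R) := mul_le_mul_of_nonneg_left ih (by positivity)
        _ = (C ^ (k + 1)) ^ s * R := by
            rw [pow_succ, Real.mul_rpow (by positivity) (by positivity)]; ring
  -- the number of steps
  obtain ⟨x0, hx0⟩ := Finite.exists_min w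
  obtain ⟨m, hm⟩ : ∃ m : ℕ, 0 < m ∧ (1 / 2 : ℝ) ^ m * ((2 ^ n) ^ (1 / s) * R ^ (1 / s)) ≤ w x0 := by
    have ht : Filter.Tendsto (fun m : ℕ => (1 / 2 : ℝ) ^ m * ((2 ^ n) ^ (1 / s) * R ^ (1 / s)))
        Filter.atTop (nhds (0 * ((2 ^ n) ^ (1 / s) * R ^ (1 / s)))) :=
      (tendsto_pow_atTop_nhds_zero_of_lt_one (by norm_num) (by norm_num)).mul_const _
    rw [zero_mul] at ht
    have h1 := ht.eventually (gt_mem_nhds (hw x0))
    obtain ⟨m, hm1, hm2⟩ := (h1.and (Filter.eventually_gt_atTop 0)).exists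
    exact ⟨m, hm2, hm1.le⟩
  obtain ⟨hm0, hm⟩ := hm
  have hlast : ∀ x, (1 / (2 * C)) ^ m * wk m x ≤ wk 0 x := by
    intro x
    have h1 : wk m x ^ s / 2 ^ n ≤ (C ^ m) ^ s * R := by
      refine le_trans ?_ (hwkR m)
      have h2 : wk m x ^ s ≤ ∑ y, wk m y ^ s :=
        Finset.single_le_sum (f := fun y => wk m y ^ s)
          (fun y _ => Real.rpow_nonneg (hwk0 m y).le s) (Finset.mem_univ x)
      exact div_le_div_of_nonneg_right h2 (by positivity)
    have h2 : wk m x ≤ C ^ m * ((2 ^ n) ^ (1 / s) * R ^ (1 / s)) := by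
      have h3 : wk m x ^ s ≤ (C ^ m) ^ s * (2 ^ n * R) := by
        rw [div_le_iff₀ (by positivity)] at h1
        calc _ ≤ _ := h1
          _ = _ := by ring
      calc wk m x = (wk m x ^ s) ^ (1 / s) := by
            rw [← Real.rpow_mul (hwk0 m x).le, mul_one_div_cancel hs0.ne', Real.rpow_one]
        _ ≤ ((C ^ m) ^ s * (2 ^ n * R)) ^ (1 / s) :=
            Real.rpow_le_rpow (Real.rpow_nonneg (hwk0 m x).le _) h3 (by positivity)
        _ = C ^ m * ((2 ^ n) ^ (1 / s) * R ^ (1 / s)) := by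
            rw [Real.mul_rpow (by positivity) (by positivity),
              Real.mul_rpow (by positivity) (by positivity), ← Real.rpow_mul (by positivity),
              mul_one_div_cancel hs0.ne', Real.rpow_one]
    calc (1 / (2 * C)) ^ m * wk m x ≤
        (1 / (2 * C)) ^ m * (C ^ m * ((2 ^ n) ^ (1 / s) * R ^ (1 / s))) :=
          mul_le_mul_of_nonneg_left h2 (by positivity)
      _ = (1 / 2 : ℝ) ^ m * ((2 ^ n) ^ (1 / s) * R ^ (1 / s)) := by
          rw [div_pow, mul_pow, div_pow]
          field_simp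
      _ ≤ w x0 := hm
      _ ≤ wk 0 x := hx0 x
  have hcond : ∀ t < τ, ∀ z k x, ce (T.P t z) (wk k) x *
      ce (T.P t z) (fun y => (wk (k + 1) y)⁻¹) x ≤ 1 := by
    intro t ht z k x
    rw [hwk_succ]
    exact hΦc (wk k) (hwk0 k) t ht z x
  have hempty : ∀ k x, ce ∅ (wk k) x * ce ∅ (fun y => (wk (k + 1) y)⁻¹) x ≤ 1 := by
    intro k x
    have hav : 0 < av (wk k) := av_pos (hwk0 k)
    rw [ce_empty, ce_empty]
    have h1 : av (fun y => (wk (k + 1) y)⁻¹) ≤ (av (wk k))⁻¹ := by
      calc av (fun y => (wk (k + 1) y)⁻¹) ≤ av (fun _ : V → Bool => (av (wk k))⁻¹) := by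
            apply av_mono
            intro y
            apply inv_anti₀ hav
            rw [hwk_succ]
            exact hΦav (wk k) (hwk0 k) y
        _ = (av (wk k))⁻¹ := av_const _
    calc av (wk k) * av (fun y => (wk (k + 1) y)⁻¹) ≤ av (wk k) * (av (wk k))⁻¹ :=
          mul_le_mul_of_nonneg_left h1 hav.le
      _ = 1 := mul_inv_cancel₀ hav.ne'
  refine ⟨fun y => ∑ k ∈ range (m + 1), (1 / (2 * C)) ^ k * wk k y, ?_, ?_, ?_, ?_⟩
  · intro x
    have := Finset.single_le_sum (f := fun k => (1 / (2 * C)) ^ k * wk k x)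
      (fun k _ => (mul_pos (by positivity) (hwk0 k x)).le) (Finset.mem_range.2 (Nat.succ_pos m))
    simpa [hwk] using this
  · refine (a2_norm hC hs wk hwk0 m R hwkR).trans ?_
    exact mul_le_mul_of_nonneg_right (le_max_left _ _) hR0.le
  · intro x
    exact (a2_harm hC wk hwk0 m hm0 hlast ∅ hempty x).trans (le_max_right _ _)
  · intro t ht z x
    exact (a2_harm hC wk hwk0 m hm0 hlast (T.P t z) (hcond t ht z) x).trans (le_max_right _ _)

end Pool.Agent.LpBasis
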