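import Pool.Agent.Hhelper27.LpBasis.Defs

/-!
Elementary facts on averages and conditional expectations on the cube.
-/

set_option autoImplicit false
set_option linter.unusedSectionVars false

namespace Pool.Agent.LpBasis

open Finset

section A
variable {V : Type*} [Fintype V] [DecidableEq V]

theorem pow_card_pos : (0 : ℝ) < 2 ^ Fintype.card V := by positivity

theorem av_add (f g : (V → Bool) → ℝ) : av (fun x => f x + g x) = av f + av g := by
  simp only [av, Finset.sum_add_distrib, add_div]

theorem av_sub (f g : (V → Bool) → ℝ) : av (fun x => f x - g x) = av f - av g := by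
  simp only [av, Finset.sum_sub_distrib, sub_div]

theorem av_neg (f : (V → Bool) → ℝ) : av (fun x => - f x) = - av f := by
  simp only [av, Finset.sum_neg_distrib, neg_div]

theorem av_const_mul (c : ℝ) (f : (V → Bool) → ℝ) : av (fun x => c * f x) = c * av f := by
  simp only [av, ← Finset.mul_sum, mul_div_assoc]

theorem av_mul_const (c : ℝ) (f : (V → Bool) → ℝ) : av (fun x => f x * c) = av f * c := by
  simp only [av, ← Finset.sum_mul, div_mul_eq_mul_div]

theorem av_const (c : ℝ) : av (fun _ : V → Bool => c) = c := by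
  have : (2 : ℝ) ^ Fintype.card V ≠ 0 := by positivity
  simp only [av, Finset.sum_const, Finset.card_univ, Fintype.card_fun, Fintype.card_bool,
    nsmul_eq_mul]
  push_cast
  field_simp

theorem av_sum {κ : Type*} (s : Finset κ) (f : κ → (V → Bool) → ℝ) :
    av (fun x => ∑ k ∈ s, f k x) = ∑ k ∈ s, av (f k) := by
  simp only [av]
  rw [Finset.sum_comm, Finset.sum_div]

theorem av_mono {f g : (V → Bool) → ℝ} (h : ∀ x, f x ≤ g x) : av f ≤ av g := by
  unfold av
  exact div_le_div_of_nonneg_right (Finset.sum_le_sum fun x _ => h x) pow_card_pos.le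

theorem av_nonneg {f : (V → Bool) → ℝ} (h : ∀ x, 0 ≤ f x) : 0 ≤ av f :=
  div_nonneg (Finset.sum_nonneg fun x _ => h x) pow_card_pos.le

theorem av_pos {f : (V → Bool) → ℝ} (h : ∀ x, 0 < f x) : 0 < av f :=
  div_pos (Finset.sum_pos (fun x _ => h x) ⟨fun _ => true, Finset.mem_univ _⟩) pow_card_pos

theorem le_av {f : (V → Bool) → ℝ} (h : ∀ x, 0 ≤ f x) (x : V → Bool) :
    f x / 2 ^ Fintype.card V ≤ av f := by
  unfold av
  exact div_le_div_of_nonneg_right (Finset.single_le_sum (fun y _ => h y) (Finset.mem_univ x))
    pow_card_pos.le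

theorem av_eq_zero {f : (V → Bool) → ℝ} (h : ∀ x, 0 ≤ f x) (h0 : av f = 0) (x : V → Bool) :
    f x = 0 := by
  have h1 := le_av h x
  rw [h0] at h1
  have h2 : f x ≤ 0 := by
    by_contra hc
    push Not at hc
    have : 0 < f x / 2 ^ Fintype.card V := div_pos hc pow_card_pos
    linarith
  exact le_antisymm h2 (h x)

/-- mixing two independent points gives a uniform point -/
theorem av_av_piecewise (G : Finset V) (g : (V → Bool) → ℝ) :
    av (fun y => av (fun z => g (G.piecewise y z))) = av g := by
  have hinv : Function.Involutive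
      (fun q : (V → Bool) × (V → Bool) => (G.piecewise q.1 q.2, G.piecewise q.2 q.1)) := by
    rintro ⟨y, z⟩
    refine Prod.ext ?_ ?_ <;>
    · funext i
      by_cases hi : i ∈ G <;> simp [Finset.piecewise, hi]
  have h1 : ∑ y : V → Bool, ∑ z : V → Bool, g (G.piecewise y z) =
      ∑ q : (V → Bool) × (V → Bool), g (G.piecewise q.1 q.2) := by
    rw [Fintype.sum_prod_type]
  have h2 : ∑ q : (V → Bool) × (V → Bool), g (G.piecewise q.1 q.2) =
      ∑ q : (V → Bool) × (V → Bool), g q.1 :=
    Equiv.sum_comp (Function.Involutive.toPerm _ hinv) (fun q => g q.1)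
  have h3 : ∑ q : (V → Bool) × (V → Bool), g q.1 = 2 ^ Fintype.card V * ∑ y, g y := by
    rw [Fintype.sum_prod_type]
    simp only [Finset.sum_const, Finset.card_univ, Fintype.card_fun, Fintype.card_bool,
      nsmul_eq_mul]
    push_cast
    rw [← Finset.mul_sum]
  have hp : (2 : ℝ) ^ Fintype.card V ≠ 0 := by positivity
  simp only [av]
  rw [← Finset.sum_div, h1, h2, h3]
  field_simp

theorem ce_apply (F : Finset V) (f : (V → Bool) → ℝ) (x : V → Bool) :
    ce F f x = av (fun y => f (F.piecewise x y)) := rfl

theorem ce_add (F : Finset V) (f g : (V → Bool) → ℝ) :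
    ce F (fun x => f x + g x) = fun x => ce F f x + ce F g x := by
  funext x
  exact av_add _ _

theorem ce_sub (F : Finset V) (f g : (V → Bool) → ℝ) :
    ce F (fun x => f x - g x) = fun x => ce F f x - ce F g x := by
  funext x
  exact av_sub _ _

theorem ce_const_mul (F : Finset V) (c : ℝ) (f : (V → Bool) → ℝ) :
    ce F (fun x => c * f x) = fun x => c * ce F f x := by
  funext x
  exact av_const_mul _ _

theorem ce_const (F : Finset V) (c : ℝ) : ce F (fun _ => c) = fun _ => c := by
  funext x
  exact av_const _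

theorem ce_sum {κ : Type*} (F : Finset V) (s : Finset κ) (f : κ → (V → Bool) → ℝ) :
    ce F (fun x => ∑ k ∈ s, f k x) = fun x => ∑ k ∈ s, ce F (f k) x := by
  funext x
  exact av_sum s (fun k y => f k (F.piecewise x y))

theorem ce_mono (F : Finset V) {f g : (V → Bool) → ℝ} (h : ∀ x, f x ≤ g x) (x : V → Bool) :
    ce F f x ≤ ce F g x := av_mono fun _ => h _

theorem ce_nonneg (F : Finset V) {f : (V → Bool) → ℝ} (h : ∀ x, 0 ≤ f x) (x : V → Bool) :
    0 ≤ ce F f x := av_nonneg fun _ => h _

theorem ce_pos (F : Finset V) {f : (V → Bool) → ℝ} (h : ∀ x, 0 < f x) (x : V → Bool) :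
    0 < ce F f x := av_pos fun _ => h _

/-- tower property for product measures -/
theorem ce_ce (F G : Finset V) (f : (V → Bool) → ℝ) : ce F (ce G f) = ce (F ∩ G) f := by
  funext x
  have h : ∀ y z : V → Bool, G.piecewise (F.piecewise x y) z =
      (F ∩ G).piecewise x (G.piecewise y z) := by
    intro y z
    funext i
    by_cases h1 : i ∈ F <;> by_cases h2 : i ∈ G <;> simp [Finset.piecewise, h1, h2]
  simp only [ce, h]
  exact av_av_piecewise G (fun u => f ((F ∩ G).piecewise x u))

theorem dependsOn_ce (F : Finset V) (f : (V → Bool) → ℝ) : DependsOn (ce F f) (F : Set V) := by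
  intro x y hxy
  unfold ce
  congr 1
  funext z
  congr 1
  funext i
  by_cases hi : i ∈ F
  · simp [Finset.piecewise, hi, hxy i (by exact_mod_cast hi)]
  · simp [Finset.piecewise, hi]

theorem piecewise_congr_of_mem (F : Finset V) (x y : V → Bool) :
    ∀ i ∈ (F : Set V), F.piecewise x y i = x i := by
  intro i hi
  have : i ∈ F := by exact_mod_cast hi
  simp [Finset.piecewise, this]

/-- pull out a factor that is known -/
theorem ce_mul_left {F : Finset V} {g : (V → Bool) → ℝ} (h : DependsOn g (F : Set V))
    (f : (V → Bool) → ℝ) : ce F (fun x => g x * f x) = fun x => g x * ce F f x := by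
  funext x
  have h1 : ∀ y, g (F.piecewise x y) = g x := fun y => h (piecewise_congr_of_mem F x y)
  unfold ce
  simp only [h1]
  exact av_const_mul _ _

theorem ce_mul_right {F : Finset V} {g : (V → Bool) → ℝ} (h : DependsOn g (F : Set V))
    (f : (V → Bool) → ℝ) : ce F (fun x => f x * g x) = fun x => ce F f x * g x := by
  have := ce_mul_left h f
  simp only [mul_comm] at this ⊢
  exact this

theorem ce_of_dependsOn {F : Finset V} {g : (V → Bool) → ℝ} (h : DependsOn g (F : Set V)) :
    ce F g = g := by
  have := ce_mul_left h (fun _ => 1)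
  simp only [mul_one, ce_const] at this
  exact this

theorem av_ce (F : Finset V) (f : (V → Bool) → ℝ) : av (ce F f) = av f := by
  have h := av_av_piecewise F f
  exact h

theorem ce_empty (f : (V → Bool) → ℝ) : ce ∅ f = fun _ => av f := by
  funext x
  simp [ce]

theorem ce_univ (f : (V → Bool) → ℝ) : ce univ f = f := by
  funext x
  simp only [ce, Finset.piecewise_univ]
  exact av_const _

theorem dependsOn_univ (g : (V → Bool) → ℝ) : DependsOn g ((univ : Finset V) : Set V) := by
  intro x y hxy
  congr 1
  funext i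
  exact hxy i (by simp)

theorem ce_inter_of_dependsOn {F G : Finset V} {g : (V → Bool) → ℝ}
    (h : DependsOn g (G : Set V)) : ce F g = ce (F ∩ G) g := by
  conv_lhs => rw [← ce_of_dependsOn h]
  exact ce_ce F G g

theorem dependsOn_mono {F G : Finset V} {g : (V → Bool) → ℝ} (h : DependsOn g (F : Set V))
    (hFG : F ⊆ G) : DependsOn g (G : Set V) :=
  fun _ _ hxy => h fun i hi => hxy i (Finset.coe_subset.2 hFG hi)

theorem ce_ce_of_subset {F G : Finset V} (h : F ⊆ G) (f : (V → Bool) → ℝ) :
    ce F (ce G f) = ce F f := by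
  rw [ce_ce, Finset.inter_eq_left.2 h]

theorem ce_ce_of_subset' {F G : Finset V} (h : G ⊆ F) (f : (V → Bool) → ℝ) :
    ce F (ce G f) = ce G f := by
  rw [ce_ce, Finset.inter_eq_right.2 h]

/-- conditional independence -/
theorem ce_mul_of_indep {A B K : Finset V} {g h : (V → Bool) → ℝ} (hg : DependsOn g (A : Set V))
    (hh : DependsOn h (B : Set V)) (hAB : A ∩ B ⊆ K) :
    ce K (fun x => g x * h x) = fun x => ce K g x * ce K h x := by
  have hg' : DependsOn g ((A ∪ K : Finset V) : Set V) := dependsOn_mono hg Finset.subset_union_left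
  have hh' : DependsOn h ((B ∪ K : Finset V) : Set V) := dependsOn_mono hh Finset.subset_union_left
  have h1 : ce (A ∪ K) h = ce K h := by
    conv_lhs => rw [← ce_of_dependsOn hh']
    rw [ce_ce]
    congr 1
    ext i
    simp only [Finset.mem_inter, Finset.mem_union]
    constructor
    · rintro ⟨h1 | h1, h2 | h2⟩
      · exact hAB (Finset.mem_inter.2 ⟨h1, h2⟩)
      all_goals assumption
    · intro hi
      exact ⟨Or.inr hi, Or.inr hi⟩
  have hK : K ⊆ A ∪ K := Finset.subset_union_right
  rw [← ce_ce_of_subset hK, ce_mul_left hg', h1, ce_mul_right (dependsOn_ce K h)]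

theorem av_mul_ce (F : Finset V) (f g : (V → Bool) → ℝ) :
    av (fun x => ce F f x * g x) = av (fun x => f x * ce F g x) := by
  rw [← av_ce F (fun x => ce F f x * g x), ← av_ce F (fun x => f x * ce F g x),
    ce_mul_left (dependsOn_ce F f), ce_mul_right (dependsOn_ce F g)]

theorem av_mul_ce' {F : Finset V} {g : (V → Bool) → ℝ} (hg : DependsOn g (F : Set V))
    (f : (V → Bool) → ℝ) : av (fun x => g x * f x) = av (fun x => g x * ce F f x) := by
  rw [← av_ce F (fun x => g x * f x), ce_mul_left hg]

/-- Cauchy-Schwarz -/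
theorem av_mul_sq_le (f g : (V → Bool) → ℝ) :
    av (fun y => f y * g y) ^ 2 ≤ av (fun y => f y ^ 2) * av (fun y => g y ^ 2) := by
  have h := Finset.sum_mul_sq_le_sq_mul_sq (Finset.univ : Finset (V → Bool)) f g
  unfold av
  rw [div_pow, div_mul_div_comm, ← pow_two]
  exact div_le_div_of_nonneg_right h (by positivity)

theorem ce_mul_sq_le (F : Finset V) (f g : (V → Bool) → ℝ) (x : V → Bool) :
    ce F (fun y => f y * g y) x ^ 2 ≤ ce F (fun y => f y ^ 2) x * ce F (fun y => g y ^ 2) x :=
  av_mul_sq_le _ _

theorem one_le_ce_mul_ce_inv (F : Finset V) {W : (V → Bool) → ℝ} (hW : ∀ x, 0 < W x)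
    (x : V → Bool) : 1 ≤ ce F W x * ce F (fun y => (W y)⁻¹) x := by
  have h := ce_mul_sq_le F (fun y => √(W y)) (fun y => (√(W y))⁻¹) x
  have h1 : (fun y => √(W y) * (√(W y))⁻¹) = fun _ => (1 : ℝ) := by
    funext y
    exact mul_inv_cancel₀ (Real.sqrt_pos.2 (hW y)).ne'
  have h2 : (fun y => √(W y) ^ 2) = W := by
    funext y
    exact Real.sq_sqrt (hW y).le
  have h3 : (fun y => (√(W y))⁻¹ ^ 2) = fun y => (W y)⁻¹ := by
    funext y
    rw [inv_pow, Real.sq_sqrt (hW y).le]
  rw [h1, h2, h3, ce_const] at h
  simpa using h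

/-- one coordinate step -/
theorem ce_eq_half {F : Finset V} {a : V} (ha : a ∉ F) (f : (V → Bool) → ℝ) (x : V → Bool) :
    ce F f x = (ce (insert a F) f (Function.update x a true) +
      ce (insert a F) f (Function.update x a false)) / 2 := by
  have hinv : Function.Involutive (fun y : V → Bool => Function.update y a (!(y a))) := by
    intro y
    funext i
    by_cases hi : i = a
    · subst hi; simp
    · simp [hi]
  -- pair up `y` with its flip at `a`
  have h1 : ∑ y : V → Bool, f (F.piecewise x y) =
      ∑ y : V → Bool, f (F.piecewise x (Function.update y a (!(y a)))) :=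
    (Equiv.sum_comp (Function.Involutive.toPerm _ hinv) (fun y => f (F.piecewise x y))).symm
  have h2 : ∀ y : V → Bool, f (F.piecewise x y) + f (F.piecewise x (Function.update y a (!(y a)))) =
      f ((insert a F).piecewise (Function.update x a true) y) +
      f ((insert a F).piecewise (Function.update x a false) y) := by
    intro y
    have e1 : F.piecewise x y = (insert a F).piecewise (Function.update x a (y a)) y := by
      funext i
      by_cases hi : i = a
      · subst hi; simp [Finset.piecewise, ha]
      · by_cases hF : i ∈ F <;> simp [Finset.piecewise, hi, hF]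
    have e2 : F.piecewise x (Function.update y a (!(y a))) =
        (insert a F).piecewise (Function.update x a (!(y a))) y := by
      funext i
      by_cases hi : i = a
      · subst hi; simp [Finset.piecewise, ha]
      · by_cases hF : i ∈ F <;> simp [Finset.piecewise, hi, hF]
    rw [e1, e2]
    cases y a
    · simp [add_comm]
    · simp
  have h3 : 2 * ∑ y : V → Bool, f (F.piecewise x y) =
      ∑ y : V → Bool, f ((insert a F).piecewise (Function.update x a true) y) +
      ∑ y : V → Bool, f ((insert a F).piecewise (Function.update x a false) y) := by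
    rw [← Finset.sum_add_distrib, ← Finset.sum_congr rfl (fun y _ => h2 y),
      Finset.sum_add_distrib, ← h1]
    ring
  unfold ce av
  rw [← add_div, ← h3]
  ring

/-- Hölder -/
theorem av_mul_le_Lp_mul_Lq {f g : (V → Bool) → ℝ} (hf : ∀ x, 0 ≤ f x) (hg : ∀ x, 0 ≤ g x)
    {p q : ℝ} (hpq : p.HolderConjugate q) :
    av (fun x => f x * g x) ≤
      (av (fun x => f x ^ p)) ^ (1 / p) * (av (fun x => g x ^ q)) ^ (1 / q) := by
  have h := Real.inner_le_Lp_mul_Lq_of_nonneg (Finset.univ : Finset (V → Bool)) hpq
    (fun x _ => hf x) (fun x _ => hg x)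
  have hs : (0 : ℝ) < 2 ^ Fintype.card V := pow_card_pos
  unfold av
  rw [Real.div_rpow (Finset.sum_nonneg fun x _ => Real.rpow_nonneg (hf x) _) hs.le,
    Real.div_rpow (Finset.sum_nonneg fun x _ => Real.rpow_nonneg (hg x) _) hs.le,
    div_mul_div_comm, ← Real.rpow_add hs]
  have : 1 / p + 1 / q = 1 := by
    simpa [one_div] using hpq.inv_add_inv_eq_one
  rw [this, Real.rpow_one]
  exact div_le_div_of_nonneg_right h hs.le

end A

end Pool.Agent.LpBasis
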