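import Mathlib

/-!
Module G of the unconditional basis of `L_p` (problem MP_ac58b9_an): a uniformly unconditional
system with dense span is an unconditional basis.
-/

set_option autoImplicit false

namespace Pool.Agent.LpBasis

open Finset MeasureTheory ENNReal

theorem basis_of_ineq {X : Type*} [NormedAddCommGroup X] [NormedSpace ℝ X] [CompleteSpace X]
    {I : Type*} (e : I → X) (hne : ∀ i, e i ≠ 0)
    (hd : Dense (Submodule.span ℝ (Set.range e) : Set X)) (C : ℝ)
    (hC : ∀ (S : Finset I) (a ε : I → ℝ), (∀ i, |ε i| ≤ 1) →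
      ‖∑ i ∈ S, (ε i * a i) • e i‖ ≤ C * ‖∑ i ∈ S, a i • e i‖) :
    ∀ x : X, ∃! a : I → ℝ, HasSum (fun i => a i • e i) x := by
  classical
  set L : (I →₀ ℝ) →ₗ[ℝ] X := Finsupp.linearCombination ℝ e with hL
  have hLsum : ∀ (f : I →₀ ℝ) (T : Finset I), L f = ∑ i ∈ T ∪ f.support, f i • e i := by
    intro f T
    rw [hL, Finsupp.linearCombination_apply, Finsupp.sum]
    refine Finset.sum_subset Finset.subset_union_right ?_
    intro i _ hi
    rw [Finsupp.notMem_support_iff.mp hi, zero_smul]
  have hdr : DenseRange L := by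
    have h1 : Set.range L = (Submodule.span ℝ (Set.range e) : Set X) := by
      rw [← Finsupp.range_linearCombination]; rfl
    rw [DenseRange, h1]; exact hd
  have hproj : ∀ (T : Finset I) (f : I →₀ ℝ), ‖∑ i ∈ T, f i • e i‖ ≤ |C| * ‖L f‖ := by
    intro T f
    have h1 : ∑ i ∈ T, f i • e i =
        ∑ i ∈ T ∪ f.support, ((if i ∈ T then (1 : ℝ) else 0) * f i) • e i := by
      rw [← Finset.sum_subset (Finset.subset_union_left (s₁ := T) (s₂ := f.support))]
      · refine Finset.sum_congr rfl ?_
        intro i hi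
        simp [hi]
      · intro i _ hi
        simp [hi]
    rw [h1, hLsum f T]
    refine (hC (T ∪ f.support) f (fun i => if i ∈ T then (1 : ℝ) else 0) ?_).trans ?_
    · intro i
      by_cases hi : i ∈ T <;> simp [hi]
    · exact mul_le_mul_of_nonneg_right (le_abs_self C) (norm_nonneg _)
  have hcb : ∀ i, ∃ K : ℝ, ∀ f : I →₀ ℝ, ‖(Finsupp.lapply i : (I →₀ ℝ) →ₗ[ℝ] ℝ) f‖ ≤ K * ‖L f‖ := by
    intro i
    refine ⟨|C| / ‖e i‖, fun f => ?_⟩
    have hpos : 0 < ‖e i‖ := norm_pos_iff.mpr (hne i)
    have h1 := hproj {i} f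
    rw [Finset.sum_singleton, norm_smul] at h1
    rw [Finsupp.lapply_apply, div_mul_eq_mul_div, le_div_iff₀ hpos]
    exact h1
  set cf : I → X →L[ℝ] ℝ := fun i => (Finsupp.lapply i : (I →₀ ℝ) →ₗ[ℝ] ℝ).extendOfNorm L with hcf
  have hcfL : ∀ i (f : I →₀ ℝ), cf i (L f) = f i := by
    intro i f
    exact LinearMap.extendOfNorm_eq hdr (hcb i) f
  have hcfe : ∀ i j, cf i (e j) = if j = i then 1 else 0 := by
    intro i j
    have h1 : e j = L (Finsupp.single j 1) := by
      rw [hL, Finsupp.linearCombination_single, one_smul]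
    rw [h1, hcfL, Finsupp.single_apply]
  have hP : ∀ (T : Finset I) (x : X), ‖∑ i ∈ T, cf i x • e i‖ ≤ |C| * ‖x‖ := by
    intro T x
    refine hdr.induction_on (p := fun x => ‖∑ i ∈ T, cf i x • e i‖ ≤ |C| * ‖x‖) x ?_ ?_
    · exact isClosed_le (by fun_prop) (by fun_prop)
    · intro f
      have h1 : ∑ i ∈ T, cf i (L f) • e i = ∑ i ∈ T, f i • e i := by
        refine Finset.sum_congr rfl fun i _ => ?_
        rw [hcfL]
      rw [h1]
      exact hproj T f
  have hsum : ∀ x : X, HasSum (fun i => cf i x • e i) x := by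
    intro x
    have key : Filter.Tendsto (fun T : Finset I => ∑ i ∈ T, cf i x • e i) Filter.atTop (nhds x) := by
      rw [Metric.tendsto_atTop]
      intro δ hδ
      have hδ' : 0 < δ / (|C| + 1) := by positivity
      obtain ⟨f, hf⟩ := hdr.exists_dist_lt x hδ'
      refine ⟨f.support, fun T hT => ?_⟩
      have h0 : L f = ∑ i ∈ T, f i • e i := by
        rw [hLsum f T, Finset.union_eq_left.mpr hT]
      have h1 : ∑ i ∈ T, cf i (L f) • e i = L f :=
        (Finset.sum_congr rfl fun i _ => by rw [hcfL]).trans h0.symm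
      have h2 : ∑ i ∈ T, cf i x • e i - x = (∑ i ∈ T, cf i (x - L f) • e i) - (x - L f) := by
        have h3 : ∑ i ∈ T, cf i (x - L f) • e i =
            ∑ i ∈ T, cf i x • e i - ∑ i ∈ T, cf i (L f) • e i := by
          rw [← Finset.sum_sub_distrib]
          refine Finset.sum_congr rfl fun i _ => ?_
          rw [map_sub, sub_smul]
        rw [h3, h1]
        abel
      rw [dist_eq_norm, h2]
      have h4 : ‖x - L f‖ < δ / (|C| + 1) := by rw [← dist_eq_norm]; exact hf
      calc ‖(∑ i ∈ T, cf i (x - L f) • e i) - (x - L f)‖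
          ≤ ‖∑ i ∈ T, cf i (x - L f) • e i‖ + ‖x - L f‖ := norm_sub_le _ _
        _ ≤ |C| * ‖x - L f‖ + ‖x - L f‖ := by gcongr; exact hP T _
        _ = (|C| + 1) * ‖x - L f‖ := by ring
        _ < (|C| + 1) * (δ / (|C| + 1)) := by
            have : 0 < |C| + 1 := by positivity
            exact mul_lt_mul_of_pos_left h4 this
        _ = δ := by
            have : |C| + 1 ≠ 0 := by positivity
            field_simp
    exact key
  intro x
  refine ⟨fun i => cf i x, hsum x, ?_⟩
  intro a ha
  funext i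
  have h1 : HasSum (fun j => cf i (a j • e j)) (cf i x) := (cf i).hasSum ha
  have h2 : (fun j => cf i (a j • e j)) = fun j => if j = i then a i else 0 := by
    funext j
    rw [map_smul, hcfe]
    by_cases hj : j = i
    · subst hj; simp
    · simp [hj]
  rw [h2] at h1
  exact (hasSum_ite_eq i (a i)).unique h1

end Pool.Agent.LpBasis
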