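import Pool.Agent.Hhelper27.LpBasis.Defs
import Pool.Agent.Hhelper6.Mah.Cp

/-!
# Decomposition of a finite measure space into atoms, a separable part and a nowhere separable part
-/

set_option autoImplicit false

namespace Pool.Agent.LpBasis

open MeasureTheory ENNReal Filter

/-- separability of the measure algebra of `M` -/
def SepOn {Ω : Type} [MeasurableSpace Ω] (μ : Measure Ω) (M : Set Ω) : Prop :=
  ∃ D : ℕ → Set Ω, (∀ n, MeasurableSet (D n)) ∧
    ∀ B, MeasurableSet B → B ⊆ M → ∀ ε : ℝ≥0∞, ε ≠ 0 → ∃ n, μ (symmDiff B (D n) ∩ M) < ε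

def AtomSet {Ω : Type} [MeasurableSpace Ω] (μ : Measure Ω) (B : Set Ω) : Prop :=
  MeasurableSet B ∧ μ B ≠ 0 ∧ ∀ B', MeasurableSet B' → B' ⊆ B → μ B' = 0 ∨ μ (B \ B') = 0

section aux

variable {Ω : Type} [MeasurableSpace Ω] {μ : Measure Ω}

theorem sepOn_empty : SepOn μ (∅ : Set Ω) :=
  ⟨fun _ => ∅, fun _ => MeasurableSet.empty, fun B _ _ ε hε => ⟨0, by
    rw [Set.inter_empty, measure_empty]; exact pos_iff_ne_zero.2 hε⟩⟩

theorem SepOn.union {M₁ M₂ : Set Ω} (hM₁ : MeasurableSet M₁) (hM₂ : MeasurableSet M₂)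
    (hd : Disjoint M₁ M₂) (h₁ : SepOn μ M₁) (h₂ : SepOn μ M₂) : SepOn μ (M₁ ∪ M₂) := by
  obtain ⟨D₁, hD₁, h₁⟩ := h₁
  obtain ⟨D₂, hD₂, h₂⟩ := h₂
  refine ⟨fun n => (D₁ n.unpair.1 ∩ M₁) ∪ (D₂ n.unpair.2 ∩ M₂), fun n =>
    ((hD₁ _).inter hM₁).union ((hD₂ _).inter hM₂), fun B hB hBM ε hε => ?_⟩
  have hε2 : ε / 2 ≠ 0 := (ENNReal.half_pos hε).ne'
  obtain ⟨i, hi⟩ := h₁ (B ∩ M₁) (hB.inter hM₁) Set.inter_subset_right _ hε2
  obtain ⟨j, hj⟩ := h₂ (B ∩ M₂) (hB.inter hM₂) Set.inter_subset_right _ hε2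
  refine ⟨Nat.pair i j, ?_⟩
  simp only [Nat.unpair_pair]
  have hsub : symmDiff B (D₁ i ∩ M₁ ∪ D₂ j ∩ M₂) ∩ (M₁ ∪ M₂) ⊆
      (symmDiff (B ∩ M₁) (D₁ i) ∩ M₁) ∪ (symmDiff (B ∩ M₂) (D₂ j) ∩ M₂) := by
    rintro x ⟨hx, hxM⟩
    rcases hxM with hx1 | hx2
    · have hx2 : x ∉ M₂ := fun h => Set.disjoint_left.1 hd hx1 h
      left
      simp only [Set.mem_symmDiff, Set.mem_inter_iff, Set.mem_union] at hx ⊢
      tauto
    · have hx1 : x ∉ M₁ := fun h => Set.disjoint_left.1 hd h hx2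
      right
      simp only [Set.mem_symmDiff, Set.mem_inter_iff, Set.mem_union] at hx ⊢
      tauto
  calc μ (symmDiff B (D₁ i ∩ M₁ ∪ D₂ j ∩ M₂) ∩ (M₁ ∪ M₂))
      ≤ μ (symmDiff (B ∩ M₁) (D₁ i) ∩ M₁) + μ (symmDiff (B ∩ M₂) (D₂ j) ∩ M₂) :=
        (measure_mono hsub).trans (measure_union_le _ _)
    _ < ε / 2 + ε / 2 := ENNReal.add_lt_add hi hj
    _ = ε := ENNReal.add_halves ε

theorem SepOn.iUnion [IsFiniteMeasure μ] {M : ℕ → Set Ω} (hM : ∀ n, MeasurableSet (M n))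
    (hmono : ∀ n, M n ⊆ M (n + 1)) (h : ∀ n, SepOn μ (M n)) : SepOn μ (⋃ n, M n) := by
  choose D hD h using h
  refine ⟨fun n => D n.unpair.1 n.unpair.2 ∩ M n.unpair.1, fun n => (hD _ _).inter (hM _),
    fun B hB hBM ε hε => ?_⟩
  have hε2 : ε / 2 ≠ 0 := (ENNReal.half_pos hε).ne'
  have hmono' : Monotone M := monotone_nat_of_le_succ hmono
  -- choose `n` with small remainder
  have hlim : Tendsto (fun n => μ ((⋃ k, M k) \ M n)) atTop (nhds 0) := by
    have h1 : Antitone fun n => (⋃ k, M k) \ M n := fun a b hab =>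
      Set.sdiff_subset_sdiff_right (hmono' hab)
    have h2 := tendsto_measure_iInter_atTop (μ := μ)
      (fun n => ((MeasurableSet.iUnion hM).diff (hM n)).nullMeasurableSet) h1
      ⟨0, measure_ne_top _ _⟩
    have h3 : ⋂ n, ((⋃ k, M k) \ M n) = ∅ := by
      ext x
      simp only [Set.mem_iInter, Set.mem_sdiff, Set.mem_iUnion, Set.mem_empty_iff_false,
        iff_false, not_forall, not_and, not_not]
      by_cases hx : ∃ k, x ∈ M k
      · obtain ⟨k, hk⟩ := hx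
        exact ⟨k, fun _ => hk⟩
      · exact ⟨0, fun h => absurd h hx⟩
    rw [h3, measure_empty] at h2
    exact h2
  obtain ⟨n, hn⟩ := (hlim.eventually (gt_mem_nhds (pos_iff_ne_zero.2 hε2))).exists
  obtain ⟨k, hk⟩ := h n (B ∩ M n) (hB.inter (hM n)) Set.inter_subset_right _ hε2
  refine ⟨Nat.pair n k, ?_⟩
  simp only [Nat.unpair_pair]
  have hsub : symmDiff B (D n k ∩ M n) ∩ (⋃ n, M n) ⊆
      (symmDiff (B ∩ M n) (D n k) ∩ M n) ∪ ((⋃ k, M k) \ M n) := by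
    rintro x ⟨hx, hxM⟩
    by_cases hxn : x ∈ M n
    · left
      simp only [Set.mem_symmDiff, Set.mem_inter_iff] at hx ⊢
      tauto
    · right
      exact ⟨hxM, hxn⟩
  calc μ (symmDiff B (D n k ∩ M n) ∩ (⋃ n, M n))
      ≤ μ (symmDiff (B ∩ M n) (D n k) ∩ M n) + μ ((⋃ k, M k) \ M n) :=
        (measure_mono hsub).trans (measure_union_le _ _)
    _ < ε / 2 + ε / 2 := ENNReal.add_lt_add hk hn
    _ = ε := ENNReal.add_halves ε

/-- a maximal sequence of disjoint atoms -/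
theorem exists_atoms [IsFiniteMeasure μ] : ∃ a : ℕ → Set Ω,
    (∀ n, AtomSet μ (a n) ∨ a n = ∅) ∧ Pairwise (Function.onFun Disjoint a) ∧
    ∀ B, B ⊆ (⋃ n, a n)ᶜ → ¬ AtomSet μ B := by
  classical
  -- greedy choice
  have step : ∀ U : Set Ω, ∃ A : Set Ω, (AtomSet μ A ∨ A = ∅) ∧ A ⊆ Uᶜ ∧
      ∀ B, B ⊆ Uᶜ → AtomSet μ B → μ.real B ≤ 2 * μ.real A := by
    intro U
    let S : Set ℝ := {r | ∃ B, B ⊆ Uᶜ ∧ AtomSet μ B ∧ r = μ.real B}
    have hS : BddAbove S := ⟨μ.real Set.univ, by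
      rintro r ⟨D, -, -, rfl⟩
      exact measureReal_mono (Set.subset_univ _)⟩
    by_cases hne : S.Nonempty
    · obtain ⟨r0, B0, hB0, hB0', hr0⟩ := hne
      have hpos0 : 0 < μ.real B0 :=
        ENNReal.toReal_pos hB0'.2.1 (measure_ne_top _ _)
      have hpos : 0 < sSup S := lt_of_lt_of_le hpos0 (le_csSup hS ⟨B0, hB0, hB0', rfl⟩)
      have hne : S.Nonempty := ⟨r0, B0, hB0, hB0', hr0⟩
      obtain ⟨r, ⟨A, hA, hA', rfl⟩, hr⟩ := exists_lt_of_lt_csSup hne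
        (show sSup S / 2 < sSup S by linarith)
      refine ⟨A, Or.inl hA', hA, fun B hB hB' => ?_⟩
      have : μ.real B ≤ sSup S := le_csSup hS ⟨B, hB, hB', rfl⟩
      linarith
    · refine ⟨∅, Or.inr rfl, Set.empty_subset _, fun B hB hB' => ?_⟩
      exact absurd ⟨_, B, hB, hB', rfl⟩ hne
  choose f hf using step
  -- `U n` is the union of the first `n` chosen sets
  let U : ℕ → Set Ω := fun n => Nat.rec ∅ (fun _ U => U ∪ f U) n
  have hU0 : U 0 = ∅ := rfl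
  have hUs : ∀ n, U (n + 1) = U n ∪ f (U n) := fun n => rfl
  have hUmono : Monotone U := monotone_nat_of_le_succ fun n => by
    rw [hUs]; exact Set.subset_union_left
  have hUunion : ∀ n, U n ⊆ ⋃ k, f (U k) := by
    intro n
    induction n with
    | zero => rw [hU0]; exact Set.empty_subset _
    | succ n ih => rw [hUs]; exact Set.union_subset ih (Set.subset_iUnion (fun k => f (U k)) n)
  have hdisj : ∀ i j, i < j → Disjoint (f (U i)) (f (U j)) := by
    intro i j hij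
    have h1 : f (U i) ⊆ U j := (Set.subset_union_right.trans (hUs i).symm.subset).trans
      (hUmono hij)
    exact (Set.disjoint_left.2 fun x hx hx' => (hf (U j)).2.1 hx' (h1 hx))
  have hmeas : ∀ n, MeasurableSet (f (U n)) := by
    intro n
    rcases (hf (U n)).1 with h | h
    · exact h.1
    · rw [h]; exact MeasurableSet.empty
  have hpw : Pairwise (Function.onFun Disjoint fun n => f (U n)) := by
    intro i j hij
    rcases lt_or_gt_of_ne hij with h | h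
    · exact hdisj i j h
    · exact (hdisj j i h).symm
  refine ⟨fun n => f (U n), fun n => (hf (U n)).1, hpw, fun B hB hBa => ?_⟩
  -- measures of the chosen sets tend to zero
  have hsum : ∑' n, μ (f (U n)) ≠ ⊤ := by
    rw [← measure_iUnion hpw hmeas]
    exact measure_ne_top _ _
  have hlim : Tendsto (fun n => μ (f (U n))) atTop (nhds 0) := by
    have := ENNReal.tendsto_cofinite_zero_of_tsum_ne_top hsum
    rwa [Nat.cofinite_eq_atTop] at this
  have hlim2 : Tendsto (fun n => 2 * μ.real (f (U n))) atTop (nhds 0) := by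
    have h1 := (ENNReal.tendsto_toReal (ENNReal.zero_ne_top)).comp hlim
    simpa [measureReal_def] using h1.const_mul 2
  have hle : ∀ n, μ.real B ≤ 2 * μ.real (f (U n)) := fun n =>
    (hf (U n)).2.2 B (hB.trans (Set.compl_subset_compl.2 (hUunion n))) hBa
  have h3 : μ.real B ≤ 0 := ge_of_tendsto' hlim2 hle
  exact hBa.2.1 ((measureReal_eq_zero_iff).1 (le_antisymm h3 measureReal_nonneg))

end aux

/-- K1: decomposition -/
theorem decomposition {Ω : Type} [MeasurableSpace Ω] (μ : Measure Ω) [IsFiniteMeasure μ] :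
    ∃ (Aₙ : ℕ → Set Ω) (Ms Mh : Set Ω),
      (∀ n, AtomSet μ (Aₙ n) ∨ Aₙ n = ∅) ∧ Pairwise (Function.onFun Disjoint Aₙ) ∧
      MeasurableSet Ms ∧ MeasurableSet Mh ∧ Disjoint (⋃ n, Aₙ n) Ms ∧
      Disjoint (⋃ n, Aₙ n) Mh ∧ Disjoint Ms Mh ∧ (⋃ n, Aₙ n) ∪ Ms ∪ Mh = Set.univ ∧
      SepOn μ Ms ∧ (∀ B, B ⊆ Ms → ¬ AtomSet μ B) ∧
      (∀ B, MeasurableSet B → B ⊆ Mh → SepOn μ B → μ B = 0) := by
  obtain ⟨a, ha1, ha2, ha3⟩ := exists_atoms (μ := μ)
  have hmeas : ∀ n, MeasurableSet (a n) := by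
    intro n
    rcases ha1 n with h | h
    · exact h.1
    · rw [h]; exact MeasurableSet.empty
  set X : Set Ω := (⋃ n, a n)ᶜ with hX
  have hXm : MeasurableSet X := (MeasurableSet.iUnion hmeas).compl
  obtain ⟨Ms, ⟨hMs1, hMs2, hMs3⟩, -, hmax⟩ := Mah.exists_max (μ := μ)
    (fun A => MeasurableSet A ∧ A ⊆ X ∧ SepOn μ A) (A0 := ∅)
    ⟨MeasurableSet.empty, Set.empty_subset _, sepOn_empty⟩ (fun A hA => hA.1)
    (fun A hA hmono => ⟨MeasurableSet.iUnion fun n => (hA n).1,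
      Set.iUnion_subset fun n => (hA n).2.1,
      SepOn.iUnion (fun n => (hA n).1) hmono fun n => (hA n).2.2⟩)
  refine ⟨a, Ms, X \ Ms, ha1, ha2, hMs1, hXm.diff hMs1, ?_, ?_, disjoint_sdiff_self_right, ?_,
    hMs3, fun B hB => ha3 B (hB.trans hMs2), fun B hB hB' hBs => ?_⟩
  · exact Set.disjoint_left.2 fun x hx hx' => (hMs2 hx') hx
  · exact Set.disjoint_left.2 fun x hx hx' => hx'.1 hx
  · ext x
    simp only [Set.mem_union, Set.mem_sdiff, Set.mem_univ, iff_true]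
    by_cases h1 : x ∈ ⋃ n, a n
    · exact Or.inl (Or.inl h1)
    · by_cases h2 : x ∈ Ms
      · exact Or.inl (Or.inr h2)
      · exact Or.inr ⟨h1, h2⟩
  · have hd : Disjoint Ms B := Set.disjoint_left.2 fun x hx hx' => (hB' hx').2 hx
    have h1 := hmax (Ms ∪ B) ⟨hMs1.union hB, Set.union_subset hMs2 fun x hx => (hB' hx).1,
      SepOn.union hMs1 hB hd hMs3 hBs⟩ Set.subset_union_left
    have h2 : (Ms ∪ B) \ Ms = B := by
      rw [Set.union_sdiff_left]
      exact hd.symm.sdiff_eq_left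
    rwa [h2] at h1

end Pool.Agent.LpBasis
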