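import Mathlib

/-!
Definitions for the unconditional basis of `L_p(2^{ω₁})` (problem MP_ac58b9_an).
-/

set_option autoImplicit false

namespace Pool.Agent.LpBasis

open Finset

section cube

variable {V : Type*} [Fintype V] [DecidableEq V]

/-- average over the uniform measure on the cube `V → Bool` -/
noncomputable def av (f : (V → Bool) → ℝ) : ℝ := (∑ x, f x) / 2 ^ Fintype.card V

/-- conditional expectation of `f` given the coordinates in `F` -/
noncomputable def ce (F : Finset V) (f : (V → Bool) → ℝ) (x : V → Bool) : ℝ :=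
  av (fun y => f (F.piecewise x y))

end cube

/-- Increasing sequence of forest orders on `V`: `P j z` is the (finite) set of the predecessors of
`z`, including `z` itself, at time `j`. -/
structure Forest (V : Type*) [DecidableEq V] where
  P : ℕ → V → Finset V
  self_mem : ∀ j z, z ∈ P j z
  trans : ∀ j x z, x ∈ P j z → P j x ⊆ P j z
  chain : ∀ j x y z, x ∈ P j z → y ∈ P j z → x ∈ P j y ∨ y ∈ P j x
  mono : ∀ j z, P j z ⊆ P (j + 1) z

/-- `K` is closed downwards for the `j`-th forest order. -/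
def Forest.Down {V : Type*} [DecidableEq V] (T : Forest V) (j : ℕ) (K : Finset V) : Prop :=
  ∀ x ∈ K, T.P j x ⊆ K

/-- The survival function of a sequence `s` of `[0,1]`-valued functions:
`surv s j = ∏_{i<j} (1 - s i)`. -/
def surv {Ω : Type*} (s : ℕ → Ω → ℝ) (j : ℕ) (x : Ω) : ℝ := ∏ i ∈ range j, (1 - s i x)

/-- A Todorcevic type function: `ρ x y` matters only for `x < y`. -/
structure RhoFun {ι : Type*} [LinearOrder ι] (ρ : ι → ι → ℕ) : Prop where
  sub1 : ∀ x y z, x < y → y < z → ρ x z ≤ max (ρ x y) (ρ y z)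
  sub2 : ∀ x y z, x < y → y < z → ρ x y ≤ max (ρ x z) (ρ y z)
  inj : ∀ x y z, x < z → y < z → ρ x z = ρ y z → x = y

/-- the sign `±1` of a bit -/
def sg (b : Bool) : ℝ := if b then 1 else -1

section finiteV

variable {V : Type*} [Fintype V] [LinearOrder V]

/-- the elements that precede `x` in the `ρ (·) β` enumeration of the predecessors of `β` -/
def prec (ρ : V → V → ℕ) (β x : V) : Finset V := univ.filter (fun y => y < β ∧ ρ y β < ρ x β)

/-- the function on the cube with the given coefficients in the Haar type system: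
`a0 + ∑_β r_β (a_β + ∑_{x<β} r_x c_{β,x})` where `c_{β,x}` is meant to depend only on the
coordinates in `prec ρ β x`. -/
def synth (a0 : ℝ) (a : V → ℝ) (c : V → V → (V → Bool) → ℝ) (ω : V → Bool) : ℝ :=
  a0 + ∑ β, sg (ω β) * (a β + ∑ x ∈ univ.filter (fun x => x < β), sg (ω x) * c β x ω)

end finiteV

open MeasureTheory ENNReal

/-- An unconditional system in `Lp ℝ p μ` carried by the set `M`, whose closed linear span contains
all the indicators of measurable subsets of `M`. -/
structure USys {Ω : Type*} [MeasurableSpace Ω] (μ : Measure Ω) (p : ℝ≥0∞) [Fact (1 ≤ p)]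
    (M : Set Ω) {I : Type*} (e : I → Lp ℝ p μ) (C : ℝ) : Prop where
  ne_zero : ∀ i, e i ≠ 0
  supp : ∀ i, ∀ᵐ ω ∂μ, ω ∉ M → (e i : Ω → ℝ) ω = 0
  dense : ∀ (D : Set Ω) (hD : MeasurableSet D) (hμ : μ D ≠ ⊤), D ⊆ M →
    indicatorConstLp p hD hμ (1 : ℝ) ∈
      closure (Submodule.span ℝ (Set.range e) : Set (Lp ℝ p μ))
  ineq : ∀ (S : Finset I) (a ε : I → ℝ), (∀ i, |ε i| ≤ 1) →
    ‖∑ i ∈ S, (ε i * a i) • e i‖ ≤ C * ‖∑ i ∈ S, a i • e i‖

/-- `e` is (up to null sets) an independent family of fair sets for the measure `ν`. -/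
def FairIndep {Ω : Type*} [MeasurableSpace Ω] (ν : Measure Ω) {ι : Type*} (e : ι → Set Ω) : Prop :=
  ∀ (S T : Finset ι), T ⊆ S →
    ν {ω | ∀ i ∈ S, (ω ∈ e i ↔ i ∈ T)} = ν Set.univ / 2 ^ S.card

/-- every measurable set can be approximated by sets depending on finitely many of the `e i`. -/
def Generates {Ω : Type*} [MeasurableSpace Ω] (ν : Measure Ω) {ι : Type*} (e : ι → Set Ω) : Prop :=
  ∀ B, MeasurableSet B → ∀ ε : ℝ≥0∞, ε ≠ 0 → ∃ (S : Finset ι) (𝒯 : Finset (Finset ι)),
    ν (symmDiff B {ω | ∃ T ∈ 𝒯, ∀ i ∈ S, (ω ∈ e i ↔ i ∈ T)}) < ε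

/-- relative atomlessness of `ν` over the sub-σ-algebra `m` -/
def RelAtomless {Ω : Type*} (m : MeasurableSpace Ω) {m0 : MeasurableSpace Ω} (ν : Measure Ω) :
    Prop :=
  ∀ M, MeasurableSet[m0] M → ν M ≠ 0 → ∃ B, MeasurableSet[m0] B ∧ B ⊆ M ∧
    ∀ A, MeasurableSet[m] A → ν (symmDiff B (M ∩ A)) ≠ 0

end Pool.Agent.LpBasis
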