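import Pool.Agent.Hhelper27.LpBasis.Basic

/-!
Weighted square function estimate along a chain of finite sets, one coordinate at a time.
-/

set_option autoImplicit false
set_option linter.unusedSectionVars false

namespace Pool.Agent.LpBasis

open Finset

/-- `avg (f±²/v±) - f²/v = (α v - f b)² / (v₊ v₋ v)`. -/
theorem dy_ident {fp fm vp vm : ℝ} (hvp : 0 < vp) (hvm : 0 < vm) :
    (fp ^ 2 / vp + fm ^ 2 / vm) / 2 - ((fp + fm) / 2) ^ 2 / ((vp + vm) / 2) =
      ((fp - fm) / 2 * ((vp + vm) / 2) - (fp + fm) / 2 * ((vp - vm) / 2)) ^ 2 /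
        (vp * vm * ((vp + vm) / 2)) := by
  have h : vp + vm ≠ 0 := by positivity
  field_simp
  ring

theorem dy_step1 {fp fm vp vm : ℝ} (hvp : 0 < vp) (hvm : 0 < vm) :
    ((fp + fm) / 2) ^ 2 / ((vp + vm) / 2) +
      ((fp - fm) / 2 - (fp + fm) / 2 * ((vp - vm) / 2) / ((vp + vm) / 2)) ^ 2 / ((vp + vm) / 2) ≤
      (fp ^ 2 / vp + fm ^ 2 / vm) / 2 := by
  have h := dy_ident (fp := fp) (fm := fm) hvp hvm
  set v := (vp + vm) / 2 with hv
  set b := (vp - vm) / 2 with hb
  set f := (fp + fm) / 2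
  set α := (fp - fm) / 2
  have hv0 : 0 < v := by rw [hv]; positivity
  have hvv : vp * vm ≤ v ^ 2 := by
    rw [hv]; nlinarith [sq_nonneg (vp - vm)]
  have h2 : (α - f * b / v) ^ 2 / v = (α * v - f * b) ^ 2 / (v ^ 2 * v) := by
    field_simp
  have h3 : (α * v - f * b) ^ 2 / (v ^ 2 * v) ≤ (α * v - f * b) ^ 2 / (vp * vm * v) := by
    apply div_le_div_of_nonneg_left (sq_nonneg _) (by positivity)
    exact mul_le_mul_of_nonneg_right hvv hv0.le
  rw [h2]
  linarith

theorem dy_step2 {vp vm wp wm : ℝ} (hvp : 0 < vp) (hvm : 0 < vm) (hwp : 0 < wp) (hwm : 0 < wm) :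
    1 / (((vp + vm) / 2) * ((wp + wm) / 2) ^ 2) *
      (1 + ((vp - vm) / 2) ^ 2 / ((vp + vm) / 2) ^ 2 / 2) ≤
      (1 / (vp * wp ^ 2) + 1 / (vm * wm ^ 2)) / 2 := by
  set v := (vp + vm) / 2 with hv
  set b := (vp - vm) / 2 with hb
  set w := (wp + wm) / 2 with hw
  have hv0 : 0 < v := by rw [hv]; positivity
  have hw0 : 0 < w := by rw [hw]; positivity
  have hbv : vp * vm = v ^ 2 - b ^ 2 := by rw [hv, hb]; ring
  have hvv : 0 < v ^ 2 - b ^ 2 := by rw [← hbv]; positivity
  have hww : wp * wm ≤ w ^ 2 := by rw [hw]; nlinarith [sq_nonneg (wp - wm)]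
  have hww0 : 0 < wp * wm := by positivity
  refine (sq_le_sq₀ (by positivity) (by positivity)).1 ?_
  have e1 : (1 / (vp * wp ^ 2)) * (1 / (vm * wm ^ 2)) ≤
      ((1 / (vp * wp ^ 2) + 1 / (vm * wm ^ 2)) / 2) ^ 2 := by
    nlinarith [sq_nonneg (1 / (vp * wp ^ 2) - 1 / (vm * wm ^ 2))]
  refine le_trans ?_ e1
  have e2 : (1 / (vp * wp ^ 2)) * (1 / (vm * wm ^ 2)) = 1 / ((v ^ 2 - b ^ 2) * (wp * wm) ^ 2) := by
    rw [← hbv]; field_simp
  rw [e2]
  have e3 : 1 / ((v ^ 2 - b ^ 2) * (w ^ 2) ^ 2) ≤ 1 / ((v ^ 2 - b ^ 2) * (wp * wm) ^ 2) := by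
    apply one_div_le_one_div_of_le (by positivity)
    apply mul_le_mul_of_nonneg_left _ hvv.le
    exact pow_le_pow_left₀ hww0.le hww 2
  refine le_trans ?_ e3
  set s := b ^ 2 / v ^ 2 with hs
  have hs0 : 0 ≤ s := by rw [hs]; positivity
  have hb2 : b ^ 2 = s * v ^ 2 := by rw [hs]; field_simp
  have hs1 : s < 1 := by
    rw [hs, div_lt_one (by positivity)]; linarith
  have e4 : 1 / ((v ^ 2 - b ^ 2) * (w ^ 2) ^ 2) = 1 / (v * w ^ 2) ^ 2 * (1 / (1 - s)) := by
    rw [hb2]
    have : (1 - s) ≠ 0 := by linarith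
    have h2 : v ^ 2 - s * v ^ 2 = v ^ 2 * (1 - s) := by ring
    rw [h2]
    field_simp
  rw [e4, mul_pow, one_div_pow]
  apply mul_le_mul_of_nonneg_left _ (by positivity)
  rw [le_div_iff₀ (by linarith)]
  nlinarith [sq_nonneg s, mul_nonneg hs0 (sq_nonneg s)]

/-- `2 v - 1/(v w²)` -/
noncomputable def dyU (v w : ℝ) : ℝ := 2 * v - 1 / (v * w ^ 2)

theorem dyU_ge {v w : ℝ} (hv : 0 < v) (hw : 0 < w) (h : 1 ≤ w * v) : v ≤ dyU v w := by
  have h1 : 1 / (v * w ^ 2) ≤ v := by
    rw [div_le_iff₀ (by positivity)]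
    nlinarith
  unfold dyU
  linarith

theorem dyU_pos {v w : ℝ} (hv : 0 < v) (hw : 0 < w) (h : 1 ≤ w * v) : 0 < dyU v w :=
  lt_of_lt_of_le hv (dyU_ge hv hw h)

theorem dyU_le {v w : ℝ} (hv : 0 < v) (hw : 0 < w) : dyU v w ≤ 2 * v := by
  have h1 : 0 < 1 / (v * w ^ 2) := by positivity
  unfold dyU
  linarith

theorem dy_step3 {fp fm vp vm wp wm A : ℝ} (hvp : 0 < vp) (hvm : 0 < vm) (hwp : 0 < wp)
    (hwm : 0 < wm) (hp : 1 ≤ wp * vp) (hm : 1 ≤ wm * vm)
    (h1 : 1 ≤ ((wp + wm) / 2) * ((vp + vm) / 2))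
    (hA : ((wp + wm) / 2) * ((vp + vm) / 2) ≤ A) :
    ((fp + fm) / 2) ^ 2 / dyU ((vp + vm) / 2) ((wp + wm) / 2) +
      ((fp + fm) / 2 * ((vp - vm) / 2) / ((vp + vm) / 2)) ^ 2 / (8 * A ^ 2 * ((vp + vm) / 2)) ≤
      (fp ^ 2 / dyU vp wp + fm ^ 2 / dyU vm wm) / 2 := by
  have h2 := dy_step2 hvp hvm hwp hwm
  set v := (vp + vm) / 2 with hv
  set b := (vp - vm) / 2 with hb
  set w := (wp + wm) / 2 with hw
  set f := (fp + fm) / 2 with hf
  have hv0 : 0 < v := by rw [hv]; positivity
  have hw0 : 0 < w := by rw [hw]; positivity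
  have hA0 : 0 < A := by nlinarith
  have hup := dyU_pos hvp hwp hp
  have hum := dyU_pos hvm hwm hm
  have hu := dyU_pos hv0 hw0 h1
  have hu2 := dyU_le hv0 hw0
  have e1 := dy_ident (fp := fp) (fm := fm) hup hum
  have e2 : 0 ≤ ((fp - fm) / 2 * ((dyU vp wp + dyU vm wm) / 2) -
      (fp + fm) / 2 * ((dyU vp wp - dyU vm wm) / 2)) ^ 2 /
        (dyU vp wp * dyU vm wm * ((dyU vp wp + dyU vm wm) / 2)) := by positivity
  rw [← e1] at e2
  set ub := (dyU vp wp + dyU vm wm) / 2 with hub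
  have hub0 : 0 < ub := by rw [hub]; positivity
  -- ub ≤ u - δ
  set δ := b ^ 2 / (2 * A ^ 2 * v) with hδ
  have hδ0 : 0 ≤ δ := by rw [hδ]; positivity
  have e3 : ub ≤ dyU v w - δ := by
    have k1 : ub = 2 * v - (1 / (vp * wp ^ 2) + 1 / (vm * wm ^ 2)) / 2 := by
      rw [hub, hv]; unfold dyU; ring
    have k2 : dyU v w = 2 * v - 1 / (v * w ^ 2) := rfl
    have k3 : δ ≤ 1 / (v * w ^ 2) * (b ^ 2 / v ^ 2 / 2) := by
      have : 1 / (v * w ^ 2) * (b ^ 2 / v ^ 2 / 2) = b ^ 2 / (2 * (w * v) ^ 2 * v) := by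
        field_simp
      rw [this, hδ]
      apply div_le_div_of_nonneg_left (sq_nonneg _) (by positivity)
      apply mul_le_mul_of_nonneg_right _ hv0.le
      have : (w * v) ^ 2 ≤ A ^ 2 := pow_le_pow_left₀ (by positivity) hA 2
      linarith
    rw [k1, k2]
    have k4 : 1 / (v * w ^ 2) * (1 + b ^ 2 / v ^ 2 / 2) =
      1 / (v * w ^ 2) + 1 / (v * w ^ 2) * (b ^ 2 / v ^ 2 / 2) := by ring
    rw [k4] at h2
    linarith
  have e4 : f ^ 2 / dyU v w + (f * b / v) ^ 2 / (8 * A ^ 2 * v) ≤ f ^ 2 / ub := by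
    have k1 : f ^ 2 / ub - f ^ 2 / dyU v w = f ^ 2 * (dyU v w - ub) / (ub * dyU v w) := by
      field_simp
    have k2 : f ^ 2 * δ / (4 * v ^ 2) ≤ f ^ 2 * (dyU v w - ub) / (ub * dyU v w) := by
      apply div_le_div₀
      · apply mul_nonneg (sq_nonneg _); linarith
      · apply mul_le_mul_of_nonneg_left _ (sq_nonneg _); linarith
      · positivity
      · have : ub ≤ 2 * v := by linarith
        nlinarith
    have k3 : (f * b / v) ^ 2 / (8 * A ^ 2 * v) = f ^ 2 * δ / (4 * v ^ 2) := by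
      rw [hδ]; field_simp; ring
    rw [k3]
    linarith
  linarith

theorem dy_bell {fp fm vp vm wp wm A : ℝ} (hvp : 0 < vp) (hvm : 0 < vm) (hwp : 0 < wp)
    (hwm : 0 < wm) (hp : 1 ≤ wp * vp) (hm : 1 ≤ wm * vm)
    (h1 : 1 ≤ ((wp + wm) / 2) * ((vp + vm) / 2))
    (hA : ((wp + wm) / 2) * ((vp + vm) / 2) ≤ A) :
    ((fp + fm) / 2) ^ 2 / ((vp + vm) / 2) +
      ((fp + fm) / 2) ^ 2 / dyU ((vp + vm) / 2) ((wp + wm) / 2) +
      ((fp - fm) / 2) ^ 2 / ((vp + vm) / 2) / (1 + 8 * A ^ 2) ≤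
      ((fp ^ 2 / vp + fp ^ 2 / dyU vp wp) + (fm ^ 2 / vm + fm ^ 2 / dyU vm wm)) / 2 := by
  have a1 := dy_step1 (fp := fp) (fm := fm) hvp hvm
  have a2 := dy_step3 (fp := fp) (fm := fm) hvp hvm hwp hwm hp hm h1 hA
  set v := (vp + vm) / 2 with hv
  set b := (vp - vm) / 2 with hb
  set w := (wp + wm) / 2 with hw
  set f := (fp + fm) / 2 with hf
  set α := (fp - fm) / 2 with hα
  have hv0 : 0 < v := by rw [hv]; positivity
  have hA0 : 0 < A := by
    have : 0 < w := by rw [hw]; positivity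
    nlinarith
  set Y := f * b / v with hY
  have key : α ^ 2 / v / (1 + 8 * A ^ 2) ≤ (α - Y) ^ 2 / v + Y ^ 2 / (8 * A ^ 2 * v) := by
    have hq : 0 < 8 * A ^ 2 := by positivity
    have e : (α - Y) ^ 2 / v + Y ^ 2 / (8 * A ^ 2 * v) - α ^ 2 / v / (1 + 8 * A ^ 2) =
        (8 * A ^ 2 * (α - Y) - Y) ^ 2 / (8 * A ^ 2 * (1 + 8 * A ^ 2) * v) := by
      field_simp
      ring
    have : 0 ≤ (8 * A ^ 2 * (α - Y) - Y) ^ 2 / (8 * A ^ 2 * (1 + 8 * A ^ 2) * v) := by positivity
    linarith
  linarith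

section sq
variable {V : Type*} [Fintype V] [DecidableEq V]

/-- the potential -/
noncomputable def dyB (W f : (V → Bool) → ℝ) (G : Finset V) (x : V → Bool) : ℝ :=
  ce G f x ^ 2 / ce G (fun y => (W y)⁻¹) x +
    ce G f x ^ 2 / dyU (ce G (fun y => (W y)⁻¹) x) (ce G W x)

theorem dependsOn_dyB (W f : (V → Bool) → ℝ) (G : Finset V) :
    DependsOn (dyB W f G) (G : Set V) := by
  intro x y hxy
  unfold dyB
  rw [dependsOn_ce G f hxy, dependsOn_ce G _ hxy, dependsOn_ce G W hxy]

theorem dy_onestep (W f : (V → Bool) → ℝ) (hW : ∀ x, 0 < W x) (A : ℝ) (G : Finset V) (a : V)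
    (ha : a ∉ G) (hA2 : ∀ x, ce G W x * ce G (fun y => (W y)⁻¹) x ≤ A) :
    av (dyB W f G) + av (fun x => (ce (insert a G) f x - ce G f x) ^ 2 /
      ce G (fun y => (W y)⁻¹) x) / (1 + 8 * A ^ 2) ≤ av (dyB W f (insert a G)) := by
  have hWi : ∀ x, 0 < (W x)⁻¹ := fun x => inv_pos.2 (hW x)
  -- pointwise inequality after conditioning on `G`
  have hpt : ∀ x, dyB W f G x + ce G (fun x => (ce (insert a G) f x - ce G f x) ^ 2 /
      ce G (fun y => (W y)⁻¹) x) x / (1 + 8 * A ^ 2) ≤ ce G (dyB W f (insert a G)) x := by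
    intro x
    have hG : ∀ (h : (V → Bool) → ℝ) (c : Bool), ce G h (Function.update x a c) = ce G h x := by
      intro h c
      apply dependsOn_ce G h
      intro i hi
      have : i ≠ a := by rintro rfl; exact ha (by exact_mod_cast hi)
      simp [this]
    have hsq : DependsOn (fun x => (ce (insert a G) f x - ce G f x) ^ 2 /
        ce G (fun y => (W y)⁻¹) x) ((insert a G : Finset V) : Set V) := by
      intro x y hxy
      have hxy' : ∀ i ∈ (G : Set V), x i = y i := fun i hi => hxy i (by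
        simp only [Finset.coe_insert]; exact Set.mem_insert_of_mem _ hi)
      simp only
      rw [dependsOn_ce (insert a G) f hxy, dependsOn_ce G f hxy', dependsOn_ce G _ hxy']
    have e1 := ce_eq_half ha (dyB W f (insert a G)) x
    rw [ce_of_dependsOn (dependsOn_dyB W f (insert a G))] at e1
    have e2 := ce_eq_half ha (fun x => (ce (insert a G) f x - ce G f x) ^ 2 /
        ce G (fun y => (W y)⁻¹) x) x
    rw [ce_of_dependsOn hsq] at e2
    have ef := ce_eq_half ha f x
    have ev := ce_eq_half ha (fun y => (W y)⁻¹) x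
    have ew := ce_eq_half ha W x
    rw [e1, e2]
    simp only [hG]
    unfold dyB
    have hvp := ce_pos (insert a G) hWi (Function.update x a true)
    have hvm := ce_pos (insert a G) hWi (Function.update x a false)
    have hwp := ce_pos (insert a G) hW (Function.update x a true)
    have hwm := ce_pos (insert a G) hW (Function.update x a false)
    have hp := one_le_ce_mul_ce_inv (insert a G) hW (Function.update x a true)
    have hm := one_le_ce_mul_ce_inv (insert a G) hW (Function.update x a false)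
    have h1 := one_le_ce_mul_ce_inv G hW x
    have hA := hA2 x
    rw [ew, ev] at h1 hA
    rw [ef, ev, ew]
    set fp := ce (insert a G) f (Function.update x a true)
    set fm := ce (insert a G) f (Function.update x a false)
    set vp := ce (insert a G) (fun y => (W y)⁻¹) (Function.update x a true)
    set vm := ce (insert a G) (fun y => (W y)⁻¹) (Function.update x a false)
    set wp := ce (insert a G) W (Function.update x a true)
    set wm := ce (insert a G) W (Function.update x a false)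
    have := dy_bell (fp := fp) (fm := fm) hvp hvm hwp hwm hp hm h1 hA
    have e3 : ((fp - (fp + fm) / 2) ^ 2 / ((vp + vm) / 2) +
        (fm - (fp + fm) / 2) ^ 2 / ((vp + vm) / 2)) / 2 =
        ((fp - fm) / 2) ^ 2 / ((vp + vm) / 2) := by ring
    rw [e3]
    exact this
  have h2 := av_mono hpt
  rw [av_add, av_ce] at h2
  have h3 : av (fun x => ce G (fun x => (ce (insert a G) f x - ce G f x) ^ 2 /
      ce G (fun y => (W y)⁻¹) x) x / (1 + 8 * A ^ 2)) =
      av (fun x => (ce (insert a G) f x - ce G f x) ^ 2 /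
      ce G (fun y => (W y)⁻¹) x) / (1 + 8 * A ^ 2) := by
    simp only [div_eq_mul_inv _ (1 + 8 * A ^ 2)]
    rw [av_mul_const, av_ce]
  rw [h3] at h2
  exact h2

theorem dyB_le (W f : (V → Bool) → ℝ) (hW : ∀ x, 0 < W x) (G : Finset V) :
    av (dyB W f G) ≤ 2 * av (fun x => f x ^ 2 * W x) := by
  have hWi : ∀ x, 0 < (W x)⁻¹ := fun x => inv_pos.2 (hW x)
  have hpt : ∀ x, dyB W f G x ≤ 2 * ce G (fun x => f x ^ 2 * W x) x := by
    intro x
    have hv := ce_pos G hWi x
    have hw := ce_pos G hW x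
    have h1 := one_le_ce_mul_ce_inv G hW x
    have hu := dyU_ge hv hw h1
    have cs := ce_mul_sq_le G (fun y => f y * √(W y)) (fun y => (√(W y))⁻¹) x
    have k1 : (fun y => f y * √(W y) * (√(W y))⁻¹) = f := by
      funext y
      rw [mul_assoc, mul_inv_cancel₀ (Real.sqrt_pos.2 (hW y)).ne', mul_one]
    have k2 : (fun y => (f y * √(W y)) ^ 2) = fun y => f y ^ 2 * W y := by
      funext y
      rw [mul_pow, Real.sq_sqrt (hW y).le]
    have k3 : (fun y => (√(W y))⁻¹ ^ 2) = fun y => (W y)⁻¹ := by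
      funext y
      rw [inv_pow, Real.sq_sqrt (hW y).le]
    rw [k1, k2, k3] at cs
    have a1 : ce G f x ^ 2 / ce G (fun y => (W y)⁻¹) x ≤ ce G (fun x => f x ^ 2 * W x) x := by
      rw [div_le_iff₀ hv]; exact cs
    have a2 : ce G f x ^ 2 / dyU (ce G (fun y => (W y)⁻¹) x) (ce G W x) ≤
        ce G f x ^ 2 / ce G (fun y => (W y)⁻¹) x :=
      div_le_div_of_nonneg_left (sq_nonneg _) hv hu
    unfold dyB
    linarith
  calc av (dyB W f G) ≤ av (fun x => 2 * ce G (fun x => f x ^ 2 * W x) x) := av_mono hpt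
    _ = 2 * av (fun x => f x ^ 2 * W x) := by rw [av_const_mul, av_ce]

theorem dyB_nonneg (W f : (V → Bool) → ℝ) (hW : ∀ x, 0 < W x) (G : Finset V) :
    0 ≤ av (dyB W f G) := by
  have hWi : ∀ x, 0 < (W x)⁻¹ := fun x => inv_pos.2 (hW x)
  apply av_nonneg
  intro x
  have hv := ce_pos G hWi x
  have hw := ce_pos G hW x
  have h1 := one_le_ce_mul_ce_inv G hW x
  have hu := dyU_pos hv hw h1
  unfold dyB
  positivity

/-- D1: weighted square function estimate along a chain of finite sets, one coordinate at a time -/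
theorem square_fn {V : Type*} [Fintype V] [DecidableEq V] {α : Type*} [LinearOrder α]
    (S : Finset V) (rk : V → α) (hrk : Set.InjOn rk (S : Set V)) (W : (V → Bool) → ℝ)
    (hW : ∀ x, 0 < W x) (A : ℝ) (hA : 1 ≤ A)
    (hA2 : ∀ v ∈ S, ∀ x, ce (S.filter (fun y => rk y < rk v)) W x *
      ce (S.filter (fun y => rk y < rk v)) (fun y => (W y)⁻¹) x ≤ A)
    (f : (V → Bool) → ℝ) :
    ∑ v ∈ S, av (fun x => (ce (insert v (S.filter (fun y => rk y < rk v))) f x -
        ce (S.filter (fun y => rk y < rk v)) f x) ^ 2 /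
        ce (S.filter (fun y => rk y < rk v)) (fun y => (W y)⁻¹) x) ≤
      2 * (1 + 8 * A ^ 2) * av (fun x => f x ^ 2 * W x) := by
  have hq : 0 < 1 + 8 * A ^ 2 := by positivity
  -- main claim: by induction over `S`
  have main : ∀ (n : ℕ) (S : Finset V), S.card = n → Set.InjOn rk (S : Set V) →
      (∀ v ∈ S, ∀ x, ce (S.filter (fun y => rk y < rk v)) W x *
        ce (S.filter (fun y => rk y < rk v)) (fun y => (W y)⁻¹) x ≤ A) →
      (∑ v ∈ S, av (fun x => (ce (insert v (S.filter (fun y => rk y < rk v))) f x -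
        ce (S.filter (fun y => rk y < rk v)) f x) ^ 2 /
        ce (S.filter (fun y => rk y < rk v)) (fun y => (W y)⁻¹) x)) / (1 + 8 * A ^ 2) ≤
      av (dyB W f S) := by
    intro n
    induction n with
    | zero =>
      intro S hS _ _
      have : S = ∅ := Finset.card_eq_zero.1 hS
      subst this
      simp only [Finset.sum_empty, zero_div]
      exact dyB_nonneg W f hW _
    | succ n ih =>
      intro S hS hinj hA2
      have hne : S.Nonempty := by
        rw [← Finset.card_pos, hS]; exact Nat.succ_pos n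
      obtain ⟨a, haS, hamax⟩ := Finset.exists_max_image S rk hne
      set S' := S.erase a with hS'
      have hins : insert a S' = S := Finset.insert_erase haS
      have ha' : a ∉ S' := Finset.notMem_erase a S
      have hlt : ∀ v ∈ S', rk v < rk a := by
        intro v hv
        have hv' := Finset.mem_erase.1 hv
        refine lt_of_le_of_ne (hamax v hv'.2) ?_
        intro h
        exact hv'.1 (hinj (by exact_mod_cast hv'.2) (by exact_mod_cast haS) h)
      have hfa : S.filter (fun y => rk y < rk a) = S' := by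
        ext v
        simp only [Finset.mem_filter, hS', Finset.mem_erase]
        constructor
        · rintro ⟨h1, h2⟩
          exact ⟨fun h => by rw [h] at h2; exact lt_irrefl _ h2, h1⟩
        · rintro ⟨h1, h2⟩
          exact ⟨h2, hlt v (Finset.mem_erase.2 ⟨h1, h2⟩)⟩
      have hfv : ∀ v ∈ S', S.filter (fun y => rk y < rk v) = S'.filter (fun y => rk y < rk v) := by
        intro v hv
        ext y
        simp only [Finset.mem_filter, hS', Finset.mem_erase]
        constructor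
        · rintro ⟨h1, h2⟩
          refine ⟨⟨?_, h1⟩, h2⟩
          rintro rfl
          exact absurd h2 (not_lt.2 (hlt v hv).le)
        · rintro ⟨⟨_, h1⟩, h2⟩
          exact ⟨h1, h2⟩
      have hcard : S'.card = n := by
        rw [hS', Finset.card_erase_of_mem haS, hS]; rfl
      have ih' := ih S' hcard (hinj.mono (by
        intro v hv; exact_mod_cast (Finset.mem_erase.1 (by exact_mod_cast hv)).2))
        (by
          intro v hv x
          have := hA2 v (Finset.mem_erase.1 hv).2 x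
          rw [hfv v hv] at this
          exact this)
      have hone := dy_onestep W f hW A S' a ha' (by
        intro x
        have := hA2 a haS x
        rw [hfa] at this
        exact this)
      rw [hins] at hone
      have hsum : ∑ v ∈ S, av (fun x => (ce (insert v (S.filter (fun y => rk y < rk v))) f x -
          ce (S.filter (fun y => rk y < rk v)) f x) ^ 2 /
          ce (S.filter (fun y => rk y < rk v)) (fun y => (W y)⁻¹) x) =
          av (fun x => (ce S f x - ce S' f x) ^ 2 / ce S' (fun y => (W y)⁻¹) x) +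
          ∑ v ∈ S', av (fun x => (ce (insert v (S'.filter (fun y => rk y < rk v))) f x -
          ce (S'.filter (fun y => rk y < rk v)) f x) ^ 2 /
          ce (S'.filter (fun y => rk y < rk v)) (fun y => (W y)⁻¹) x) := by
        rw [← Finset.add_sum_erase S _ haS]
        congr 1
        · rw [hfa, hins]
        · apply Finset.sum_congr rfl
          intro v hv
          rw [hfv v hv]
      rw [hsum, add_div]
      linarith
  have h1 := main S.card S rfl hrk hA2
  have h2 := dyB_le W f hW S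
  rw [div_le_iff₀ hq] at h1
  nlinarith
end sq

end Pool.Agent.LpBasis
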