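import Pool.Agent.Hhelper27.LpBasis.Basic

/-!
Module H: from a fair independent generating family of sets to an unconditional system of `L_p`.
-/

set_option autoImplicit false
set_option linter.unusedSectionVars false

namespace Pool.Agent.LpBasis

open Finset MeasureTheory ENNReal

namespace FairSys

variable {Ω ι : Type} [LinearOrder ι]

open Classical in
/-- the coordinates of a point -/
noncomputable def X (e : ι → Set Ω) (ω : Ω) (i : ι) : Bool := decide (ω ∈ e i)

theorem X_eq_true (e : ι → Set Ω) (ω : Ω) (i : ι) : X e ω i = true ↔ ω ∈ e i := by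
  simp [X]

open Classical in
/-- extension of a finite point by `false` -/
noncomputable def ext {V : Finset ι} (x : V → Bool) (i : ι) : Bool :=
  if h : i ∈ V then x ⟨i, h⟩ else false

theorem ext_of_mem {V : Finset ι} (x : V → Bool) {i : ι} (h : i ∈ V) : ext x i = x ⟨i, h⟩ := by
  simp [ext, h]

theorem ext_coe {V : Finset ι} (x : V → Bool) (i : V) : ext x i = x i := by
  simp [ext]

/-- restriction of a point -/
def res (V : Finset ι) (ξ : ι → Bool) : V → Bool := fun i => ξ i

theorem dep_ext_res {V : Finset ι} {h : (ι → Bool) → ℝ} (hd : DependsOn h (V : Set ι))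
    (ξ : ι → Bool) : h (ext (res V ξ)) = h ξ := by
  apply hd
  intro i hi
  rw [ext_of_mem _ (Finset.mem_coe.1 hi)]
  rfl

variable [MeasurableSpace Ω]

theorem measurable_X (e : ι → Set Ω) (he : ∀ i, MeasurableSet (e i)) : Measurable (X e) := by
  rw [measurable_pi_iff]
  intro i
  refine measurable_to_bool ?_
  have : (fun x => X e x i) ⁻¹' {true} = e i := by
    ext ω
    simp [X]
  rw [this]
  exact he i

theorem measurable_res_X (e : ι → Set Ω) (he : ∀ i, MeasurableSet (e i)) (V : Finset ι) :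
    Measurable fun ω => res V (X e ω) := by
  rw [measurable_pi_iff]
  intro i
  exact (measurable_pi_iff.1 (measurable_X e he)) i

theorem measurable_comp_X (e : ι → Set Ω) (he : ∀ i, MeasurableSet (e i)) {V : Finset ι}
    {h : (ι → Bool) → ℝ} (hd : DependsOn h (V : Set ι)) : Measurable fun ω => h (X e ω) := by
  have : (fun ω => h (X e ω)) = (fun x : V → Bool => h (ext x)) ∘ fun ω => res V (X e ω) := by
    funext ω
    simp only [Function.comp]
    rw [dep_ext_res hd]
  rw [this]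
  exact (measurable_of_finite _).comp (measurable_res_X e he V)

theorem bound_dep {V : Finset ι} {h : (ι → Bool) → ℝ} (hd : DependsOn h (V : Set ι)) :
    ∃ K : ℝ, 0 ≤ K ∧ ∀ ξ, |h ξ| ≤ K := by
  refine ⟨∑ x : V → Bool, |h (ext x)|, Finset.sum_nonneg fun _ _ => abs_nonneg _, fun ξ => ?_⟩
  rw [← dep_ext_res hd ξ]
  exact Finset.single_le_sum (f := fun x : V → Bool => |h (ext x)|)
    (fun _ _ => abs_nonneg _) (Finset.mem_univ (res V ξ))

/-- the law of the coordinates in `V` -/
theorem law (μ : Measure Ω) [IsFiniteMeasure μ] (M : Set Ω) (e : ι → Set Ω)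
    (he : ∀ i, MeasurableSet (e i)) (hfair : FairIndep (μ.restrict M) e) (V : Finset ι)
    (x : V → Bool) :
    ((μ.restrict M).map fun ω => res V (X e ω)) {x} = μ M / 2 ^ V.card := by
  classical
  rw [Measure.map_apply (measurable_res_X e he V) (measurableSet_singleton x)]
  have h := hfair V (V.filter fun i => ext x i = true) (Finset.filter_subset _ _)
  rw [Measure.restrict_apply_univ] at h
  rw [← h]
  congr 1
  ext ω
  simp only [Set.mem_preimage, Set.mem_singleton_iff, Finset.mem_filter, Set.mem_ofPred_eq]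
  constructor
  · intro h1 i hi
    rw [← h1, ext_of_mem _ hi]
    simp [res, X, hi]
  · intro h1
    funext i
    have h2 := h1 i i.2
    rw [ext_coe] at h2
    simp only [i.2, true_and] at h2
    simp only [res]
    rw [Bool.eq_iff_iff, X_eq_true]
    exact h2

theorem integral_comp_X (μ : Measure Ω) [IsFiniteMeasure μ] (M : Set Ω) (e : ι → Set Ω)
    (he : ∀ i, MeasurableSet (e i)) (hfair : FairIndep (μ.restrict M) e) {V : Finset ι}
    {h : (ι → Bool) → ℝ} (hd : DependsOn h (V : Set ι)) :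
    ∫ ω in M, h (X e ω) ∂μ = μ.real M * av fun x : V → Bool => h (ext x) := by
  have h0 : ∫ ω in M, h (X e ω) ∂μ = ∫ ω in M, (fun x : V → Bool => h (ext x)) (res V (X e ω)) ∂μ := by
    congr 1
    funext ω
    simp only
    rw [dep_ext_res hd]
  rw [h0, ← integral_map (μ := μ.restrict M) (φ := fun ω => res V (X e ω))
    (f := fun x : V → Bool => h (ext x)) (measurable_res_X e he V).aemeasurable
    (measurable_of_finite _).aestronglyMeasurable]
  rw [integral_fintype Integrable.of_finite]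
  have h1 : ∀ x : V → Bool, ((μ.restrict M).map fun ω => res V (X e ω)).real {x} =
      μ.real M / 2 ^ V.card := by
    intro x
    rw [Measure.real, law μ M e he hfair V x, ENNReal.toReal_div, Measure.real]
    simp
  simp only [h1, smul_eq_mul, av, Fintype.card_coe]
  rw [← Finset.mul_sum]
  ring


/-! ### the elements of `L_p` -/

section TL

variable (μ : Measure Ω) [IsFiniteMeasure μ] (p : ℝ≥0∞) (M : Set Ω) (e : ι → Set Ω)

/-- the function on `Ω` associated with a function of the coordinates -/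
noncomputable def Fn (h : (ι → Bool) → ℝ) : Ω → ℝ := M.indicator fun ω => h (X e ω)

theorem memLp_Fn (hM : MeasurableSet M) (he : ∀ i, MeasurableSet (e i)) {V : Finset ι}
    {h : (ι → Bool) → ℝ} (hd : DependsOn h (V : Set ι)) : MemLp (Fn M e h) p μ := by
  obtain ⟨K, hK0, hK⟩ := bound_dep hd
  refine MemLp.of_bound ((measurable_comp_X e he hd).indicator hM).aestronglyMeasurable K
    (ae_of_all _ fun ω => ?_)
  unfold Fn
  by_cases hω : ω ∈ M
  · rw [Set.indicator_of_mem hω, Real.norm_eq_abs]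
    exact hK _
  · rw [Set.indicator_of_notMem hω, norm_zero]
    exact hK0

open Classical in
/-- the element of `L_p` associated with a function of the coordinates -/
noncomputable def TL (h : (ι → Bool) → ℝ) : Lp ℝ p μ :=
  if hh : MemLp (Fn M e h) p μ then hh.toLp _ else 0

variable {μ p M e}

theorem TL_eq {h : (ι → Bool) → ℝ} (hh : MemLp (Fn M e h) p μ) :
    TL μ p M e h = hh.toLp _ := by
  simp [TL, hh]

theorem TL_add {h g : (ι → Bool) → ℝ} (hh : MemLp (Fn M e h) p μ) (hg : MemLp (Fn M e g) p μ) :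
    TL μ p M e (fun ξ => h ξ + g ξ) = TL μ p M e h + TL μ p M e g := by
  have h1 : Fn M e (fun ξ => h ξ + g ξ) = Fn M e h + Fn M e g := by
    funext ω
    by_cases hω : ω ∈ M <;> simp [Fn, hω]
  have h2 : MemLp (Fn M e (fun ξ => h ξ + g ξ)) p μ := by
    rw [h1]
    exact hh.add hg
  rw [TL_eq hh, TL_eq hg, TL_eq h2, ← MemLp.toLp_add]
  exact MemLp.toLp_congr _ _ (ae_of_all _ fun ω => congrFun h1 ω)

theorem TL_smul {h : (ι → Bool) → ℝ} (c : ℝ) (hh : MemLp (Fn M e h) p μ) :
    TL μ p M e (fun ξ => c * h ξ) = c • TL μ p M e h := by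
  have h1 : Fn M e (fun ξ => c * h ξ) = c • Fn M e h := by
    funext ω
    by_cases hω : ω ∈ M <;> simp [Fn, hω]
  have h2 : MemLp (Fn M e (fun ξ => c * h ξ)) p μ := by
    rw [h1]
    exact hh.const_smul c
  rw [TL_eq hh, TL_eq h2, ← MemLp.toLp_const_smul]
  exact MemLp.toLp_congr _ _ (ae_of_all _ fun ω => congrFun h1 ω)

theorem dependsOn_mono' {V W : Finset ι} {h : (ι → Bool) → ℝ} (hd : DependsOn h (V : Set ι))
    (hVW : V ⊆ W) : DependsOn h (W : Set ι) := by
  intro x y hxy
  exact hd fun i hi => hxy i (Finset.mem_coe.2 (hVW (Finset.mem_coe.1 hi)))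

theorem dependsOn_finsetSum {κ : Type} (S : Finset κ) {V : Finset ι} {h : κ → (ι → Bool) → ℝ}
    (hd : ∀ k ∈ S, DependsOn (h k) (V : Set ι)) :
    DependsOn (fun ξ => ∑ k ∈ S, h k ξ) (V : Set ι) := by
  intro x y hxy
  exact Finset.sum_congr rfl fun k hk => hd k hk hxy

theorem dependsOn_mul_const {V : Finset ι} {h : (ι → Bool) → ℝ} (c : ℝ)
    (hd : DependsOn h (V : Set ι)) : DependsOn (fun ξ => c * h ξ) (V : Set ι) := by
  intro x y hxy
  show c * h x = c * h y
  rw [hd hxy]

theorem TL_sum (hM : MeasurableSet M) (he : ∀ i, MeasurableSet (e i)) {κ : Type} (S : Finset κ)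
    (c : κ → ℝ) (h : κ → (ι → Bool) → ℝ) (W : κ → Finset ι)
    (hd : ∀ k, DependsOn (h k) (W k : Set ι)) :
    TL μ p M e (fun ξ => ∑ k ∈ S, c k * h k ξ) = ∑ k ∈ S, c k • TL μ p M e (h k) := by
  classical
  induction S using Finset.induction_on with
  | empty =>
    simp only [Finset.sum_empty]
    have h1 : MemLp (Fn M e (fun _ => (0 : ℝ))) p μ := by
      have : Fn M e (fun _ => (0 : ℝ)) = 0 := by
        unfold Fn
        exact Set.indicator_zero _ _
      rw [this]
      exact MemLp.zero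
    have h2 := TL_smul (μ := μ) (p := p) (M := M) (e := e) (h := fun _ => 0) 0 h1
    simpa using h2
  | insert a S ha ih =>
    have h1 : ∀ k, MemLp (Fn M e (fun ξ => c k * h k ξ)) p μ := fun k =>
      memLp_Fn μ p M e hM he (dependsOn_mul_const (c k) (hd k))
    have h2 : MemLp (Fn M e (fun ξ => ∑ k ∈ S, c k * h k ξ)) p μ := by
      refine memLp_Fn μ p M e hM he (V := S.biUnion W) (dependsOn_finsetSum S fun k hk => ?_)
      exact dependsOn_mono' (dependsOn_mul_const (c k) (hd k)) (Finset.subset_biUnion_of_mem W hk)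
    have h3 : (fun ξ => ∑ k ∈ insert a S, c k * h k ξ) =
        fun ξ => (c a * h a ξ) + ∑ k ∈ S, c k * h k ξ := by
      funext ξ
      rw [Finset.sum_insert ha]
    rw [h3, TL_add (h1 a) h2, ih, Finset.sum_insert ha,
      TL_smul (c a) (memLp_Fn μ p M e hM he (hd a))]

theorem norm_TL (hM : MeasurableSet M) (he : ∀ i, MeasurableSet (e i))
    (hfair : FairIndep (μ.restrict M) e) (hp0 : p ≠ 0) (hp : p ≠ ⊤) {V : Finset ι}
    {h : (ι → Bool) → ℝ} (hd : DependsOn h (V : Set ι)) :
    ‖TL μ p M e h‖ = (μ.real M * av fun x : V → Bool => |h (ext x)| ^ p.toReal) ^ p.toReal⁻¹ := by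
  have hpp : 0 < p.toReal := ENNReal.toReal_pos hp0 hp
  rw [TL_eq (memLp_Fn μ p M e hM he hd), Lp.norm_toLp,
    (memLp_Fn μ p M e hM he hd).eLpNorm_eq_integral_rpow_norm hp0 hp]
  have h1 : ∀ ω, ‖Fn M e h ω‖ ^ p.toReal =
      M.indicator (fun ω => (fun ξ => |h ξ| ^ p.toReal) (X e ω)) ω := by
    intro ω
    unfold Fn
    by_cases hω : ω ∈ M
    · simp [Set.indicator_of_mem hω]
    · simp [Set.indicator_of_notMem hω, Real.zero_rpow hpp.ne']
  simp only [h1]
  rw [integral_indicator hM, integral_comp_X μ M e he hfair (V := V)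
    (h := fun ξ => |h ξ| ^ p.toReal) (fun x y hxy => by
      show |h x| ^ p.toReal = |h y| ^ p.toReal
      rw [hd hxy])]
  rw [ENNReal.toReal_ofReal]
  refine Real.rpow_nonneg (mul_nonneg measureReal_nonneg (av_nonneg fun x => ?_)) _
  exact Real.rpow_nonneg (abs_nonneg _) _

end TL

/-! ### the system -/

section system

variable (ρ : ι → ι → ℕ)

theorem finite_Pf (hρ : RhoFun ρ) (β x : ι) : {y | y < β ∧ ρ y β < ρ x β}.Finite := by
  refine Set.Finite.of_finite_image (f := fun y => ρ y β)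
    ((Set.finite_Iio (ρ x β)).subset ?_) ?_
  · rintro _ ⟨y, hy, rfl⟩
    exact hy.2
  · intro y hy z hz hyz
    exact hρ.inj y z β hy.1 hz.1 hyz

open Classical in
/-- the predecessors of `x` in the enumeration of `Iio β` -/
noncomputable def Pf (β x : ι) : Finset ι :=
  if h : {y | y < β ∧ ρ y β < ρ x β}.Finite then h.toFinset else ∅

theorem mem_Pf (hρ : RhoFun ρ) (β x y : ι) : y ∈ Pf ρ β x ↔ y < β ∧ ρ y β < ρ x β := by
  rw [Pf, dif_pos (finite_Pf ρ hρ β x)]
  simp

/-- the index set -/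
abbrev Idx : Type :=
  Unit ⊕ ι ⊕ {q : ι × ι × Finset ι // q.2.1 < q.1 ∧ q.2.2 ⊆ Pf ρ q.1 q.2.1}

/-- the pattern of `ξ` on `Pf ρ β x` -/
noncomputable def pat (β x : ι) (ξ : ι → Bool) : Finset ι :=
  (Pf ρ β x).filter fun y => ξ y = true

/-- the basis functions -/
noncomputable def bf : Idx ρ → (ι → Bool) → ℝ
  | .inl _, _ => 1
  | .inr (.inl β), ξ => sg (ξ β)
  | .inr (.inr q), ξ => sg (ξ q.1.1) * sg (ξ q.1.2.1) *
      (if pat ρ q.1.1 q.1.2.1 ξ = q.1.2.2 then 1 else 0)

/-- the coordinates used by a basis function -/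
noncomputable def supp : Idx ρ → Finset ι
  | .inl _ => ∅
  | .inr (.inl β) => {β}
  | .inr (.inr q) => insert q.1.1 (insert q.1.2.1 (Pf ρ q.1.1 q.1.2.1))

theorem pat_congr {β x : ι} {ξ ζ : ι → Bool} (h : ∀ y ∈ Pf ρ β x, ξ y = ζ y) :
    pat ρ β x ξ = pat ρ β x ζ := by
  unfold pat
  refine Finset.filter_congr fun y hy => ?_
  rw [h y hy]

theorem dep_bf (i : Idx ρ) : DependsOn (bf ρ i) (supp ρ i : Set ι) := by
  intro ξ ζ h
  rcases i with _ | β | q
  · rfl
  · simp only [bf]
    rw [h β (by simp [supp])]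
  · simp only [bf]
    rw [h q.1.1 (by simp [supp]), h q.1.2.1 (by simp [supp]),
      pat_congr ρ (ξ := ξ) (ζ := ζ) fun y hy => h y (by simp [supp, hy])]

/-- coefficient of the constant -/
noncomputable def co0 (S : Finset (Idx ρ)) (a : Idx ρ → ℝ) : ℝ :=
  ∑ i ∈ S, (match i with
    | .inl _ => a i
    | _ => 0)

open Classical in
noncomputable def co1 (S : Finset (Idx ρ)) (a : Idx ρ → ℝ) (β : ι) : ℝ :=
  ∑ i ∈ S, (match i with
    | .inr (.inl γ) => if γ = β then a i else 0
    | _ => 0)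

open Classical in
noncomputable def co2 (S : Finset (Idx ρ)) (a : Idx ρ → ℝ) (t : ι × ι × Finset ι) : ℝ :=
  ∑ i ∈ S, (match i with
    | .inr (.inr q) => if q.1 = t then a i else 0
    | _ => 0)

open Classical in
theorem co0_eq (S : Finset (Idx ρ)) (a : Idx ρ → ℝ) :
    co0 ρ S a = if (.inl () : Idx ρ) ∈ S then a (.inl ()) else 0 := by
  unfold co0
  split_ifs with h
  · rw [Finset.sum_eq_single_of_mem _ h]
    rintro (_ | _ | _) _ h2
    · exact absurd rfl h2
    · rfl
    · rfl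
  · refine Finset.sum_eq_zero ?_
    rintro (_ | _ | _) h2
    · exact absurd h2 h
    · rfl
    · rfl

open Classical in
theorem co1_eq (S : Finset (Idx ρ)) (a : Idx ρ → ℝ) (β : ι) :
    co1 ρ S a β = if (.inr (.inl β) : Idx ρ) ∈ S then a (.inr (.inl β)) else 0 := by
  classical
  unfold co1
  split_ifs with h
  · rw [Finset.sum_eq_single_of_mem _ h]
    · simp
    · rintro (_ | γ | _) _ h2
      · rfl
      · simp only
        rw [if_neg]
        rintro rfl
        exact h2 rfl
      · rfl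
  · refine Finset.sum_eq_zero ?_
    rintro (_ | γ | _) h2
    · rfl
    · simp only
      rw [if_neg]
      rintro rfl
      exact h h2
    · rfl

theorem co2_eq_of_mem (S : Finset (Idx ρ)) (a : Idx ρ → ℝ)
    (q : {q : ι × ι × Finset ι // q.2.1 < q.1 ∧ q.2.2 ⊆ Pf ρ q.1 q.2.1})
    (h : (.inr (.inr q) : Idx ρ) ∈ S) : co2 ρ S a q.1 = a (.inr (.inr q)) := by
  classical
  unfold co2
  rw [Finset.sum_eq_single_of_mem _ h]
  · simp
  · rintro (_ | _ | r) _ h2
    · rfl
    · rfl
    · simp only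
      rw [if_neg]
      intro h3
      exact h2 (by rw [Subtype.ext h3])

theorem co2_eq_zero (S : Finset (Idx ρ)) (a : Idx ρ → ℝ) (t : ι × ι × Finset ι)
    (h : ∀ q : {q : ι × ι × Finset ι // q.2.1 < q.1 ∧ q.2.2 ⊆ Pf ρ q.1 q.2.1},
      (.inr (.inr q) : Idx ρ) ∈ S → q.1 ≠ t) : co2 ρ S a t = 0 := by
  classical
  unfold co2
  refine Finset.sum_eq_zero ?_
  rintro (_ | _ | r) h2
  · rfl
  · rfl
  · simp only
    rw [if_neg (h r h2)]

theorem co0_mul (S : Finset (Idx ρ)) (ε a : Idx ρ → ℝ) :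
    co0 ρ S (fun i => ε i * a i) = co0 ρ S ε * co0 ρ S a := by
  simp only [co0_eq]
  split_ifs <;> simp

theorem co1_mul (S : Finset (Idx ρ)) (ε a : Idx ρ → ℝ) (β : ι) :
    co1 ρ S (fun i => ε i * a i) β = co1 ρ S ε β * co1 ρ S a β := by
  simp only [co1_eq]
  split_ifs <;> simp

theorem co2_mul (S : Finset (Idx ρ)) (ε a : Idx ρ → ℝ) (t : ι × ι × Finset ι) :
    co2 ρ S (fun i => ε i * a i) t = co2 ρ S ε t * co2 ρ S a t := by
  by_cases h : ∃ q : {q : ι × ι × Finset ι // q.2.1 < q.1 ∧ q.2.2 ⊆ Pf ρ q.1 q.2.1},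
      (.inr (.inr q) : Idx ρ) ∈ S ∧ q.1 = t
  · obtain ⟨q, hq, rfl⟩ := h
    simp only [co2_eq_of_mem ρ S _ q hq]
  · push Not at h
    simp only [co2_eq_zero ρ S _ t h, mul_zero]

theorem abs_co0_le (S : Finset (Idx ρ)) (ε : Idx ρ → ℝ) (hε : ∀ i, |ε i| ≤ 1) :
    |co0 ρ S ε| ≤ 1 := by
  rw [co0_eq]
  split_ifs
  · exact hε _
  · simp

theorem abs_co1_le (S : Finset (Idx ρ)) (ε : Idx ρ → ℝ) (hε : ∀ i, |ε i| ≤ 1) (β : ι) :
    |co1 ρ S ε β| ≤ 1 := by
  rw [co1_eq]
  split_ifs
  · exact hε _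
  · simp

theorem abs_co2_le (S : Finset (Idx ρ)) (ε : Idx ρ → ℝ) (hε : ∀ i, |ε i| ≤ 1)
    (t : ι × ι × Finset ι) : |co2 ρ S ε t| ≤ 1 := by
  by_cases h : ∃ q : {q : ι × ι × Finset ι // q.2.1 < q.1 ∧ q.2.2 ⊆ Pf ρ q.1 q.2.1},
      (.inr (.inr q) : Idx ρ) ∈ S ∧ q.1 = t
  · obtain ⟨q, hq, rfl⟩ := h
    rw [co2_eq_of_mem ρ S _ q hq]
    exact hε _
  · push Not at h
    rw [co2_eq_zero ρ S _ t h]
    simp

/-- the restriction of `ρ` to `V` -/
def rhoV (V : Finset ι) : V → V → ℕ := fun x y => ρ x y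

theorem rhoFun_rhoV (hρ : RhoFun ρ) (V : Finset ι) : RhoFun (rhoV ρ V) where
  sub1 x y z hxy hyz := hρ.sub1 x y z hxy hyz
  sub2 x y z hxy hyz := hρ.sub2 x y z hxy hyz
  inj x y z hxz hyz h := Subtype.ext (hρ.inj x y z hxz hyz h)

/-- the coefficient functions on the finite cube -/
noncomputable def cV (V : Finset ι) (S : Finset (Idx ρ)) (a : Idx ρ → ℝ) (β x : V)
    (ω : V → Bool) : ℝ := co2 ρ S a (β, x, pat ρ β x (ext ω))

theorem dep_cV (hρ : RhoFun ρ) (V : Finset ι) (S : Finset (Idx ρ))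
    (hV : ∀ i ∈ S, supp ρ i ⊆ V) (a : Idx ρ → ℝ) (β x : V) :
    DependsOn (cV ρ V S a β x) (prec (rhoV ρ V) β x : Set V) := by
  intro ω ω' h
  unfold cV
  by_cases hq : ∃ q : {q : ι × ι × Finset ι // q.2.1 < q.1 ∧ q.2.2 ⊆ Pf ρ q.1 q.2.1},
      (.inr (.inr q) : Idx ρ) ∈ S ∧ q.1.1 = β ∧ q.1.2.1 = x
  · obtain ⟨q, hqS, hq1, hq2⟩ := hq
    have h1 : pat ρ β x (ext ω) = pat ρ β x (ext ω') := by
      refine pat_congr ρ fun y hy => ?_
      have hyV : y ∈ V := by
        refine hV _ hqS ?_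
        simp only [supp, hq1, hq2]
        simp [hy]
      rw [ext_of_mem _ hyV, ext_of_mem _ hyV]
      refine h ⟨y, hyV⟩ ?_
      have := (mem_Pf ρ hρ β x y).1 hy
      simp only [prec, Finset.coe_filter, Finset.mem_univ, true_and, Set.mem_ofPred_eq]
      exact this
    rw [h1]
  · push Not at hq
    rw [co2_eq_zero, co2_eq_zero]
    · intro q hqS h1
      exact hq q hqS (by rw [h1]) (by rw [h1])
    · intro q hqS h1
      exact hq q hqS (by rw [h1]) (by rw [h1])

theorem sum_eq_synth (V : Finset ι) (S : Finset (Idx ρ))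
    (hV : ∀ i ∈ S, supp ρ i ⊆ V) (a : Idx ρ → ℝ) (ω : V → Bool) :
    ∑ i ∈ S, a i * bf ρ i (ext ω) =
      synth (co0 ρ S a) (fun β : V => co1 ρ S a β) (cV ρ V S a) ω := by
  classical
  have hR : synth (co0 ρ S a) (fun β : V => co1 ρ S a β) (cV ρ V S a) ω =
      ∑ i ∈ S, ((match i with
        | .inl _ => a i
        | _ => 0) + ∑ β : V, sg (ω β) * ((match i with
          | .inr (.inl γ) => if γ = (β : ι) then a i else 0
          | _ => 0) + ∑ x ∈ univ.filter (fun x => x < β), sg (ω x) * (match i with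
            | .inr (.inr q) => if q.1 = ((β : ι), (x : ι), pat ρ β x (ext ω)) then a i else 0
            | _ => 0))) := by
    unfold synth cV co0 co1 co2
    rw [Finset.sum_add_distrib]
    congr 1
    rw [Finset.sum_comm]
    refine Finset.sum_congr rfl fun β _ => ?_
    rw [← Finset.mul_sum, Finset.sum_add_distrib]
    congr 2
    rw [Finset.sum_comm]
    refine Finset.sum_congr rfl fun x _ => ?_
    rw [Finset.mul_sum]
  rw [hR]
  refine Finset.sum_congr rfl fun i hi => ?_
  have hVi := hV i hi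
  rcases i with u | γ | q
  · simp [bf]
  · have hγ : γ ∈ V := hVi (by simp [supp])
    simp only [bf, mul_zero, Finset.sum_const_zero, add_zero, zero_add]
    rw [Finset.sum_eq_single (⟨γ, hγ⟩ : V)]
    · rw [if_pos rfl, ext_of_mem _ hγ, mul_comm]
    · intro β _ hβ
      rw [if_neg, mul_zero]
      rintro rfl
      exact hβ rfl
    · intro h
      exact absurd (Finset.mem_univ _) h
  · have h1 : q.1.1 ∈ V := hVi (by simp [supp])
    have h2 : q.1.2.1 ∈ V := hVi (by simp [supp])
    simp only [bf, zero_add]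
    rw [Finset.sum_eq_single (⟨q.1.1, h1⟩ : V)]
    · rw [Finset.sum_eq_single (⟨q.1.2.1, h2⟩ : V)]
      · rw [ext_of_mem _ h1, ext_of_mem _ h2]
        by_cases h3 : pat ρ q.1.1 q.1.2.1 (ext ω) = q.1.2.2
        · rw [if_pos h3, if_pos (by rw [h3])]
          ring
        · rw [if_neg h3, if_neg]
          · ring
          · intro h4
            exact h3 (congrArg (fun t => t.2.2) h4).symm
      · intro x _ hx
        rw [if_neg, mul_zero]
        intro h4
        exact hx (Subtype.ext (congrArg (fun t => t.2.1) h4).symm)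
      · intro h4
        exfalso
        apply h4
        simp only [Finset.mem_filter, Finset.mem_univ, true_and]
        exact q.2.1
    · intro β _ hβ
      rw [Finset.sum_eq_zero, mul_zero]
      intro x _
      rw [if_neg, mul_zero]
      intro h4
      exact hβ (Subtype.ext (congrArg (fun t => t.1) h4).symm)
    · intro h
      exact absurd (Finset.mem_univ _) h

end system

/-! ### the properties of the system -/

section final

/-- the statement of `synth_Lp` for one exponent and one constant -/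
def SynthBound (p C : ℝ) : Prop :=
    ∀ (V : Type) [Fintype V] [LinearOrder V] (ρ : V → V → ℕ) (_ : RhoFun ρ)
      (a0 ε0 : ℝ) (a ε : V → ℝ) (c η : V → V → (V → Bool) → ℝ)
      (_ : ∀ β x, DependsOn (c β x) (prec ρ β x : Set V))
      (_ : ∀ β x, DependsOn (η β x) (prec ρ β x : Set V))
      (_ : |ε0| ≤ 1) (_ : ∀ β, |ε β| ≤ 1) (_ : ∀ β x y, |η β x y| ≤ 1),
      av (fun y => |synth (ε0 * a0) (fun β => ε β * a β) (fun β x y => η β x y * c β x y) y| ^ p)
        ≤ C ^ p * av (fun y => |synth a0 a c y| ^ p)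

variable {μ : Measure Ω} [IsFiniteMeasure μ] {p : ℝ≥0∞} {M : Set Ω} {e : ι → Set Ω}

theorem ineq_sys (hM : MeasurableSet M) (he : ∀ i, MeasurableSet (e i))
    (hfair : FairIndep (μ.restrict M) e) (hp0 : p ≠ 0) (hp : p ≠ ⊤) (ρ : ι → ι → ℕ)
    (hρ : RhoFun ρ) (C : ℝ) (hC : 1 ≤ C) (hb : SynthBound p.toReal C) (S : Finset (Idx ρ))
    (a ε : Idx ρ → ℝ) (hε : ∀ i, |ε i| ≤ 1) :
    ‖∑ i ∈ S, (ε i * a i) • TL μ p M e (bf ρ i)‖ ≤ C * ‖∑ i ∈ S, a i • TL μ p M e (bf ρ i)‖ := by
  have hpp : 0 < p.toReal := ENNReal.toReal_pos hp0 hp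
  set V : Finset ι := S.biUnion (supp ρ) with hVdef
  have hV : ∀ i ∈ S, supp ρ i ⊆ V := fun i hi => Finset.subset_biUnion_of_mem (supp ρ) hi
  have hdep : ∀ a : Idx ρ → ℝ, DependsOn (fun ξ => ∑ i ∈ S, a i * bf ρ i ξ) (V : Set ι) :=
    fun a => dependsOn_finsetSum S fun i hi =>
      dependsOn_mono' (dependsOn_mul_const (a i) (dep_bf ρ i)) (hV i hi)
  rw [← TL_sum hM he S (fun i => ε i * a i) (bf ρ) (supp ρ) (dep_bf ρ),
    ← TL_sum hM he S a (bf ρ) (supp ρ) (dep_bf ρ),
    norm_TL hM he hfair hp0 hp (hdep _), norm_TL hM he hfair hp0 hp (hdep a)]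
  simp only [sum_eq_synth ρ V S hV]
  have h1 := hb V (rhoV ρ V) (rhoFun_rhoV ρ hρ V) (co0 ρ S a) (co0 ρ S ε)
    (fun β : V => co1 ρ S a β) (fun β : V => co1 ρ S ε β) (cV ρ V S a) (cV ρ V S ε)
    (fun β x => dep_cV ρ hρ V S hV a β x) (fun β x => dep_cV ρ hρ V S hV ε β x)
    (abs_co0_le ρ S ε hε) (fun β => abs_co1_le ρ S ε hε β)
    (fun β x y => abs_co2_le ρ S ε hε _)
  have h2 : ∀ ω : V → Bool, synth (co0 ρ S fun i => ε i * a i)
      (fun β : V => co1 ρ S (fun i => ε i * a i) β) (cV ρ V S fun i => ε i * a i) ω =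
      synth (co0 ρ S ε * co0 ρ S a) (fun β : V => co1 ρ S ε β * co1 ρ S a β)
        (fun β x y => cV ρ V S ε β x y * cV ρ V S a β x y) ω := by
    intro ω
    simp only [synth, cV, co0_mul, co1_mul, co2_mul]
  simp only [h2]
  have hC0 : 0 ≤ C := zero_le_one.trans hC
  have hav : ∀ f : (V → Bool) → ℝ, 0 ≤ av (fun x => |f x| ^ p.toReal) := fun f =>
    av_nonneg fun x => Real.rpow_nonneg (abs_nonneg _) _
  calc _ ≤ (μ.real M * (C ^ p.toReal * av fun y => |synth (co0 ρ S a)
        (fun β : V => co1 ρ S a β) (cV ρ V S a) y| ^ p.toReal)) ^ p.toReal⁻¹ := by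
        refine Real.rpow_le_rpow (mul_nonneg measureReal_nonneg (hav _)) ?_
          (inv_nonneg.2 hpp.le)
        exact mul_le_mul_of_nonneg_left h1 measureReal_nonneg
    _ = _ := by
        rw [mul_left_comm, Real.mul_rpow (Real.rpow_nonneg hC0 _)
          (mul_nonneg measureReal_nonneg (hav _)), Real.rpow_rpow_inv hC0 hpp.ne']

theorem ne_zero_sys (hM : MeasurableSet M) (hμM : μ M ≠ 0) (he : ∀ i, MeasurableSet (e i))
    (hfair : FairIndep (μ.restrict M) e) (hp0 : p ≠ 0) (hp : p ≠ ⊤) (ρ : ι → ι → ℕ)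
    (i : Idx ρ) : TL μ p M e (bf ρ i) ≠ 0 := by
  classical
  have hpp : 0 < p.toReal := ENNReal.toReal_pos hp0 hp
  have hsg : ∀ b, sg b ≠ 0 := by
    intro b
    cases b <;> simp [sg]
  obtain ⟨ξ, hξ⟩ : ∃ ξ, bf ρ i ξ ≠ 0 := by
    rcases i with _ | β | q
    · exact ⟨fun _ => true, by simp [bf]⟩
    · exact ⟨fun _ => true, by simp only [bf]; exact hsg _⟩
    · refine ⟨fun y => decide (y ∈ q.1.2.2), ?_⟩
      simp only [bf]
      rw [if_pos]
      · simp [hsg]
      · unfold pat
        ext y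
        simp only [decide_eq_true_eq, Finset.mem_filter]
        exact ⟨fun h => h.2, fun h => ⟨q.2.2 h, h⟩⟩
  intro h0
  have h00 := norm_TL hM he hfair hp0 hp (dep_bf ρ i)
  rw [h0, Lp.norm_zero] at h00
  have hM0 : 0 < μ.real M := ENNReal.toReal_pos hμM (measure_ne_top _ _)
  have h1 : 0 < av fun x : (supp ρ i) → Bool => |bf ρ i (ext x)| ^ p.toReal := by
    have h2 := le_av (f := fun x : (supp ρ i) → Bool => |bf ρ i (ext x)| ^ p.toReal)
      (fun x => Real.rpow_nonneg (abs_nonneg _) _) (res (supp ρ i) ξ)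
    refine lt_of_lt_of_le ?_ h2
    rw [dep_ext_res (dep_bf ρ i)]
    have := Real.rpow_pos_of_pos (abs_pos.2 hξ) p.toReal
    positivity
  exact (Real.rpow_pos_of_pos (mul_pos hM0 h1) _).ne h00

theorem supp_sys (ρ : ι → ι → ℕ) (hM : MeasurableSet M) (he : ∀ i, MeasurableSet (e i))
    (i : Idx ρ) : ∀ᵐ ω ∂μ, ω ∉ M → (TL μ p M e (bf ρ i) : Ω → ℝ) ω = 0 := by
  have h := memLp_Fn μ p M e hM he (dep_bf ρ i)
  rw [TL_eq h]
  filter_upwards [h.coeFn_toLp] with ω hω hωM
  rw [hω]
  simp [Fn, hωM]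

/-- the span of the system contains the element of `h` -/
def Good (μ : Measure Ω) [IsFiniteMeasure μ] (p : ℝ≥0∞) (M : Set Ω) (e : ι → Set Ω)
    (ρ : ι → ι → ℕ) [Fact (1 ≤ p)] (h : (ι → Bool) → ℝ) : Prop :=
  (∃ V : Finset ι, DependsOn h (V : Set ι)) ∧
    TL μ p M e h ∈ Submodule.span ℝ (Set.range fun i => TL μ p M e (bf ρ i))

variable [Fact (1 ≤ p)]

theorem Good.add (hM : MeasurableSet M) (he : ∀ i, MeasurableSet (e i)) {ρ : ι → ι → ℕ}
    {h g : (ι → Bool) → ℝ} (hh : Good μ p M e ρ h) (hg : Good μ p M e ρ g) :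
    Good μ p M e ρ (fun ξ => h ξ + g ξ) := by
  obtain ⟨⟨V, hV⟩, h1⟩ := hh
  obtain ⟨⟨W, hW⟩, h2⟩ := hg
  refine ⟨⟨V ∪ W, ?_⟩, ?_⟩
  · intro x y hxy
    show h x + g x = h y + g y
    rw [hV fun i hi => hxy i (by simpa using Or.inl (Finset.mem_coe.1 hi)),
      hW fun i hi => hxy i (by simpa using Or.inr (Finset.mem_coe.1 hi))]
  · rw [TL_add (memLp_Fn μ p M e hM he hV) (memLp_Fn μ p M e hM he hW)]
    exact Submodule.add_mem _ h1 h2

theorem Good.smul (hM : MeasurableSet M) (he : ∀ i, MeasurableSet (e i)) {ρ : ι → ι → ℕ}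
    {h : (ι → Bool) → ℝ} (c : ℝ) (hh : Good μ p M e ρ h) :
    Good μ p M e ρ (fun ξ => c * h ξ) := by
  obtain ⟨⟨V, hV⟩, h1⟩ := hh
  refine ⟨⟨V, dependsOn_mul_const c hV⟩, ?_⟩
  rw [TL_smul c (memLp_Fn μ p M e hM he hV)]
  exact Submodule.smul_mem _ _ h1

theorem good_bf (ρ : ι → ι → ℕ) (i : Idx ρ) : Good μ p M e ρ (bf ρ i) :=
  ⟨⟨supp ρ i, dep_bf ρ i⟩, Submodule.subset_span ⟨i, rfl⟩⟩

theorem Good.sum (hM : MeasurableSet M) (he : ∀ i, MeasurableSet (e i)) {ρ : ι → ι → ℕ}
    {κ : Type} (S : Finset κ) (h : κ → (ι → Bool) → ℝ) (hh : ∀ k ∈ S, Good μ p M e ρ (h k)) :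
    Good μ p M e ρ (fun ξ => ∑ k ∈ S, h k ξ) := by
  classical
  induction S using Finset.induction_on with
  | empty =>
    have := (good_bf (μ := μ) (p := p) (M := M) (e := e) ρ (.inl ())).smul hM he 0
    simpa using this
  | insert a S ha ih =>
    simp only [Finset.sum_insert ha]
    exact (hh a (Finset.mem_insert_self _ _)).add hM he
      (ih fun k hk => hh k (Finset.mem_insert_of_mem hk))

theorem split_coord (h : (ι → Bool) → ℝ) (x : ι) (ξ : ι → Bool) :
    h ξ = (h (Function.update ξ x true) + h (Function.update ξ x false)) / 2 +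
      sg (ξ x) * ((h (Function.update ξ x true) - h (Function.update ξ x false)) / 2) := by
  have h1 : Function.update ξ x (ξ x) = ξ := Function.update_eq_self x ξ
  cases hx : ξ x
  · rw [hx] at h1
    rw [h1]
    simp [sg]
    ring
  · rw [hx] at h1
    rw [h1]
    simp [sg]
    ring

theorem dep_update {U : Finset ι} {h : (ι → Bool) → ℝ} (hd : DependsOn h (U : Set ι)) (x : ι)
    (b : Bool) : DependsOn (fun ξ => h (Function.update ξ x b)) ((U.erase x : Finset ι) : Set ι) := by
  intro ξ ζ hξ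
  apply hd
  intro i hi
  by_cases hix : i = x
  · subst hix
    simp
  · rw [Function.update_of_ne hix, Function.update_of_ne hix]
    exact hξ i (by simp [hix, Finset.mem_coe.1 hi])

theorem good_sg (hM : MeasurableSet M) (he : ∀ i, MeasurableSet (e i)) {ρ : ι → ι → ℕ}
    (hρ : RhoFun ρ) (β : ι) (n : ℕ) : ∀ (U : Finset ι), U.card = n → (∀ y ∈ U, y < β) →
      ∀ h : (ι → Bool) → ℝ, DependsOn h (U : Set ι) →
        Good μ p M e ρ (fun ξ => sg (ξ β) * h ξ) := by
  classical
  induction n with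
  | zero =>
    intro U hU _ h hd
    rw [Finset.card_eq_zero] at hU
    subst hU
    have h1 : ∀ ξ, h ξ = h fun _ => true := fun ξ => hd fun i hi => by simp at hi
    have h2 := (good_bf (μ := μ) (p := p) (M := M) (e := e) ρ (.inr (.inl β))).smul hM he
      (h fun _ => true)
    have h3 : (fun ξ => sg (ξ β) * h ξ) =
        fun ξ => (h fun _ => true) * bf ρ (.inr (.inl β)) ξ := by
      funext ξ
      rw [h1 ξ]
      simp only [bf]
      ring
    rw [h3]
    exact h2
  | succ n ih =>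
    intro U hU hUβ h hd
    have hne : U.Nonempty := by
      rw [← Finset.card_pos, hU]
      exact Nat.succ_pos n
    obtain ⟨x, hxU, hx⟩ := Finset.exists_max_image U (fun y => ρ y β) hne
    have hsub : U.erase x ⊆ Pf ρ β x := by
      intro y hy
      rw [Finset.mem_erase] at hy
      rw [mem_Pf ρ hρ]
      refine ⟨hUβ y hy.2, lt_of_le_of_ne (hx y hy.2) fun h1 => hy.1 ?_⟩
      exact hρ.inj y x β (hUβ y hy.2) (hUβ x hxU) h1
    have hcard : (U.erase x).card = n := by
      rw [Finset.card_erase_of_mem hxU, hU]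
      rfl
    have hd1 := dep_update hd x true
    have hd2 := dep_update hd x false
    have hd3 : DependsOn (fun ξ => (h (Function.update ξ x true) +
        h (Function.update ξ x false)) / 2) ((U.erase x : Finset ι) : Set ι) := by
      intro ξ ζ hξ
      simp only
      rw [show h (Function.update ξ x true) = h (Function.update ζ x true) from hd1 hξ,
        show h (Function.update ξ x false) = h (Function.update ζ x false) from hd2 hξ]
    have hd4 : DependsOn (fun ξ => (h (Function.update ξ x true) -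
        h (Function.update ξ x false)) / 2) ((U.erase x : Finset ι) : Set ι) := by
      intro ξ ζ hξ
      simp only
      rw [show h (Function.update ξ x true) = h (Function.update ζ x true) from hd1 hξ,
        show h (Function.update ξ x false) = h (Function.update ζ x false) from hd2 hξ]
    have hg1 := ih (U.erase x) hcard (fun y hy => hUβ y (Finset.mem_of_mem_erase hy)) _ hd3
    have hg2 : Good μ p M e ρ (fun ξ => ∑ B ∈ (Pf ρ β x).powerset.attach,
        (fun ξ => (h (Function.update ξ x true) - h (Function.update ξ x false)) / 2)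
          (fun y => decide (y ∈ B.1)) *
          bf ρ (.inr (.inr ⟨(β, x, B.1), hUβ x hxU, Finset.mem_powerset.1 B.2⟩)) ξ) :=
      Good.sum hM he _ _ fun B _ => (good_bf ρ _).smul hM he _
    have h5 := hg1.add hM he hg2
    convert h5 using 2 with ξ
    rw [split_coord h x ξ, mul_add]
    congr 1
    have hpat : pat ρ β x ξ ∈ (Pf ρ β x).powerset :=
      Finset.mem_powerset.2 (Finset.filter_subset _ _)
    rw [Finset.sum_eq_single (⟨pat ρ β x ξ, hpat⟩ : {B // B ∈ (Pf ρ β x).powerset})]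
    · simp only [bf, if_true, mul_one]
      have h6 : (h (Function.update ξ x true) - h (Function.update ξ x false)) / 2 =
          (h (Function.update (fun y => decide (y ∈ pat ρ β x ξ)) x true) -
            h (Function.update (fun y => decide (y ∈ pat ρ β x ξ)) x false)) / 2 := by
        refine hd4 fun y hy => ?_
        have hy' := hsub (Finset.mem_coe.1 hy)
        rw [Bool.eq_iff_iff, decide_eq_true_eq]
        simp [pat, hy']
      rw [h6]
      ring
    · intro B _ hB
      simp only [bf]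
      rw [if_neg, mul_zero, mul_zero]
      intro h7
      exact hB (Subtype.ext h7.symm)
    · intro h7
      exact absurd (Finset.mem_attach _ _) h7

theorem good_all (hM : MeasurableSet M) (he : ∀ i, MeasurableSet (e i)) {ρ : ι → ι → ℕ}
    (hρ : RhoFun ρ) (n : ℕ) : ∀ (U : Finset ι), U.card = n →
      ∀ h : (ι → Bool) → ℝ, DependsOn h (U : Set ι) → Good μ p M e ρ h := by
  classical
  induction n with
  | zero =>
    intro U hU h hd
    rw [Finset.card_eq_zero] at hU
    subst hU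
    have h1 : ∀ ξ, h ξ = h fun _ => true := fun ξ => hd fun i hi => by simp at hi
    have h2 := (good_bf (μ := μ) (p := p) (M := M) (e := e) ρ (.inl ())).smul hM he
      (h fun _ => true)
    have h3 : h = fun ξ => (h fun _ => true) * bf ρ (.inl ()) ξ := by
      funext ξ
      rw [h1 ξ]
      simp only [bf]
      ring
    rw [h3]
    exact h2
  | succ n ih =>
    intro U hU h hd
    have hne : U.Nonempty := by
      rw [← Finset.card_pos, hU]
      exact Nat.succ_pos n
    set β := U.max' hne with hβ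
    have hβU : β ∈ U := U.max'_mem hne
    have hlt : ∀ y ∈ U.erase β, y < β := by
      intro y hy
      rw [Finset.mem_erase] at hy
      exact lt_of_le_of_ne (U.le_max' y hy.2) hy.1
    have hcard : (U.erase β).card = n := by
      rw [Finset.card_erase_of_mem hβU, hU]
      rfl
    have hd1 := dep_update hd β true
    have hd2 := dep_update hd β false
    have hd3 : DependsOn (fun ξ => (h (Function.update ξ β true) +
        h (Function.update ξ β false)) / 2) ((U.erase β : Finset ι) : Set ι) := by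
      intro ξ ζ hξ
      simp only
      rw [show h (Function.update ξ β true) = h (Function.update ζ β true) from hd1 hξ,
        show h (Function.update ξ β false) = h (Function.update ζ β false) from hd2 hξ]
    have hd4 : DependsOn (fun ξ => (h (Function.update ξ β true) -
        h (Function.update ξ β false)) / 2) ((U.erase β : Finset ι) : Set ι) := by
      intro ξ ζ hξ
      simp only
      rw [show h (Function.update ξ β true) = h (Function.update ζ β true) from hd1 hξ,
        show h (Function.update ξ β false) = h (Function.update ζ β false) from hd2 hξ]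
    have hg1 := ih (U.erase β) hcard _ hd3
    have hg2 := good_sg (μ := μ) (p := p) hM he hρ β n (U.erase β) hcard hlt _ hd4
    have h5 := hg1.add hM he hg2
    convert h5 using 1
    funext ξ
    exact split_coord h β ξ

theorem dense_sys (hp0 : p ≠ 0) (hp : p ≠ ⊤) (hM : MeasurableSet M)
    (he : ∀ i, MeasurableSet (e i)) {ρ : ι → ι → ℕ} (hρ : RhoFun ρ)
    (hgen : Generates (μ.restrict M) e) (D : Set Ω) (hD : MeasurableSet D) (hμ : μ D ≠ ⊤)
    (hDM : D ⊆ M) : indicatorConstLp p hD hμ (1 : ℝ) ∈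
      closure (Submodule.span ℝ (Set.range fun i => TL μ p M e (bf ρ i)) : Set (Lp ℝ p μ)) := by
  classical
  have hpp : 0 < p.toReal := ENNReal.toReal_pos hp0 hp
  rw [Metric.mem_closure_iff]
  intro δ hδ
  have hδ2 : 0 < (δ / 2) ^ p.toReal := Real.rpow_pos_of_pos (by linarith) _
  obtain ⟨S, 𝒯, hST⟩ := hgen D hD (ENNReal.ofReal ((δ / 2) ^ p.toReal))
    (ENNReal.ofReal_pos.2 hδ2).ne'
  set E : Set Ω := {ω | ∃ T ∈ 𝒯, ∀ i ∈ S, (ω ∈ e i ↔ i ∈ T)} with hE
  have hEm : MeasurableSet E := by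
    have : E = ⋃ T ∈ 𝒯, ⋂ i ∈ S, {ω | ω ∈ e i ↔ i ∈ T} := by
      ext ω
      simp [hE]
    rw [this]
    refine Finset.measurableSet_biUnion _ fun T _ => Finset.measurableSet_biInter _ fun i _ => ?_
    by_cases hiT : i ∈ T
    · simp only [hiT, iff_true]
      exact he i
    · simp only [hiT, iff_false]
      exact (he i).compl
  set h : (ι → Bool) → ℝ := fun ξ => if ∃ T ∈ 𝒯, ∀ i ∈ S, (ξ i = true ↔ i ∈ T) then 1 else 0
    with hh
  have hd : DependsOn h (S : Set ι) := by
    intro ξ ζ hξ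
    simp only [hh]
    congr 1
    refine propext ⟨?_, ?_⟩
    · rintro ⟨T, hT, h1⟩
      exact ⟨T, hT, fun i hi => by rw [← hξ i (Finset.mem_coe.2 hi)]; exact h1 i hi⟩
    · rintro ⟨T, hT, h1⟩
      exact ⟨T, hT, fun i hi => by rw [hξ i (Finset.mem_coe.2 hi)]; exact h1 i hi⟩
  have hFn : Fn M e h = (M ∩ E).indicator fun _ => (1 : ℝ) := by
    funext ω
    unfold Fn
    by_cases hωM : ω ∈ M
    · rw [Set.indicator_of_mem hωM]
      have h1 : (∃ T ∈ 𝒯, ∀ i ∈ S, (X e ω i = true ↔ i ∈ T)) ↔ ω ∈ E := by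
        simp only [X_eq_true, hE, Set.mem_ofPred_eq]
      by_cases hωE : ω ∈ E
      · rw [Set.indicator_of_mem (show ω ∈ M ∩ E from ⟨hωM, hωE⟩)]
        simp only [hh]
        rw [if_pos (h1.2 hωE)]
      · rw [Set.indicator_of_notMem (show ω ∉ M ∩ E from fun h2 => hωE h2.2)]
        simp only [hh]
        rw [if_neg fun h2 => hωE (h1.1 h2)]
    · rw [Set.indicator_of_notMem hωM, Set.indicator_of_notMem (show ω ∉ M ∩ E from fun h2 => hωM h2.1)]
  have hTL : TL μ p M e h = indicatorConstLp p (hM.inter hEm) (measure_ne_top _ _) (1 : ℝ) := by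
    rw [TL_eq (memLp_Fn μ p M e hM he hd), indicatorConstLp]
    exact MemLp.toLp_congr _ _ (ae_of_all _ fun ω => congrFun hFn ω)
  refine ⟨TL μ p M e h, (good_all hM he hρ S.card S rfl h hd).2, ?_⟩
  rw [hTL, dist_indicatorConstLp_eq_norm, norm_indicatorConstLp hp0 hp]
  have h1 : μ.real (symmDiff D (M ∩ E)) ≤ (δ / 2) ^ p.toReal := by
    have h2 : μ (symmDiff D (M ∩ E)) ≤ ENNReal.ofReal ((δ / 2) ^ p.toReal) := by
      refine le_trans ?_ hST.le
      rw [Measure.restrict_apply (hD.symmDiff hEm)]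
      refine measure_mono ?_
      intro ω hω
      rcases hω with ⟨h3, h4⟩ | ⟨h3, h4⟩
      · exact ⟨Or.inl ⟨h3, fun h5 => h4 ⟨hDM h3, h5⟩⟩, hDM h3⟩
      · exact ⟨Or.inr ⟨h3.2, h4⟩, h3.1⟩
    rw [Measure.real]
    exact (ENNReal.toReal_le_toReal (measure_ne_top _ _) ENNReal.ofReal_ne_top).2 h2 |>.trans
      (by rw [ENNReal.toReal_ofReal hδ2.le])
  rw [norm_one, one_mul]
  calc μ.real (symmDiff D (M ∩ E)) ^ (1 / p.toReal) ≤
        ((δ / 2) ^ p.toReal) ^ (1 / p.toReal) :=
        Real.rpow_le_rpow measureReal_nonneg h1 (by positivity)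
    _ = δ / 2 := by
        rw [one_div, Real.rpow_rpow_inv (by linarith) hpp.ne']
    _ < δ := by linarith

end final

end FairSys

/-- Module H, with the finite inequality as a hypothesis. -/
theorem exists_USys_of_fair_aux {Ω : Type} [MeasurableSpace Ω] (μ : Measure Ω) [IsFiniteMeasure μ]
    (p : ℝ≥0∞) [Fact (1 ≤ p)] (hp : p ≠ ⊤) (M : Set Ω) (hM : MeasurableSet M)
    (hμM : μ M ≠ 0) (ι : Type) [LinearOrder ι] (ρ : ι → ι → ℕ) (hρ : RhoFun ρ)
    (e : ι → Set Ω) (he : ∀ i, MeasurableSet (e i)) (hfair : FairIndep (μ.restrict M) e)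
    (hgen : Generates (μ.restrict M) e) (C : ℝ) (hC : 1 ≤ C)
    (hb : FairSys.SynthBound p.toReal C) :
    ∃ (I : Type) (f : I → Lp ℝ p μ) (C : ℝ), 1 ≤ C ∧ USys μ p M f C := by
  have hp0 : p ≠ 0 := (lt_of_lt_of_le zero_lt_one (Fact.out : 1 ≤ p)).ne'
  refine ⟨FairSys.Idx ρ, fun i => FairSys.TL μ p M e (FairSys.bf ρ i), C, hC, ?_⟩
  exact {
    ne_zero := FairSys.ne_zero_sys hM hμM he hfair hp0 hp ρ
    supp := FairSys.supp_sys ρ hM he
    dense := fun D hD hμ hDM => FairSys.dense_sys hp0 hp hM he hρ hgen D hD hμ hDM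
    ineq := fun S a ε hε => FairSys.ineq_sys hM he hfair hp0 hp ρ hρ C hC hb S a ε hε }

/-- Module H, with `synth_Lp` as the hypothesis `hsynth`. -/
theorem exists_USys_of_fair_of
    (hsynth : ∀ p : ℝ, 1 < p → ∃ C : ℝ, 1 ≤ C ∧ FairSys.SynthBound p C)
    {Ω : Type} [MeasurableSpace Ω] (μ : Measure Ω) [IsFiniteMeasure μ]
    (p : ℝ≥0∞) [Fact (1 ≤ p)] (hp1 : 1 < p) (hp : p ≠ ⊤) (M : Set Ω) (hM : MeasurableSet M)
    (hμM : μ M ≠ 0) (ι : Type) [LinearOrder ι] (ρ : ι → ι → ℕ) (hρ : RhoFun ρ)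
    (e : ι → Set Ω) (he : ∀ i, MeasurableSet (e i)) (hfair : FairIndep (μ.restrict M) e)
    (hgen : Generates (μ.restrict M) e) :
    ∃ (I : Type) (f : I → Lp ℝ p μ) (C : ℝ), 1 ≤ C ∧ USys μ p M f C := by
  have h1 : 1 < p.toReal := by
    have := (ENNReal.toReal_lt_toReal ENNReal.one_ne_top hp).2 hp1
    simpa using this
  obtain ⟨C, hC, hb⟩ := hsynth p.toReal h1
  exact exists_USys_of_fair_aux μ p hp M hM hμM ι ρ hρ e he hfair hgen C hC hb

end Pool.Agent.LpBasis
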