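import Pool.Agent.Hhelper27.LpBasis.Maharam

/-! Fair independent generating sets by well-founded recursion. -/

set_option autoImplicit false

namespace Pool.Agent.LpBasis

open MeasureTheory ENNReal Set

namespace Gen

variable {Ω : Type} [m0 : MeasurableSpace Ω] {ν : Measure Ω} {ι : Type}

/-- `A` depends on finitely many of the sets `e i` -/
def Fnt (e : ι → Set Ω) (A : Set Ω) : Prop := by
  classical
  exact ∃ (S : Finset ι) (P : Finset ι → Prop), ∀ ω, ω ∈ A ↔ P (S.filter (fun i => ω ∈ e i))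

theorem Fnt.compl {e : ι → Set Ω} {A : Set Ω} (h : Fnt e A) : Fnt e Aᶜ := by
  obtain ⟨S, P, hP⟩ := h
  exact ⟨S, fun T => ¬ P T, fun ω => by rw [mem_compl_iff, hP]⟩

theorem Fnt.union {e : ι → Set Ω} {A B : Set Ω} (hA : Fnt e A) (hB : Fnt e B) :
    Fnt e (A ∪ B) := by
  classical
  obtain ⟨S, P, hP⟩ := hA
  obtain ⟨S', P', hP'⟩ := hB
  refine ⟨S ∪ S', fun T => P (T ∩ S) ∨ P' (T ∩ S'), fun ω => ?_⟩
  have e1 : (S ∪ S').filter (fun i => ω ∈ e i) ∩ S = S.filter (fun i => ω ∈ e i) := by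
    ext i; simp only [Finset.mem_inter, Finset.mem_filter, Finset.mem_union]; tauto
  have e2 : (S ∪ S').filter (fun i => ω ∈ e i) ∩ S' = S'.filter (fun i => ω ∈ e i) := by
    ext i; simp only [Finset.mem_inter, Finset.mem_filter, Finset.mem_union]; tauto
  have h1 := hP ω
  have h2 := hP' ω
  rw [mem_union, h1, h2]
  constructor
  · rintro (h | h)
    · left; convert h
    · right; convert h
  · rintro (h | h)
    · left; convert h; exact e1.symm
    · right; convert h; exact e2.symm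

theorem Fnt.empty (e : ι → Set Ω) : Fnt e ∅ :=
  ⟨∅, fun _ => False, fun ω => by simp⟩

theorem Fnt.base (e : ι → Set Ω) (i : ι) : Fnt e (e i) := by
  classical
  refine ⟨{i}, fun T => i ∈ T, fun ω => ?_⟩
  simp

theorem Fnt.form {e : ι → Set Ω} {A : Set Ω} (h : Fnt e A) :
    ∃ (S : Finset ι) (𝒯 : Finset (Finset ι)), A = {ω | ∃ T ∈ 𝒯, ∀ i ∈ S, (ω ∈ e i ↔ i ∈ T)} := by
  classical
  obtain ⟨S, P, hP⟩ := h
  refine ⟨S, S.powerset.filter P, ?_⟩
  ext ω
  rw [hP, mem_setOf_eq]
  constructor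
  · intro h
    refine ⟨S.filter (fun i => ω ∈ e i), ?_, ?_⟩
    · rw [Finset.mem_filter, Finset.mem_powerset]
      exact ⟨Finset.filter_subset _ _, by convert h⟩
    · intro i hi
      simp [hi]
  · rintro ⟨T, hT, hi⟩
    rw [Finset.mem_filter, Finset.mem_powerset] at hT
    have : S.filter (fun i => ω ∈ e i) = T := by
      ext i
      rw [Finset.mem_filter]
      constructor
      · rintro ⟨h1, h2⟩; exact (hi i h1).mp h2
      · intro h; exact ⟨hT.1 h, (hi i (hT.1 h)).mpr h⟩
    convert hT.2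

/-- approximable by such sets -/
def Apx (ν : Measure Ω) (e : ι → Set Ω) (A : Set Ω) : Prop :=
  ∀ ε : ℝ≥0∞, ε ≠ 0 → ∃ A', Fnt e A' ∧ ν (symmDiff A A') < ε

theorem Apx.of_fnt {e : ι → Set Ω} {A : Set Ω} (h : Fnt e A) : Apx ν e A :=
  fun ε hε => ⟨A, h, by
    rw [symmDiff_self]
    show ν ∅ < ε
    rw [measure_empty]; exact pos_iff_ne_zero.mpr hε⟩

theorem Apx.compl {e : ι → Set Ω} {A : Set Ω} (h : Apx ν e A) : Apx ν e Aᶜ := by
  intro ε hε
  obtain ⟨A', h1, h2⟩ := h ε hε
  exact ⟨A'ᶜ, h1.compl, by rw [compl_symmDiff_compl]; exact h2⟩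

theorem symmDiff_iUnion_subset (A B : ℕ → Set Ω) (N : ℕ) :
    symmDiff (⋃ n, A n) (⋃ n ∈ Finset.range N, B n) ⊆
      ((⋃ n, A n) \ (⋃ n ∈ Finset.range N, A n)) ∪ ⋃ n, symmDiff (A n) (B n) := by
  rintro x (⟨h1, h2⟩ | ⟨h1, h2⟩)
  · by_cases hx : x ∈ ⋃ n ∈ Finset.range N, A n
    · right
      simp only [mem_iUnion] at hx h2 ⊢
      obtain ⟨n, hn, hxn⟩ := hx
      refine ⟨n, Or.inl ⟨hxn, fun hb => h2 ⟨n, hn, hb⟩⟩⟩
    · exact Or.inl ⟨h1, hx⟩
  · right
    simp only [mem_iUnion] at h1 h2 ⊢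
    obtain ⟨n, hn, hxn⟩ := h1
    exact ⟨n, Or.inr ⟨hxn, fun ha => h2 ⟨n, ha⟩⟩⟩

theorem fnt_biUnion {e : ι → Set Ω} (B : ℕ → Set Ω) (hB : ∀ n, Fnt e (B n)) (N : ℕ) :
    Fnt e (⋃ n ∈ Finset.range N, B n) := by
  induction N with
  | zero => simpa using Fnt.empty e
  | succ N ih =>
    rw [Finset.range_add_one, Finset.set_biUnion_insert]
    exact (hB N).union ih

theorem Apx.iUnion [IsFiniteMeasure ν] {e : ι → Set Ω} (A : ℕ → Set Ω)
    (hm : ∀ n, MeasurableSet (A n)) (h : ∀ n, Apx ν e (A n)) : Apx ν e (⋃ n, A n) := by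
  intro ε hε
  have hε2 : ε / 2 ≠ 0 := by
    rw [Ne, ENNReal.div_eq_zero_iff]; push Not; exact ⟨hε, ofNat_ne_top⟩
  obtain ⟨ε', hε'0, hε's⟩ := ENNReal.exists_pos_sum_of_countable' hε2 ℕ
  choose B hB1 hB2 using fun n => h n (ε' n) (hε'0 n).ne'
  -- tails
  have ht : Filter.Tendsto (fun N => ν ((⋃ n, A n) \ (⋃ n ∈ Finset.range N, A n))) Filter.atTop
      (nhds 0) := by
    have h1 : Filter.Tendsto (fun N => ν ((⋃ n, A n) \ (⋃ n ∈ Finset.range N, A n))) Filter.atTop
        (nhds (ν (⋂ N, (⋃ n, A n) \ (⋃ n ∈ Finset.range N, A n)))) := by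
      refine tendsto_measure_iInter_atTop ?_ ?_ ⟨0, measure_ne_top _ _⟩
      · intro N
        exact ((MeasurableSet.iUnion hm).diff
          (Finset.measurableSet_biUnion _ (fun n _ => hm n))).nullMeasurableSet
      · intro i j hij
        exact diff_subset_diff_right (biUnion_subset_biUnion_left (fun n hn => by
          simp only [Finset.coe_range, mem_Iio] at hn ⊢
          exact lt_of_lt_of_le hn hij))
    have h2 : (⋂ N, (⋃ n, A n) \ (⋃ n ∈ Finset.range N, A n)) = ∅ := by
      ext x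
      simp only [mem_iInter, mem_empty_iff_false, iff_false]
      intro hx
      have hx0 := (hx 0).1
      rw [mem_iUnion] at hx0
      obtain ⟨n, hn⟩ := hx0
      refine (hx (n + 1)).2 ?_
      simp only [mem_iUnion]
      exact ⟨n, Finset.mem_range.mpr (Nat.lt_succ_self n), hn⟩
    rwa [h2, measure_empty] at h1
  obtain ⟨N, hN⟩ := (ht.eventually (gt_mem_nhds (pos_iff_ne_zero.mpr hε2))).exists
  refine ⟨⋃ n ∈ Finset.range N, B n, fnt_biUnion B hB1 N, ?_⟩
  calc ν (symmDiff (⋃ n, A n) (⋃ n ∈ Finset.range N, B n))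
      ≤ ν ((⋃ n, A n) \ (⋃ n ∈ Finset.range N, A n)) + ν (⋃ n, symmDiff (A n) (B n)) :=
        (measure_mono (symmDiff_iUnion_subset A B N)).trans (measure_union_le _ _)
    _ ≤ ν ((⋃ n, A n) \ (⋃ n ∈ Finset.range N, A n)) + ∑' n, ε' n := by
        refine add_le_add_right ?_ _
        exact (measure_iUnion_le _).trans (ENNReal.tsum_le_tsum (fun n => (hB2 n).le))
    _ < ε / 2 + ε / 2 := ENNReal.add_lt_add hN hε's
    _ = ε := ENNReal.add_halves ε

theorem apx_generate [IsFiniteMeasure ν] {e : ι → Set Ω} (he : ∀ i, MeasurableSet (e i))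
    {A : Set Ω} (hA : MeasurableSet[MeasurableSpace.generateFrom (range e)] A) :
    Apx ν e A ∧ MeasurableSet A := by
  induction A, hA using MeasurableSpace.generateFrom_induction with
  | hC t ht _ =>
    obtain ⟨i, rfl⟩ := ht
    exact ⟨Apx.of_fnt (Fnt.base e i), he i⟩
  | empty => exact ⟨Apx.of_fnt (Fnt.empty e), MeasurableSet.empty⟩
  | compl t _ ih => exact ⟨ih.1.compl, ih.2.compl⟩
  | iUnion s _ ih => exact ⟨Apx.iUnion s (fun n => (ih n).2) (fun n => (ih n).1),
      MeasurableSet.iUnion (fun n => (ih n).2)⟩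

/-! ### recursion -/

/-- the property of the set chosen at a stage, relative to the σ-algebra `m` -/
def Q (ν : Measure Ω) (m : MeasurableSpace Ω) (D e : Set Ω) : Prop :=
  MeasurableSet[m0] e ∧ (∀ A, MeasurableSet[m] A → ν (A ∩ e) = ν A / 2) ∧
      ∃ G, MeasurableSet[m] G ∧ ν (G ∩ (e \ D)) = 0 ∧ ν (Gᶜ ∩ (D \ e)) = 0

section rec

variable [LinearOrder ι] [WellFoundedLT ι]

open Classical in
/-- total extension of a partial family -/
noncomputable def ext (β : ι) (r : ∀ γ, γ < β → Set Ω) (γ : ι) : Set Ω :=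
  if h : γ < β then r γ h else ∅

open Classical in
/-- one stage of the recursion -/
noncomputable def stage (ν : Measure Ω) (D : ι → Set Ω) (β : ι) (r : ∀ γ, γ < β → Set Ω) : Set Ω :=
  if h : ∃ e, Q ν (MeasurableSpace.generateFrom (ext β r '' Iio β)) (D β) e then h.choose else ∅

/-- the family -/
noncomputable def fam (ν : Measure Ω) (D : ι → Set Ω) : ι → Set Ω :=
  (wellFounded_lt (α := ι)).fix (stage ν D)

theorem fam_eq (D : ι → Set Ω) (β : ι) : fam ν D β = stage ν D β (fun γ _ => fam ν D γ) :=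
  (wellFounded_lt (α := ι)).fix_eq (stage ν D) β

theorem ext_image (D : ι → Set Ω) (β : ι) :
    ext β (fun γ _ => fam ν D γ) '' Iio β = fam ν D '' Iio β := by
  ext s
  simp only [mem_image, mem_Iio]
  constructor
  · rintro ⟨γ, h, rfl⟩
    exact ⟨γ, h, by simp [ext, h]⟩
  · rintro ⟨γ, h, rfl⟩
    exact ⟨γ, h, by simp [ext, h]⟩

theorem fam_spec [IsProbabilityMeasure ν] (D : ι → Set Ω) (hD : ∀ β, MeasurableSet (D β))
    (hrel : ∀ (β : ι) (e : ι → Set Ω), (∀ i, MeasurableSet (e i)) →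
      RelAtomless (MeasurableSpace.generateFrom (e '' Set.Iio β)) ν) (β : ι) :
    Q ν (MeasurableSpace.generateFrom (fam ν D '' Iio β)) (D β) (fam ν D β) := by
  induction β using WellFoundedLT.induction with
  | ind β ih =>
    have hmeas : ∀ i, MeasurableSet (ext β (fun γ _ => fam ν D γ) i) := by
      intro i
      by_cases h : i < β
      · have : ext β (fun γ _ => fam ν D γ) i = fam ν D i := by simp [ext, h]
        rw [this]
        exact (ih i h).1
      · have : ext β (fun γ _ => fam ν D γ) i = ∅ := by simp [ext, h]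
        rw [this]
        exact MeasurableSet.empty
    have hr := hrel β _ hmeas
    have hle : MeasurableSpace.generateFrom (ext β (fun γ _ => fam ν D γ) '' Iio β) ≤ m0 := by
      refine MeasurableSpace.generateFrom_le ?_
      rintro s ⟨i, _, rfl⟩
      exact hmeas i
    have hex : ∃ e, Q ν (MeasurableSpace.generateFrom (ext β (fun γ _ => fam ν D γ) '' Iio β))
        (D β) e := maharam_half _ ν hle hr (D β) (hD β)
    rw [fam_eq, stage, dif_pos hex, ← ext_image]
    exact hex.choose_spec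

end rec

end Gen

open Gen in
theorem exists_generating {Ω : Type} [m0 : MeasurableSpace Ω] (ν : Measure Ω)
    [IsProbabilityMeasure ν] (ι Δ : Type) [LinearOrder ι] [WellFoundedLT ι]
    (g : Δ × ℕ ↪ ι) [Nonempty Δ] (D : Δ → Set Ω) (hD : ∀ δ, MeasurableSet (D δ))
    (hdense : ∀ B, MeasurableSet B → ∀ ε : ℝ≥0∞, ε ≠ 0 → ∃ δ, ν (symmDiff B (D δ)) < ε)
    (hrel : ∀ (β : ι) (e : ι → Set Ω), (∀ i, MeasurableSet (e i)) →
      RelAtomless (MeasurableSpace.generateFrom (e '' Set.Iio β)) ν) :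
    ∃ e : ι → Set Ω, (∀ i, MeasurableSet (e i)) ∧ FairIndep ν e ∧ Generates ν e := by
  classical
  let D' : ι → Set Ω := fun β =>
    if h : ∃ x : Δ × ℕ, g x = β then D h.choose.1 else D (Classical.arbitrary Δ)
  have hD' : ∀ β, MeasurableSet (D' β) := by
    intro β
    simp only [D']
    split_ifs <;> exact hD _
  have hD'g : ∀ δ n, D' (g (δ, n)) = D δ := by
    intro δ n
    have h : ∃ x : Δ × ℕ, g x = g (δ, n) := ⟨_, rfl⟩
    have h2 : D' (g (δ, n)) = D h.choose.1 := by
      simp only [D']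
      rw [dif_pos h]
    rw [h2, g.injective h.choose_spec]
  have hQ := fam_spec (ν := ν) D' hD' hrel
  obtain ⟨e, he⟩ : ∃ e, e = fam ν D' := ⟨_, rfl⟩
  rw [← he] at hQ
  have hem : ∀ i, MeasurableSet (e i) := fun i => (hQ i).1
  have hle : ∀ T : Set ι, MeasurableSpace.generateFrom (e '' T) ≤ m0 := by
    intro T
    refine MeasurableSpace.generateFrom_le ?_
    rintro s ⟨i, _, rfl⟩
    exact hem i
  have hmono : ∀ T T' : Set ι, T ⊆ T' → MeasurableSpace.generateFrom (e '' T) ≤
      MeasurableSpace.generateFrom (e '' T') :=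
    fun T T' h => MeasurableSpace.generateFrom_mono (image_mono h)
  have hbase : ∀ (T : Set ι) i, i ∈ T → MeasurableSet[MeasurableSpace.generateFrom (e '' T)] (e i) :=
    fun T i hi => MeasurableSpace.measurableSet_generateFrom ⟨i, hi, rfl⟩
  refine ⟨e, hem, ?_, ?_⟩
  · -- fair independence
    intro S
    induction S using Finset.induction_on_max with
    | empty =>
      intro T hT
      rw [Finset.subset_empty] at hT
      subst hT
      simp
    | insert a S hmax ih =>
      intro T hT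
      have haS : a ∉ S := fun h => lt_irrefl _ (hmax a h)
      obtain ⟨A, hA⟩ : ∃ A : Set Ω, A = {ω | ∀ i ∈ S, (ω ∈ e i ↔ i ∈ T ∩ S)} := ⟨_, rfl⟩
      have hAmeas : MeasurableSet[MeasurableSpace.generateFrom (e '' Iio a)] A := by
        have : A = ⋂ i ∈ S, (if i ∈ T then e i else (e i)ᶜ) := by
          rw [hA]
          ext ω
          simp only [mem_setOf_eq, mem_iInter, Finset.mem_inter]
          refine forall₂_congr (fun i hi => ?_)
          by_cases h : i ∈ T <;> simp [h, hi]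
        rw [this]
        refine Finset.measurableSet_biInter _ (fun i hi => ?_)
        have hb := hbase (Iio a) i (hmax i hi)
        split_ifs
        · exact hb
        · exact hb.compl
      have hAν : ν A = ν univ / 2 ^ S.card := by
        rw [hA]; exact ih (T ∩ S) Finset.inter_subset_right
      have h1 := (hQ a).2.1 A hAmeas
      have hA0 : MeasurableSet A := hle _ _ hAmeas
      have h2 : ν (A \ e a) = ν A / 2 := by
        have h3 := measure_inter_add_sdiff (μ := ν) A (hem a)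
        rw [h1] at h3
        have h4 : ν A / 2 + ν (A \ e a) = ν A / 2 + ν A / 2 := by
          rw [h3, ENNReal.add_halves]
        exact (ENNReal.add_right_inj (ENNReal.div_ne_top (measure_ne_top _ _) two_ne_zero)).mp h4
      have h5 : ν A / 2 = ν univ / 2 ^ (insert a S).card := by
        rw [hAν, Finset.card_insert_of_notMem haS, pow_succ, div_eq_mul_inv, div_eq_mul_inv,
          div_eq_mul_inv, ENNReal.mul_inv (Or.inl (pow_ne_zero _ two_ne_zero))
          (Or.inr two_ne_zero), mul_assoc]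
      by_cases ha : a ∈ T
      · have : {ω | ∀ i ∈ insert a S, (ω ∈ e i ↔ i ∈ T)} = A ∩ e a := by
          rw [hA]
          ext ω
          simp only [mem_setOf_eq, Finset.mem_insert, forall_eq_or_imp, mem_inter_iff,
            Finset.mem_inter]
          constructor
          · rintro ⟨k1, k2⟩
            refine ⟨fun i hi => ?_, k1.mpr ha⟩
            rw [k2 i hi]
            exact ⟨fun h => ⟨h, hi⟩, fun h => h.1⟩
          · rintro ⟨k1, k2⟩
            refine ⟨⟨fun _ => ha, fun _ => k2⟩, fun i hi => ?_⟩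
            rw [k1 i hi]
            exact ⟨fun h => h.1, fun h => ⟨h, hi⟩⟩
        rw [this, h1, h5]
      · have : {ω | ∀ i ∈ insert a S, (ω ∈ e i ↔ i ∈ T)} = A \ e a := by
          rw [hA]
          ext ω
          simp only [mem_setOf_eq, Finset.mem_insert, forall_eq_or_imp, mem_sdiff,
            Finset.mem_inter]
          constructor
          · rintro ⟨k1, k2⟩
            refine ⟨fun i hi => ?_, fun h => ha (k1.mp h)⟩
            rw [k2 i hi]
            exact ⟨fun h => ⟨h, hi⟩, fun h => h.1⟩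
          · rintro ⟨k1, k2⟩
            refine ⟨⟨fun h => absurd h k2, fun h => absurd h ha⟩, fun i hi => ?_⟩
            rw [k1 i hi]
            exact ⟨fun h => h.1, fun h => ⟨h, hi⟩⟩
        rw [this, h2, h5]
  · -- generation
    have key : ∀ (δ : Δ) (N : Finset ι), (∀ s ∈ N, D' s = D δ) →
        ∃ A0 A1 : Set Ω,
          MeasurableSet[MeasurableSpace.generateFrom (e '' {γ | ∃ s ∈ N, γ ≤ s})] A0 ∧
          MeasurableSet[MeasurableSpace.generateFrom (e '' {γ | ∃ s ∈ N, γ ≤ s})] A1 ∧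
          ν (D δ ∩ A0) = 0 ∧ ν (A1 \ D δ) = 0 ∧ ν (A0 ∪ A1)ᶜ ≤ 2⁻¹ ^ N.card := by
      intro δ N
      induction N using Finset.induction_on_max with
      | empty =>
        intro _
        have hem0 : ∀ mm : MeasurableSpace Ω, MeasurableSet[mm] (∅ : Set Ω) :=
          fun mm => @MeasurableSet.empty Ω mm
        refine ⟨∅, ∅, hem0 _, hem0 _, by simp, by simp, ?_⟩
        simp
      | insert a N hmax ih =>
        intro hN
        obtain ⟨A0, A1, h0, h1, h2, h3, h4⟩ := ih (fun s hs => hN s (Finset.mem_insert_of_mem hs))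
        have haN : a ∉ N := fun h => lt_irrefl _ (hmax a h)
        obtain ⟨_, q1, G, hG, q2, q3⟩ := hQ a
        rw [hN a (Finset.mem_insert_self a N)] at q2 q3
        have hsub1 : {γ | ∃ s ∈ N, γ ≤ s} ⊆ Iio a := by
          rintro γ ⟨s, hs, hγ⟩
          exact lt_of_le_of_lt hγ (hmax s hs)
        have hsub2 : Iio a ⊆ {γ | ∃ s ∈ insert a N, γ ≤ s} := fun γ hγ =>
          ⟨a, Finset.mem_insert_self a N, le_of_lt hγ⟩
        have k0 := hmono _ _ hsub1 _ h0
        have k1 := hmono _ _ hsub1 _ h1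
        have hea : MeasurableSet[MeasurableSpace.generateFrom
            (e '' {γ | ∃ s ∈ insert a N, γ ≤ s})] (e a) :=
          hbase _ a ⟨a, Finset.mem_insert_self a N, le_rfl⟩
        have up := hmono _ _ hsub2
        obtain ⟨R, hR⟩ : ∃ R : Set Ω, R = (A0 ∪ A1)ᶜ := ⟨_, rfl⟩
        have hRm : MeasurableSet[MeasurableSpace.generateFrom (e '' Iio a)] R := by
          rw [hR]; exact (k0.union k1).compl
        rw [← hR] at h4
        refine ⟨A0 ∪ ((R ∩ Gᶜ) \ e a), A1 ∪ (R ∩ G ∩ e a), ?_, ?_, ?_, ?_, ?_⟩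
        · exact (up _ k0).union (((up _ hRm).inter (up _ hG).compl).diff hea)
        · exact (up _ k1).union (((up _ hRm).inter (up _ hG)).inter hea)
        · refine measure_mono_null (t := (D δ ∩ A0) ∪ (Gᶜ ∩ (D δ \ e a))) ?_
            (measure_union_null h2 q3)
          rintro x ⟨hx1, hx2 | ⟨⟨hx2, hx3⟩, hx4⟩⟩
          · exact Or.inl ⟨hx1, hx2⟩
          · exact Or.inr ⟨hx3, hx1, hx4⟩
        · refine measure_mono_null (t := (A1 \ D δ) ∪ (G ∩ (e a \ D δ))) ?_
            (measure_union_null h3 q2)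
          rintro x ⟨hx1 | ⟨⟨hx1, hx2⟩, hx3⟩, hx4⟩
          · exact Or.inl ⟨hx1, hx4⟩
          · exact Or.inr ⟨hx2, hx3, hx4⟩
        · have hG0 := hle _ _ hG
          have hR0 := hle _ _ hRm
          have s1 : ((A0 ∪ ((R ∩ Gᶜ) \ e a)) ∪ (A1 ∪ (R ∩ G ∩ e a)))ᶜ ⊆
              ((R ∩ G) \ e a) ∪ (R ∩ Gᶜ ∩ e a) := by
            intro x hx
            simp only [mem_compl_iff, mem_union, mem_inter_iff, mem_sdiff, not_or] at hx ⊢
            have hxR : x ∈ R := by
              rw [hR]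
              simp only [mem_compl_iff, mem_union, not_or]
              exact ⟨hx.1.1, hx.2.1⟩
            by_cases hxG : x ∈ G
            · left
              exact ⟨⟨hxR, hxG⟩, fun h => hx.2.2 ⟨⟨hxR, hxG⟩, h⟩⟩
            · right
              refine ⟨⟨hxR, hxG⟩, ?_⟩
              by_contra h
              exact hx.1.2 ⟨⟨hxR, hxG⟩, h⟩
          have s2 : ν ((R ∩ G) \ e a) = ν (R ∩ G) / 2 := by
            have t1 := q1 (R ∩ G) (hRm.inter hG)
            have t2 := measure_inter_add_sdiff (μ := ν) (R ∩ G) (hem a)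
            rw [t1] at t2
            have t3 : ν (R ∩ G) / 2 + ν ((R ∩ G) \ e a) = ν (R ∩ G) / 2 + ν (R ∩ G) / 2 := by
              rw [t2, ENNReal.add_halves]
            exact (ENNReal.add_right_inj (ENNReal.div_ne_top (measure_ne_top _ _) two_ne_zero)).mp t3
          have s3 := q1 (R ∩ Gᶜ) (hRm.inter hG.compl)
          calc ν ((A0 ∪ ((R ∩ Gᶜ) \ e a)) ∪ (A1 ∪ (R ∩ G ∩ e a)))ᶜ
              ≤ ν ((R ∩ G) \ e a) + ν (R ∩ Gᶜ ∩ e a) :=
                (measure_mono s1).trans (measure_union_le _ _)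
            _ = (ν (R ∩ G) + ν (R ∩ Gᶜ)) / 2 := by
                rw [s2, s3, div_eq_mul_inv, div_eq_mul_inv, div_eq_mul_inv, ← add_mul]
            _ = ν R / 2 := by
                rw [← Set.sdiff_eq, measure_inter_add_sdiff R hG0]
            _ ≤ 2⁻¹ ^ (insert a N).card := by
                rw [Finset.card_insert_of_notMem haN, pow_succ, div_eq_mul_inv]
                exact mul_le_mul_left h4 _
    intro B hB ε hε
    have hε3 : ε / 3 ≠ 0 := by
      rw [Ne, ENNReal.div_eq_zero_iff]; push Not; exact ⟨hε, ofNat_ne_top⟩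
    obtain ⟨δ, hδ⟩ := hdense B hB (ε / 3) hε3
    obtain ⟨k, hk⟩ : ∃ k : ℕ, (2⁻¹ : ℝ≥0∞) ^ k < ε / 3 := by
      have ht : Filter.Tendsto (fun n : ℕ => (2⁻¹ : ℝ≥0∞) ^ n) Filter.atTop (nhds 0) :=
        ENNReal.tendsto_pow_atTop_nhds_zero_of_lt_one (by
          rw [ENNReal.inv_lt_one]; exact one_lt_two)
      exact (ht.eventually (gt_mem_nhds (pos_iff_ne_zero.mpr hε3))).exists
    let N : Finset ι := (Finset.range k).image (fun n => g (δ, n))
    have hNcard : N.card = k := by
      rw [Finset.card_image_of_injective, Finset.card_range]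
      intro a b hab
      have := g.injective hab
      exact (Prod.mk.inj this).2
    obtain ⟨A0, A1, h0, h1, h2, h3, h4⟩ := key δ N (by
      intro s hs
      obtain ⟨n, _, rfl⟩ := Finset.mem_image.mp hs
      exact hD'g δ n)
    rw [hNcard] at h4
    have hA1 : MeasurableSet[MeasurableSpace.generateFrom (range e)] A1 := by
      refine (MeasurableSpace.generateFrom_mono ?_) _ h1
      exact image_subset_range _ _
    obtain ⟨hApx, _⟩ := apx_generate (ν := ν) hem hA1
    obtain ⟨A', hA', hA'ε⟩ := hApx (ε / 3) hε3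
    obtain ⟨S, 𝒯, rfl⟩ := hA'.form
    refine ⟨S, 𝒯, ?_⟩
    have d1 : ν (symmDiff (D δ) A1) ≤ 2⁻¹ ^ k := by
      have : symmDiff (D δ) A1 ⊆ ((D δ ∩ A0) ∪ (A1 \ D δ)) ∪ (A0 ∪ A1)ᶜ := by
        rintro x (⟨hx1, hx2⟩ | ⟨hx1, hx2⟩)
        · by_cases hx0 : x ∈ A0
          · exact Or.inl (Or.inl ⟨hx1, hx0⟩)
          · right
            rintro (h | h)
            · exact hx0 h
            · exact hx2 h
        · exact Or.inl (Or.inr ⟨hx1, hx2⟩)
      refine (measure_mono this).trans ((measure_union_le _ _).trans ?_)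
      rw [measure_union_null h2 h3, zero_add]
      exact h4
    calc ν (symmDiff B {ω | ∃ T ∈ 𝒯, ∀ i ∈ S, (ω ∈ e i ↔ i ∈ T)})
        ≤ ν (symmDiff B (D δ)) + (ν (symmDiff (D δ) A1) +
          ν (symmDiff A1 {ω | ∃ T ∈ 𝒯, ∀ i ∈ S, (ω ∈ e i ↔ i ∈ T)})) := by
          refine (measure_symmDiff_le _ _ _).trans (add_le_add_right ?_ _)
          exact measure_symmDiff_le _ _ _
      _ < ε / 3 + (ε / 3 + ε / 3) :=
          ENNReal.add_lt_add hδ (ENNReal.add_lt_add (lt_of_le_of_lt d1 hk) hA'ε)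
      _ = ε := by rw [← add_assoc]; exact ENNReal.add_thirds ε

end Pool.Agent.LpBasis
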