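import Pool.Agent.Hhelper27.LpBasis.Defs

/-! The halving lemma (Maharam), by exhaustion and Hahn decompositions on the sub-σ-algebra. -/

set_option autoImplicit false

namespace Pool.Agent.LpBasis

open MeasureTheory ENNReal Set

namespace Mah

section

variable {Ω : Type} {m : MeasurableSpace Ω} {m0 : MeasurableSpace Ω}

/-- the trace of `ν` on `B`, as a measure on the sub-σ-algebra -/
noncomputable def tr (ν : Measure Ω) (hm : m ≤ m0) (B : Set Ω) : @Measure Ω m :=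
  (ν.restrict B).trim hm

theorem tr_apply (ν : Measure Ω) (hm : m ≤ m0) (B : Set Ω) {A : Set Ω} (hA : MeasurableSet[m] A) :
    tr ν hm B A = ν (A ∩ B) := by
  rw [tr, trim_measurableSet_eq hm hA, Measure.restrict_apply (hm A hA)]

theorem tr_finite (ν : Measure Ω) [IsFiniteMeasure ν] (hm : m ≤ m0) (B : Set Ω) :
    @IsFiniteMeasure Ω m (tr ν hm B) := by
  unfold tr; infer_instance

theorem hahn (l1 l2 : @Measure Ω m) (h1 : @IsFiniteMeasure Ω m l1)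
    (h2 : @IsFiniteMeasure Ω m l2) : ∃ P, MeasurableSet[m] P ∧
      (∀ A, MeasurableSet[m] A → A ⊆ P → l1 A ≤ l2 A) ∧
      (∀ A, MeasurableSet[m] A → A ⊆ Pᶜ → l2 A ≤ l1 A) :=
  @hahn_decomposition Ω m l2 l1 h2 h1

variable {ν : Measure Ω} [IsProbabilityMeasure ν]

/-- one halving step -/
theorem halve (hm : m ≤ m0) (hrel : RelAtomless m ν) (B : Set Ω) (hB : MeasurableSet[m0] B)
    (hpos : ν B ≠ 0) (c : ℝ≥0∞) (hc : ∀ A, MeasurableSet[m] A → ν (A ∩ B) ≤ c * ν A) :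
    ∃ B', MeasurableSet[m0] B' ∧ B' ⊆ B ∧ ν B' ≠ 0 ∧
      ∀ A, MeasurableSet[m] A → ν (A ∩ B') ≤ c / 2 * ν A := by
  obtain ⟨B1, hB1, hB1B, hne⟩ := hrel B hB hpos
  obtain ⟨P, hP, hP1, hP2⟩ := hahn (tr ν hm B1) (tr ν hm (B \ B1)) (tr_finite ν hm _)
    (tr_finite ν hm _)
  have hP0 := hm P hP
  refine ⟨(P ∩ B1) ∪ (Pᶜ ∩ (B \ B1)), (hP0.inter hB1).union (hP0.compl.inter (hB.diff hB1)),
    ?_, ?_, ?_⟩
  · rintro x (⟨_, hx⟩ | ⟨_, hx⟩)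
    · exact hB1B hx
    · exact hx.1
  · intro h0
    refine hne Pᶜ hP.compl ?_
    refine measure_mono_null ?_ h0
    intro x hx
    rcases hx with ⟨hx1, hx2⟩ | ⟨hx1, hx2⟩
    · left
      refine ⟨?_, hx1⟩
      by_contra hP'
      exact hx2 ⟨hB1B hx1, hP'⟩
    · right
      exact ⟨hx1.2, hx1.1, hx2⟩
  · intro A hA
    have hA0 := hm A hA
    -- on `A ∩ P`
    have e1 : ν (A ∩ P ∩ B1) ≤ ν (A ∩ P ∩ (B \ B1)) := by
      have := hP1 (A ∩ P) (hA.inter hP) inter_subset_right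
      rwa [tr_apply ν hm _ (hA.inter hP), tr_apply ν hm _ (hA.inter hP)] at this
    have e2 : ν (A ∩ Pᶜ ∩ (B \ B1)) ≤ ν (A ∩ Pᶜ ∩ B1) := by
      have := hP2 (A ∩ Pᶜ) (hA.inter hP.compl) inter_subset_right
      rwa [tr_apply ν hm _ (hA.inter hP.compl), tr_apply ν hm _ (hA.inter hP.compl)] at this
    have split : ∀ Q : Set Ω, MeasurableSet[m0] Q →
        ν (Q ∩ B) = ν (Q ∩ B1) + ν (Q ∩ (B \ B1)) := by
      intro Q hQ
      rw [← measure_union _ (hQ.inter (hB.diff hB1))]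
      · congr 1
        ext x
        constructor
        · rintro ⟨h1, h2⟩
          by_cases h : x ∈ B1
          · exact Or.inl ⟨h1, h⟩
          · exact Or.inr ⟨h1, h2, h⟩
        · rintro (⟨h1, h2⟩ | ⟨h1, h2, _⟩)
          · exact ⟨h1, hB1B h2⟩
          · exact ⟨h1, h2⟩
      · refine Set.disjoint_left.mpr ?_
        rintro x ⟨_, h1⟩ ⟨_, _, h2⟩
        exact h2 h1
    have s1 := split (A ∩ P) (hA0.inter hP0)
    have s2 := split (A ∩ Pᶜ) (hA0.inter hP0.compl)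
    have b1 : 2 * ν (A ∩ P ∩ B1) ≤ ν (A ∩ P ∩ B) := by
      rw [s1, two_mul]; exact add_le_add_right e1 _
    have b2 : 2 * ν (A ∩ Pᶜ ∩ (B \ B1)) ≤ ν (A ∩ Pᶜ ∩ B) := by
      rw [s2, two_mul]; exact add_le_add_left e2 _
    have u1 : ν (A ∩ ((P ∩ B1) ∪ (Pᶜ ∩ (B \ B1)))) ≤ ν (A ∩ P ∩ B1) + ν (A ∩ Pᶜ ∩ (B \ B1)) := by
      refine (measure_mono ?_).trans (measure_union_le _ _)
      rintro x ⟨hx, ⟨h1, h2⟩ | ⟨h1, h2⟩⟩
      · exact Or.inl ⟨⟨hx, h1⟩, h2⟩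
      · exact Or.inr ⟨⟨hx, h1⟩, h2⟩
    have u2 : ν (A ∩ P ∩ B) + ν (A ∩ Pᶜ ∩ B) = ν (A ∩ B) := by
      rw [← measure_inter_add_sdiff (A ∩ B) hP0]
      congr 2
      · ext x; constructor
        · rintro ⟨⟨h1, h2⟩, h3⟩; exact ⟨⟨h1, h3⟩, h2⟩
        · rintro ⟨⟨h1, h3⟩, h2⟩; exact ⟨⟨h1, h2⟩, h3⟩
      · ext x; constructor
        · rintro ⟨⟨h1, h2⟩, h3⟩; exact ⟨⟨h1, h3⟩, h2⟩
        · rintro ⟨⟨h1, h3⟩, h2⟩; exact ⟨⟨h1, h2⟩, h3⟩
    have u3 : 2 * ν (A ∩ ((P ∩ B1) ∪ (Pᶜ ∩ (B \ B1)))) ≤ c * ν A := by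
      calc 2 * ν (A ∩ ((P ∩ B1) ∪ (Pᶜ ∩ (B \ B1))))
          ≤ 2 * (ν (A ∩ P ∩ B1) + ν (A ∩ Pᶜ ∩ (B \ B1))) := mul_le_mul_right u1 2
        _ = 2 * ν (A ∩ P ∩ B1) + 2 * ν (A ∩ Pᶜ ∩ (B \ B1)) := mul_add _ _ _
        _ ≤ ν (A ∩ P ∩ B) + ν (A ∩ Pᶜ ∩ B) := add_le_add b1 b2
        _ = ν (A ∩ B) := u2
        _ ≤ c * ν A := hc A hA
    calc ν (A ∩ ((P ∩ B1) ∪ (Pᶜ ∩ (B \ B1)))) ≤ c * ν A / 2 := by
          rw [ENNReal.le_div_iff_mul_le (Or.inl two_ne_zero) (Or.inl ofNat_ne_top), mul_comm]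
          exact u3
      _ = c / 2 * ν A := by rw [div_eq_mul_inv, div_eq_mul_inv]; ring

theorem halve_iter (hm : m ≤ m0) (hrel : RelAtomless m ν) (B : Set Ω) (hB : MeasurableSet[m0] B)
    (hpos : ν B ≠ 0) (n : ℕ) :
    ∃ B', MeasurableSet[m0] B' ∧ B' ⊆ B ∧ ν B' ≠ 0 ∧
      ∀ A, MeasurableSet[m] A → ν (A ∩ B') ≤ 2⁻¹ ^ n * ν A := by
  induction n with
  | zero => exact ⟨B, hB, Subset.rfl, hpos, fun A _ => by
      rw [pow_zero, one_mul]; exact measure_mono inter_subset_left⟩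
  | succ n ih =>
    obtain ⟨B', h1, h2, h3, h4⟩ := ih
    obtain ⟨B'', k1, k2, k3, k4⟩ := halve hm hrel B' h1 h3 _ h4
    refine ⟨B'', k1, k2.trans h2, k3, fun A hA => (k4 A hA).trans ?_⟩
    rw [pow_succ, div_eq_mul_inv]

/-- exhaustion: a set with prescribed trace on the sub-σ-algebra -/
theorem exists_trace (hm : m ≤ m0) (hrel : RelAtomless m ν) (N : Set Ω)
    (hN : MeasurableSet[m0] N) (l : @Measure Ω m) (hl : ∀ A, MeasurableSet[m] A → l A ≤ ν (A ∩ N)) :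
    ∃ b, MeasurableSet[m0] b ∧ b ⊆ N ∧ ∀ A, MeasurableSet[m] A → ν (A ∩ b) = l A := by
  classical
  have hlfin : @IsFiniteMeasure Ω m l := by
    refine @IsFiniteMeasure.mk Ω m l ?_
    exact (hl univ MeasurableSet.univ).trans_lt (measure_lt_top _ _)
  let ok : Set Ω → Prop := fun b => MeasurableSet[m0] b ∧ b ⊆ N ∧
    ∀ A, MeasurableSet[m] A → ν (A ∩ b) ≤ l A
  let sp : Set Ω → ℝ≥0∞ := fun b => ⨆ c : {c : Set Ω // ok c ∧ b ⊆ c}, ν c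
  have hsp : ∀ b c, ok c → b ⊆ c → ν c ≤ sp b := fun b c h1 h2 =>
    le_iSup (fun c : {c : Set Ω // ok c ∧ b ⊆ c} => ν c) ⟨c, h1, h2⟩
  have hok0 : ok ∅ := ⟨MeasurableSet.empty, empty_subset _, fun A _ => by simp⟩
  have hnext : ∀ (b : {b : Set Ω // ok b}) (k : ℕ), ∃ c : {b : Set Ω // ok b}, b.1 ⊆ c.1 ∧
      sp b.1 ≤ ν c.1 + (k + 1 : ℝ≥0∞)⁻¹ := by
    intro b k
    by_contra hcon
    push Not at hcon
    have h1 : sp b.1 ≤ sp b.1 - (k + 1 : ℝ≥0∞)⁻¹ := by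
      refine iSup_le ?_
      rintro ⟨c, hc, hbc⟩
      have h2 := hcon ⟨c, hc⟩ hbc
      exact (lt_tsub_iff_right.mpr h2).le
    have h3 : sp b.1 ≠ 0 := by
      intro h0
      have := hcon b Subset.rfl
      rw [h0] at this
      exact absurd this (not_lt.mpr zero_le)
    have h4 : sp b.1 ≤ 1 := iSup_le (fun c => prob_le_one)
    have h5 : sp b.1 - (k + 1 : ℝ≥0∞)⁻¹ < sp b.1 :=
      ENNReal.sub_lt_self (ne_top_of_le_ne_top one_ne_top h4) h3 (by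
        rw [Ne, ENNReal.inv_eq_zero]
        exact ENNReal.add_ne_top.mpr ⟨ENNReal.natCast_ne_top k, one_ne_top⟩)
    exact absurd h1 (not_le.mpr h5)
  choose nx hnx1 hnx2 using hnext
  let bs : ℕ → {b : Set Ω // ok b} := fun n => Nat.rec ⟨∅, hok0⟩ (fun k b => nx b k) n
  have hbs : ∀ k, bs (k + 1) = nx (bs k) k := fun k => rfl
  have hmono : Monotone (fun k => (bs k).1) := monotone_nat_of_le_succ (fun k => by
    rw [hbs]; exact hnx1 _ _)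
  let b : Set Ω := ⋃ k, (bs k).1
  have hbm : MeasurableSet[m0] b := MeasurableSet.iUnion (fun k => (bs k).2.1)
  have hbN : b ⊆ N := iUnion_subset (fun k => (bs k).2.2.1)
  have hble : ∀ A, MeasurableSet[m] A → ν (A ∩ b) ≤ l A := by
    intro A hA
    have h1 : A ∩ b = ⋃ k, A ∩ (bs k).1 := inter_iUnion _ _
    have h2 : Monotone (fun k => A ∩ (bs k).1) := fun i j hij =>
      inter_subset_inter_right _ (hmono hij)
    rw [h1, h2.measure_iUnion]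
    exact iSup_le (fun k => (bs k).2.2.2 A hA)
  have hmax : ∀ c, ok c → b ⊆ c → ν c ≤ ν b := by
    intro c hc hbc
    refine ENNReal.le_of_forall_pos_le_add ?_
    intro ε hε _
    obtain ⟨k, hk⟩ := ENNReal.exists_inv_nat_lt (ENNReal.coe_pos.mpr hε).ne'
    have h1 : ν c ≤ sp (bs k).1 := hsp _ _ hc ((subset_iUnion (fun k => (bs k).1) k).trans hbc)
    have h2 : sp (bs k).1 ≤ ν (bs (k + 1)).1 + (k + 1 : ℝ≥0∞)⁻¹ := hnx2 (bs k) k
    have h3 : ν (bs (k + 1)).1 ≤ ν b := measure_mono (subset_iUnion (fun k => (bs k).1) (k + 1))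
    have h4 : (k + 1 : ℝ≥0∞)⁻¹ ≤ ε :=
      (ENNReal.inv_le_inv.mpr le_self_add).trans hk.le
    exact (h1.trans h2).trans (add_le_add h3 h4)
  refine ⟨b, hbm, hbN, ?_⟩
  intro A0 hA0
  by_contra hne
  have hlt : ν (A0 ∩ b) < l A0 := lt_of_le_of_ne (hble A0 hA0) hne
  -- choose `n`
  obtain ⟨n, hn⟩ : ∃ n : ℕ, ν (A0 ∩ b) + 2⁻¹ ^ n * ν A0 < l A0 := by
    have ht : Filter.Tendsto (fun n : ℕ => ν (A0 ∩ b) + (2⁻¹ : ℝ≥0∞) ^ n * ν A0) Filter.atTop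
        (nhds (ν (A0 ∩ b) + 0 * ν A0)) := by
      refine Filter.Tendsto.add tendsto_const_nhds ?_
      refine ENNReal.Tendsto.mul_const ?_ (Or.inr (measure_ne_top _ _))
      exact ENNReal.tendsto_pow_atTop_nhds_zero_of_lt_one (by
        rw [ENNReal.inv_lt_one]; exact one_lt_two)
    rw [zero_mul, add_zero] at ht
    exact (ht.eventually (gt_mem_nhds hlt)).exists
  obtain ⟨P, hP, hP1, hP2⟩ := hahn (tr ν hm b + (2⁻¹ : ℝ≥0∞) ^ n • tr ν hm univ) l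
    (by
      have := tr_finite ν hm b
      have := tr_finite ν hm univ
      have h3 : @IsFiniteMeasure Ω m ((2⁻¹ : ℝ≥0∞) ^ n • tr ν hm univ) := by
        refine @IsFiniteMeasure.mk Ω m _ ?_
        rw [Measure.smul_apply, smul_eq_mul]
        exact ENNReal.mul_lt_top (ENNReal.pow_lt_top (ENNReal.inv_lt_top.mpr two_pos))
          (measure_lt_top _ _)
      infer_instance) hlfin
  have hP0 := hm P hP
  have val : ∀ A, MeasurableSet[m] A →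
      (tr ν hm b + (2⁻¹ : ℝ≥0∞) ^ n • tr ν hm univ) A = ν (A ∩ b) + 2⁻¹ ^ n * ν A := by
    intro A hA
    rw [Measure.add_apply, Measure.smul_apply, smul_eq_mul, tr_apply ν hm _ hA,
      tr_apply ν hm _ hA, inter_univ]
  -- the part in `P` carries the defect
  have hQ : ν (A0 ∩ P ∩ b) < l (A0 ∩ P) := by
    by_contra hcon
    push Not at hcon
    have h1 : l (A0 ∩ Pᶜ) ≤ ν (A0 ∩ Pᶜ ∩ b) + 2⁻¹ ^ n * ν (A0 ∩ Pᶜ) := by
      have := hP2 (A0 ∩ Pᶜ) (hA0.inter hP.compl) inter_subset_right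
      rwa [val _ (hA0.inter hP.compl)] at this
    have h2 : l A0 = l (A0 ∩ P) + l (A0 ∩ Pᶜ) := by
      have := @measure_inter_add_sdiff Ω m l P A0 hP
      rw [← this, sdiff_eq]
    have h3 : ν (A0 ∩ b) = ν (A0 ∩ P ∩ b) + ν (A0 ∩ Pᶜ ∩ b) := by
      rw [← measure_inter_add_sdiff (A0 ∩ b) hP0]
      congr 2
      · ext x; constructor
        · rintro ⟨⟨h1, h2⟩, h3⟩; exact ⟨⟨h1, h3⟩, h2⟩
        · rintro ⟨⟨h1, h3⟩, h2⟩; exact ⟨⟨h1, h2⟩, h3⟩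
      · ext x; constructor
        · rintro ⟨⟨h1, h2⟩, h3⟩; exact ⟨⟨h1, h3⟩, h2⟩
        · rintro ⟨⟨h1, h3⟩, h2⟩; exact ⟨⟨h1, h2⟩, h3⟩
    have h4 : 2⁻¹ ^ n * ν (A0 ∩ Pᶜ) ≤ 2⁻¹ ^ n * ν A0 :=
      mul_le_mul_right (measure_mono inter_subset_left) _
    have h5 : l A0 ≤ ν (A0 ∩ b) + 2⁻¹ ^ n * ν A0 := by
      rw [h2, h3, add_assoc]
      exact add_le_add hcon (h1.trans (add_le_add_right h4 _))
    exact absurd hn (not_lt.mpr h5)
  have hBpos : ν (P ∩ (N \ b)) ≠ 0 := by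
    intro h0
    have h1 : ν (A0 ∩ P ∩ N) ≤ ν (A0 ∩ P ∩ b) := by
      have h2 : A0 ∩ P ∩ N ⊆ (A0 ∩ P ∩ b) ∪ (P ∩ (N \ b)) := by
        rintro x ⟨⟨hx1, hx2⟩, hx3⟩
        by_cases hb : x ∈ b
        · exact Or.inl ⟨⟨hx1, hx2⟩, hb⟩
        · exact Or.inr ⟨hx2, hx3, hb⟩
      refine (measure_mono h2).trans ((measure_union_le _ _).trans ?_)
      rw [h0, add_zero]
    exact absurd (lt_of_lt_of_le hQ ((hl _ (hA0.inter hP)).trans h1)) (lt_irrefl _)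
  obtain ⟨B', k1, k2, k3, k4⟩ := halve_iter hm hrel (P ∩ (N \ b)) (hP0.inter (hN.diff hbm)) hBpos n
  have hdis : Disjoint b B' := by
    refine Set.disjoint_left.mpr ?_
    intro x hx hx'
    exact (k2 hx').2.2 hx
  have hokc : ok (b ∪ B') := by
    refine ⟨hbm.union k1, union_subset hbN (fun x hx => (k2 hx).2.1), ?_⟩
    intro A hA
    have hA' := hm A hA
    have h1 : ν (A ∩ (b ∪ B')) = ν (A ∩ b) + ν (A ∩ B') := by
      rw [inter_union_distrib_left]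
      exact measure_union (hdis.mono inter_subset_right inter_subset_right) (hA'.inter k1)
    have h2 : ν (A ∩ B') ≤ 2⁻¹ ^ n * ν (A ∩ P) := by
      have h3 : A ∩ B' ⊆ (A ∩ P) ∩ B' := fun x hx => ⟨⟨hx.1, (k2 hx.2).1⟩, hx.2⟩
      exact (measure_mono h3).trans (k4 _ (hA.inter hP))
    have h4 : ν (A ∩ P ∩ b) + 2⁻¹ ^ n * ν (A ∩ P) ≤ l (A ∩ P) := by
      have := hP1 (A ∩ P) (hA.inter hP) inter_subset_right
      rwa [val _ (hA.inter hP)] at this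
    have h5 : ν (A ∩ Pᶜ ∩ b) ≤ l (A ∩ Pᶜ) := hble _ (hA.inter hP.compl)
    have h6 : l A = l (A ∩ P) + l (A ∩ Pᶜ) := by
      have := @measure_inter_add_sdiff Ω m l P A hP
      rw [← this, sdiff_eq]
    have h7 : ν (A ∩ b) = ν (A ∩ P ∩ b) + ν (A ∩ Pᶜ ∩ b) := by
      rw [← measure_inter_add_sdiff (A ∩ b) hP0]
      congr 2
      · ext x; constructor
        · rintro ⟨⟨h1, h2⟩, h3⟩; exact ⟨⟨h1, h3⟩, h2⟩
        · rintro ⟨⟨h1, h3⟩, h2⟩; exact ⟨⟨h1, h2⟩, h3⟩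
      · ext x; constructor
        · rintro ⟨⟨h1, h2⟩, h3⟩; exact ⟨⟨h1, h3⟩, h2⟩
        · rintro ⟨⟨h1, h3⟩, h2⟩; exact ⟨⟨h1, h2⟩, h3⟩
    rw [h1, h6, h7]
    calc ν (A ∩ P ∩ b) + ν (A ∩ Pᶜ ∩ b) + ν (A ∩ B')
        ≤ ν (A ∩ P ∩ b) + ν (A ∩ Pᶜ ∩ b) + 2⁻¹ ^ n * ν (A ∩ P) := add_le_add_right h2 _
      _ = (ν (A ∩ P ∩ b) + 2⁻¹ ^ n * ν (A ∩ P)) + ν (A ∩ Pᶜ ∩ b) := by ring
      _ ≤ l (A ∩ P) + l (A ∩ Pᶜ) := add_le_add h4 h5
  have h1 := hmax _ hokc subset_union_left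
  rw [measure_union hdis k1] at h1
  have h2 : ν b + ν B' ≤ ν b + 0 := by rw [add_zero]; exact h1
  have h3 := (ENNReal.add_le_add_iff_left (measure_ne_top ν b)).mp h2
  exact k3 (le_antisymm h3 zero_le)

end

end Mah

open Mah in
/-- the halving lemma: there is a fair set `e`, independent of `m`, which is inside `D` on `G`
and contains `D` off `G`. -/
theorem maharam_half {Ω : Type} (m : MeasurableSpace Ω) {m0 : MeasurableSpace Ω} (ν : Measure Ω)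
    [IsProbabilityMeasure ν] (hm : m ≤ m0) (hrel : RelAtomless m ν) (D : Set Ω)
    (hD : MeasurableSet[m0] D) :
    ∃ e, MeasurableSet[m0] e ∧ (∀ A, MeasurableSet[m] A → ν (A ∩ e) = ν A / 2) ∧
      ∃ G, MeasurableSet[m] G ∧ ν (G ∩ (e \ D)) = 0 ∧ ν (Gᶜ ∩ (D \ e)) = 0 := by
  have fin2 : ∀ B : Set Ω, @IsFiniteMeasure Ω m ((2⁻¹ : ℝ≥0∞) • tr ν hm B) := by
    intro B
    have := tr_finite ν hm B
    refine @IsFiniteMeasure.mk Ω m _ ?_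
    rw [Measure.smul_apply, smul_eq_mul]
    exact ENNReal.mul_lt_top (ENNReal.inv_lt_top.mpr two_pos) (measure_lt_top _ _)
  have val : ∀ B A, MeasurableSet[m] A → ((2⁻¹ : ℝ≥0∞) • tr ν hm B) A = 2⁻¹ * ν (A ∩ B) := by
    intro B A hA
    rw [Measure.smul_apply, smul_eq_mul, tr_apply ν hm _ hA]
  obtain ⟨G, hG, hG1, hG2⟩ := hahn ((2⁻¹ : ℝ≥0∞) • tr ν hm univ) (tr ν hm D) (fin2 _)
    (tr_finite ν hm _)
  have hG0 := hm G hG
  -- inside `G`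
  obtain ⟨b1, hb1, hb1N, hb1v⟩ := exists_trace hm hrel (G ∩ D) (hG0.inter hD)
    ((2⁻¹ : ℝ≥0∞) • tr ν hm G) (by
      intro A hA
      rw [val _ _ hA]
      have := hG1 (A ∩ G) (hA.inter hG) inter_subset_right
      rw [val _ _ (hA.inter hG), tr_apply ν hm _ (hA.inter hG), inter_univ, inter_assoc] at this
      exact this)
  -- outside `G`
  obtain ⟨b2, hb2, hb2N, hb2v⟩ := exists_trace hm hrel (Gᶜ \ D) (hG0.compl.diff hD)
    ((2⁻¹ : ℝ≥0∞) • tr ν hm Gᶜ) (by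
      intro A hA
      rw [val _ _ hA]
      have h1 := hG2 (A ∩ Gᶜ) (hA.inter hG.compl) inter_subset_right
      rw [val _ _ (hA.inter hG.compl), tr_apply ν hm _ (hA.inter hG.compl), inter_univ] at h1
      have h2 : ν (A ∩ Gᶜ) = ν (A ∩ Gᶜ ∩ D) + ν (A ∩ (Gᶜ \ D)) := by
        rw [← measure_inter_add_sdiff (A ∩ Gᶜ) hD]
        congr 2
        ext x; constructor
        · rintro ⟨⟨h1, h2⟩, h3⟩; exact ⟨h1, h2, h3⟩
        · rintro ⟨h1, h2, h3⟩; exact ⟨⟨h1, h2⟩, h3⟩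
      have h3 : 2⁻¹ * ν (A ∩ Gᶜ) + 2⁻¹ * ν (A ∩ Gᶜ) = ν (A ∩ Gᶜ) := by
        rw [← add_mul, ENNReal.inv_two_add_inv_two, one_mul]
      have h4 : 2⁻¹ * ν (A ∩ Gᶜ) + 2⁻¹ * ν (A ∩ Gᶜ) ≤ 2⁻¹ * ν (A ∩ Gᶜ) + ν (A ∩ (Gᶜ \ D)) := by
        rw [h3]
        nth_rw 1 [h2]
        exact add_le_add_left h1 _
      exact (ENNReal.add_le_add_iff_left (ENNReal.mul_ne_top (ENNReal.inv_ne_top.mpr two_ne_zero)
        (measure_ne_top _ _))).mp h4)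
  refine ⟨b1 ∪ (Gᶜ \ b2), hb1.union (hG0.compl.diff hb2), ?_, G, hG, ?_, ?_⟩
  · intro A hA
    have hA0 := hm A hA
    have h1 : ν (A ∩ (b1 ∪ (Gᶜ \ b2))) = ν (A ∩ b1) + ν (A ∩ (Gᶜ \ b2)) := by
      rw [inter_union_distrib_left]
      refine measure_union ?_ (hA0.inter (hG0.compl.diff hb2))
      refine Set.disjoint_left.mpr ?_
      rintro x ⟨_, hx1⟩ ⟨_, hx2, _⟩
      exact hx2 (hb1N hx1).1
    have h2 : ν (A ∩ Gᶜ) = ν (A ∩ b2) + ν (A ∩ (Gᶜ \ b2)) := by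
      rw [← measure_inter_add_sdiff (A ∩ Gᶜ) hb2]
      congr 2
      · ext x; constructor
        · rintro ⟨⟨h1, h2⟩, h3⟩; exact ⟨h1, h3⟩
        · rintro ⟨h1, h3⟩; exact ⟨⟨h1, (hb2N h3).1⟩, h3⟩
      · ext x; constructor
        · rintro ⟨⟨h1, h2⟩, h3⟩; exact ⟨h1, h2, h3⟩
        · rintro ⟨h1, h2, h3⟩; exact ⟨⟨h1, h2⟩, h3⟩
    have h3 : 2⁻¹ * ν (A ∩ Gᶜ) + 2⁻¹ * ν (A ∩ Gᶜ) = ν (A ∩ Gᶜ) := by
      rw [← add_mul, ENNReal.inv_two_add_inv_two, one_mul]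
    have h4 : ν (A ∩ (Gᶜ \ b2)) = 2⁻¹ * ν (A ∩ Gᶜ) := by
      have h5 : 2⁻¹ * ν (A ∩ Gᶜ) + ν (A ∩ (Gᶜ \ b2)) = 2⁻¹ * ν (A ∩ Gᶜ) + 2⁻¹ * ν (A ∩ Gᶜ) := by
        rw [h3]
        nth_rw 2 [h2]
        rw [hb2v A hA, val _ _ hA]
      exact (ENNReal.add_right_inj (ENNReal.mul_ne_top (ENNReal.inv_ne_top.mpr two_ne_zero)
        (measure_ne_top _ _))).mp h5
    rw [h1, hb1v A hA, val _ _ hA, h4, ← mul_add, ← sdiff_eq, measure_inter_add_sdiff A hG0,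
      div_eq_mul_inv, mul_comm]
  · have : G ∩ ((b1 ∪ (Gᶜ \ b2)) \ D) = ∅ := by
      ext x
      simp only [mem_inter_iff, mem_sdiff, mem_union, mem_empty_iff_false, iff_false]
      rintro ⟨hG', (hx | hx), hD'⟩
      · exact hD' (hb1N hx).2
      · exact hx.1 hG'
    rw [this, measure_empty]
  · have : Gᶜ ∩ (D \ (b1 ∪ (Gᶜ \ b2))) = ∅ := by
      ext x
      simp only [mem_inter_iff, mem_sdiff, mem_union, mem_empty_iff_false, iff_false]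
      rintro ⟨hG', hD', hx⟩
      apply hx
      right
      refine ⟨hG', fun hb => ?_⟩
      exact (hb2N hb).2 hD'
    rw [this, measure_empty]

end Pool.Agent.LpBasis
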