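import Pool.Agent.Hhelper27.LpBasis.Basic

/-!
The covering lemma: the core of the proof.
-/

set_option autoImplicit false
set_option linter.unusedSectionVars false

namespace Pool.Agent.LpBasis

open Finset

section forest

variable {V : Type*} [DecidableEq V] (T : Forest V)

theorem Forest.mono_le {i j : ℕ} (h : i ≤ j) (z : V) : T.P i z ⊆ T.P j z := by
  induction j, h using Nat.le_induction with
  | base => exact Subset.rfl
  | succ j _ ih => exact ih.trans (T.mono j z)

theorem Forest.down_of_le {i j : ℕ} (h : i ≤ j) {K : Finset V} (hK : T.Down j K) : T.Down i K :=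
  fun x hx => (T.mono_le h x).trans (hK x hx)

theorem Forest.down_P (j : ℕ) (z : V) : T.Down j (T.P j z) := fun x hx => T.trans j x z hx

theorem Forest.down_union {j : ℕ} {K L : Finset V} (hK : T.Down j K) (hL : T.Down j L) :
    T.Down j (K ∪ L) := by
  intro x hx
  rcases Finset.mem_union.1 hx with h | h
  · exact (hK x h).trans Finset.subset_union_left
  · exact (hL x h).trans Finset.subset_union_right

end forest

section core

variable {V : Type*} [Fintype V] [DecidableEq V]

/-- `[0,1]`-valued functions `s j` depending on the coordinates in `T.P j (z j)` -/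
structure Sel (T : Forest V) (z : ℕ → V) (s : ℕ → (V → Bool) → ℝ) : Prop where
  nonneg : ∀ j x, 0 ≤ s j x
  le_one : ∀ j x, s j x ≤ 1
  dep : ∀ j, DependsOn (s j) (T.P j (z j) : Set V)

variable {T : Forest V} {z : ℕ → V} {s : ℕ → (V → Bool) → ℝ}

open Classical in
/-- the product of `1 - s i` over the `i < l` with `p i` -/
noncomputable def ps (s : ℕ → (V → Bool) → ℝ) (p : ℕ → Prop) (l : ℕ) (x : V → Bool) : ℝ :=
  ∏ i ∈ (range l).filter p, (1 - s i x)

theorem ps_nonneg (hs : Sel T z s) (p : ℕ → Prop) (l : ℕ) (x : V → Bool) : 0 ≤ ps s p l x :=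
  Finset.prod_nonneg fun i _ => by have := hs.le_one i x; linarith

theorem ps_le_one (hs : Sel T z s) (p : ℕ → Prop) (l : ℕ) (x : V → Bool) : ps s p l x ≤ 1 :=
  Finset.prod_le_one (fun i _ => by have := hs.le_one i x; linarith)
    (fun i _ => by have := hs.nonneg i x; linarith)

theorem surv_nonneg (hs : Sel T z s) (l : ℕ) (x : V → Bool) : 0 ≤ surv s l x :=
  Finset.prod_nonneg fun i _ => by have := hs.le_one i x; linarith

theorem surv_le_one (hs : Sel T z s) (l : ℕ) (x : V → Bool) : surv s l x ≤ 1 :=
  Finset.prod_le_one (fun i _ => by have := hs.le_one i x; linarith)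
    (fun i _ => by have := hs.nonneg i x; linarith)

theorem surv_succ (l : ℕ) (x : V → Bool) : surv s (l + 1) x = surv s l x * (1 - s l x) := by
  simp [surv, Finset.prod_range_succ]

theorem surv_succ' (l : ℕ) (x : V → Bool) :
    surv s (l + 1) x = surv s l x - s l x * surv s l x := by
  rw [surv_succ]; ring

theorem surv_anti (hs : Sel T z s) {i j : ℕ} (h : i ≤ j) (x : V → Bool) :
    surv s j x ≤ surv s i x := by
  induction j, h using Nat.le_induction with
  | base => exact le_rfl
  | succ j _ ih =>
    rw [surv_succ']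
    have := mul_nonneg (hs.nonneg j x) (surv_nonneg hs j x)
    linarith

theorem surv_eq_mul (p : ℕ → Prop) (l : ℕ) (x : V → Bool) :
    surv s l x = ps s p l x * ps s (fun i => ¬ p i) l x := by
  classical
  unfold surv ps
  rw [← Finset.prod_filter_mul_prod_filter_not (range l) p]
  congr!

theorem ps_eq_mul (p q : ℕ → Prop) (l : ℕ) (x : V → Bool) :
    ps s p l x = ps s (fun i => p i ∧ q i) l x * ps s (fun i => p i ∧ ¬ q i) l x := by
  classical
  unfold ps
  rw [← Finset.prod_filter_mul_prod_filter_not ((range l).filter p) q]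
  simp only [Finset.filter_filter]
  congr!

theorem dependsOn_ps (hs : Sel T z s) {p : ℕ → Prop} {l : ℕ} {G : Finset V}
    (h : ∀ i < l, p i → T.P i (z i) ⊆ G) : DependsOn (ps s p l) (G : Set V) := by
  classical
  intro x y hxy
  unfold ps
  apply Finset.prod_congr rfl
  intro i hi
  rw [Finset.mem_filter, Finset.mem_range] at hi
  congr 1
  exact hs.dep i fun a ha => hxy a (Finset.coe_subset.2 (h i hi.1 hi.2) ha)

theorem ps_of_forall {p q : ℕ → Prop} {l : ℕ} (h : ∀ i < l, (p i ↔ q i)) (x : V → Bool) :
    ps s p l x = ps s q l x := by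
  classical
  unfold ps
  congr 1
  ext i
  simp only [Finset.mem_filter, Finset.mem_range]
  constructor
  · rintro ⟨h1, h2⟩; exact ⟨h1, (h i h1).1 h2⟩
  · rintro ⟨h1, h2⟩; exact ⟨h1, (h i h1).2 h2⟩

/-- the one-step inequality -/
theorem step (hs : Sel T z s) (j : ℕ) {K : Finset V} (hK : T.Down j K) (x : V → Bool) :
    ce (K ∩ T.P j (z j)) (fun y => s j y * surv s j y) x * ce K (surv s j) x ≤
      ce K (fun y => s j y * surv s j y) x := by
  classical
  -- the branch of `z j`
  set b : Finset V := univ.filter (fun y => ∃ v, v ∉ K ∧ v ∈ T.P j y ∧ v ∈ T.P j (z j)) with hb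
  set H : Finset V := K ∩ T.P j (z j) with hH
  have hbK : ∀ y ∈ b, y ∉ K := by
    intro y hy hyK
    rw [hb, Finset.mem_filter] at hy
    obtain ⟨-, v, hvK, hvy, -⟩ := hy
    exact hvK (hK y hyK hvy)
  have b2 : T.P j (z j) ⊆ H ∪ b := by
    intro v hv
    by_cases hvK : v ∈ K
    · exact Finset.mem_union_left _ (Finset.mem_inter.2 ⟨hvK, hv⟩)
    · exact Finset.mem_union_right _
        (Finset.mem_filter.2 ⟨Finset.mem_univ _, v, hvK, T.self_mem j v, hv⟩)
  have b3 : ∀ i < j, z i ∈ b → T.P i (z i) ⊆ H ∪ b := by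
    intro i hi hzi w hw
    have hw' : w ∈ T.P j (z i) := T.mono_le hi.le _ hw
    rw [hb, Finset.mem_filter] at hzi
    obtain ⟨-, v, hvK, hvi, hvj⟩ := hzi
    rcases T.chain j w v (z i) hw' hvi with h | h
    · exact b2 (T.trans j v (z j) hvj h)
    · exact Finset.mem_union_right _
        (Finset.mem_filter.2 ⟨Finset.mem_univ _, v, hvK, h, hvj⟩)
  have b4 : ∀ i < j, z i ∉ b → T.P i (z i) ⊆ univ \ b := by
    intro i hi hzi w hw
    have hw' : w ∈ T.P j (z i) := T.mono_le hi.le _ hw
    rw [Finset.mem_sdiff]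
    refine ⟨Finset.mem_univ _, fun hwb => hzi ?_⟩
    rw [hb, Finset.mem_filter] at hwb ⊢
    obtain ⟨-, v, hvK, hvw, hvj⟩ := hwb
    exact ⟨Finset.mem_univ _, v, hvK, T.trans j w (z i) hw' hvw, hvj⟩
  set ub := ps s (fun i => z i ∈ b) j with hub
  set ur := ps s (fun i => ¬ z i ∈ b) j with hur
  have hu : surv s j = fun y => ub y * ur y := by
    funext y
    exact surv_eq_mul _ j y
  have dub : DependsOn ub ((H ∪ b : Finset V) : Set V) := dependsOn_ps hs b3
  have dur : DependsOn ur ((univ \ b : Finset V) : Set V) := dependsOn_ps hs b4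
  have dsb : DependsOn (fun y => s j y * ub y) ((H ∪ b : Finset V) : Set V) := by
    intro x y hxy
    have h1 := dependsOn_mono (hs.dep j) b2 hxy
    have h2 := dub hxy
    simp only [h1, h2]
  have hdisj : (H ∪ b) ∩ (univ \ b) ⊆ K := by
    intro v hv
    rw [Finset.mem_inter, Finset.mem_union, Finset.mem_sdiff] at hv
    rcases hv with ⟨h1 | h1, h2⟩
    · exact (Finset.mem_inter.1 h1).1
    · exact absurd h1 h2.2
  have e1 : ce K (fun y => s j y * surv s j y) x = ce K (fun y => s j y * ub y) x * ce K ur x := by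
    have : (fun y => s j y * surv s j y) = fun y => (s j y * ub y) * ur y := by
      funext y
      rw [hu]
      ring
    rw [this, ce_mul_of_indep dsb dur hdisj]
  have e2 : ce K (surv s j) x ≤ ce K ur x := by
    apply ce_mono
    intro y
    rw [hu]
    exact mul_le_of_le_one_left (ps_nonneg hs _ _ _) (ps_le_one hs _ _ _)
  have e3 : ce K (fun y => s j y * ub y) x = ce H (fun y => s j y * ub y) x := by
    rw [ce_inter_of_dependsOn dsb]
    congr 1
    ext v
    simp only [Finset.mem_inter, Finset.mem_union]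
    constructor
    · rintro ⟨h1, h2 | h2⟩
      · exact h2
      · exact absurd h1 (hbK v h2)
    · intro hv
      exact ⟨(Finset.mem_inter.1 hv).1, Or.inl hv⟩
  have e4 : ce H (fun y => s j y * surv s j y) x ≤ ce H (fun y => s j y * ub y) x := by
    apply ce_mono
    intro y
    rw [hu]
    apply mul_le_mul_of_nonneg_left _ (hs.nonneg j y)
    exact mul_le_of_le_one_right (ps_nonneg hs _ _ _) (ps_le_one hs _ _ _)
  rw [e1, e3]
  calc ce H (fun y => s j y * surv s j y) x * ce K (surv s j) x
      ≤ ce H (fun y => s j y * ub y) x * ce K ur x := by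
        apply mul_le_mul e4 e2 (ce_nonneg _ (surv_nonneg hs j) _)
        exact ce_nonneg _ (fun y => mul_nonneg (hs.nonneg j y) (ps_nonneg hs _ _ _)) _
    _ = _ := rfl

/-- the union inequality -/
theorem union_ineq (hs : Sel T z s) (l : ℕ) {K F : Finset V} (hK : T.Down l K) (hF : T.Down l F)
    (x : V → Bool) :
    ce K (surv s l) x * ce F (surv s l) x ≤ ce (K ∪ F) (surv s l) x := by
  classical
  set bK : Finset V := univ.filter (fun y => y ∉ K ∪ F ∧ T.P l y ∩ F ⊆ K) with hbK
  set bF : Finset V := univ.filter (fun y => y ∉ K ∪ F ∧ ¬ T.P l y ∩ F ⊆ K) with hbF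
  have p1 : ∀ i < l, z i ∈ bK → T.P i (z i) ⊆ K ∪ bK := by
    intro i hi hzi w hw
    have hw' : w ∈ T.P l (z i) := T.mono_le hi.le _ hw
    rw [hbK, Finset.mem_filter] at hzi
    obtain ⟨-, hz1, hz2⟩ := hzi
    by_cases hwKF : w ∈ K ∪ F
    · rcases Finset.mem_union.1 hwKF with h | h
      · exact Finset.mem_union_left _ h
      · exact Finset.mem_union_left _ (hz2 (Finset.mem_inter.2 ⟨hw', h⟩))
    · apply Finset.mem_union_right
      rw [hbK, Finset.mem_filter]
      refine ⟨Finset.mem_univ _, hwKF, ?_⟩
      intro v hv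
      rw [Finset.mem_inter] at hv
      exact hz2 (Finset.mem_inter.2 ⟨T.trans l w (z i) hw' hv.1, hv.2⟩)
  have p2 : ∀ i < l, z i ∈ bF → T.P i (z i) ⊆ F ∪ bF := by
    intro i hi hzi w hw
    have hw' : w ∈ T.P l (z i) := T.mono_le hi.le _ hw
    rw [hbF, Finset.mem_filter] at hzi
    obtain ⟨-, hz1, hz2⟩ := hzi
    -- a witness `v ∈ F \ K` on the path
    obtain ⟨v, hv1, hv2⟩ := Finset.not_subset.1 hz2
    rw [Finset.mem_inter] at hv1
    rcases T.chain l w v (z i) hw' hv1.1 with h | h
    · exact Finset.mem_union_left _ (hF v hv1.2 h)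
    · by_cases hwF : w ∈ F
      · exact Finset.mem_union_left _ hwF
      · have hwK : w ∉ K := fun hwK => hv2 (hK w hwK h)
        apply Finset.mem_union_right
        rw [hbF, Finset.mem_filter]
        refine ⟨Finset.mem_univ _, ?_, ?_⟩
        · rw [Finset.mem_union]; tauto
        · intro hsub
          exact hv2 (hsub (Finset.mem_inter.2 ⟨h, hv1.2⟩))
  have p0K : ∀ i < l, z i ∈ K → T.P i (z i) ⊆ K := fun i hi hzi =>
    (T.mono_le hi.le _).trans (hK _ hzi)
  have p0F : ∀ i < l, (z i ∉ K ∧ z i ∈ F) → T.P i (z i) ⊆ F := fun i hi hzi =>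
    (T.mono_le hi.le _).trans (hF _ hzi.2)
  -- the four factors
  set u0K := ps s (fun i => z i ∈ K) l with hu0K
  set u0F := ps s (fun i => z i ∉ K ∧ z i ∈ F) l with hu0F
  set u1 := ps s (fun i => z i ∈ bK) l with hu1
  set u2 := ps s (fun i => z i ∈ bF) l with hu2
  have hsplit : ∀ y, surv s l y = (u0K y * u0F y) * (u1 y * u2 y) := by
    intro y
    rw [surv_eq_mul (fun i => z i ∈ K) l y, ps_eq_mul (fun i => ¬ z i ∈ K) (fun i => z i ∈ F) l y,
      ps_eq_mul (fun i => ¬ z i ∈ K ∧ ¬ z i ∈ F) (fun i => T.P l (z i) ∩ F ⊆ K) l y]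
    have e1 : ps s (fun i => (¬ z i ∈ K ∧ ¬ z i ∈ F) ∧ T.P l (z i) ∩ F ⊆ K) l y = u1 y := by
      apply ps_of_forall
      intro i _
      rw [hbK, Finset.mem_filter, Finset.mem_union]
      simp [not_or]
    have e2 : ps s (fun i => (¬ z i ∈ K ∧ ¬ z i ∈ F) ∧ ¬ T.P l (z i) ∩ F ⊆ K) l y = u2 y := by
      apply ps_of_forall
      intro i _
      rw [hbF, Finset.mem_filter, Finset.mem_union]
      simp [not_or]
    rw [e1, e2]
    ring
  have d0K : DependsOn u0K (K : Set V) := dependsOn_ps hs p0K
  have d0F : DependsOn u0F (F : Set V) := dependsOn_ps hs p0F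
  have d1 : DependsOn u1 ((K ∪ bK : Finset V) : Set V) := dependsOn_ps hs p1
  have d2 : DependsOn u2 ((F ∪ bF : Finset V) : Set V) := dependsOn_ps hs p2
  have hbKn : ∀ v ∈ bK, v ∉ K ∪ F := fun v hv => (Finset.mem_filter.1 hv).2.1
  have hbFn : ∀ v ∈ bF, v ∉ K ∪ F := fun v hv => (Finset.mem_filter.1 hv).2.1
  have hdisj : (K ∪ bK) ∩ (F ∪ bF) ⊆ K ∪ F := by
    intro v hv
    rw [Finset.mem_inter, Finset.mem_union, Finset.mem_union] at hv
    rcases hv with ⟨h1 | h1, h2 | h2⟩
    · exact Finset.mem_union_left _ h1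
    · exact Finset.mem_union_left _ h1
    · exact Finset.mem_union_right _ h2
    · exfalso
      exact (Finset.mem_filter.1 h2).2.2 (Finset.mem_filter.1 h1).2.2
  have e0 : ce (K ∪ F) (surv s l) x = (u0K x * u0F x) * (ce K u1 x * ce F u2 x) := by
    have h1 : surv s l = fun y => (u0K y * u0F y) * (u1 y * u2 y) := funext hsplit
    have dKF : DependsOn (fun y => u0K y * u0F y) ((K ∪ F : Finset V) : Set V) := by
      intro y y' h
      have h1 := dependsOn_mono d0K Finset.subset_union_left h
      have h2 := dependsOn_mono d0F Finset.subset_union_right h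
      simp only [h1, h2]
    rw [h1, ce_mul_left dKF, ce_mul_of_indep d1 d2 hdisj]
    have e1 : ce (K ∪ F) u1 = ce K u1 := by
      rw [ce_inter_of_dependsOn d1]
      congr 1
      ext v
      simp only [Finset.mem_inter, Finset.mem_union]
      constructor
      · rintro ⟨h1, h2 | h2⟩
        · exact h2
        · exact absurd (Finset.mem_union.2 h1) (hbKn v h2)
      · intro h
        exact ⟨Or.inl h, Or.inl h⟩
    have e2 : ce (K ∪ F) u2 = ce F u2 := by
      rw [ce_inter_of_dependsOn d2]
      congr 1
      ext v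
      simp only [Finset.mem_inter, Finset.mem_union]
      constructor
      · rintro ⟨h1, h2 | h2⟩
        · exact h2
        · exact absurd (Finset.mem_union.2 h1) (hbFn v h2)
      · intro h
        exact ⟨Or.inr h, Or.inl h⟩
    rw [e1, e2]
  have eK : ce K (surv s l) x ≤ u0K x * ce K u1 x := by
    rw [← congrFun (ce_mul_left d0K u1) x]
    apply ce_mono
    intro y
    rw [hsplit y]
    have a1 := ps_nonneg hs (fun i => z i ∈ K) l y
    have a2 := ps_nonneg hs (fun i => z i ∉ K ∧ z i ∈ F) l y
    have a3 := ps_nonneg hs (fun i => z i ∈ bK) l y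
    have a4 := ps_nonneg hs (fun i => z i ∈ bF) l y
    have c2 := ps_le_one hs (fun i => z i ∉ K ∧ z i ∈ F) l y
    have c4 := ps_le_one hs (fun i => z i ∈ bF) l y
    calc (u0K y * u0F y) * (u1 y * u2 y) = (u0K y * u1 y) * (u0F y * u2 y) := by ring
      _ ≤ (u0K y * u1 y) * 1 := by
        apply mul_le_mul_of_nonneg_left _ (mul_nonneg a1 a3)
        exact mul_le_one₀ c2 a4 c4
      _ = _ := by ring
  have eF : ce F (surv s l) x ≤ u0F x * ce F u2 x := by
    rw [← congrFun (ce_mul_left d0F u2) x]
    apply ce_mono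
    intro y
    rw [hsplit y]
    have a1 := ps_nonneg hs (fun i => z i ∈ K) l y
    have a2 := ps_nonneg hs (fun i => z i ∉ K ∧ z i ∈ F) l y
    have a3 := ps_nonneg hs (fun i => z i ∈ bK) l y
    have a4 := ps_nonneg hs (fun i => z i ∈ bF) l y
    have c2 := ps_le_one hs (fun i => z i ∈ K) l y
    have c4 := ps_le_one hs (fun i => z i ∈ bK) l y
    calc (u0K y * u0F y) * (u1 y * u2 y) = (u0F y * u2 y) * (u0K y * u1 y) := by ring
      _ ≤ (u0F y * u2 y) * 1 := by
        apply mul_le_mul_of_nonneg_left _ (mul_nonneg a2 a4)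
        exact mul_le_one₀ c2 a3 c4
      _ = _ := by ring
  rw [e0]
  calc ce K (surv s l) x * ce F (surv s l) x ≤ (u0K x * ce K u1 x) * (u0F x * ce F u2 x) := by
        apply mul_le_mul eK eF (ce_nonneg _ (surv_nonneg hs l) _)
        exact mul_nonneg (ps_nonneg hs _ _ _) (ce_nonneg _ (ps_nonneg hs _ _) _)
    _ = _ := by ring

/-- the sum inequality -/
theorem sum_ineq (hs : Sel T z s) {K : Finset V} (x : V → Bool) (l : ℕ) (hK : T.Down l K)
    (hpos : 0 < ce K (surv s l) x) :
    ∑ j ∈ range l, ce (K ∩ T.P j (z j)) (fun y => s j y * surv s j y) x ≤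
      - Real.log (ce K (surv s l) x) := by
  induction l with
  | zero =>
    have : surv s 0 = fun _ => (1 : ℝ) := by funext y; simp [surv]
    simp [this, ce_const]
  | succ l ih =>
    have hKl : T.Down l K := T.down_of_le (Nat.le_succ l) hK
    have hle : ce K (surv s (l + 1)) x ≤ ce K (surv s l) x :=
      ce_mono K (surv_anti hs (Nat.le_succ l)) x
    have hposl : 0 < ce K (surv s l) x := lt_of_lt_of_le hpos hle
    have ih' := ih hKl hposl
    have hst := step hs l hKl x
    have he : ce K (surv s (l + 1)) x =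
        ce K (surv s l) x - ce K (fun y => s l y * surv s l y) x := by
      have : surv s (l + 1) = fun y => surv s l y - s l y * surv s l y :=
        funext (surv_succ' l)
      rw [this, ce_sub]
    rw [Finset.sum_range_succ]
    have h1 : ce (K ∩ T.P l (z l)) (fun y => s l y * surv s l y) x ≤
        1 - ce K (surv s (l + 1)) x / ce K (surv s l) x := by
      rw [he, sub_div, div_self hposl.ne']
      have : ce (K ∩ T.P l (z l)) (fun y => s l y * surv s l y) x ≤
          ce K (fun y => s l y * surv s l y) x / ce K (surv s l) x := by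
        rw [le_div_iff₀ hposl]
        exact hst
      linarith
    have h2 := Real.log_le_sub_one_of_pos (div_pos hpos hposl)
    rw [Real.log_div hpos.ne' hposl.ne'] at h2
    linarith

/-- pointwise: powers of sums of nonnegative numbers `≤ 1` -/
theorem pow_sum_le (a : ℕ → ℝ) (ha : ∀ j, 0 ≤ a j) (ha1 : ∀ j, a j ≤ 1) (q l : ℕ) :
    (∑ j ∈ range l, a j) ^ (q + 1) ≤ (q + 1) * 2 ^ q *
      ∑ j ∈ range l, (a j * (∑ i ∈ range j, a i) ^ q + a j) := by
  induction l with
  | zero => simp
  | succ l ih =>
    set A := ∑ j ∈ range l, a j with hA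
    have hA0 : 0 ≤ A := Finset.sum_nonneg fun j _ => ha j
    have hb : 0 ≤ a l := ha l
    rw [Finset.sum_range_succ, Finset.sum_range_succ, ← hA]
    have h1 : (A + a l) ^ (q + 1) ≤ A ^ (q + 1) + (q + 1) * a l * (A + a l) ^ q := by
      -- Bernoulli type inequality
      have hBern : ∀ n : ℕ, (A + a l) ^ (n + 1) ≤ A ^ (n + 1) + (n + 1) * a l * (A + a l) ^ n := by
        intro n
        induction n with
        | zero => simp
        | succ n ihn =>
          have h2 : (A + a l) ^ (n + 1 + 1) ≤
              (A ^ (n + 1) + (n + 1) * a l * (A + a l) ^ n) * (A + a l) := by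
            rw [pow_succ]
            exact mul_le_mul_of_nonneg_right ihn (by linarith)
          have h3 : A ^ (n + 1) ≤ (A + a l) ^ (n + 1) := pow_le_pow_left₀ hA0 (by linarith) _
          push_cast
          calc (A + a l) ^ (n + 1 + 1) ≤
              (A ^ (n + 1) + (n + 1) * a l * (A + a l) ^ n) * (A + a l) := h2
            _ = A ^ (n + 1 + 1) + A ^ (n + 1) * a l + (n + 1) * a l * (A + a l) ^ (n + 1) := by
              ring
            _ ≤ A ^ (n + 1 + 1) + (A + a l) ^ (n + 1) * a l +
                (n + 1) * a l * (A + a l) ^ (n + 1) := by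
              have := mul_le_mul_of_nonneg_right h3 hb
              linarith
            _ = _ := by ring
      exact hBern q
    have h4 : (A + a l) ^ q ≤ 2 ^ q * (A ^ q + 1) := by
      have hm : A + a l ≤ 2 * max A 1 := by
        have := le_max_left A 1
        have := le_max_right A 1
        have := ha1 l
        linarith
      calc (A + a l) ^ q ≤ (2 * max A 1) ^ q := pow_le_pow_left₀ (by linarith) hm _
        _ = 2 ^ q * max A 1 ^ q := mul_pow _ _ _
        _ ≤ 2 ^ q * (A ^ q + 1) := by
          apply mul_le_mul_of_nonneg_left _ (by positivity)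
          rcases max_cases A 1 with h | h
          · rw [h.1]; linarith
          · rw [h.1]; have := pow_nonneg hA0 q; simp only [one_pow]; linarith
    calc (A + a l) ^ (q + 1) ≤ A ^ (q + 1) + (q + 1) * a l * (A + a l) ^ q := h1
      _ ≤ (q + 1) * 2 ^ q * ∑ j ∈ range l, (a j * (∑ i ∈ range j, a i) ^ q + a j) +
          (q + 1) * a l * (2 ^ q * (A ^ q + 1)) := by
        have h5 : (q + 1 : ℝ) * a l * (A + a l) ^ q ≤ (q + 1) * a l * (2 ^ q * (A ^ q + 1)) :=
          mul_le_mul_of_nonneg_left h4 (by positivity)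
        linarith
      _ = _ := by ring

/-- the constants of the moment inequality -/
noncomputable def Cq : ℕ → ℕ → ℝ
  | 0, _ => 1
  | q + 1, k => (q + 1) * 2 ^ q * (Cq q (k + 1) + 1) * k

theorem Cq_nonneg (q : ℕ) : ∀ k, 0 ≤ Cq q k := by
  induction q with
  | zero => intro k; simp [Cq]
  | succ q ih =>
    intro k
    have := ih (k + 1)
    simp only [Cq]
    positivity

/-- the functions `α j` -/
noncomputable def al (T : Forest V) (z : ℕ → V) (s : ℕ → (V → Bool) → ℝ) (j : ℕ)
    (x : V → Bool) : ℝ :=
  ce (T.P j (z j)) (fun y => s j y * surv s j y) x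

theorem al_eq (hs : Sel T z s) (j : ℕ) (x : V → Bool) :
    al T z s j x = s j x * ce (T.P j (z j)) (surv s j) x := by
  unfold al
  rw [ce_mul_left (hs.dep j)]

theorem al_nonneg (hs : Sel T z s) (j : ℕ) (x : V → Bool) : 0 ≤ al T z s j x :=
  ce_nonneg _ (fun y => mul_nonneg (hs.nonneg j y) (surv_nonneg hs j y)) x

theorem al_le_one (hs : Sel T z s) (j : ℕ) (x : V → Bool) : al T z s j x ≤ 1 := by
  unfold al
  calc ce (T.P j (z j)) (fun y => s j y * surv s j y) x ≤ ce (T.P j (z j)) (fun _ => 1) x := by
        apply ce_mono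
        intro y
        exact mul_le_one₀ (hs.le_one j y) (surv_nonneg hs j y) (surv_le_one hs j y)
    _ = 1 := by rw [ce_const]

theorem dependsOn_al (j : ℕ) : DependsOn (al T z s j) (T.P j (z j) : Set V) :=
  dependsOn_ce _ _

/-- the moment inequality, localized -/
theorem moment_loc (hs : Sel T z s) (η : ℝ) (hη : 0 < η) (hη1 : η ≤ 1)
    (hsel : ∀ j x, s j x ≠ 0 → η ≤ ce (T.P j (z j)) (surv s j) x) (q : ℕ) :
    ∀ (k l : ℕ) (K : Finset V) (_ : T.Down l K) (φ : (V → Bool) → ℝ) (_ : ∀ x, 0 ≤ φ x)
      (_ : DependsOn φ (K : Set V)) (_ : ∀ x, φ x ≠ 0 → η ^ k ≤ ce K (surv s l) x),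
      av (fun x => φ x * (∑ j ∈ range l, al T z s j x) ^ q) ≤
        Cq q k * (1 + Real.log (1 / η)) ^ q * av φ := by
  set L := Real.log (1 / η) with hL
  have hL0 : 0 ≤ L := Real.log_nonneg (by rw [le_div_iff₀ hη]; linarith)
  induction q with
  | zero =>
    intro k l K hK φ hφ hdφ hφK
    simp [Cq]
  | succ q ih =>
    intro k l K hK φ hφ hdφ hφK
    -- pointwise bound
    have h1 : av (fun x => φ x * (∑ j ∈ range l, al T z s j x) ^ (q + 1)) ≤
        (q + 1) * 2 ^ q * ∑ j ∈ range l,
          (av (fun x => (φ x * al T z s j x) * (∑ i ∈ range j, al T z s i x) ^ q) +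
            av (fun x => φ x * al T z s j x)) := by
      have : ∀ x, φ x * (∑ j ∈ range l, al T z s j x) ^ (q + 1) ≤
          (q + 1) * 2 ^ q * ∑ j ∈ range l,
            ((φ x * al T z s j x) * (∑ i ∈ range j, al T z s i x) ^ q + φ x * al T z s j x) := by
        intro x
        have h := pow_sum_le (fun j => al T z s j x) (fun j => al_nonneg hs j x)
          (fun j => al_le_one hs j x) q l
        calc φ x * (∑ j ∈ range l, al T z s j x) ^ (q + 1) ≤ φ x * ((q + 1) * 2 ^ q *
            ∑ j ∈ range l, (al T z s j x * (∑ i ∈ range j, al T z s i x) ^ q + al T z s j x)) :=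
              mul_le_mul_of_nonneg_left h (hφ x)
          _ = _ := by
            rw [mul_left_comm, Finset.mul_sum]
            congr 1
            apply Finset.sum_congr rfl
            intro j _
            ring
      refine (av_mono this).trans (le_of_eq ?_)
      rw [av_const_mul, av_sum]
      congr 1
      apply Finset.sum_congr rfl
      intro j _
      rw [av_add]
    -- induction hypothesis for each `j`
    have h2 : ∀ j ∈ range l,
        av (fun x => (φ x * al T z s j x) * (∑ i ∈ range j, al T z s i x) ^ q) ≤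
        Cq q (k + 1) * (1 + L) ^ q * av (fun x => φ x * al T z s j x) := by
      intro j hj
      rw [Finset.mem_range] at hj
      have hKj : T.Down j K := T.down_of_le hj.le hK
      apply ih (k + 1) j (K ∪ T.P j (z j)) (T.down_union hKj (T.down_P j (z j)))
      · intro x
        exact mul_nonneg (hφ x) (al_nonneg hs j x)
      · intro x y hxy
        have e1 := dependsOn_mono hdφ Finset.subset_union_left hxy
        have e2 := dependsOn_mono (dependsOn_al (T := T) (z := z) (s := s) j)
          Finset.subset_union_right hxy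
        simp only [e1, e2]
      · intro x hx
        have hx1 : φ x ≠ 0 := left_ne_zero_of_mul hx
        have hx2 : al T z s j x ≠ 0 := right_ne_zero_of_mul hx
        rw [al_eq hs] at hx2
        have hx3 : s j x ≠ 0 := left_ne_zero_of_mul hx2
        have a1 := hφK x hx1
        have a2 := hsel j x hx3
        have a3 : ce K (surv s l) x ≤ ce K (surv s j) x := ce_mono K (surv_anti hs hj.le) x
        calc η ^ (k + 1) = η ^ k * η := pow_succ _ _
          _ ≤ ce K (surv s j) x * ce (T.P j (z j)) (surv s j) x := by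
            apply mul_le_mul (a1.trans a3) a2 hη.le
            exact ce_nonneg _ (surv_nonneg hs j) _
          _ ≤ _ := union_ineq hs j hKj (T.down_P j (z j)) x
    -- the sum of the first moments
    have h3 : ∑ j ∈ range l, av (fun x => φ x * al T z s j x) ≤ k * L * av φ := by
      have e1 : ∀ j, av (fun x => φ x * al T z s j x) =
          av (fun x => φ x * ce (K ∩ T.P j (z j)) (fun y => s j y * surv s j y) x) := by
        intro j
        rw [av_mul_ce' hdφ]
        unfold al
        have : ce K (ce (T.P j (z j)) (fun y => s j y * surv s j y)) =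
            ce (K ∩ T.P j (z j)) (fun y => s j y * surv s j y) := ce_ce _ _ _
        simp only [← this]
      rw [Finset.sum_congr rfl fun j _ => e1 j, ← av_sum, ← av_const_mul]
      apply av_mono
      intro x
      rw [← Finset.mul_sum]
      by_cases hx : φ x = 0
      · simp [hx]
      · have hθ := hφK x hx
        have hθ0 : 0 < η ^ k := by positivity
        have h5 := sum_ineq hs x l hK (lt_of_lt_of_le hθ0 hθ)
        have h6 : - Real.log (ce K (surv s l) x) ≤ k * L := by
          have h7 := Real.log_le_log hθ0 hθ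
          rw [Real.log_pow] at h7
          have h8 : L = - Real.log η := by rw [hL, one_div, Real.log_inv]
          rw [h8]
          linarith
        calc φ x * ∑ j ∈ range l, ce (K ∩ T.P j (z j)) (fun y => s j y * surv s j y) x
            ≤ φ x * (k * L) := mul_le_mul_of_nonneg_left (h5.trans h6) (hφ x)
          _ = k * L * φ x := by ring
    have hav : 0 ≤ av φ := av_nonneg hφ
    have hC := Cq_nonneg q (k + 1)
    have h1L : (1 : ℝ) ≤ (1 + L) ^ q := one_le_pow₀ (by linarith)
    calc av (fun x => φ x * (∑ j ∈ range l, al T z s j x) ^ (q + 1))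
        ≤ (q + 1) * 2 ^ q * ∑ j ∈ range l,
          (av (fun x => (φ x * al T z s j x) * (∑ i ∈ range j, al T z s i x) ^ q) +
            av (fun x => φ x * al T z s j x)) := h1
      _ ≤ (q + 1) * 2 ^ q * ∑ j ∈ range l,
          ((Cq q (k + 1) + 1) * (1 + L) ^ q * av (fun x => φ x * al T z s j x)) := by
        apply mul_le_mul_of_nonneg_left _ (by positivity)
        apply Finset.sum_le_sum
        intro j hj
        have e1 := h2 j hj
        have e2 : 0 ≤ av (fun x => φ x * al T z s j x) :=
          av_nonneg fun x => mul_nonneg (hφ x) (al_nonneg hs j x)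
        have e3 : av (fun x => φ x * al T z s j x) ≤
            (1 + L) ^ q * av (fun x => φ x * al T z s j x) := le_mul_of_one_le_left e2 h1L
        calc _ ≤ Cq q (k + 1) * (1 + L) ^ q * av (fun x => φ x * al T z s j x) +
              (1 + L) ^ q * av (fun x => φ x * al T z s j x) := add_le_add e1 e3
          _ = _ := by ring
      _ = (q + 1) * 2 ^ q * ((Cq q (k + 1) + 1) * (1 + L) ^ q) *
          ∑ j ∈ range l, av (fun x => φ x * al T z s j x) := by
        rw [← Finset.mul_sum]
        ring
      _ ≤ (q + 1) * 2 ^ q * ((Cq q (k + 1) + 1) * (1 + L) ^ q) * (k * L * av φ) := by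
        apply mul_le_mul_of_nonneg_left h3 (by positivity)
      _ ≤ (q + 1) * 2 ^ q * ((Cq q (k + 1) + 1) * (1 + L) ^ q) * (k * (1 + L) * av φ) := by
        apply mul_le_mul_of_nonneg_left _ (by positivity)
        apply mul_le_mul_of_nonneg_right _ hav
        apply mul_le_mul_of_nonneg_left _ (by positivity)
        linarith
      _ = _ := by
        simp only [Cq]
        ring

/-- the moment inequality -/
theorem moment (hs : Sel T z s) (η : ℝ) (hη : 0 < η) (hη1 : η ≤ 1)
    (hsel : ∀ j x, s j x ≠ 0 → η ≤ ce (T.P j (z j)) (surv s j) x) (q N : ℕ) :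
    av (fun x => (∑ j ∈ range N, al T z s j x) ^ (q + 1)) ≤
      (q + 1) * 2 ^ q * (Cq q 1 + 1) * (1 + Real.log (1 / η)) ^ q *
        av (fun x => ∑ j ∈ range N, al T z s j x) := by
  set L := Real.log (1 / η) with hL
  have hL0 : 0 ≤ L := Real.log_nonneg (by rw [le_div_iff₀ hη]; linarith)
  have h1 : av (fun x => (∑ j ∈ range N, al T z s j x) ^ (q + 1)) ≤
      (q + 1) * 2 ^ q * ∑ j ∈ range N,
        (av (fun x => al T z s j x * (∑ i ∈ range j, al T z s i x) ^ q) +
          av (fun x => al T z s j x)) := by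
    refine (av_mono fun x => pow_sum_le (fun j => al T z s j x) (fun j => al_nonneg hs j x)
      (fun j => al_le_one hs j x) q N).trans (le_of_eq ?_)
    rw [av_const_mul, av_sum]
    congr 1
    apply Finset.sum_congr rfl
    intro j _
    rw [av_add]
  have h2 : ∀ j, av (fun x => al T z s j x * (∑ i ∈ range j, al T z s i x) ^ q) ≤
      Cq q 1 * (1 + L) ^ q * av (fun x => al T z s j x) := by
    intro j
    apply moment_loc hs η hη hη1 hsel q 1 j (T.P j (z j)) (T.down_P j (z j)) (al T z s j)
      (al_nonneg hs j) (dependsOn_al j)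
    intro x hx
    rw [al_eq hs] at hx
    rw [pow_one]
    exact hsel j x (left_ne_zero_of_mul hx)
  have h1L : (1 : ℝ) ≤ (1 + L) ^ q := one_le_pow₀ (by linarith)
  have hC := Cq_nonneg q 1
  calc av (fun x => (∑ j ∈ range N, al T z s j x) ^ (q + 1))
      ≤ (q + 1) * 2 ^ q * ∑ j ∈ range N,
        (av (fun x => al T z s j x * (∑ i ∈ range j, al T z s i x) ^ q) +
          av (fun x => al T z s j x)) := h1
    _ ≤ (q + 1) * 2 ^ q * ∑ j ∈ range N,
        ((Cq q 1 + 1) * (1 + L) ^ q * av (fun x => al T z s j x)) := by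
      apply mul_le_mul_of_nonneg_left _ (by positivity)
      apply Finset.sum_le_sum
      intro j _
      have e2 : 0 ≤ av (fun x => al T z s j x) := av_nonneg fun x => al_nonneg hs j x
      have e3 : av (fun x => al T z s j x) ≤ (1 + L) ^ q * av (fun x => al T z s j x) :=
        le_mul_of_one_le_left e2 h1L
      calc _ ≤ Cq q 1 * (1 + L) ^ q * av (fun x => al T z s j x) +
            (1 + L) ^ q * av (fun x => al T z s j x) := add_le_add (h2 j) e3
        _ = _ := by ring
    _ = _ := by
      rw [← Finset.mul_sum, av_sum]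
      ring

section selection

open Classical in
/-- the greedy selection: survival functions -/
noncomputable def uSel (T : Forest V) (z : ℕ → V) (w : (V → Bool) → ℝ) (lam η : ℝ) :
    ℕ → (V → Bool) → ℝ
  | 0 => fun _ => 1
  | j + 1 => fun x => uSel T z w lam η j x *
      (1 - if lam ≤ ce (T.P j (z j)) w x ∧ η < ce (T.P j (z j)) (uSel T z w lam η j) x
        then 1 else 0)

open Classical in
/-- the greedy selection -/
noncomputable def sSel (T : Forest V) (z : ℕ → V) (w : (V → Bool) → ℝ) (lam η : ℝ)
    (j : ℕ) (x : V → Bool) : ℝ :=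
  if lam ≤ ce (T.P j (z j)) w x ∧ η < ce (T.P j (z j)) (uSel T z w lam η j) x then 1 else 0

theorem surv_sSel (T : Forest V) (z : ℕ → V) (w : (V → Bool) → ℝ) (lam η : ℝ) (j : ℕ) :
    surv (sSel T z w lam η) j = uSel T z w lam η j := by
  induction j with
  | zero => funext x; simp [surv, uSel]
  | succ j ih =>
    funext x
    rw [surv_succ, ih]
    rfl

theorem sel_sSel (T : Forest V) (z : ℕ → V) (w : (V → Bool) → ℝ) (lam η : ℝ) :
    Sel T z (sSel T z w lam η) where
  nonneg j x := by unfold sSel; split_ifs <;> norm_num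
  le_one j x := by unfold sSel; split_ifs <;> norm_num
  dep j := by
    intro x y hxy
    have h1 := dependsOn_ce (T.P j (z j)) w hxy
    have h2 := dependsOn_ce (T.P j (z j)) (uSel T z w lam η j) hxy
    simp only [sSel, h1, h2]

theorem uSel_zero_or_one (T : Forest V) (z : ℕ → V) (w : (V → Bool) → ℝ) (lam η : ℝ) (j : ℕ)
    (x : V → Bool) : uSel T z w lam η j x = 0 ∨ uSel T z w lam η j x = 1 := by
  induction j with
  | zero => right; rfl
  | succ j ih =>
    simp only [uSel]
    rcases ih with h | h <;> rw [h] <;> split_ifs <;> norm_num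

end selection

end core

/-- B4: the covering lemma -/
theorem cover (q : ℕ) (hq : 2 ≤ q) : ∃ c : ℝ, 0 < c ∧
    ∀ (V : Type) [Fintype V] [DecidableEq V] (T : Forest V) (z : ℕ → V) (N : ℕ)
      (w : (V → Bool) → ℝ) (_ : ∀ x, 0 ≤ w x) (lam η : ℝ) (_ : 0 < lam) (_ : 0 < η) (_ : η ≤ 1),
      ∃ u : (V → Bool) → ℝ, (∀ x, u x = 0 ∨ u x = 1) ∧
        av (fun x => 1 - u x) ≤ c * (1 + Real.log (1 / η)) *
          (av (fun x => w x ^ ((q : ℝ) / (q - 1))) / lam ^ ((q : ℝ) / (q - 1))) ∧
        ∀ j < N, ∀ x, lam ≤ ce (T.P j (z j)) w x → ce (T.P j (z j)) u x ≤ η := by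
  obtain ⟨q', rfl⟩ : ∃ q', q = q' + 1 := ⟨q - 1, by omega⟩
  have hq' : 1 ≤ q' := by omega
  have hq'0 : (0 : ℝ) < q' := by exact_mod_cast hq'
  set c0 : ℝ := (q' + 1) * 2 ^ q' * (Cq q' 1 + 1) with hc0
  have hc0pos : 0 < c0 := by
    have := Cq_nonneg q' 1
    positivity
  refine ⟨c0 ^ (1 / (q' : ℝ)), Real.rpow_pos_of_pos hc0pos _, ?_⟩
  intro V _ _ T z N w hw lam η hlam hη hη1
  set r : ℝ := ((q' + 1 : ℕ) : ℝ) / (((q' + 1 : ℕ) : ℝ) - 1) with hr
  have hr' : r = (q' + 1) / q' := by
    rw [hr]; push_cast; congr 1; ring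
  have hr0 : 0 < r := by rw [hr']; positivity
  set s := sSel T z w lam η with hsdef
  have hs : Sel T z s := sel_sSel T z w lam η
  have hsurv : ∀ j, surv s j = uSel T z w lam η j := surv_sSel T z w lam η
  set L := Real.log (1 / η) with hL
  have hL0 : 0 ≤ L := Real.log_nonneg (by rw [le_div_iff₀ hη]; linarith)
  refine ⟨surv s N, ?_, ?_, ?_⟩
  · intro x
    rw [hsurv]
    exact uSel_zero_or_one T z w lam η N x
  · -- the measure bound
    have hsel : ∀ j x, s j x ≠ 0 → η ≤ ce (T.P j (z j)) (surv s j) x := by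
      intro j x hx
      rw [hsurv]
      rw [hsdef] at hx
      unfold sSel at hx
      split_ifs at hx with h
      · exact h.2.le
      · exact absurd rfl hx
    have hsel2 : ∀ j x, s j x ≠ 0 → lam ≤ ce (T.P j (z j)) w x := by
      intro j x hx
      rw [hsdef] at hx
      unfold sSel at hx
      split_ifs at hx with h
      · exact h.1
      · exact absurd rfl hx
    set f : (V → Bool) → ℝ := fun x => ∑ j ∈ range N, al T z s j x with hf
    have hf0 : ∀ x, 0 ≤ f x := fun x => Finset.sum_nonneg fun j _ => al_nonneg hs j x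
    have havf : av f = av (fun x => 1 - surv s N x) := by
      have h1 : ∀ j, av (al T z s j) = av (fun x => surv s j x - surv s (j + 1) x) := by
        intro j
        unfold al
        rw [show (fun x => ce (T.P j (z j)) (fun y => s j y * surv s j y) x) =
          ce (T.P j (z j)) (fun y => s j y * surv s j y) from rfl, av_ce]
        congr 1
        funext x
        rw [surv_succ']
        ring
      rw [hf, av_sum, Finset.sum_congr rfl fun j _ => h1 j, ← av_sum]
      congr 1
      funext x
      rw [Finset.sum_range_sub' (fun j => surv s j x)]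
      simp [surv]
    rw [← havf]
    -- the selection inequality
    have hlow : lam * av f ≤ av (fun x => f x * w x) := by
      have h1 : ∀ j, lam * av (al T z s j) ≤ av (fun x => al T z s j x * w x) := by
        intro j
        have e1 : av (fun x => al T z s j x * w x) =
            av (fun x => (s j x * surv s j x) * ce (T.P j (z j)) w x) :=
          av_mul_ce (T.P j (z j)) (fun y => s j y * surv s j y) w
        have e2 : av (al T z s j) = av (fun x => s j x * surv s j x) := by
          unfold al
          exact av_ce _ _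
        rw [e1, e2, ← av_const_mul]
        apply av_mono
        intro x
        by_cases hx : s j x = 0
        · simp [hx]
        · have := mul_nonneg (hs.nonneg j x) (surv_nonneg hs j x)
          rw [mul_comm lam]
          exact mul_le_mul_of_nonneg_left (hsel2 j x hx) this
      calc lam * av f = ∑ j ∈ range N, lam * av (al T z s j) := by
            rw [hf, av_sum, Finset.mul_sum]
        _ ≤ ∑ j ∈ range N, av (fun x => al T z s j x * w x) :=
            Finset.sum_le_sum fun j _ => h1 j
        _ = av (fun x => f x * w x) := by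
            rw [← av_sum]
            congr 1
            funext x
            rw [hf, Finset.sum_mul]
    have hmom := moment hs η hη hη1 hsel q' N
    have hX0 : 0 ≤ av f := av_nonneg hf0
    have hY0 : 0 ≤ av (fun x => w x ^ r) := av_nonneg fun x => Real.rpow_nonneg (hw x) _
    rcases hX0.eq_or_lt with hX | hX
    · rw [← hX]
      positivity
    -- Hölder
    have hconj : ((q' : ℝ) + 1).HolderConjugate r := by
      rw [Real.holderConjugate_iff]
      refine ⟨by linarith, ?_⟩
      rw [hr']
      field_simp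
      ring
    have hH := av_mul_le_Lp_mul_Lq hf0 hw hconj
    have hmom' : av (fun x => f x ^ ((q' : ℝ) + 1)) ≤ c0 * (1 + L) ^ q' * av f := by
      have : (fun x => f x ^ ((q' : ℝ) + 1)) =
          fun x => (∑ j ∈ range N, al T z s j x) ^ (q' + 1) := by
        funext x
        rw [← Real.rpow_natCast]
        push_cast
        rfl
      rw [this]
      exact hmom
    set X := av f with hXdef
    set Y := av (fun x => w x ^ r) with hYdef
    have h1 : lam * X ≤ (c0 * (1 + L) ^ q' * X) ^ (1 / ((q' : ℝ) + 1)) * Y ^ (1 / r) := by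
      refine (hlow.trans hH).trans ?_
      apply mul_le_mul_of_nonneg_right _ (Real.rpow_nonneg hY0 _)
      apply Real.rpow_le_rpow _ hmom' (by positivity)
      exact av_nonneg fun x => Real.rpow_nonneg (hf0 x) _
    -- raise to the power `r`
    have h2 : lam ^ r * X ^ r ≤ (c0 * (1 + L) ^ q' * X) ^ (1 / (q' : ℝ)) * Y := by
      have hB : 0 ≤ c0 * (1 + L) ^ q' * X := by positivity
      have h3 := Real.rpow_le_rpow (by positivity) h1 hr0.le
      rw [Real.mul_rpow hlam.le hX.le, Real.mul_rpow (Real.rpow_nonneg hB _)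
        (Real.rpow_nonneg hY0 _), ← Real.rpow_mul hB, ← Real.rpow_mul hY0] at h3
      have e1 : 1 / ((q' : ℝ) + 1) * r = 1 / (q' : ℝ) := by
        rw [hr']; field_simp
      have e2 : 1 / r * r = 1 := by field_simp
      rw [e1, e2, Real.rpow_one] at h3
      exact h3
    have h4 : X ^ r = X * X ^ (1 / (q' : ℝ)) := by
      rw [← Real.rpow_one_add' hX.le]
      · congr 1
        rw [hr']; field_simp
      · positivity
    have h5 : (c0 * (1 + L) ^ q' * X) ^ (1 / (q' : ℝ)) =
        c0 ^ (1 / (q' : ℝ)) * (1 + L) * X ^ (1 / (q' : ℝ)) := by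
      rw [Real.mul_rpow (by positivity) hX.le, Real.mul_rpow hc0pos.le (by positivity),
        ← Real.rpow_natCast (1 + L) q', ← Real.rpow_mul (by positivity)]
      congr 2
      rw [mul_one_div_cancel hq'0.ne', Real.rpow_one]
    rw [h4, h5] at h2
    have hXp : 0 < X ^ (1 / (q' : ℝ)) := Real.rpow_pos_of_pos hX _
    have hlamr : 0 < lam ^ r := Real.rpow_pos_of_pos hlam _
    have h6 : lam ^ r * X ≤ c0 ^ (1 / (q' : ℝ)) * (1 + L) * Y := by
      have h7 : (lam ^ r * X) * X ^ (1 / (q' : ℝ)) ≤
          (c0 ^ (1 / (q' : ℝ)) * (1 + L) * Y) * X ^ (1 / (q' : ℝ)) := by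
        calc _ = lam ^ r * (X * X ^ (1 / (q' : ℝ))) := by ring
          _ ≤ _ := h2
          _ = _ := by ring
      exact le_of_mul_le_mul_right h7 hXp
    rw [← mul_div_assoc, le_div_iff₀ hlamr]
    linarith
  · -- the covering property
    intro j hj x hx
    have hmono : ce (T.P j (z j)) (surv s N) x ≤ ce (T.P j (z j)) (surv s (j + 1)) x :=
      ce_mono _ (surv_anti hs hj) x
    refine hmono.trans ?_
    by_cases h : η < ce (T.P j (z j)) (surv s j) x
    · -- selected: the whole fibre is covered
      have hsx : s j x = 1 := by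
        rw [hsdef]
        unfold sSel
        rw [hsurv] at h
        rw [if_pos ⟨hx, h⟩]
      have h1 : surv s (j + 1) = fun y => (1 - s j y) * surv s j y := by
        funext y
        rw [surv_succ]; ring
      have h2 : DependsOn (fun y => 1 - s j y) (T.P j (z j) : Set V) := by
        intro a b hab
        have := hs.dep j hab
        simp only [this]
      rw [h1, ce_mul_left h2]
      simp only [hsx, sub_self, zero_mul]
      exact hη.le
    · push Not at h
      exact (ce_mono _ (surv_anti hs (Nat.le_succ j)) x).trans h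

end Pool.Agent.LpBasis
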