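import Pool.Agent.Hhelper27.LpBasis.Decomp
import Pool.Agent.Hhelper27.LpBasis.Criterion

/-!
Modules K2, K3, K4 of the unconditional basis of `L_p` (problem MP_ac58b9_an): atoms, union of two
systems, from a system on the whole space to a basis.
-/

set_option autoImplicit false

namespace Pool.Agent.LpBasis

open Finset MeasureTheory ENNReal

theorem norm_rpow_eq_lintegral {Ω : Type} [MeasurableSpace Ω] {μ : Measure Ω}
    {p : ℝ≥0∞} [hp1 : Fact (1 ≤ p)] (hp : p ≠ ⊤) (f : Lp ℝ p μ) :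
    ‖f‖ ^ p.toReal = (∫⁻ x, ‖f x‖ₑ ^ p.toReal ∂μ).toReal := by
  have hp0 : p ≠ 0 := (one_pos.trans_le hp1.out).ne'
  have hpt : 0 < p.toReal := ENNReal.toReal_pos hp0 hp
  rw [Lp.norm_def, eLpNorm_eq_lintegral_rpow_enorm_toReal hp0 hp, ENNReal.toReal_rpow,
    ← ENNReal.rpow_mul, one_div, inv_mul_cancel₀ hpt.ne', ENNReal.rpow_one]

theorem norm_add_rpow_of_disjoint {Ω : Type} [MeasurableSpace Ω] {μ : Measure Ω}
    {p : ℝ≥0∞} [hp1 : Fact (1 ≤ p)] (hp : p ≠ ⊤) (u v : Lp ℝ p μ) (M M' : Set Ω)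
    (hd : Disjoint M M') (hu : ∀ᵐ ω ∂μ, ω ∉ M → (u : Ω → ℝ) ω = 0)
    (hv : ∀ᵐ ω ∂μ, ω ∉ M' → (v : Ω → ℝ) ω = 0) :
    ‖u + v‖ ^ p.toReal = ‖u‖ ^ p.toReal + ‖v‖ ^ p.toReal := by
  have hp0 : p ≠ 0 := (one_pos.trans_le hp1.out).ne'
  have hpt : 0 < p.toReal := ENNReal.toReal_pos hp0 hp
  have hfin : ∀ f : Lp ℝ p μ, (∫⁻ x, ‖f x‖ₑ ^ p.toReal ∂μ) ≠ ⊤ := by
    intro f
    exact (lintegral_rpow_enorm_lt_top_of_eLpNorm_lt_top hp0 hp (Lp.memLp f).2).ne
  rw [norm_rpow_eq_lintegral hp, norm_rpow_eq_lintegral hp, norm_rpow_eq_lintegral hp,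
    ← ENNReal.toReal_add (hfin u) (hfin v)]
  congr 1
  rw [← lintegral_add_left' ((Lp.aestronglyMeasurable u).enorm.pow_const _)]
  refine lintegral_congr_ae ?_
  filter_upwards [hu, hv, Lp.coeFn_add u v] with ω h1 h2 h3
  rw [h3, Pi.add_apply]
  by_cases hM : ω ∈ M
  · have h4 := h2 (Set.disjoint_left.1 hd hM)
    rw [h4]
    simp [hpt]
  · rw [h1 hM]
    simp [hpt]

/-- a finite linear combination of functions carried by `M` is carried by `M` -/
theorem ae_sum_smul_zero {Ω : Type} [MeasurableSpace Ω] {μ : Measure Ω}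
    {p : ℝ≥0∞} {I : Type} (f : I → Lp ℝ p μ) (M : Set Ω)
    (hf : ∀ i, ∀ᵐ ω ∂μ, ω ∉ M → (f i : Ω → ℝ) ω = 0) (S : Finset I) (a : I → ℝ) :
    ∀ᵐ ω ∂μ, ω ∉ M → ((∑ i ∈ S, a i • f i : Lp ℝ p μ) : Ω → ℝ) ω = 0 := by
  classical
  induction S using Finset.induction_on with
  | empty =>
    rw [Finset.sum_empty]
    filter_upwards [Lp.coeFn_zero ℝ p μ] with ω h1 _
    rw [h1, Pi.zero_apply]
  | insert i S hi ih =>
    rw [Finset.sum_insert hi]
    filter_upwards [ih, hf i, Lp.coeFn_add (a i • f i) (∑ i ∈ S, a i • f i),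
      Lp.coeFn_smul (a i) (f i)] with ω h1 h2 h3 h4 hω
    rw [h3, Pi.add_apply, h4, Pi.smul_apply, h1 hω, h2 hω, smul_zero, add_zero]

/-- K2: the atomic part -/
theorem exists_USys_atoms {Ω : Type} [MeasurableSpace Ω] (μ : Measure Ω) [IsFiniteMeasure μ]
    (p : ℝ≥0∞) [Fact (1 ≤ p)] (hp : p ≠ ⊤) (Aₙ : ℕ → Set Ω)
    (h : ∀ n, AtomSet μ (Aₙ n) ∨ Aₙ n = ∅) (hd : Pairwise (Function.onFun Disjoint Aₙ)) :
    ∃ (I : Type) (f : I → Lp ℝ p μ) (C : ℝ), 1 ≤ C ∧ USys μ p (⋃ n, Aₙ n) f C := by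
  classical
  have hp1 : Fact (1 ≤ p) := inferInstance
  have hp0 : p ≠ 0 := (one_pos.trans_le hp1.out).ne'
  have hpt : 0 < p.toReal := ENNReal.toReal_pos hp0 hp
  have hmeas : ∀ n, MeasurableSet (Aₙ n) := by
    intro n
    rcases h n with h1 | h1
    · exact h1.1
    · rw [h1]; exact MeasurableSet.empty
  let f : {n // AtomSet μ (Aₙ n)} → Lp ℝ p μ := fun i =>
    indicatorConstLp p (hmeas i.1) (measure_ne_top _ _) (1 : ℝ)
  have hfae : ∀ i, (f i : Ω → ℝ) =ᵐ[μ] (Aₙ i.1).indicator fun _ => (1 : ℝ) := fun i =>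
    indicatorConstLp_coeFn
  refine ⟨{n // AtomSet μ (Aₙ n)}, f, 1, le_rfl, ?_, ?_, ?_, ?_⟩
  · intro i
    rw [← norm_ne_zero_iff]
    rw [norm_indicatorConstLp hp0 hp, norm_one, one_mul]
    have h1 : 0 < μ.real (Aₙ i.1) := by
      rw [measureReal_def]
      exact ENNReal.toReal_pos i.2.2.1 (measure_ne_top _ _)
    exact (Real.rpow_pos_of_pos h1 _).ne'
  · intro i
    filter_upwards [hfae i] with ω hω h1
    rw [hω, Set.indicator_of_notMem]
    exact fun h2 => h1 (Set.mem_iUnion.2 ⟨i.1, h2⟩)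
  · intro D hD hμ hDM
    set P := Submodule.span ℝ (Set.range f) with hP
    -- one atom
    have h1 : ∀ n, indicatorConstLp p (hD.inter (hmeas n)) (measure_ne_top μ _) (1 : ℝ) ∈ P := by
      intro n
      have hzero : μ (D ∩ Aₙ n) = 0 →
          indicatorConstLp p (hD.inter (hmeas n)) (measure_ne_top μ _) (1 : ℝ) = 0 := by
        intro h2
        rw [← norm_eq_zero, norm_indicatorConstLp hp0 hp, measureReal_def, h2]
        simp [hpt.ne']
      rcases h n with h2 | h2
      · rcases h2.2.2 (D ∩ Aₙ n) (hD.inter (hmeas n)) Set.inter_subset_right with h3 | h3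
        · rw [hzero h3]; exact P.zero_mem
        · have h4 : indicatorConstLp p (hD.inter (hmeas n)) (measure_ne_top μ _) (1 : ℝ) =
              f ⟨n, h2⟩ := by
            ext1
            have h5 : ∀ᵐ ω ∂μ, ω ∉ Aₙ n \ (D ∩ Aₙ n) := measure_eq_zero_iff_ae_notMem.mp h3
            filter_upwards [indicatorConstLp_coeFn (p := p) (hs := hD.inter (hmeas n))
              (hμs := measure_ne_top μ _) (c := (1 : ℝ)), hfae ⟨n, h2⟩, h5] with ω h6 h7 h8
            rw [h6, h7]
            by_cases h9 : ω ∈ Aₙ n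
            · have h10 : ω ∈ D ∩ Aₙ n := by
                by_contra h11
                exact h8 ⟨h9, h11⟩
              rw [Set.indicator_of_mem h10, Set.indicator_of_mem h9]
            · rw [Set.indicator_of_notMem (fun h10 => h9 h10.2), Set.indicator_of_notMem h9]
          rw [h4]
          exact Submodule.subset_span ⟨_, rfl⟩
      · apply (hzero _) ▸ P.zero_mem
        rw [h2, Set.inter_empty, measure_empty]
    -- finitely many atoms
    let t : ℕ → Set Ω := fun N => D ∩ ⋃ n ∈ Finset.range N, Aₙ n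
    have htm : ∀ N, MeasurableSet (t N) := fun N =>
      hD.inter (Finset.measurableSet_biUnion _ fun n _ => hmeas n)
    have h2 : ∀ N, indicatorConstLp p (htm N) (measure_ne_top μ _) (1 : ℝ) ∈ P := by
      intro N
      induction N with
      | zero =>
        have h3 : indicatorConstLp p (htm 0) (measure_ne_top μ _) (1 : ℝ) = 0 := by
          rw [← norm_eq_zero, norm_indicatorConstLp hp0 hp, measureReal_def]
          simp [t, hpt.ne']
        rw [h3]; exact P.zero_mem
      | succ N ih =>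
        have hdd : Disjoint (t N) (D ∩ Aₙ N) := by
          rw [Set.disjoint_left]
          rintro ω ⟨_, h3⟩ ⟨_, h4⟩
          simp only [Set.mem_iUnion, Finset.mem_range] at h3
          obtain ⟨n, hn, h5⟩ := h3
          exact Set.disjoint_left.1 (hd (ne_of_lt hn)) h5 h4
        have h5 := indicatorConstLp_disjoint_union (p := p) (μ := μ) (htm N)
          (hD.inter (hmeas N)) (measure_ne_top _ _) (measure_ne_top _ _) hdd (1 : ℝ)
        have heq : t (N + 1) = t N ∪ D ∩ Aₙ N := by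
          simp only [t]
          rw [← Set.inter_union_distrib_left, Finset.range_add_one, Finset.set_biUnion_insert,
            Set.union_comm]
        have h6 : indicatorConstLp p (htm (N + 1)) (measure_ne_top μ _) (1 : ℝ) =
            indicatorConstLp p ((htm N).union (hD.inter (hmeas N))) (measure_ne_top _ _)
              (1 : ℝ) := by
          congr 1
        rw [h6, h5]
        exact P.add_mem ih (h1 N)
    -- the limit
    have h3 : Filter.Tendsto (fun N => μ (symmDiff (t N) D)) Filter.atTop (nhds 0) := by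
      have h4 : ∀ N, symmDiff (t N) D = D \ ⋃ n ∈ Finset.range N, Aₙ n := by
        intro N
        ext ω
        simp only [t, Set.mem_symmDiff, Set.mem_inter_iff, Set.mem_sdiff]
        tauto
      simp only [h4]
      have h5 : ⋂ N, (D \ ⋃ n ∈ Finset.range N, Aₙ n) = ∅ := by
        ext ω
        simp only [Set.mem_iInter, Set.mem_sdiff, Set.mem_iUnion, Finset.mem_range,
          Set.mem_empty_iff_false, iff_false]
        intro h6
        obtain ⟨n, hn⟩ := Set.mem_iUnion.1 (hDM (h6 0).1)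
        exact (h6 (n + 1)).2 ⟨n, Nat.lt_succ_self n, hn⟩
      have h6 := tendsto_measure_iInter_atTop (μ := μ)
        (s := fun N => D \ ⋃ n ∈ Finset.range N, Aₙ n)
        (fun N => (hD.diff (Finset.measurableSet_biUnion _ fun n _ => hmeas n)).nullMeasurableSet)
        ?_ ⟨0, measure_ne_top _ _⟩
      · rw [h5, measure_empty] at h6
        exact h6
      · intro N N' hNN ω hω
        refine ⟨hω.1, fun h7 => hω.2 ?_⟩
        simp only [Set.mem_iUnion, Finset.mem_range] at h7 ⊢
        obtain ⟨n, hn, h8⟩ := h7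
        exact ⟨n, hn.trans_le hNN, h8⟩
    have h4 := tendsto_indicatorConstLp_set (p := p) (μ := μ) (c := (1 : ℝ)) (hs := hD)
      (hμs := hμ) (ht := htm) (hμt := fun N => measure_ne_top μ _) hp h3
    exact mem_closure_of_tendsto h4 (Filter.Eventually.of_forall h2)
  · intro S a ε hε
    rw [one_mul]
    have hpt : ∀ b : {n // AtomSet μ (Aₙ n)} → ℝ, ∀ᵐ ω ∂μ,
        ((∑ i ∈ S, b i • f i : Lp ℝ p μ) : Ω → ℝ) ω =
          ∑ i ∈ S, b i * (Aₙ i.1).indicator (fun _ => (1 : ℝ)) ω := by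
      intro b
      have h1 : ∀ᵐ ω ∂μ, ∀ i : {n // AtomSet μ (Aₙ n)},
          ((b i • f i : Lp ℝ p μ) : Ω → ℝ) ω =
            b i * (Aₙ i.1).indicator (fun _ => (1 : ℝ)) ω := by
        rw [ae_all_iff]
        intro i
        filter_upwards [Lp.coeFn_smul (b i) (f i), hfae i] with ω h2 h3
        rw [h2, Pi.smul_apply, h3, smul_eq_mul]
      filter_upwards [Lp.coeFn_fun_finsetSum S (fun i => b i • f i), h1] with ω h2 h3
      rw [h2]
      exact Finset.sum_congr rfl fun i _ => h3 i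
    refine Lp.norm_le_norm_of_ae_le ?_
    filter_upwards [hpt (fun i => ε i * a i), hpt a] with ω h1 h2
    rw [h1, h2]
    by_cases hω : ∃ j ∈ S, ω ∈ Aₙ j.1
    · obtain ⟨j, hj, hωj⟩ := hω
      have hother : ∀ i ∈ S, i ≠ j → (Aₙ i.1).indicator (fun _ => (1 : ℝ)) ω = 0 := by
        intro i _ hij
        rw [Set.indicator_of_notMem]
        intro h3
        exact Set.disjoint_left.1 (hd (fun h4 => hij (Subtype.ext h4))) h3 hωj
      rw [Finset.sum_eq_single_of_mem j hj (fun i hi hij => by rw [hother i hi hij, mul_zero]),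
        Finset.sum_eq_single_of_mem j hj (fun i hi hij => by rw [hother i hi hij, mul_zero]),
        Set.indicator_of_mem hωj, mul_one, mul_one, Real.norm_eq_abs, Real.norm_eq_abs, abs_mul]
      exact mul_le_of_le_one_left (abs_nonneg _) (hε j)
    · push Not at hω
      have hz : ∀ i ∈ S, (Aₙ i.1).indicator (fun _ => (1 : ℝ)) ω = 0 := fun i hi =>
        Set.indicator_of_notMem (hω i hi) _
      rw [Finset.sum_eq_zero fun i hi => by rw [hz i hi, mul_zero],
        Finset.sum_eq_zero fun i hi => by rw [hz i hi, mul_zero]]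

/-- K3: union of two systems -/
theorem USys_union {Ω : Type} [MeasurableSpace Ω] (μ : Measure Ω) [IsFiniteMeasure μ]
    (p : ℝ≥0∞) [Fact (1 ≤ p)] (hp : p ≠ ⊤) (M M' : Set Ω) (hM : MeasurableSet M)
    (hM' : MeasurableSet M') (hd : Disjoint M M') {I I' : Type} (f : I → Lp ℝ p μ)
    (f' : I' → Lp ℝ p μ) (C : ℝ) (hC : 1 ≤ C) (h : USys μ p M f C) (h' : USys μ p M' f' C) :
    USys μ p (M ∪ M') (Sum.elim f f') C := by
  classical
  have hp1 : Fact (1 ≤ p) := inferInstance
  have hp0 : p ≠ 0 := (one_pos.trans_le hp1.out).ne'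
  have hpt : 0 < p.toReal := ENNReal.toReal_pos hp0 hp
  refine ⟨?_, ?_, ?_, ?_⟩
  · rintro (i | i)
    · exact h.ne_zero i
    · exact h'.ne_zero i
  · rintro (i | i)
    · filter_upwards [h.supp i] with ω hω h1
      exact hω fun h2 => h1 (Or.inl h2)
    · filter_upwards [h'.supp i] with ω hω h1
      exact hω fun h2 => h1 (Or.inr h2)
  · intro D hD hμ hDM
    have h1 := h.dense (D ∩ M) (hD.inter hM) (measure_ne_top _ _) Set.inter_subset_right
    have h2 := h'.dense (D ∩ M') (hD.inter hM') (measure_ne_top _ _) Set.inter_subset_right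
    have hsp1 : Submodule.span ℝ (Set.range f) ≤ Submodule.span ℝ (Set.range (Sum.elim f f')) := by
      apply Submodule.span_mono
      rintro _ ⟨i, rfl⟩
      exact ⟨Sum.inl i, rfl⟩
    have hsp2 : Submodule.span ℝ (Set.range f') ≤ Submodule.span ℝ (Set.range (Sum.elim f f')) := by
      apply Submodule.span_mono
      rintro _ ⟨i, rfl⟩
      exact ⟨Sum.inr i, rfl⟩
    have h3 := closure_mono (s := (Submodule.span ℝ (Set.range f) : Set (Lp ℝ p μ))) hsp1 h1
    have h4 := closure_mono (s := (Submodule.span ℝ (Set.range f') : Set (Lp ℝ p μ))) hsp2 h2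
    have hdd : Disjoint (D ∩ M) (D ∩ M') := hd.mono Set.inter_subset_right Set.inter_subset_right
    have h5 := indicatorConstLp_disjoint_union (p := p) (μ := μ) (hD.inter hM) (hD.inter hM')
      (measure_ne_top _ _) (measure_ne_top _ _) hdd (1 : ℝ)
    have hDeq : D ∩ M ∪ D ∩ M' = D := by
      rw [← Set.inter_union_distrib_left]
      exact Set.inter_eq_left.mpr hDM
    have h6 : indicatorConstLp p hD hμ (1 : ℝ) =
        indicatorConstLp p ((hD.inter hM).union (hD.inter hM')) (measure_ne_top _ _) (1 : ℝ) := by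
      congr 1
      exact hDeq.symm
    rw [h6, h5]
    exact (Submodule.span ℝ (Set.range (Sum.elim f f'))).topologicalClosure.add_mem h3 h4
  · intro S a ε hε
    have hsplit : ∀ b : I ⊕ I' → ℝ, ∑ i ∈ S, b i • Sum.elim f f' i =
        ∑ i ∈ S.toLeft, b (Sum.inl i) • f i + ∑ i ∈ S.toRight, b (Sum.inr i) • f' i := by
      intro b
      conv_lhs => rw [← Finset.toLeft_disjSum_toRight (u := S)]
      rw [Finset.sum_disjSum]
      rfl
    rw [hsplit, hsplit]
    set u := ∑ i ∈ S.toLeft, a (Sum.inl i) • f i with hu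
    set v := ∑ i ∈ S.toRight, a (Sum.inr i) • f' i with hv
    set u' := ∑ i ∈ S.toLeft, (ε (Sum.inl i) * a (Sum.inl i)) • f i with hu'
    set v' := ∑ i ∈ S.toRight, (ε (Sum.inr i) * a (Sum.inr i)) • f' i with hv'
    have h1 : ‖u'‖ ≤ C * ‖u‖ := h.ineq S.toLeft (fun i => a (Sum.inl i)) (fun i => ε (Sum.inl i))
      (fun i => hε _)
    have h2 : ‖v'‖ ≤ C * ‖v‖ := h'.ineq S.toRight (fun i => a (Sum.inr i))
      (fun i => ε (Sum.inr i)) (fun i => hε _)
    have h3 : ‖u' + v'‖ ^ p.toReal = ‖u'‖ ^ p.toReal + ‖v'‖ ^ p.toReal :=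
      norm_add_rpow_of_disjoint hp u' v' M M' hd
        (ae_sum_smul_zero f M h.supp S.toLeft (fun i => ε (Sum.inl i) * a (Sum.inl i)))
        (ae_sum_smul_zero f' M' h'.supp S.toRight (fun i => ε (Sum.inr i) * a (Sum.inr i)))
    have h4 : ‖u + v‖ ^ p.toReal = ‖u‖ ^ p.toReal + ‖v‖ ^ p.toReal :=
      norm_add_rpow_of_disjoint hp u v M M' hd
        (ae_sum_smul_zero f M h.supp S.toLeft (fun i => a (Sum.inl i)))
        (ae_sum_smul_zero f' M' h'.supp S.toRight (fun i => a (Sum.inr i)))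
    have hC0 : 0 ≤ C := zero_le_one.trans hC
    have h5 : ‖u' + v'‖ ^ p.toReal ≤ (C * ‖u + v‖) ^ p.toReal := by
      rw [h3, Real.mul_rpow hC0 (norm_nonneg _), h4, mul_add]
      refine add_le_add ?_ ?_
      · rw [← Real.mul_rpow hC0 (norm_nonneg _)]
        exact Real.rpow_le_rpow (norm_nonneg _) h1 hpt.le
      · rw [← Real.mul_rpow hC0 (norm_nonneg _)]
        exact Real.rpow_le_rpow (norm_nonneg _) h2 hpt.le
    exact (Real.rpow_le_rpow_iff (norm_nonneg _) (by positivity) hpt).mp h5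

/-- K4: a system carried by a null set is not needed; a system on `univ` gives a basis -/
theorem basis_of_USys {Ω : Type} [MeasurableSpace Ω] (μ : Measure Ω) [IsFiniteMeasure μ]
    (p : ℝ≥0∞) [Fact (1 ≤ p)] (hp : p ≠ ⊤) {I : Type} (f : I → Lp ℝ p μ) (C : ℝ)
    (h : USys μ p Set.univ f C) :
    ∀ x : Lp ℝ p μ, ∃! a : I → ℝ, HasSum (fun i => a i • f i) x := by
  refine basis_of_ineq f h.ne_zero ?_ C h.ineq
  intro x
  have key : ∀ x : Lp ℝ p μ, x ∈ (Submodule.span ℝ (Set.range f)).topologicalClosure := by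
    refine Lp.induction hp _ ?_ ?_ ?_
    · intro c s hs hμs
      rw [Lp.simpleFunc.coe_indicatorConst]
      have h1 := h.dense s hs hμs.ne (Set.subset_univ s)
      have h2 : indicatorConstLp p hs hμs.ne c = c • indicatorConstLp p hs hμs.ne (1 : ℝ) := by
        ext1
        filter_upwards [indicatorConstLp_coeFn (p := p) (hs := hs) (hμs := hμs.ne) (c := c),
          indicatorConstLp_coeFn (p := p) (hs := hs) (hμs := hμs.ne) (c := (1 : ℝ)),
          Lp.coeFn_smul c (indicatorConstLp p hs hμs.ne (1 : ℝ))] with ω h3 h4 h5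
        rw [h3, h5, Pi.smul_apply, h4]
        by_cases hω : ω ∈ s <;> simp [hω]
      rw [h2]
      exact (Submodule.span ℝ (Set.range f)).topologicalClosure.smul_mem c h1
    · intro u v hu hv _ h1 h2
      exact (Submodule.span ℝ (Set.range f)).topologicalClosure.add_mem h1 h2
    · exact (Submodule.span ℝ (Set.range f)).isClosed_topologicalClosure
  exact key x

end Pool.Agent.LpBasis
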