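import Pool.Agent.Hhelper27.LpBasis.Defs

/-!
Existence of Todorcevic type functions `ρ` on a well order all of whose proper initial segments are
countable (problem MP_ac58b9_an, module F).
-/

set_option autoImplicit false

namespace Pool.Agent.LpBasis

open Finset

namespace RhoAux

variable {ι : Type*} [LinearOrder ι]

/-- `P z x` is the value at the pair `x < z`; the subadditivity conditions with top element `z`
and finiteness. -/
def GoodAt (P : ι → ι → ℕ) (z : ι) : Prop :=
  (∀ x y, x < y → y < z → P z x ≤ max (P y x) (P z y) ∧ P y x ≤ max (P z x) (P z y)) ∧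
    ∀ n, {x | x < z ∧ P z x ≤ n}.Finite

/-- index of the first `e k` above `x` -/
noncomputable def kk (e : ℕ → ι) (x : ι) : ℕ := sInf {k | x ≤ e k}

def NN (P : ι → ι → ℕ) (e : ℕ → ι) (l : ℕ) : ℕ :=
  ∑ i ∈ range (l + 1), (1 + ∑ k ∈ range i, P (e i) (e k))

def dd (P : ι → ι → ℕ) (z x : ι) : ℕ := if x = z then 0 else P z x

noncomputable def ext (P : ι → ι → ℕ) (e : ℕ → ι) (x : ι) : ℕ :=
  max (NN P e (kk e x)) (dd P (e (kk e x)) x)

theorem kk_le {e : ℕ → ι} {x : ι} (h : ∃ k, x ≤ e k) : x ≤ e (kk e x) :=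
  Nat.sInf_mem (s := {k | x ≤ e k}) h

theorem lt_of_lt_kk {e : ℕ → ι} {x : ι} {j : ℕ} (h : j < kk e x) : e j < x := by
  by_contra hc
  exact absurd (Nat.sInf_le (s := {k | x ≤ e k}) (not_lt.mp hc)) (not_le.mpr h)

theorem kk_min {e : ℕ → ι} {x : ι} {j : ℕ} (h : x ≤ e j) : kk e x ≤ j :=
  Nat.sInf_le (s := {k | x ≤ e k}) h

omit [LinearOrder ι] in
theorem NN_mono (P : ι → ι → ℕ) (e : ℕ → ι) : Monotone (NN P e) := by
  intro a b hab
  unfold NN
  exact Finset.sum_le_sum_of_subset (Finset.range_mono (by omega))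

omit [LinearOrder ι] in
theorem le_NN (P : ι → ι → ℕ) (e : ℕ → ι) (l : ℕ) : l ≤ NN P e l := by
  unfold NN
  calc l ≤ ∑ i ∈ range (l + 1), 1 := by simp
    _ ≤ _ := Finset.sum_le_sum (fun i _ => by omega)

omit [LinearOrder ι] in
theorem P_le_NN (P : ι → ι → ℕ) (e : ℕ → ι) {k l : ℕ} (h : k < l) : P (e l) (e k) ≤ NN P e l := by
  unfold NN
  have h1 : P (e l) (e k) ≤ ∑ k ∈ range l, P (e l) (e k) :=
    Finset.single_le_sum (f := fun k => P (e l) (e k)) (fun _ _ => Nat.zero_le _)
      (Finset.mem_range.mpr h)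
  have h2 : (1 + ∑ k ∈ range l, P (e l) (e k)) ≤
      ∑ i ∈ range (l + 1), (1 + ∑ k ∈ range i, P (e i) (e k)) :=
    Finset.single_le_sum (f := fun i => 1 + ∑ k ∈ range i, P (e i) (e k))
      (fun _ _ => Nat.zero_le _) (Finset.mem_range.mpr (Nat.lt_succ_self l))
  omega

theorem ext_good (P : ι → ι → ℕ) (β : ι) (hP : ∀ z, z < β → GoodAt P z) (e : ℕ → ι)
    (he1 : ∀ k, e k < β) (he2 : ∀ x, x < β → ∃ k, e k = x) :
    (∀ x y, x < y → y < β → ext P e x ≤ max (P y x) (ext P e y) ∧
      P y x ≤ max (ext P e x) (ext P e y)) ∧ ∀ n, {x | x < β ∧ ext P e x ≤ n}.Finite := by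
  have hex : ∀ x, x < β → ∃ k, x ≤ e k := fun x hx => by
    obtain ⟨k, hk⟩ := he2 x hx
    exact ⟨k, hk.ge⟩
  constructor
  · intro x y hxy hy
    have hx : x < β := hxy.trans hy
    have hkx := kk_le (hex x hx)
    have hky := kk_le (hex y hy)
    have hkl : kk e x ≤ kk e y := kk_min (hxy.le.trans hky)
    have hNN := NN_mono P e hkl
    rcases hkl.lt_or_eq with hlt | heq
    · -- x ≤ e k < y ≤ e l
      have h1 : e (kk e x) < y := lt_of_lt_kk hlt
      have h2 : P y (e (kk e x)) ≤ max (NN P e (kk e y)) (dd P (e (kk e y)) y) := by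
        rcases hky.lt_or_eq with h3 | h3
        · have h4 := ((hP _ (he1 (kk e y))).1 (e (kk e x)) y h1 h3).2
          have h5 := P_le_NN P e hlt
          have h6 : dd P (e (kk e y)) y = P (e (kk e y)) y := by
            unfold dd; rw [if_neg h3.ne]
          rw [h6]
          exact h4.trans (max_le_max h5 le_rfl)
        · have h5 := P_le_NN P e hlt
          rw [← h3] at h5
          exact h5.trans (le_max_left _ _)
      rcases hkx.lt_or_eq with h3 | h3
      · have h4 : dd P (e (kk e x)) x = P (e (kk e x)) x := by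
          unfold dd; rw [if_neg h3.ne]
        have h5 := (hP y hy).1 x (e (kk e x)) h3 h1
        refine ⟨?_, ?_⟩
        · unfold ext
          rw [h4]
          have h6 := h5.2
          have h7 : P (e (kk e x)) x ≤ max (P y x) (max (NN P e (kk e y)) (dd P (e (kk e y)) y)) :=
            h6.trans (max_le_max le_rfl h2)
          exact max_le ((hNN.trans (le_max_left _ _)).trans (le_max_right _ _)) h7
        · unfold ext
          rw [h4]
          have h6 := h5.1
          exact h6.trans (max_le ((le_max_right _ _).trans (le_max_left _ _))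
            (h2.trans (le_max_right _ _)))
      · have h4 : dd P (e (kk e x)) x = 0 := by
          unfold dd; rw [if_pos h3]
        refine ⟨?_, ?_⟩
        · unfold ext
          rw [h4]
          exact max_le ((hNN.trans (le_max_left _ _)).trans (le_max_right _ _)) (Nat.zero_le _)
        · unfold ext
          rw [← h3] at h2
          exact h2.trans (le_max_right _ _)
    · -- same index
      have h0 : x < e (kk e y) := lt_of_lt_of_le hxy hky
      have h4 : dd P (e (kk e x)) x = P (e (kk e y)) x := by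
        rw [heq]; unfold dd; rw [if_neg h0.ne]
      rcases hky.lt_or_eq with h3 | h3
      · have h6 : dd P (e (kk e y)) y = P (e (kk e y)) y := by
          unfold dd; rw [if_neg h3.ne]
        have h5 := (hP _ (he1 (kk e y))).1 x y hxy h3
        refine ⟨?_, ?_⟩
        · unfold ext
          rw [h4, h6, heq]
          exact max_le ((le_max_left _ _).trans (le_max_right _ _))
            (h5.1.trans (max_le_max le_rfl (le_max_right _ _)))
        · unfold ext
          rw [h4, h6, heq]
          exact h5.2.trans (max_le_max (le_max_right _ _) (le_max_right _ _))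
      · refine ⟨?_, ?_⟩
        · unfold ext
          rw [h4, heq]
          refine max_le ((le_max_left _ _).trans (le_max_right _ _)) ?_
          rw [← h3]
          exact le_max_left _ _
        · unfold ext
          rw [h4]
          rw [← h3]
          exact (le_max_right _ _).trans (le_max_left _ _)
  · intro n
    have hsub : {x | x < β ∧ ext P e x ≤ n} ⊆
        ⋃ k ∈ Set.Iic n, ({e k} ∪ {x | x < e k ∧ P (e k) x ≤ n}) := by
      intro x hx
      obtain ⟨hxβ, hxn⟩ := hx
      have hkx := kk_le (hex x hxβ)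
      unfold ext at hxn
      have h1 : NN P e (kk e x) ≤ n := (le_max_left _ _).trans hxn
      have h2 : dd P (e (kk e x)) x ≤ n := (le_max_right _ _).trans hxn
      have h3 : kk e x ≤ n := (le_NN P e _).trans h1
      simp only [Set.mem_iUnion, Set.mem_Iic]
      refine ⟨kk e x, h3, ?_⟩
      rcases hkx.lt_or_eq with h4 | h4
      · right
        refine ⟨h4, ?_⟩
        unfold dd at h2
        rwa [if_neg h4.ne] at h2
      · left
        exact h4
    refine Set.Finite.subset (Set.Finite.biUnion (Set.finite_Iic n) ?_) hsub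
    intro k _
    exact (Set.finite_singleton _).union ((hP (e k) (he1 k)).2 n)

/-- the finite-to-one function by recursion; `rr e z x` is the value at `x < z` -/
noncomputable def rr [WellFoundedLT ι] (e : ι → ℕ → ι) : ι → ι → ℕ :=
  WellFounded.fix (wellFounded_lt (α := ι))
    (fun β rec => ext (fun z x => if h : z < β then rec z h x else 0) (e β))

theorem rr_eq [WellFoundedLT ι] (e : ι → ℕ → ι) (β : ι) (h : ∀ k, e β k < β) :
    rr e β = ext (rr e) (e β) := by
  have h1 : rr e β = ext (fun z x => if h : z < β then rr e z x else 0) (e β) := by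
    unfold rr
    rw [WellFounded.fix_eq]
  rw [h1]
  funext x
  unfold ext NN dd
  simp only [h, dite_true]

theorem rr_good [WellFoundedLT ι] (e : ι → ℕ → ι) (h1 : ∀ β, (Set.Iio β).Nonempty → ∀ k, e β k < β)
    (h2 : ∀ β, (Set.Iio β).Nonempty → ∀ x, x < β → ∃ k, e β k = x) (β : ι) :
    GoodAt (rr e) β := by
  induction β using WellFoundedLT.induction with
  | ind β ih =>
    by_cases hne : (Set.Iio β).Nonempty
    · have h3 := ext_good (rr e) β ih (e β) (h1 β hne) (h2 β hne)
      rw [← rr_eq e β (h1 β hne)] at h3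
      exact h3
    · rw [Set.not_nonempty_iff_eq_empty] at hne
      have h4 : ∀ x, ¬ x < β := fun x hx => by
        have : x ∈ Set.Iio β := hx
        rw [hne] at this
        exact this
      refine ⟨fun x y _ hy => absurd hy (h4 y), fun n => ?_⟩
      have : {x | x < β ∧ rr e β x ≤ n} = ∅ := by
        ext x
        simp only [Set.mem_ofPred_eq, Set.mem_empty_iff_false, iff_false, not_and]
        exact fun hx => absurd hx (h4 x)
      rw [this]
      exact Set.finite_empty

theorem exists_good [WellFoundedLT ι] (h : ∀ β : ι, (Set.Iio β).Countable) :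
    ∃ P : ι → ι → ℕ, ∀ z, GoodAt P z := by
  have h1 : ∀ β : ι, ∃ e : ℕ → ι, (Set.Iio β).Nonempty → Set.Iio β = Set.range e := by
    intro β
    by_cases hne : (Set.Iio β).Nonempty
    · obtain ⟨f, hf⟩ := (h β).exists_eq_range hne
      exact ⟨f, fun _ => hf⟩
    · exact ⟨fun _ => β, fun h => absurd h hne⟩
  choose e he using h1
  refine ⟨rr e, rr_good e (fun β hne k => ?_) (fun β hne x hx => ?_)⟩
  · have : e β k ∈ Set.Iio β := by rw [he β hne]; exact Set.mem_range_self k
    exact this
  · have : x ∈ Set.Iio β := hx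
    rw [he β hne] at this
    exact this

/-- the set `{ξ ≤ x : ξ = x or P x ξ ≤ m}` -/
def SS (P : ι → ι → ℕ) (x : ι) (m : ℕ) : Set ι := insert x {ξ | ξ < x ∧ P x ξ ≤ m}

theorem SS_finite {P : ι → ι → ℕ} (hP : ∀ z, GoodAt P z) (x : ι) (m : ℕ) : (SS P x m).Finite :=
  ((hP x).2 m).insert x

theorem SS_mono (P : ι → ι → ℕ) (x : ι) {m n : ℕ} (h : m ≤ n) : SS P x m ⊆ SS P x n := by
  intro ξ hξ
  rcases hξ with hξ | hξ
  · exact Or.inl hξ
  · exact Or.inr ⟨hξ.1, hξ.2.trans h⟩

theorem SS_sub {P : ι → ι → ℕ} (hP : ∀ z, GoodAt P z) {x y : ι} (hxy : x < y) {m n : ℕ}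
    (hmn : m ≤ n) (h : P y x ≤ n) : SS P x m ⊆ SS P y n := by
  intro ξ hξ
  rcases hξ with hξ | hξ
  · rw [hξ]
    exact Or.inr ⟨hxy, h⟩
  · exact Or.inr ⟨hξ.1.trans hxy,
      (((hP y).1 ξ x hξ.1 hxy).1).trans (max_le (hξ.2.trans hmn) h)⟩

noncomputable def RR (P : ι → ι → ℕ) (x z : ι) : ℕ :=
  2 ^ P z x * (2 * (SS P x (P z x)).ncard + 1)

theorem two_pow_mul_odd_inj {a b c d : ℕ} (h : 2 ^ a * (2 * c + 1) = 2 ^ b * (2 * d + 1)) :
    a = b ∧ c = d := by
  have key : ∀ a b c d : ℕ, 2 ^ a * (2 * c + 1) = 2 ^ b * (2 * d + 1) → a ≤ b → a = b ∧ c = d := by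
    intro a b c d h hab
    obtain ⟨k, rfl⟩ := Nat.exists_eq_add_of_le hab
    rw [pow_add, mul_assoc] at h
    have h2 : 2 * c + 1 = 2 ^ k * (2 * d + 1) := Nat.eq_of_mul_eq_mul_left (by positivity) h
    rcases k with _ | k
    · simp at h2
      exact ⟨by simp, h2⟩
    · exfalso
      rw [pow_succ] at h2
      have : 2 * c + 1 = 2 * (2 ^ k * (2 * d + 1)) := by rw [h2]; ring
      omega
  rcases le_total a b with hab | hab
  · exact key a b c d h hab
  · obtain ⟨h1, h2⟩ := key b a d c h.symm hab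
    exact ⟨h1.symm, h2.symm⟩

theorem rhoFun_RR {P : ι → ι → ℕ} (hP : ∀ z, GoodAt P z) : RhoFun (RR P) := by
  have mono : ∀ {a b c d : ℕ}, a ≤ b → c ≤ d → 2 ^ a * (2 * c + 1) ≤ 2 ^ b * (2 * d + 1) := by
    intro a b c d hab hcd
    exact Nat.mul_le_mul (Nat.pow_le_pow_right (by norm_num) hab) (by omega)
  have key : ∀ x y z, x < y → y < z → P z x = P z y →
      (SS P x (P z x)).ncard < (SS P y (P z y)).ncard := by
    intro x y z hxy hyz h
    refine Set.ncard_lt_ncard ?_ (SS_finite hP _ _)
    have h1 := ((hP z).1 x y hxy hyz).2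
    rw [h, max_self] at h1
    have h2 : SS P x (P z x) ⊆ SS P y (P z y) := SS_sub hP hxy h.le h1
    refine ⟨h2, fun h3 => ?_⟩
    have h4 : y ∈ SS P x (P z x) := h3 (Or.inl rfl)
    rcases h4 with h4 | h4
    · exact hxy.ne' h4
    · exact absurd h4.1 (not_lt.mpr hxy.le)
  constructor
  · intro x y z hxy hyz
    obtain ⟨h1, h2⟩ := (hP z).1 x y hxy hyz
    by_cases h3 : P z x ≤ P y x
    · refine le_trans ?_ (le_max_left _ _)
      exact mono h3 (Set.ncard_le_ncard (SS_mono P x h3) (SS_finite hP _ _))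
    · have h4 : P z x ≤ P z y := by
        rcases le_max_iff.mp h1 with h | h
        · exact absurd h h3
        · exact h
      refine le_trans ?_ (le_max_right _ _)
      exact mono h4 (Set.ncard_le_ncard
        (SS_sub hP hxy h4 ((not_le.mp h3).le.trans h4)) (SS_finite hP _ _))
  · intro x y z hxy hyz
    obtain ⟨h1, h2⟩ := (hP z).1 x y hxy hyz
    by_cases h3 : P y x ≤ P z x
    · refine le_trans ?_ (le_max_left _ _)
      exact mono h3 (Set.ncard_le_ncard (SS_mono P x h3) (SS_finite hP _ _))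
    · have h4 : P y x ≤ P z y := by
        rcases le_max_iff.mp h2 with h | h
        · exact absurd h h3
        · exact h
      refine le_trans ?_ (le_max_right _ _)
      exact mono h4 (Set.ncard_le_ncard (SS_sub hP hxy h4 h4) (SS_finite hP _ _))
  · intro x y z hxz hyz h
    obtain ⟨h1, h2⟩ := two_pow_mul_odd_inj h
    rcases lt_trichotomy x y with hxy | hxy | hxy
    · exact absurd h2 (key x y z hxy hyz h1).ne
    · exact hxy
    · exact absurd h2 (key y x z hxy hxz h1.symm).ne'

end RhoAux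

theorem exists_rho (ι : Type) [LinearOrder ι] [WellFoundedLT ι]
    (h : ∀ β : ι, (Set.Iio β).Countable) : ∃ ρ : ι → ι → ℕ, RhoFun ρ := by
  obtain ⟨P, hP⟩ := RhoAux.exists_good h
  exact ⟨RhoAux.RR P, RhoAux.rhoFun_RR hP⟩

end Pool.Agent.LpBasis
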