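import Pool.Agent.Hhelper27.LpBasis.Defs
import Pool.Agent.Hhelper27.LpBasis.Decomp
import Pool.Agent.Hhelper27.LpBasis.Rho
import Pool.Agent.Hhelper27.LpBasis.Generating

/-!
# The separable atomless part and the nowhere separable part
-/

set_option autoImplicit false

namespace Pool.Agent.LpBasis

open MeasureTheory ENNReal Filter


section aux

variable {Ω : Type} [MeasurableSpace Ω]

/-- a null set carries the empty system -/
theorem exists_USys_null (μ : Measure Ω) (p : ℝ≥0∞) [Fact (1 ≤ p)] (M : Set Ω)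
    (h : μ M = 0) : ∃ (I : Type) (f : I → Lp ℝ p μ) (C : ℝ), 1 ≤ C ∧ USys μ p M f C := by
  refine ⟨Empty, fun i => i.elim, 1, le_refl _, ⟨fun i => i.elim, fun i => i.elim,
    fun D hD hμ hDM => ?_, fun S a ε _ => ?_⟩⟩
  · have h1 : indicatorConstLp p hD hμ (1 : ℝ) = 0 := by
      have h0 : μ D = 0 := measure_mono_null hDM h
      apply Lp.ext
      refine (indicatorConstLp_coeFn).trans ?_
      refine EventuallyEq.trans ?_ (Lp.coeFn_zero ℝ p μ).symm
      have h2 : D =ᵐ[μ] (∅ : Set Ω) := ae_eq_empty.2 h0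
      have h3 := indicator_ae_eq_of_ae_eq_set (f := fun _ => (1 : ℝ)) h2
      rw [Set.indicator_empty] at h3
      exact h3
    rw [h1]
    exact subset_closure (Submodule.zero_mem _)
  · have : S = ∅ := Finset.eq_empty_of_isEmpty S
    simp [this]

/-- normalised restriction -/
noncomputable def nrm (μ : Measure Ω) (M : Set Ω) : Measure Ω := (μ M)⁻¹ • μ.restrict M

theorem nrm_prob {μ : Measure Ω} [IsFiniteMeasure μ] {M : Set Ω} (h : μ M ≠ 0) :
    IsProbabilityMeasure (nrm μ M) := by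
  constructor
  rw [nrm, Measure.smul_apply, Measure.restrict_apply_univ, smul_eq_mul,
    ENNReal.inv_mul_cancel h (measure_ne_top _ _)]

theorem restrict_eq_nrm {μ : Measure Ω} [IsFiniteMeasure μ] {M : Set Ω} (h : μ M ≠ 0)
    (S : Set Ω) : μ.restrict M S = μ M * nrm μ M S := by
  rw [nrm, Measure.smul_apply, smul_eq_mul, ← mul_assoc,
    ENNReal.mul_inv_cancel h (measure_ne_top _ _), one_mul]

theorem nrm_null {μ : Measure Ω} [IsFiniteMeasure μ] {M : Set Ω} (h : μ M ≠ 0)
    {S : Set Ω} : nrm μ M S = 0 ↔ μ.restrict M S = 0 := by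
  rw [restrict_eq_nrm h, mul_eq_zero]
  exact ⟨Or.inr, fun h' => h'.resolve_left h⟩

/-- there is a fair independent generating family on `M`, indexed by a linear order with a
Todorcevic type function -/
def HasFair (μ : Measure Ω) (M : Set Ω) : Prop :=
  ∃ (ι : Type) (_ : LinearOrder ι) (ρ : ι → ι → ℕ) (e : ι → Set Ω), RhoFun ρ ∧
    (∀ i, MeasurableSet (e i)) ∧ FairIndep (μ.restrict M) e ∧ Generates (μ.restrict M) e

/-- from a generating fair sequence for the normalised restriction to the restriction -/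
theorem hasFair_of_nrm (μ : Measure Ω) [IsFiniteMeasure μ] (M : Set Ω)
    (hμM : μ M ≠ 0) (ι : Type) [LinearOrder ι] [WellFoundedLT ι]
    (hι : ∀ β : ι, (Set.Iio β).Countable)
    (h : ∃ e : ι → Set Ω, (∀ i, MeasurableSet (e i)) ∧ FairIndep (nrm μ M) e ∧
      Generates (nrm μ M) e) : HasFair μ M := by
  obtain ⟨ρ, hρ⟩ := exists_rho ι hι
  obtain ⟨e, he, hfair, hgen⟩ := h
  refine ⟨ι, inferInstance, ρ, e, hρ, he, ?_, ?_⟩
  · intro S T hTS
    rw [restrict_eq_nrm hμM, hfair S T hTS, restrict_eq_nrm hμM, mul_div_assoc]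
  · intro B hB ε hε
    have hε' : ε / μ M ≠ 0 := ENNReal.div_ne_zero.2 ⟨hε, measure_ne_top _ _⟩
    obtain ⟨S, 𝒯, h⟩ := hgen B hB (ε / μ M) hε'
    refine ⟨S, 𝒯, ?_⟩
    rw [restrict_eq_nrm hμM]
    calc μ M * nrm μ M _ < μ M * (ε / μ M) :=
          ENNReal.mul_lt_mul_right hμM (measure_ne_top _ _) h
      _ ≤ ε := by rw [ENNReal.mul_div_cancel hμM (measure_ne_top _ _)]

end aux

theorem dense_of_countable_aux {Ω : Type} [m : MeasurableSpace Ω] (μ : Measure Ω)
    [IsFiniteMeasure μ] (S : Set (Set Ω)) (hS : S.Countable)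
    (hm : m = MeasurableSpace.generateFrom S) :
    ∃ E : ℕ → Set Ω, (∀ n, MeasurableSet (E n)) ∧
      ∀ A, MeasurableSet A → ∀ ε : ℝ≥0∞, ε ≠ 0 → ∃ n, μ (symmDiff A (E n)) < ε := by
  have hcA : (generateSetAlgebra S).Countable := countable_generateSetAlgebra hS
  have hdense : μ.MeasureDense (generateSetAlgebra S) :=
    Measure.MeasureDense.of_generateFrom_isSetAlgebra_finite μ isSetAlgebra_generateSetAlgebra
      (hm.trans generateFrom_generateSetAlgebra_eq.symm)
  obtain ⟨E, hE⟩ := hcA.exists_eq_range hdense.nonempty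
  have hEm : ∀ n, MeasurableSet (E n) := fun n => hdense.measurable _ (hE ▸ ⟨n, rfl⟩)
  refine ⟨E, hEm, fun A hA ε hε => ?_⟩
  obtain ⟨ε', hε'0, hε'⟩ : ∃ ε' : ℝ, 0 < ε' ∧ ENNReal.ofReal ε' ≤ ε := by
    by_cases h : ε = ⊤
    · exact ⟨1, one_pos, h ▸ le_top⟩
    · exact ⟨ε.toReal, ENNReal.toReal_pos hε h, ENNReal.ofReal_toReal_le⟩
  obtain ⟨t, ht, htA⟩ := hdense.approx A hA (measure_ne_top _ _) ε' hε'0
  obtain ⟨n, rfl⟩ : t ∈ Set.range E := hE ▸ ht
  exact ⟨n, htA.trans_le hε'⟩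

/-- approximation of the sets of a countably generated sub-σ-algebra -/
theorem dense_of_countable {Ω : Type} {m0 : MeasurableSpace Ω} (μ : Measure Ω)
    [IsFiniteMeasure μ] (S : Set (Set Ω)) (hS : S.Countable) (hSm : ∀ s ∈ S, MeasurableSet s) :
    ∃ E : ℕ → Set Ω, (∀ n, MeasurableSet (E n)) ∧
      ∀ A, MeasurableSet[MeasurableSpace.generateFrom S] A → ∀ ε : ℝ≥0∞, ε ≠ 0 →
        ∃ n, μ (symmDiff A (E n)) < ε := by
  have hmle : MeasurableSpace.generateFrom S ≤ m0 := MeasurableSpace.generateFrom_le hSm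
  obtain ⟨E, hE, h⟩ := @dense_of_countable_aux Ω (MeasurableSpace.generateFrom S) (μ.trim hmle)
    (isFiniteMeasure_trim hmle) S hS rfl
  refine ⟨E, fun n => hmle _ (hE n), fun A hA ε hε => ?_⟩
  obtain ⟨n, hn⟩ := h A hA ε hε
  refine ⟨n, ?_⟩
  rwa [trim_measurableSet_eq hmle (hA.symmDiff (hE n))] at hn

/-- the separable atomless part -/
theorem hasFair_sep {Ω : Type} [MeasurableSpace Ω] (μ : Measure Ω) [IsFiniteMeasure μ]
    (M : Set Ω) (hM : MeasurableSet M) (hμM : μ M ≠ 0)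
    (hsep : SepOn μ M) (hat : ∀ B, B ⊆ M → ¬ AtomSet μ B) : HasFair μ M := by
  have := nrm_prob (μ := μ) hμM
  refine hasFair_of_nrm μ M hμM ℕ (fun β => Set.to_countable _) ?_
  obtain ⟨D, hD, hDd⟩ := hsep
  let g : ℕ × ℕ ↪ ℕ := Nat.pairEquiv.toEmbedding
  refine exists_generating (nrm μ M) ℕ ℕ g D hD ?_ ?_
  · intro B hB ε hε
    have hε' : ε * μ M ≠ 0 := mul_ne_zero hε hμM
    obtain ⟨n, hn⟩ := hDd (B ∩ M) (hB.inter hM) Set.inter_subset_right _ hε'
    refine ⟨n, ?_⟩
    have h1 : symmDiff B (D n) ∩ M = symmDiff (B ∩ M) (D n) ∩ M := by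
      ext x
      simp only [Set.mem_inter_iff, Set.mem_symmDiff]
      tauto
    rw [nrm, Measure.smul_apply, smul_eq_mul, Measure.restrict_apply (hB.symmDiff (hD n)), h1]
    calc (μ M)⁻¹ * μ (symmDiff (B ∩ M) (D n) ∩ M) < (μ M)⁻¹ * (ε * μ M) :=
          ENNReal.mul_lt_mul_right (ENNReal.inv_ne_zero.2 (measure_ne_top _ _))
            (ENNReal.inv_ne_top.2 hμM) hn
      _ = ε := by
          rw [mul_comm ε, ← mul_assoc, ENNReal.inv_mul_cancel hμM (measure_ne_top _ _), one_mul]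
  · -- relative atomlessness over finite algebras
    intro β e he M' hM' hνM'
    by_contra hcon
    push Not at hcon
    -- the cells
    let cell : Finset ℕ → Set Ω := fun T => {ω | ∀ i < β, (ω ∈ e i ↔ i ∈ T)}
    have hcell : ∀ T, MeasurableSet (cell T) := by
      intro T
      have : cell T = ⋂ i ∈ Finset.range β, (if i ∈ T then e i else (e i)ᶜ) := by
        ext ω
        simp only [cell, Set.mem_ofPred_eq, Set.mem_iInter, Finset.mem_range]
        refine forall_congr' fun i => forall_congr' fun hi => ?_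
        by_cases h : i ∈ T <;> simp [h]
      rw [this]
      refine Finset.measurableSet_biInter _ fun i _ => ?_
      split_ifs
      · exact he i
      · exact (he i).compl
    have hcover : (Set.univ : Set Ω) ⊆ ⋃ T ∈ (Finset.range β).powerset, cell T := by
      classical
      intro ω _
      simp only [Set.mem_iUnion, Finset.mem_powerset]
      refine ⟨(Finset.range β).filter (fun i => ω ∈ e i), Finset.filter_subset _ _, ?_⟩
      intro i hi
      simp [hi]
    have hex : ∃ T ∈ (Finset.range β).powerset, nrm μ M (M' ∩ cell T) ≠ 0 := by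
      by_contra hno
      push Not at hno
      refine hνM' ?_
      have h1 : M' ⊆ ⋃ T ∈ (Finset.range β).powerset, (M' ∩ cell T) := by
        intro ω hω
        have := hcover (Set.mem_univ ω)
        simp only [Set.mem_iUnion] at this ⊢
        obtain ⟨T, hT, hT'⟩ := this
        exact ⟨T, hT, hω, hT'⟩
      refine measure_mono_null h1 (nonpos_iff_eq_zero.1 ((measure_biUnion_finset_le _ _).trans ?_))
      rw [Finset.sum_eq_zero hno]
    obtain ⟨T, -, hT⟩ := hex
    -- sets of the generated algebra contain or miss the cell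
    have hdich : ∀ A, MeasurableSet[MeasurableSpace.generateFrom (e '' Set.Iio β)] A →
        cell T ⊆ A ∨ cell T ⊆ Aᶜ := by
      intro A hA
      induction A, hA using MeasurableSpace.generateFrom_induction with
      | hC t ht _ =>
        obtain ⟨i, hi, rfl⟩ := ht
        by_cases h : i ∈ T
        · exact Or.inl fun ω hω => (hω i hi).2 h
        · exact Or.inr fun ω hω h' => h ((hω i hi).1 h')
      | empty => exact Or.inr (by simp)
      | compl t _ ih =>
        rcases ih with h | h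
        · exact Or.inr (by rwa [compl_compl])
        · exact Or.inl h
      | iUnion s _ ih =>
        by_cases h : ∃ n, cell T ⊆ s n
        · obtain ⟨n, hn⟩ := h
          exact Or.inl (hn.trans (Set.subset_iUnion s n))
        · push Not at h
          refine Or.inr ?_
          rw [Set.compl_iUnion]
          exact Set.subset_iInter fun n => (ih n).resolve_left (h n)
    -- a set which is not an atom
    have hna := hat (M' ∩ cell T ∩ M) Set.inter_subset_right
    have hmeasC : MeasurableSet (M' ∩ cell T ∩ M) := (hM'.inter (hcell T)).inter hM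
    have hpos : μ (M' ∩ cell T ∩ M) ≠ 0 := by
      rw [← Measure.restrict_apply (hM'.inter (hcell T))]
      exact fun h => hT ((nrm_null hμM).2 h)
    have hex2 : ∃ B', MeasurableSet B' ∧ B' ⊆ M' ∩ cell T ∩ M ∧ μ B' ≠ 0 ∧
        μ ((M' ∩ cell T ∩ M) \ B') ≠ 0 := by
      by_contra hno
      push Not at hno
      exact hna ⟨hmeasC, hpos, fun B' h1 h2 => by
        by_cases h3 : μ B' = 0
        · exact Or.inl h3
        · exact Or.inr (hno B' h1 h2 h3)⟩
    obtain ⟨B', hB', hB'sub, hB'0, hB'1⟩ := hex2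
    obtain ⟨A, hA, hA0⟩ := hcon B' hB' fun x hx => (hB'sub hx).1.1
    have hAm : MeasurableSet A := by
      refine MeasurableSpace.generateFrom_le ?_ A hA
      rintro _ ⟨i, -, rfl⟩
      exact he i
    have hA1 : μ (symmDiff B' (M' ∩ A) ∩ M) = 0 := by
      rw [← Measure.restrict_apply (hB'.symmDiff (hM'.inter hAm))]
      exact (nrm_null hμM).1 hA0
    rcases hdich A hA with h | h
    · refine hB'1 (measure_mono_null ?_ hA1)
      rintro x ⟨⟨⟨hx1, hx2⟩, hx3⟩, hx4⟩
      exact ⟨Or.inr ⟨⟨hx1, h hx2⟩, hx4⟩, hx3⟩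
    · refine hB'0 (measure_mono_null ?_ hA1)
      intro x hx
      have hx' := hB'sub hx
      exact ⟨Or.inl ⟨hx, fun h' => h hx'.1.2 h'.2⟩, hx'.2⟩

/-- the nowhere separable part -/
theorem hasFair_nonsep {Ω : Type} [MeasurableSpace Ω] (μ : Measure Ω) [IsFiniteMeasure μ]
    (p : ℝ≥0∞) [Fact (1 ≤ p)] (hp1 : 1 < p) (hp : p ≠ ⊤)
    (hdens : ∃ D : Set (Lp ℝ p μ), Dense D ∧ Cardinal.mk ↥D ≤ Cardinal.aleph 1)
    (M : Set Ω) (hM : MeasurableSet M) (hμM : μ M ≠ 0)
    (hns : ∀ B, MeasurableSet B → B ⊆ M → SepOn μ B → μ B = 0) : HasFair μ M := by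
  have := nrm_prob (μ := μ) hμM
  let ι : Type := (Cardinal.aleph 1).ord.ToType
  have hι : Cardinal.mk ι = Cardinal.aleph 1 := Cardinal.mk_ord_toType _
  have hcount : ∀ β : ι, (Set.Iio β).Countable := by
    intro β
    have h1 : Cardinal.mk (Set.Iio β) < Cardinal.mk ι := Cardinal.mk_Iio_lt β (by simp [ι])
    have h2 : Cardinal.mk (Set.Iio β) < Order.succ Cardinal.aleph0 := by
      rw [Cardinal.succ_aleph0]
      exact h1.trans_eq hι
    exact Cardinal.le_aleph0_iff_set_countable.1 (Order.lt_succ_iff.1 h2)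
  refine hasFair_of_nrm μ M hμM ι hcount ?_
  obtain ⟨D0, hD0, hD0c⟩ := hdens
  have hne : Nonempty D0 := by
    obtain ⟨x, hx⟩ := hD0.nonempty
    exact ⟨⟨x, hx⟩⟩
  have hemb : Nonempty (D0 × ℕ ↪ ι) := by
    rw [← Cardinal.le_def, Cardinal.mk_prod, hι]
    simp only [Cardinal.lift_id, Cardinal.mk_nat]
    exact Cardinal.mul_le_of_le (Cardinal.aleph0_le_aleph 1) hD0c (Cardinal.aleph0_le_aleph 1)
  obtain ⟨g⟩ := hemb
  let D : D0 → Set Ω := fun δ => {x | (1 / 2 : ℝ) < (δ : Lp ℝ p μ) x}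
  have hD : ∀ δ, MeasurableSet (D δ) := fun δ =>
    measurableSet_lt measurable_const (Lp.stronglyMeasurable _).measurable
  have hp0 : p ≠ 0 := (zero_lt_one.trans hp1).ne'
  have hpr : 0 < p.toReal := ENNReal.toReal_pos hp0 hp
  refine exists_generating (nrm μ M) ι D0 g D hD ?_ ?_
  · intro B hB ε hε
    have hε' : 0 < ε * μ M := pos_iff_ne_zero.2 (mul_ne_zero hε hμM)
    -- small parameter
    have hlim : Tendsto (fun η : ℝ => ((1 / 2 : ℝ≥0∞)⁻¹ ^ p.toReal) *
        ENNReal.ofReal η ^ p.toReal) (nhdsWithin 0 (Set.Ioi 0)) (nhds 0) := by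
      have h1 : Tendsto (fun η : ℝ => ENNReal.ofReal η) (nhdsWithin 0 (Set.Ioi 0)) (nhds 0) := by
        have := (ENNReal.continuous_ofReal.tendsto 0).mono_left
          (nhdsWithin_le_nhds (s := Set.Ioi (0 : ℝ)))
        simpa using this
      have h2 := (ENNReal.continuous_rpow_const (y := p.toReal)).tendsto 0
      rw [ENNReal.zero_rpow_of_pos hpr] at h2
      have h3 := h2.comp h1
      have h4 := ENNReal.Tendsto.const_mul (a := (1 / 2 : ℝ≥0∞)⁻¹ ^ p.toReal) h3
        (Or.inr (ENNReal.rpow_ne_top_of_nonneg hpr.le (by simp)))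
      rw [mul_zero] at h4
      exact h4
    obtain ⟨η, hη1, hη2⟩ := ((hlim.eventually (gt_mem_nhds hε')).and self_mem_nhdsWithin).exists
    have hη2 : 0 < η := hη2
    let f : Lp ℝ p μ := indicatorConstLp p hB (measure_ne_top μ B) (1 : ℝ)
    obtain ⟨d, hdist, hd⟩ := Metric.dense_iff.1 hD0 f η hη2
    refine ⟨⟨d, hd⟩, ?_⟩
    have hnorm : ‖d - f‖ ≤ η := by
      rw [← dist_eq_norm]
      exact (Metric.mem_ball.1 hdist).le
    have hsub : symmDiff B (D ⟨d, hd⟩) ≤ᵐ[μ] {x | (1 / 2 : ℝ≥0∞) ≤ ‖(d - f : Lp ℝ p μ) x‖₊} := by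
      filter_upwards [Lp.coeFn_sub d f, indicatorConstLp_coeFn (p := p) (hs := hB)
        (hμs := measure_ne_top μ B) (c := (1 : ℝ))] with x hx1 hx2 hx
      have hx3 : (f : Lp ℝ p μ) x = B.indicator (fun _ => (1 : ℝ)) x := hx2
      have hhalf : (1 / 2 : ℝ≥0∞) = ((1 / 2 : NNReal) : ℝ≥0∞) := by simp
      show (1 / 2 : ℝ≥0∞) ≤ ‖(d - f : Lp ℝ p μ) x‖₊
      rw [hhalf, ENNReal.coe_le_coe, ← NNReal.coe_le_coe, coe_nnnorm, hx1, Pi.sub_apply, hx3,
        Real.norm_eq_abs]
      push_cast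
      rcases hx with ⟨h1, h2⟩ | ⟨h1, h2⟩
      · have h3 : ¬ (1 / 2 : ℝ) < d x := h2
        rw [Set.indicator_of_mem h1]
        rw [abs_of_nonpos (by linarith [not_lt.1 h3])]
        linarith [not_lt.1 h3]
      · have h3 : (1 / 2 : ℝ) < d x := h1
        rw [Set.indicator_of_notMem h2, sub_zero, abs_of_pos (by linarith)]
        exact h3.le
    have hle : μ (symmDiff B (D ⟨d, hd⟩)) < ε * μ M := by
      calc μ (symmDiff B (D ⟨d, hd⟩)) ≤ μ {x | (1 / 2 : ℝ≥0∞) ≤ ‖(d - f : Lp ℝ p μ) x‖₊} :=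
            measure_mono_ae hsub
        _ ≤ (1 / 2 : ℝ≥0∞)⁻¹ ^ p.toReal * ENNReal.ofReal ‖d - f‖ ^ p.toReal :=
            Lp.meas_ge_le_mul_pow_enorm (d - f) hp0 hp (by simp)
        _ ≤ (1 / 2 : ℝ≥0∞)⁻¹ ^ p.toReal * ENNReal.ofReal η ^ p.toReal := by
            gcongr
        _ < ε * μ M := hη1
    rw [nrm, Measure.smul_apply, smul_eq_mul]
    calc (μ M)⁻¹ * μ.restrict M (symmDiff B (D ⟨d, hd⟩))
        ≤ (μ M)⁻¹ * μ (symmDiff B (D ⟨d, hd⟩)) := by
          gcongr
          exact Measure.restrict_le_self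
      _ < (μ M)⁻¹ * (ε * μ M) :=
          ENNReal.mul_lt_mul_right (ENNReal.inv_ne_zero.2 (measure_ne_top _ _))
            (ENNReal.inv_ne_top.2 hμM) hle
      _ = ε := by
          rw [mul_comm ε, ← mul_assoc, ENNReal.inv_mul_cancel hμM (measure_ne_top _ _), one_mul]
  · intro β e he M' hM' hνM'
    by_contra hcon
    push Not at hcon
    have hcS : (e '' Set.Iio β).Countable := (hcount β).image e
    have hSm : ∀ s ∈ e '' Set.Iio β, MeasurableSet s := by
      rintro _ ⟨i, -, rfl⟩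
      exact he i
    have hpos : μ (M' ∩ M) ≠ 0 := by
      rw [← Measure.restrict_apply hM']
      exact fun h => hνM' ((nrm_null hμM).2 h)
    refine hpos (hns (M' ∩ M) (hM'.inter hM) Set.inter_subset_right ?_)
    obtain ⟨E, hEm, hE⟩ := dense_of_countable μ _ hcS hSm
    refine ⟨E, hEm, fun B hB hBM ε hε => ?_⟩
    obtain ⟨A, hA, hA0⟩ := hcon B hB fun x hx => (hBM hx).1
    obtain ⟨n, hn⟩ := hE A hA ε hε
    refine ⟨n, ?_⟩
    have hA' : MeasurableSet A := MeasurableSpace.generateFrom_le hSm A hA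
    have hA1 : μ (symmDiff B (M' ∩ A) ∩ M) = 0 := by
      rw [← Measure.restrict_apply (hB.symmDiff (hM'.inter hA'))]
      exact (nrm_null hμM).1 hA0
    have hsub : symmDiff B (E n) ∩ (M' ∩ M) ⊆
        (symmDiff B (M' ∩ A) ∩ M) ∪ symmDiff A (E n) := by
      rintro x ⟨hx, hx1, hx2⟩
      simp only [Set.mem_symmDiff, Set.mem_inter_iff, Set.mem_union] at hx ⊢
      tauto
    calc μ (symmDiff B (E n) ∩ (M' ∩ M)) ≤ μ (symmDiff B (M' ∩ A) ∩ M) + μ (symmDiff A (E n)) :=
          (measure_mono hsub).trans (measure_union_le _ _)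
      _ = μ (symmDiff A (E n)) := by rw [hA1, zero_add]
      _ < ε := hn

end Pool.Agent.LpBasis
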