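import Pool.Agent.Hhelper27.LpBasis.SepGen
import Pool.Agent.Hhelper27.LpBasis.FairSystem
import Pool.Agent.Hhelper27.LpBasis.Pieces

/-!
# Systems on the separable atomless part and on the nowhere separable part; assembly

Modules K5, K6 and the final assembly of the unconditional basis of `L_p` (problem MP_ac58b9_an),
with the finite inequality `synth_Lp` as the hypothesis `hsynth`.
-/

set_option autoImplicit false

namespace Pool.Agent.LpBasis

open MeasureTheory ENNReal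

theorem exists_USys_of_hasFair
    (hsynth : ∀ p : ℝ, 1 < p → ∃ C : ℝ, 1 ≤ C ∧ FairSys.SynthBound p C)
    {Ω : Type} [MeasurableSpace Ω] (μ : Measure Ω) [IsFiniteMeasure μ]
    (p : ℝ≥0∞) [Fact (1 ≤ p)] (hp1 : 1 < p) (hp : p ≠ ⊤) (M : Set Ω) (hM : MeasurableSet M)
    (h : μ M ≠ 0 → HasFair μ M) :
    ∃ (I : Type) (f : I → Lp ℝ p μ) (C : ℝ), 1 ≤ C ∧ USys μ p M f C := by
  by_cases hμM : μ M = 0
  · exact exists_USys_null μ p M hμM
  obtain ⟨ι, _, ρ, e, hρ, he, hfair, hgen⟩ := h hμM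
  exact exists_USys_of_fair_of hsynth μ p hp1 hp M hM hμM ι ρ hρ e he hfair hgen

/-- K5: the separable atomless part -/
theorem exists_USys_sep_of
    (hsynth : ∀ p : ℝ, 1 < p → ∃ C : ℝ, 1 ≤ C ∧ FairSys.SynthBound p C)
    {Ω : Type} [MeasurableSpace Ω] (μ : Measure Ω) [IsFiniteMeasure μ]
    (p : ℝ≥0∞) [Fact (1 ≤ p)] (hp1 : 1 < p) (hp : p ≠ ⊤) (M : Set Ω) (hM : MeasurableSet M)
    (hsep : SepOn μ M) (hat : ∀ B, B ⊆ M → ¬ AtomSet μ B) :
    ∃ (I : Type) (f : I → Lp ℝ p μ) (C : ℝ), 1 ≤ C ∧ USys μ p M f C :=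
  exists_USys_of_hasFair hsynth μ p hp1 hp M hM fun hμM => hasFair_sep μ M hM hμM hsep hat

/-- K6: the nowhere separable part -/
theorem exists_USys_nonsep_of
    (hsynth : ∀ p : ℝ, 1 < p → ∃ C : ℝ, 1 ≤ C ∧ FairSys.SynthBound p C)
    {Ω : Type} [MeasurableSpace Ω] (μ : Measure Ω) [IsFiniteMeasure μ]
    (p : ℝ≥0∞) [Fact (1 ≤ p)] (hp1 : 1 < p) (hp : p ≠ ⊤)
    (hdens : ∃ D : Set (Lp ℝ p μ), Dense D ∧ Cardinal.mk ↥D ≤ Cardinal.aleph 1)
    (M : Set Ω) (hM : MeasurableSet M)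
    (hns : ∀ B, MeasurableSet B → B ⊆ M → SepOn μ B → μ B = 0) :
    ∃ (I : Type) (f : I → Lp ℝ p μ) (C : ℝ), 1 ≤ C ∧ USys μ p M f C :=
  exists_USys_of_hasFair hsynth μ p hp1 hp M hM fun hμM =>
    hasFair_nonsep μ p hp1 hp hdens M hM hμM hns

theorem USys.mono {Ω : Type} [MeasurableSpace Ω] {μ : Measure Ω}
    {p : ℝ≥0∞} [Fact (1 ≤ p)] {M : Set Ω} {I : Type} {f : I → Lp ℝ p μ} {C C' : ℝ}
    (h : USys μ p M f C) (hCC : C ≤ C') : USys μ p M f C' where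
  ne_zero := h.ne_zero
  supp := h.supp
  dense := h.dense
  ineq := fun S a ε hε => (h.ineq S a ε hε).trans
    (mul_le_mul_of_nonneg_right hCC (norm_nonneg _))

/-- existence of systems is stable under disjoint union -/
theorem exists_USys_union {Ω : Type} [MeasurableSpace Ω] (μ : Measure Ω) [IsFiniteMeasure μ]
    (p : ℝ≥0∞) [Fact (1 ≤ p)] (hp : p ≠ ⊤) {M M' : Set Ω} (hM : MeasurableSet M)
    (hM' : MeasurableSet M') (hd : Disjoint M M')
    (h : ∃ (I : Type) (f : I → Lp ℝ p μ) (C : ℝ), 1 ≤ C ∧ USys μ p M f C)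
    (h' : ∃ (I : Type) (f : I → Lp ℝ p μ) (C : ℝ), 1 ≤ C ∧ USys μ p M' f C) :
    ∃ (I : Type) (f : I → Lp ℝ p μ) (C : ℝ), 1 ≤ C ∧ USys μ p (M ∪ M') f C := by
  obtain ⟨I, f, C, hC, hf⟩ := h
  obtain ⟨I', f', C', hC', hf'⟩ := h'
  exact ⟨I ⊕ I', Sum.elim f f', max C C', hC.trans (le_max_left _ _),
    USys_union μ p hp M M' hM hM' hd f f' (max C C') (hC.trans (le_max_left _ _))
      (hf.mono (le_max_left _ _)) (hf'.mono (le_max_right _ _))⟩

/-- Every `L_p` of a finite measure, `1 < p < ∞`, with a dense set of cardinality at most `ℵ₁`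
has an unconditional basis (given the finite inequality `hsynth`). -/
theorem exists_basis_of
    (hsynth : ∀ p : ℝ, 1 < p → ∃ C : ℝ, 1 ≤ C ∧ FairSys.SynthBound p C)
    {Ω : Type} [MeasurableSpace Ω] (μ : Measure Ω) [IsFiniteMeasure μ]
    (p : ℝ≥0∞) [Fact (1 ≤ p)] (hp1 : 1 < p) (hp : p ≠ ⊤)
    (hdens : ∃ D : Set (Lp ℝ p μ), Dense D ∧ Cardinal.mk ↥D ≤ Cardinal.aleph 1) :
    ∃ (I : Type) (e : I → Lp ℝ p μ),
      ∀ x : Lp ℝ p μ, ∃! a : I → ℝ, HasSum (fun i => a i • e i) x := by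
  obtain ⟨A, Ms, Mh, hA, hAd, hMs, hMh, hd1, hd2, hd3, hun, hsep, hat, hns⟩ := decomposition μ
  have hAm : MeasurableSet (⋃ n, A n) := by
    refine MeasurableSet.iUnion fun n => ?_
    rcases hA n with h | h
    · exact h.1
    · rw [h]; exact MeasurableSet.empty
  have h1 := exists_USys_atoms μ p hp A hA hAd
  have h2 := exists_USys_sep_of hsynth μ p hp1 hp Ms hMs hsep hat
  have h3 := exists_USys_nonsep_of hsynth μ p hp1 hp hdens Mh hMh hns
  have h4 := exists_USys_union μ p hp hAm hMs hd1 h1 h2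
  have h5 := exists_USys_union μ p hp (hAm.union hMs) hMh (Set.disjoint_union_left.2 ⟨hd2, hd3⟩)
    h4 h3
  rw [hun] at h5
  obtain ⟨I, f, C, -, hf⟩ := h5
  exact ⟨I, f, basis_of_USys μ p hp f C hf⟩

end Pool.Agent.LpBasis
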