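import Pool.Agent.Hhelper27.LpBasis.Basic
import Pool.Agent.Hhelper27.LpBasis.Dyadic

/-!
Module E1: the expansion of functions on the cube in the Haar type system and the weighted
`L_2` bound for its multipliers.

For E2: `coef0_synth`, `coef1_synth`, `coef2_synth` (coefficients of a synth), `synth_expand`
(every function is the synth of its coefficients), `av_synth_mul` (pairing) and `synth_symm`
(symmetry of the multipliers).
-/

set_option autoImplicit false

namespace Pool.Agent.LpBasis

open Finset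

section gen

variable {V : Type*} [Fintype V] [DecidableEq V]

theorem sg_mul_self (b : Bool) : sg b * sg b = 1 := by cases b <;> simp [sg]

theorem sg_sq (b : Bool) : sg b ^ 2 = 1 := by cases b <;> simp [sg]

theorem abs_sg (b : Bool) : |sg b| = 1 := by cases b <;> simp [sg]

omit [Fintype V] [DecidableEq V] in
theorem dependsOn_sg {b : V} {s : Set V} (hb : b ∈ s) :
    DependsOn (fun ω : V → Bool => sg (ω b)) s := by
  intro x y h
  simp only [h b hb]

omit [Fintype V] [DecidableEq V] in
theorem dep_mul {f g : (V → Bool) → ℝ} {s : Set V} (hf : DependsOn f s)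
    (hg : DependsOn g s) : DependsOn (fun ω => f ω * g ω) s := by
  intro x y h
  simp only [hf h, hg h]

omit [Fintype V] [DecidableEq V] in
theorem dep_mono {f : (V → Bool) → ℝ} {s t : Set V} (hf : DependsOn f s)
    (hst : s ⊆ t) : DependsOn f t := by
  intro x y h
  exact hf (fun i hi => h i (hst hi))

theorem ce_sg_mul_eq_zero {F : Finset V} {b : V} (hb : b ∉ F) {g : (V → Bool) → ℝ}
    (hg : DependsOn g ({b}ᶜ : Set V)) (x : V → Bool) :
    ce F (fun ω => sg (ω b) * g ω) x = 0 := by
  rw [ce_eq_half hb, ce_mul_left (dependsOn_sg (by simp))]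
  have h2 : DependsOn (ce (insert b F) g) (({b}ᶜ : Set V)) := by
    have hg' : DependsOn g ((univ.erase b : Finset V) : Set V) := dep_mono hg (by
      intro z hz
      simpa using hz)
    rw [ce_inter_of_dependsOn hg']
    refine dep_mono (dependsOn_ce _ g) ?_
    intro z hz
    simp only [coe_inter, Set.mem_inter_iff, mem_coe, mem_erase] at hz
    simpa using hz.2.1
  have h3 : ce (insert b F) g (Function.update x b true) =
      ce (insert b F) g (Function.update x b false) := by
    apply h2
    intro i hi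
    have : i ≠ b := by simpa using hi
    simp [Function.update_of_ne this]
  simp [h3, sg]

theorem ce_insert_sub {F : Finset V} {b : V} (hb : b ∉ F) (g : (V → Bool) → ℝ)
    (x : V → Bool) :
    ce (insert b F) g x - ce F g x = sg (x b) * ce F (fun ω => sg (ω b) * g ω) x := by
  rw [ce_eq_half hb g, ce_eq_half hb (fun ω => sg (ω b) * g ω),
    ce_mul_left (dependsOn_sg (by simp))]
  have hx : x = Function.update x b (x b) := by simp
  cases hb' : x b with
  | true =>
    rw [hb'] at hx
    rw [← hx]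
    simp [sg, hb']
    ring
  | false =>
    rw [hb'] at hx
    rw [← hx]
    simp [sg, hb']
    ring

/-- telescoping along a chain -/
theorem ce_telescope {α : Type*} [LinearOrder α] (S : Finset V) (rk : V → α)
    (hrk : Set.InjOn rk (S : Set V)) (g : (V → Bool) → ℝ) (x : V → Bool) :
    ce S g x = av g + ∑ v ∈ S, sg (x v) *
      ce (S.filter (fun y => rk y < rk v)) (fun ω => sg (ω v) * g ω) x := by
  induction S using Finset.induction_on_max_value rk with
  | empty => simp [ce_empty]
  | insert a S ha hmax ih =>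
    have hlt : ∀ y ∈ S, rk y < rk a := by
      intro y hy
      refine lt_of_le_of_ne (hmax y hy) ?_
      intro h
      have := hrk (by simp [hy]) (by simp) h
      exact ha (this ▸ hy)
    have ih' := ih (hrk.mono (by simp))
    rw [Finset.sum_insert ha]
    have h1 : (insert a S).filter (fun y => rk y < rk a) = S := by
      ext y
      simp only [mem_filter, mem_insert]
      constructor
      · rintro ⟨h | h, h'⟩
        · subst h
          exact absurd h' (lt_irrefl _)
        · exact h
      · intro h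
        exact ⟨Or.inr h, hlt y h⟩
    have h2 : ∀ v ∈ S, (insert a S).filter (fun y => rk y < rk v) =
        S.filter (fun y => rk y < rk v) := by
      intro v hv
      ext y
      simp only [mem_filter, mem_insert]
      constructor
      · rintro ⟨h | h, h'⟩
        · subst h
          exact absurd (h'.trans (hlt v hv)) (lt_irrefl _)
        · exact ⟨h, h'⟩
      · rintro ⟨h, h'⟩
        exact ⟨Or.inr h, h'⟩
    rw [h1, Finset.sum_congr rfl (fun v hv => by rw [h2 v hv])]
    have h3 := ce_insert_sub ha g x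
    linarith

end gen

section coefs

variable {V : Type*} [Fintype V] [LinearOrder V]

/-- the coefficient of `g` at the constant function -/
noncomputable def coef0 (g : (V → Bool) → ℝ) : ℝ := av g

/-- the coefficient of `g` at `r_β` -/
noncomputable def coef1 (g : (V → Bool) → ℝ) (β : V) : ℝ := av (fun ω => sg (ω β) * g ω)

/-- the coefficient function of `g` at `r_β r_x` -/
noncomputable def coef2 (ρ : V → V → ℕ) (g : (V → Bool) → ℝ) (β x : V) : (V → Bool) → ℝ :=
  ce (prec ρ β x) (fun ω => sg (ω x) * (sg (ω β) * g ω))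

theorem dependsOn_coef2 (ρ : V → V → ℕ) (g : (V → Bool) → ℝ) (β x : V) :
    DependsOn (coef2 ρ g β x) (prec ρ β x : Set V) := dependsOn_ce _ _

/-- the coefficient function of `g` at `β` -/
noncomputable def coefF (g : (V → Bool) → ℝ) (β : V) : (V → Bool) → ℝ :=
  ce (univ.filter (fun x => x < β)) (fun ω => sg (ω β) * g ω)

theorem prec_subset (ρ : V → V → ℕ) (β x : V) : prec ρ β x ⊆ univ.filter (fun x => x < β) := by
  intro y hy
  simp only [prec, mem_filter, mem_univ, true_and] at hy ⊢
  exact hy.1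

theorem filter_filter_eq_prec (ρ : V → V → ℕ) (β x : V) :
    (univ.filter (fun x => x < β)).filter (fun y => ρ y β < ρ x β) = prec ρ β x := by
  ext y
  simp [prec]

theorem not_mem_prec (ρ : V → V → ℕ) (β x : V) : x ∉ prec ρ β x := by
  simp [prec]

theorem coef1_eq_av (g : (V → Bool) → ℝ) (β : V) : av (coefF g β) = coef1 g β := by
  rw [coefF, av_ce, coef1]

theorem coef2_eq (ρ : V → V → ℕ) (g : (V → Bool) → ℝ) {β x : V} (hx : x < β) :
    ce (prec ρ β x) (fun ω => sg (ω x) * coefF g β ω) = coef2 ρ g β x := by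
  have h1 : (fun ω => sg (ω x) * coefF g β ω) =
      ce (univ.filter (fun x => x < β)) (fun ω => sg (ω x) * (sg (ω β) * g ω)) := by
    rw [ce_mul_left (g := fun ω => sg (ω x)) (dependsOn_sg (by simpa using hx))]
    rfl
  rw [h1, ce_ce, coef2, Finset.inter_eq_left.mpr (prec_subset ρ β x)]

theorem rho_injOn {ρ : V → V → ℕ} (hρ : RhoFun ρ) (β : V) :
    Set.InjOn (fun x => ρ x β) ((univ.filter (fun x => x < β) : Finset V) : Set V) := by
  intro x hx y hy h
  simp only [coe_filter, mem_univ, true_and, Set.mem_ofPred_eq] at hx hy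
  exact hρ.inj x y β hx hy h

/-- every function on the cube is the synth of its coefficients -/
theorem synth_expand {ρ : V → V → ℕ} (hρ : RhoFun ρ) (g : (V → Bool) → ℝ) :
    synth (coef0 g) (coef1 g) (coef2 ρ g) = g := by
  funext ω
  have h1 := ce_telescope (univ : Finset V) (fun v => v) (fun _ _ _ _ h => h) g ω
  rw [ce_univ] at h1
  have h2 : ∀ β : V, coefF g β ω = coef1 g β +
      ∑ x ∈ univ.filter (fun x => x < β), sg (ω x) * coef2 ρ g β x ω := by
    intro β
    have h3 := ce_telescope (univ.filter (fun x => x < β)) (fun x => ρ x β)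
      (rho_injOn hρ β) (coefF g β) ω
    have h4 : ce (univ.filter (fun x => x < β)) (coefF g β) = coefF g β :=
      ce_of_dependsOn (dependsOn_ce _ _)
    rw [h4, coef1_eq_av] at h3
    rw [h3]
    congr 1
    refine Finset.sum_congr rfl ?_
    intro x hx
    rw [filter_filter_eq_prec, coef2_eq ρ g (by simpa using hx)]
  rw [h1, synth, coef0]
  congr 1
  refine Finset.sum_congr rfl ?_
  intro β _
  rw [← h2 β]
  rfl

/-- the pairing of a synth with a function -/
theorem av_synth_mul (ρ : V → V → ℕ) (a0 : ℝ) (a : V → ℝ) (c : V → V → (V → Bool) → ℝ)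
    (hc : ∀ β x, DependsOn (c β x) (prec ρ β x : Set V)) (g : (V → Bool) → ℝ) :
    av (fun ω => synth a0 a c ω * g ω) = a0 * coef0 g + ∑ β, (a β * coef1 g β +
      ∑ x ∈ univ.filter (fun x => x < β), av (fun ω => c β x ω * coef2 ρ g β x ω)) := by
  have h1 : (fun ω => synth a0 a c ω * g ω) = fun ω => a0 * g ω +
      ∑ β, (a β * (sg (ω β) * g ω) + ∑ x ∈ univ.filter (fun x => x < β),
        c β x ω * (sg (ω x) * (sg (ω β) * g ω))) := by
    funext ω
    simp only [synth, add_mul, Finset.sum_mul, mul_add, Finset.mul_sum]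
    congr 1
    refine Finset.sum_congr rfl ?_
    intro β _
    congr 1
    · ring
    · refine Finset.sum_congr rfl ?_
      intro x _
      ring
  rw [h1, av_add, av_const_mul, av_sum]
  congr 1
  refine Finset.sum_congr rfl ?_
  intro β _
  rw [av_add, av_const_mul, av_sum]
  congr 1
  refine Finset.sum_congr rfl ?_
  intro x _
  rw [← av_ce (prec ρ β x), ce_mul_left (hc β x)]
  rfl

section coef_synth

variable {ρ : V → V → ℕ} (hρ : RhoFun ρ) (a0 : ℝ) (a : V → ℝ) (c : V → V → (V → Bool) → ℝ)
  (hc : ∀ β x, DependsOn (c β x) (prec ρ β x : Set V))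

/-- the coefficient function of `synth` at `β` -/
theorem dependsOn_inner {ρ : V → V → ℕ} (a : V → ℝ) (c : V → V → (V → Bool) → ℝ)
    (hc : ∀ β x, DependsOn (c β x) (prec ρ β x : Set V)) (β : V) :
    DependsOn (fun ω : V → Bool => a β + ∑ x ∈ univ.filter (fun x => x < β),
      sg (ω x) * c β x ω) ((univ.filter (fun x => x < β) : Finset V) : Set V) := by
  intro x y h
  show _ + _ = _ + _
  congr 1
  refine Finset.sum_congr rfl ?_
  intro z hz
  rw [h z (by simpa using hz), hc β z (fun i hi => h i (by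
    have := prec_subset ρ β z (by simpa using hi)
    simpa using this))]

theorem ce_empty_sg_mul {b : V} {g : (V → Bool) → ℝ} (hg : DependsOn g ({b}ᶜ : Set V)) :
    av (fun ω => sg (ω b) * g ω) = 0 := by
  have h := ce_sg_mul_eq_zero (F := (∅ : Finset V)) (b := b) (by simp) hg (fun _ => true)
  rw [ce_empty] at h
  exact h

include hc in
theorem coefF_synth (β : V) : coefF (synth a0 a c) β =
    fun ω : V → Bool => a β + ∑ x ∈ univ.filter (fun x => x < β), sg (ω x) * c β x ω := by
  have h1 : (fun ω => sg (ω β) * synth a0 a c ω) = fun ω => sg (ω β) * (fun _ => a0) ω +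
      ∑ γ, sg (ω β) * (sg (ω γ) * (fun ω' : V → Bool => a γ +
        ∑ x ∈ univ.filter (fun x => x < γ), sg (ω' x) * c γ x ω') ω) := by
    funext ω
    simp only [synth, mul_add, Finset.mul_sum]
  rw [coefF, h1, ce_add, ce_sum]
  funext y
  show ce _ _ y + ∑ γ, ce _ _ y = _
  rw [ce_sg_mul_eq_zero (by simp) (fun _ _ _ => rfl), zero_add,
    Finset.sum_eq_single β]
  · have h2 : (fun ω : V → Bool => sg (ω β) * (sg (ω β) * (fun ω' : V → Bool => a β +
        ∑ x ∈ univ.filter (fun x => x < β), sg (ω' x) * c β x ω') ω)) =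
        (fun ω' : V → Bool => a β +
        ∑ x ∈ univ.filter (fun x => x < β), sg (ω' x) * c β x ω') := by
      funext ω
      rw [← mul_assoc, sg_mul_self, one_mul]
    rw [h2, ce_of_dependsOn (dependsOn_inner a c hc β)]
  · intro γ _ hγ
    have hd := dependsOn_inner a c hc γ
    rcases lt_or_gt_of_ne hγ with hlt | hlt
    · -- γ < β
      apply ce_sg_mul_eq_zero (by simp)
      refine dep_mul (dependsOn_sg (by simpa using hγ)) (dep_mono hd ?_)
      intro z hz
      simp only [coe_filter, mem_univ, true_and, Set.mem_ofPred_eq] at hz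
      simp only [Set.mem_compl_iff, Set.mem_singleton_iff]
      exact (hz.trans hlt).ne
    · have h3 : (fun ω : V → Bool => sg (ω β) * (sg (ω γ) * (fun ω' : V → Bool => a γ +
        ∑ x ∈ univ.filter (fun x => x < γ), sg (ω' x) * c γ x ω') ω)) =
        fun ω : V → Bool => sg (ω γ) * (sg (ω β) * (fun ω' : V → Bool => a γ +
        ∑ x ∈ univ.filter (fun x => x < γ), sg (ω' x) * c γ x ω') ω) := by
        funext ω
        ring
      rw [h3]
      apply ce_sg_mul_eq_zero (by simpa using hlt.le)
      refine dep_mul (dependsOn_sg (by simpa using hγ.symm)) (dep_mono hd ?_)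
      intro z hz
      simp only [coe_filter, mem_univ, true_and, Set.mem_ofPred_eq] at hz
      simp only [Set.mem_compl_iff, Set.mem_singleton_iff]
      exact hz.ne
  · simp

include hc in
theorem coef1_synth (β : V) : coef1 (synth a0 a c) β = a β := by
  rw [← coef1_eq_av, coefF_synth a0 a c hc, av_add, av_const, av_sum]
  rw [Finset.sum_eq_zero, add_zero]
  intro x _
  apply ce_empty_sg_mul
  refine dep_mono (hc β x) ?_
  intro z hz
  simp only [Set.mem_compl_iff, Set.mem_singleton_iff]
  rintro rfl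
  exact not_mem_prec ρ β z (by simpa using hz)

include hc in
theorem coef0_synth : coef0 (synth a0 a c) = a0 := by
  rw [coef0]
  have h1 : synth a0 a c = fun ω => (fun _ => a0) ω +
      ∑ γ, (sg (ω γ) * (fun ω' : V → Bool => a γ +
        ∑ x ∈ univ.filter (fun x => x < γ), sg (ω' x) * c γ x ω') ω) := by
    funext ω
    simp only [synth]
  rw [h1, av_add, av_const, av_sum, Finset.sum_eq_zero, add_zero]
  intro β _
  apply ce_empty_sg_mul
  refine dep_mono (dependsOn_inner a c hc β) ?_
  intro z hz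
  simp only [coe_filter, mem_univ, true_and, Set.mem_ofPred_eq] at hz
  simp only [Set.mem_compl_iff, Set.mem_singleton_iff]
  exact hz.ne

include hρ hc in
theorem coef2_synth {β x : V} (hx : x < β) : coef2 ρ (synth a0 a c) β x = c β x := by
  rw [← coef2_eq ρ _ hx, coefF_synth a0 a c hc]
  have h1 : (fun ω : V → Bool => sg (ω x) * (a β +
      ∑ z ∈ univ.filter (fun z => z < β), sg (ω z) * c β z ω)) =
      fun ω => sg (ω x) * (fun _ => a β) ω +
      ∑ z ∈ univ.filter (fun z => z < β), sg (ω x) * (sg (ω z) * c β z ω) := by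
    funext ω
    simp only [mul_add, Finset.mul_sum]
  rw [h1, ce_add, ce_sum]
  funext y
  show ce _ _ y + ∑ z ∈ _, ce _ _ y = _
  rw [ce_sg_mul_eq_zero (not_mem_prec ρ β x) (fun _ _ _ => rfl), zero_add,
    Finset.sum_eq_single x]
  · have h2 : (fun ω : V → Bool => sg (ω x) * (sg (ω x) * c β x ω)) = c β x := by
      funext ω
      rw [← mul_assoc, sg_mul_self, one_mul]
    rw [h2, ce_of_dependsOn (hc β x)]
  · intro z hz hzx
    have hz' : z < β := by simpa using hz
    have hne : ρ z β ≠ ρ x β := fun h => hzx (hρ.inj z x β hz' hx h)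
    rcases lt_or_gt_of_ne hne with hlt | hlt
    · apply ce_sg_mul_eq_zero (not_mem_prec ρ β x)
      refine dep_mul (dependsOn_sg (by simpa using hzx)) (dep_mono (hc β z) ?_)
      intro w hw
      simp only [Set.mem_compl_iff, Set.mem_singleton_iff]
      rintro rfl
      simp only [prec, coe_filter, mem_univ, true_and, Set.mem_ofPred_eq] at hw
      exact absurd (hw.2.trans hlt) (lt_irrefl _)
    · have h3 : (fun ω : V → Bool => sg (ω x) * (sg (ω z) * c β z ω)) =
          fun ω : V → Bool => sg (ω z) * (sg (ω x) * c β z ω) := by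
        funext ω
        ring
      rw [h3]
      apply ce_sg_mul_eq_zero
      · simp only [prec, mem_filter, mem_univ, true_and, not_and, not_lt]
        intro _
        exact hlt.le
      · refine dep_mul (dependsOn_sg (by simpa using Ne.symm hzx)) (dep_mono (hc β z) ?_)
        intro w hw
        simp only [Set.mem_compl_iff, Set.mem_singleton_iff]
        rintro rfl
        exact not_mem_prec ρ β w (by simpa using hw)
  · intro h
    exact absurd (by simpa using hx) h

end coef_synth

/-- symmetry of the multipliers -/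
theorem synth_symm {ρ : V → V → ℕ} (hρ : RhoFun ρ) (a0 ε0 : ℝ) (a ε : V → ℝ)
    (c η : V → V → (V → Bool) → ℝ)
    (hc : ∀ β x, DependsOn (c β x) (prec ρ β x : Set V))
    (hη : ∀ β x, DependsOn (η β x) (prec ρ β x : Set V)) (g : (V → Bool) → ℝ) :
    av (fun y => synth (ε0 * a0) (fun β => ε β * a β) (fun β x y => η β x y * c β x y) y * g y) =
    av (fun y => synth a0 a c y * synth (ε0 * coef0 g) (fun β => ε β * coef1 g β)
      (fun β x y => η β x y * coef2 ρ g β x y) y) := by
  have hc' : ∀ β x, DependsOn (fun y => η β x y * c β x y) (prec ρ β x : Set V) :=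
    fun β x => dep_mul (hη β x) (hc β x)
  have hd : ∀ β x, DependsOn (fun y => η β x y * coef2 ρ g β x y) (prec ρ β x : Set V) :=
    fun β x => dep_mul (hη β x) (dependsOn_coef2 ρ g β x)
  rw [av_synth_mul ρ _ _ _ hc', av_synth_mul ρ _ _ _ hc, coef0_synth _ _ _ hd]
  congr 1
  · ring
  · refine Finset.sum_congr rfl ?_
    intro β _
    rw [coef1_synth _ _ _ hd]
    congr 1
    · ring
    · refine Finset.sum_congr rfl ?_
      intro x hx
      rw [coef2_synth hρ _ _ _ hd (by simpa using hx)]
      congr 1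
      funext ω
      ring

end coefs

section weighted

variable {V : Type*} [Fintype V] [LinearOrder V]

theorem av_sq_le (f W : (V → Bool) → ℝ) (hW : ∀ x, 0 < W x) :
    av f ^ 2 ≤ av (fun y => f y ^ 2 * W y) * av (fun y => (W y)⁻¹) := by
  have h := av_mul_sq_le (fun y => f y * Real.sqrt (W y)) (fun y => (Real.sqrt (W y))⁻¹)
  have e1 : (fun y => f y * Real.sqrt (W y) * (Real.sqrt (W y))⁻¹) = f := by
    funext y
    have : Real.sqrt (W y) ≠ 0 := (Real.sqrt_pos.mpr (hW y)).ne'
    field_simp
  have e2 : (fun y => (f y * Real.sqrt (W y)) ^ 2) = fun y => f y ^ 2 * W y := by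
    funext y
    rw [mul_pow, Real.sq_sqrt (hW y).le]
  have e3 : (fun y => (Real.sqrt (W y))⁻¹ ^ 2) = fun y => (W y)⁻¹ := by
    funext y
    rw [inv_pow, Real.sq_sqrt (hW y).le]
  rw [e1, e2, e3] at h
  exact h

/-- the sum of the squares of the coefficients, with weights -/
noncomputable def coefSum (ρ : V → V → ℕ) (W f : (V → Bool) → ℝ) : ℝ :=
  coef0 f ^ 2 / av (fun y => (W y)⁻¹) + ∑ β, (coef1 f β ^ 2 / av (fun y => (W y)⁻¹) +
    ∑ x ∈ univ.filter (fun x => x < β),
      av (fun y => coef2 ρ f β x y ^ 2 / ce (prec ρ β x) (fun y => (W y)⁻¹) y))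

theorem coefSum_le {ρ : V → V → ℕ} (hρ : RhoFun ρ) {A : ℝ} (hA : 1 ≤ A) (W : (V → Bool) → ℝ)
    (hW : ∀ x, 0 < W x)
    (h1 : ∀ β x, x < β → ∀ y, ce (prec ρ β x) W y * ce (prec ρ β x) (fun y => (W y)⁻¹) y ≤ A)
    (h2 : ∀ β y, ce (univ.filter (fun x => x < β)) W y *
        ce (univ.filter (fun x => x < β)) (fun y => (W y)⁻¹) y ≤ A)
    (f : (V → Bool) → ℝ) :
    coefSum ρ W f ≤ (1 + A * (2 * (1 + 8 * A ^ 2)) + A * (2 * (1 + 8 * A ^ 2)) ^ 2) *
      av (fun y => f y ^ 2 * W y) := by
  set B : ℝ := 2 * (1 + 8 * A ^ 2) with hB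
  have hB0 : 0 ≤ B := by positivity
  have hWi : ∀ x, 0 < (W x)⁻¹ := fun x => inv_pos.mpr (hW x)
  have hv0 : 0 < av (fun y => (W y)⁻¹) := av_pos hWi
  -- (1)
  have hF : ∑ β, av (fun y => coefF f β y ^ 2 /
      ce (univ.filter (fun x => x < β)) (fun y => (W y)⁻¹) y) ≤
      B * av (fun y => f y ^ 2 * W y) := by
    have h := square_fn (univ : Finset V) (fun v => v) (fun _ _ _ _ h => h) W hW A hA
      (fun v _ x => h2 v x) f
    refine le_trans (le_of_eq ?_) h
    refine Finset.sum_congr rfl ?_
    intro β _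
    congr 1
    funext y
    rw [ce_insert_sub (by simp), mul_pow, sg_sq, one_mul]
    rfl
  -- (2)
  have hFW : ∀ β, av (fun y => coefF f β y ^ 2 * W y) ≤ A * av (fun y => coefF f β y ^ 2 /
      ce (univ.filter (fun x => x < β)) (fun y => (W y)⁻¹) y) := by
    intro β
    rw [← av_ce (univ.filter (fun x => x < β)), ← av_const_mul]
    have hd : DependsOn (fun y => coefF f β y ^ 2)
        ((univ.filter (fun x => x < β) : Finset V) : Set V) := by
      intro x y h
      have := dependsOn_ce (univ.filter (fun x => x < β)) (fun ω => sg (ω β) * f ω) h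
      simp only [coefF, this]
    rw [ce_mul_left hd]
    apply av_mono
    intro y
    have hp : 0 < ce (univ.filter (fun x => x < β)) (fun y => (W y)⁻¹) y := ce_pos _ hWi y
    have h3 := h2 β y
    have h4 : ce (univ.filter (fun x => x < β)) W y ≤
        A / ce (univ.filter (fun x => x < β)) (fun y => (W y)⁻¹) y := by
      rw [le_div_iff₀ hp]
      exact h3
    calc coefF f β y ^ 2 * ce (univ.filter (fun x => x < β)) W y
        ≤ coefF f β y ^ 2 * (A / ce (univ.filter (fun x => x < β)) (fun y => (W y)⁻¹) y) :=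
          mul_le_mul_of_nonneg_left h4 (sq_nonneg _)
      _ = _ := by ring
  -- (3)
  have h3 : ∀ β, ∑ x ∈ univ.filter (fun x => x < β),
      av (fun y => coef2 ρ f β x y ^ 2 / ce (prec ρ β x) (fun y => (W y)⁻¹) y) ≤
      B * av (fun y => coefF f β y ^ 2 * W y) := by
    intro β
    have h := square_fn (univ.filter (fun x => x < β)) (fun x => ρ x β) (rho_injOn hρ β) W hW
      A hA (fun v hv x => by
        rw [filter_filter_eq_prec]
        exact h1 β v (by simpa using hv) x) (coefF f β)
    refine le_trans (le_of_eq ?_) h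
    refine Finset.sum_congr rfl ?_
    intro x hx
    congr 1
    funext y
    rw [filter_filter_eq_prec, ce_insert_sub (not_mem_prec ρ β x), mul_pow, sg_sq, one_mul,
      coef2_eq ρ f (by simpa using hx)]
  -- (4)
  have h4 : ∀ β, coef1 f β ^ 2 / av (fun y => (W y)⁻¹) ≤
      av (fun y => coefF f β y ^ 2 * W y) := by
    intro β
    rw [div_le_iff₀ hv0, ← coef1_eq_av]
    exact av_sq_le _ W hW
  have h5 : coef0 f ^ 2 / av (fun y => (W y)⁻¹) ≤ av (fun y => f y ^ 2 * W y) := by
    rw [div_le_iff₀ hv0]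
    exact av_sq_le _ W hW
  have h6 : ∀ β, coef1 f β ^ 2 / av (fun y => (W y)⁻¹) + ∑ x ∈ univ.filter (fun x => x < β),
      av (fun y => coef2 ρ f β x y ^ 2 / ce (prec ρ β x) (fun y => (W y)⁻¹) y) ≤
      (A + A * B) * av (fun y => coefF f β y ^ 2 /
      ce (univ.filter (fun x => x < β)) (fun y => (W y)⁻¹) y) := by
    intro β
    have e1 := h3 β
    have e2 := h4 β
    have e3 := hFW β
    have e4 := mul_le_mul_of_nonneg_left e3 hB0
    nlinarith
  have h7 : ∑ β, (coef1 f β ^ 2 / av (fun y => (W y)⁻¹) + ∑ x ∈ univ.filter (fun x => x < β),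
      av (fun y => coef2 ρ f β x y ^ 2 / ce (prec ρ β x) (fun y => (W y)⁻¹) y)) ≤
      (A + A * B) * (B * av (fun y => f y ^ 2 * W y)) := by
    refine (Finset.sum_le_sum (fun β _ => h6 β)).trans ?_
    rw [← Finset.mul_sum]
    exact mul_le_mul_of_nonneg_left hF (by positivity)
  rw [coefSum]
  have h8 : (1 + A * B + A * B ^ 2) * av (fun y => f y ^ 2 * W y) =
      av (fun y => f y ^ 2 * W y) + (A + A * B) * (B * av (fun y => f y ^ 2 * W y)) := by
    ring
  rw [h8]
  exact add_le_add h5 h7

theorem pair_le {ε c d v w A t : ℝ} (hε : |ε| ≤ 1) (hv : 0 < v) (hw : 0 < w) (hA : w * v ≤ A)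
    (ht : 0 < t) : ε * c * d ≤ t / 2 * (c ^ 2 / v) + A / (2 * t) * (d ^ 2 / w) := by
  have h1 : ε * c * d ≤ |c| * |d| := by
    calc ε * c * d ≤ |ε * c * d| := le_abs_self _
      _ = |ε| * (|c| * |d|) := by rw [abs_mul, abs_mul, mul_assoc]
      _ ≤ 1 * (|c| * |d|) := mul_le_mul_of_nonneg_right hε (by positivity)
      _ = _ := one_mul _
  have h2 : |c| * |d| ≤ t / 2 * (c ^ 2 / v) + v / (2 * t) * d ^ 2 := by
    have h3 : t / 2 * (c ^ 2 / v) + v / (2 * t) * d ^ 2 - |c| * |d| =
        (t * |c| - v * |d|) ^ 2 / (2 * t * v) := by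
      rw [← sq_abs c, ← sq_abs d]
      field_simp
      ring
    have h4 : 0 ≤ (t * |c| - v * |d|) ^ 2 / (2 * t * v) := by positivity
    linarith
  have h5 : v / (2 * t) * d ^ 2 ≤ A / (2 * t) * (d ^ 2 / w) := by
    have h6 : v ≤ A / w := by
      rw [le_div_iff₀ hw]
      linarith
    calc v / (2 * t) * d ^ 2 ≤ (A / w) / (2 * t) * d ^ 2 := by gcongr
      _ = _ := by ring
  linarith

/-- the weighted bound for a multiplier -/
theorem weighted_bound {ρ : V → V → ℕ} (hρ : RhoFun ρ) {A : ℝ} (hA : 1 ≤ A)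
    (W : (V → Bool) → ℝ) (hW : ∀ x, 0 < W x)
    (h0 : av W * av (fun y => (W y)⁻¹) ≤ A)
    (h1 : ∀ β x, x < β → ∀ y, ce (prec ρ β x) W y * ce (prec ρ β x) (fun y => (W y)⁻¹) y ≤ A)
    (h2 : ∀ β y, ce (univ.filter (fun x => x < β)) W y *
        ce (univ.filter (fun x => x < β)) (fun y => (W y)⁻¹) y ≤ A)
    (a0 ε0 : ℝ) (a ε : V → ℝ) (c η : V → V → (V → Bool) → ℝ)
    (hc : ∀ β x, DependsOn (c β x) (prec ρ β x : Set V))
    (hη : ∀ β x, DependsOn (η β x) (prec ρ β x : Set V))
    (hε0 : |ε0| ≤ 1) (hε : ∀ β, |ε β| ≤ 1) (hη1 : ∀ β x y, |η β x y| ≤ 1) :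
    av (fun y => synth (ε0 * a0) (fun β => ε β * a β) (fun β x y => η β x y * c β x y) y ^ 2 *
        W y) ≤ A * (1 + A * (2 * (1 + 8 * A ^ 2)) + A * (2 * (1 + 8 * A ^ 2)) ^ 2) ^ 2 *
      av (fun y => synth a0 a c y ^ 2 * W y) := by
  obtain ⟨C, hC⟩ : ∃ C : ℝ, C = 1 + A * (2 * (1 + 8 * A ^ 2)) + A * (2 * (1 + 8 * A ^ 2)) ^ 2 :=
    ⟨_, rfl⟩
  have hC0 : 0 < C := by
    rw [hC]
    positivity
  rw [← hC]
  set f := synth a0 a c with hf
  set h := synth (ε0 * a0) (fun β => ε β * a β) (fun β x y => η β x y * c β x y) with hh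
  set g : (V → Bool) → ℝ := fun y => h y * W y with hg
  have hc' : ∀ β x, DependsOn (fun y => η β x y * c β x y) (prec ρ β x : Set V) :=
    fun β x => dep_mul (hη β x) (hc β x)
  have hWi : ∀ x, 0 < (W x)⁻¹ := fun x => inv_pos.mpr (hW x)
  have hv0 : 0 < av (fun y => (W y)⁻¹) := av_pos hWi
  have hw0 : 0 < av W := av_pos hW
  have e1 : av (fun y => h y ^ 2 * W y) = av (fun y => h y * g y) := by
    congr 1
    funext y
    simp only [hg]
    ring
  have e2 := av_synth_mul ρ (ε0 * a0) (fun β => ε β * a β) _ hc' g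
  rw [← hh] at e2
  -- termwise
  have ht : 0 < A * C := by positivity
  have e3 : av (fun y => h y * g y) ≤ (A * C) / 2 * coefSum ρ W f +
      A / (2 * (A * C)) * coefSum ρ (fun y => (W y)⁻¹) g := by
    rw [e2]
    have hi : ∀ y, ((W y)⁻¹)⁻¹ = W y := fun y => inv_inv _
    simp only [coefSum, hi]
    rw [mul_add ((A * C) / 2), mul_add (A / (2 * (A * C))), Finset.mul_sum, Finset.mul_sum]
    have s0 : ε0 * a0 * coef0 g ≤ (A * C) / 2 * (coef0 f ^ 2 / av (fun y => (W y)⁻¹)) +
        A / (2 * (A * C)) * (coef0 g ^ 2 / av W) := by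
      rw [hf, coef0_synth _ _ _ hc]
      exact pair_le hε0 hv0 hw0 h0 ht
    have s1 : ∀ β, ε β * a β * coef1 g β + ∑ x ∈ univ.filter (fun x => x < β),
        av (fun ω => η β x ω * c β x ω * coef2 ρ g β x ω) ≤
        (A * C) / 2 * (coef1 f β ^ 2 / av (fun y => (W y)⁻¹) +
          ∑ x ∈ univ.filter (fun x => x < β),
            av (fun y => coef2 ρ f β x y ^ 2 / ce (prec ρ β x) (fun y => (W y)⁻¹) y)) +
        A / (2 * (A * C)) * (coef1 g β ^ 2 / av W +
          ∑ x ∈ univ.filter (fun x => x < β),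
            av (fun y => coef2 ρ g β x y ^ 2 / ce (prec ρ β x) W y)) := by
      intro β
      have s2 : ε β * a β * coef1 g β ≤ (A * C) / 2 * (coef1 f β ^ 2 / av (fun y => (W y)⁻¹)) +
          A / (2 * (A * C)) * (coef1 g β ^ 2 / av W) := by
        rw [hf, coef1_synth _ _ _ hc]
        exact pair_le (hε β) hv0 hw0 h0 ht
      have s3 : ∀ x ∈ univ.filter (fun x => x < β),
          av (fun ω => η β x ω * c β x ω * coef2 ρ g β x ω) ≤
          (A * C) / 2 * av (fun y => coef2 ρ f β x y ^ 2 /
            ce (prec ρ β x) (fun y => (W y)⁻¹) y) +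
          A / (2 * (A * C)) * av (fun y => coef2 ρ g β x y ^ 2 / ce (prec ρ β x) W y) := by
        intro x hx
        have hx' : x < β := by simpa using hx
        rw [hf, coef2_synth hρ _ _ _ hc hx', ← av_const_mul, ← av_const_mul, ← av_add]
        apply av_mono
        intro y
        exact pair_le (hη1 β x y) (ce_pos _ hWi y) (ce_pos _ hW y) (h1 β x hx' y) ht
      have s4 := Finset.sum_le_sum s3
      rw [Finset.sum_add_distrib, ← Finset.mul_sum, ← Finset.mul_sum] at s4
      linarith
    have s5 := (Finset.sum_le_sum (fun β (_ : β ∈ (univ : Finset V)) => s1 β)).trans_eq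
      Finset.sum_add_distrib
    refine le_trans (add_le_add s0 s5) (le_of_eq ?_)
    ring
  have e4 := coefSum_le hρ hA W hW h1 h2 f
  have e5 := coefSum_le hρ hA (fun y => (W y)⁻¹) hWi
    (fun β x hx y => by
      have := h1 β x hx y
      simp only [inv_inv]
      linarith)
    (fun β y => by
      have := h2 β y
      simp only [inv_inv]
      linarith) g
  rw [← hC] at e4 e5
  have e6 : av (fun y => g y ^ 2 * (W y)⁻¹) = av (fun y => h y ^ 2 * W y) := by
    congr 1
    funext y
    simp only [hg]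
    have := (hW y).ne'
    field_simp
  rw [e6] at e5
  have e7 : (A * C) / 2 * coefSum ρ W f ≤ (A * C) / 2 * (C * av (fun y => f y ^ 2 * W y)) :=
    mul_le_mul_of_nonneg_left e4 (by positivity)
  have e8 : A / (2 * (A * C)) * coefSum ρ (fun y => (W y)⁻¹) g ≤
      A / (2 * (A * C)) * (C * av (fun y => h y ^ 2 * W y)) :=
    mul_le_mul_of_nonneg_left e5 (by positivity)
  have e9 : A / (2 * (A * C)) * (C * av (fun y => h y ^ 2 * W y)) =
      av (fun y => h y ^ 2 * W y) / 2 := by
    have hA0 : A ≠ 0 := by positivity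
    field_simp
  rw [e9] at e8
  rw [← e1] at e3
  have e10 : (A * C) / 2 * (C * av (fun y => f y ^ 2 * W y)) =
      A * C ^ 2 * av (fun y => f y ^ 2 * W y) / 2 := by ring
  rw [e10] at e7
  linarith

end weighted

/-- E1: weighted `L_2` bound for the multipliers of the Haar type system -/
theorem synth_weighted (A : ℝ) (hA : 1 ≤ A) : ∃ K : ℝ, 0 < K ∧
    ∀ (V : Type) [Fintype V] [LinearOrder V] (ρ : V → V → ℕ) (_ : RhoFun ρ)
      (W : (V → Bool) → ℝ) (_ : ∀ x, 0 < W x)
      (_ : ∀ β x, x < β → ∀ y, ce (prec ρ β x) W y * ce (prec ρ β x) (fun y => (W y)⁻¹) y ≤ A)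
      (_ : ∀ β y, ce (univ.filter (fun x => x < β)) W y *
        ce (univ.filter (fun x => x < β)) (fun y => (W y)⁻¹) y ≤ A)
      (a0 ε0 : ℝ) (a ε : V → ℝ) (c η : V → V → (V → Bool) → ℝ)
      (_ : ∀ β x, DependsOn (c β x) (prec ρ β x : Set V))
      (_ : ∀ β x, DependsOn (η β x) (prec ρ β x : Set V))
      (_ : |ε0| ≤ 1) (_ : ∀ β, |ε β| ≤ 1) (_ : ∀ β x y, |η β x y| ≤ 1),
      av (fun y => synth (ε0 * a0) (fun β => ε β * a β) (fun β x y => η β x y * c β x y) y ^ 2 *
        W y) ≤ K * av (fun y => synth a0 a c y ^ 2 * W y) := by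
  refine ⟨A * (1 + A * (2 * (1 + 8 * A ^ 2)) + A * (2 * (1 + 8 * A ^ 2)) ^ 2) ^ 2, by positivity,
    ?_⟩
  intro V _ _ ρ hρ W hW h1 h2 a0 ε0 a ε c η hc hη hε0 hε hη1
  refine weighted_bound hρ hA W hW ?_ h1 h2 a0 ε0 a ε c η hc hη hε0 hε hη1
  rcases isEmpty_or_nonempty V with hV | hV
  · have e1 : ∀ g : (V → Bool) → ℝ, av g = g (fun _ => true) := by
      intro g
      have : g = fun _ => g (fun _ => true) := by
        funext y
        congr 1
        exact Subsingleton.elim _ _
      rw [this, av_const]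
    rw [e1, e1, mul_inv_cancel₀ (hW _).ne']
    exact hA
  · obtain ⟨β, hβ⟩ := Finite.exists_min (fun v : V => v)
    have e1 : univ.filter (fun x => x < β) = ∅ := by
      ext y
      simpa using hβ y
    have := h2 β (fun _ => true)
    rw [e1, ce_empty, ce_empty] at this
    exact this

end Pool.Agent.LpBasis
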