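import Pool.Agent.Hhelper27.LpBasis.SynthBasic
import Pool.Agent.Hhelper27.LpBasis.Synth1
import Pool.Agent.Hhelper27.LpBasis.A2

/-!
Module E2: the finite inequality for all exponents.
-/

set_option autoImplicit false

namespace Pool.Agent.LpBasis

open Finset Syn

section forest

variable {V : Type*} [Fintype V] [LinearOrder V]

/-- the forests of a rho function -/
def rhoForest (ρ : V → V → ℕ) (hρ : RhoFun ρ) : Forest V where
  P t z := univ.filter (fun x => x = z ∨ (x < z ∧ ρ x z ≤ t))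
  self_mem t z := by simp
  trans t x z hx := by
    intro y hy
    simp only [Finset.mem_filter, Finset.mem_univ, true_and] at hx hy ⊢
    rcases hx with rfl | ⟨h1, h2⟩
    · exact hy
    · rcases hy with rfl | ⟨h3, h4⟩
      · exact Or.inr ⟨h1, h2⟩
      · exact Or.inr ⟨h3.trans h1, (hρ.sub1 y x z h3 h1).trans (max_le h4 h2)⟩
  chain t x y z hx hy := by
    simp only [Finset.mem_filter, Finset.mem_univ, true_and] at hx hy ⊢
    rcases hx with rfl | ⟨h1, h2⟩
    · exact Or.inr hy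
    rcases hy with rfl | ⟨h3, h4⟩
    · exact Or.inl (Or.inr ⟨h1, h2⟩)
    rcases lt_trichotomy x y with h | h | h
    · exact Or.inl (Or.inr ⟨h, (hρ.sub2 x y z h h3).trans (max_le h2 h4)⟩)
    · exact Or.inl (Or.inl h)
    · exact Or.inr (Or.inr ⟨h, (hρ.sub2 y x z h h1).trans (max_le h4 h2)⟩)
  mono t z := by
    intro x hx
    simp only [Finset.mem_filter, Finset.mem_univ, true_and] at hx ⊢
    rcases hx with h | ⟨h1, h2⟩
    · exact Or.inl h
    · exact Or.inr ⟨h1, h2.trans (Nat.le_succ t)⟩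

theorem mem_rhoForest (ρ : V → V → ℕ) (hρ : RhoFun ρ) (t : ℕ) (z x : V) :
    x ∈ (rhoForest ρ hρ).P t z ↔ x = z ∨ (x < z ∧ ρ x z ≤ t) := by
  simp [rhoForest]

/-- an upper bound for the values of `ρ` -/
def rhoMax (ρ : V → V → ℕ) : ℕ := ∑ x, ∑ y, ρ x y

theorem le_rhoMax (ρ : V → V → ℕ) (x y : V) : ρ x y ≤ rhoMax ρ := by
  unfold rhoMax
  calc ρ x y ≤ ∑ y, ρ x y := Finset.single_le_sum (f := fun y => ρ x y) (by simp) (mem_univ y)
    _ ≤ ∑ x, ∑ y, ρ x y :=
      Finset.single_le_sum (f := fun x => ∑ y, ρ x y) (by simp) (mem_univ x)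

theorem prec_form (ρ : V → V → ℕ) (hρ : RhoFun ρ) (β x : V) :
    prec ρ β x = ∅ ∨ ∃ t < rhoMax ρ + 1, ∃ z, prec ρ β x = (rhoForest ρ hρ).P t z := by
  rcases (prec ρ β x).eq_empty_or_nonempty with h | h
  · exact Or.inl h
  right
  set z := (prec ρ β x).max' h with hz
  have hzm : z ∈ prec ρ β x := Finset.max'_mem _ h
  have hzm' : z < β ∧ ρ z β < ρ x β := by simpa [prec] using hzm
  have hpos : 0 < ρ x β := lt_of_le_of_lt (Nat.zero_le _) hzm'.2
  refine ⟨ρ x β - 1, lt_of_le_of_lt (Nat.sub_le _ _)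
    (Nat.lt_succ_of_le (le_rhoMax ρ x β)), z, ?_⟩
  ext y
  rw [mem_rhoForest]
  constructor
  · intro hy
    have hyz : y ≤ z := Finset.le_max' _ y hy
    have hy' : y < β ∧ ρ y β < ρ x β := by simpa [prec] using hy
    rcases hyz.eq_or_lt with h1 | h1
    · exact Or.inl h1
    · right
      refine ⟨h1, ?_⟩
      have h2 := hρ.sub2 y z β h1 hzm'.1
      have h3 : max (ρ y β) (ρ z β) < ρ x β := max_lt hy'.2 hzm'.2
      omega
  · rintro (rfl | ⟨h1, h2⟩)
    · exact hzm
    · have h3 := hρ.sub1 y z β h1 hzm'.1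
      have h4 : max (ρ y z) (ρ z β) < ρ x β := max_lt (by omega) hzm'.2
      simp only [prec, Finset.mem_filter, Finset.mem_univ, true_and]
      exact ⟨h1.trans hzm'.1, by omega⟩

theorem init_form (ρ : V → V → ℕ) (hρ : RhoFun ρ) (β : V) :
    (univ.filter (fun x => x < β) : Finset V) = ∅ ∨
      ∃ t < rhoMax ρ + 1, ∃ z, univ.filter (fun x => x < β) = (rhoForest ρ hρ).P t z := by
  rcases (univ.filter (fun x => x < β) : Finset V).eq_empty_or_nonempty with h | h
  · exact Or.inl h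
  right
  set z := (univ.filter (fun x => x < β) : Finset V).max' h with hz
  have hzm : z ∈ (univ.filter (fun x => x < β) : Finset V) := Finset.max'_mem _ h
  have hzm' : z < β := by simpa using hzm
  refine ⟨rhoMax ρ, Nat.lt_succ_self _, z, ?_⟩
  ext y
  rw [mem_rhoForest]
  constructor
  · intro hy
    have hyz : y ≤ z := Finset.le_max' _ y hy
    rcases hyz.eq_or_lt with h1 | h1
    · exact Or.inl h1
    · exact Or.inr ⟨h1, le_rhoMax ρ y z⟩
  · rintro (rfl | ⟨h1, _⟩)
    · exact hzm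
    · simp only [Finset.mem_filter, Finset.mem_univ, true_and]
      exact h1.trans hzm'

end forest

theorem rpow_add_le {a b s : ℝ} (ha : 0 ≤ a) (hb : 0 ≤ b) (hs : 0 ≤ s) :
    (a + b) ^ s ≤ 2 ^ s * (a ^ s + b ^ s) := by
  have h1 : a + b ≤ 2 * max a b := by
    have := le_max_left a b
    have := le_max_right a b
    linarith
  have h2 : (max a b) ^ s ≤ a ^ s + b ^ s := by
    rcases max_cases a b with ⟨h, _⟩ | ⟨h, _⟩
    · rw [h]; linarith [Real.rpow_nonneg hb s]
    · rw [h]; linarith [Real.rpow_nonneg ha s]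
  calc (a + b) ^ s ≤ (2 * max a b) ^ s := Real.rpow_le_rpow (by linarith) h1 hs
    _ = 2 ^ s * (max a b) ^ s := Real.mul_rpow (by norm_num) (le_max_of_le_left ha)
    _ ≤ 2 ^ s * (a ^ s + b ^ s) := by gcongr

/-- The case `p > 2`. -/
theorem synth_Lp_gt (p : ℝ) (hp : 2 < p) : ∃ C : ℝ, 1 ≤ C ∧
    ∀ (V : Type) [Fintype V] [LinearOrder V] (ρ : V → V → ℕ) (_ : RhoFun ρ)
      (a0 ε0 : ℝ) (a ε : V → ℝ) (c η : V → V → (V → Bool) → ℝ)
      (_ : ∀ β x, DependsOn (c β x) (prec ρ β x : Set V))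
      (_ : ∀ β x, DependsOn (η β x) (prec ρ β x : Set V))
      (_ : |ε0| ≤ 1) (_ : ∀ β, |ε β| ≤ 1) (_ : ∀ β x y, |η β x y| ≤ 1),
      av (fun y => |synth (ε0 * a0) (fun β => ε β * a β) (fun β x y => η β x y * c β x y) y| ^ p)
        ≤ C ^ p * av (fun y => |synth a0 a c y| ^ p) := by
  have hp0 : 0 < p := by linarith
  have hp2 : 0 < p - 2 := by linarith
  set s : ℝ := p / (p - 2) with hs
  have hs1 : 1 < s := by rw [hs, lt_div_iff₀ hp2]; linarith
  have hs0 : 0 < s := by linarith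
  have hsinv : 1 / s = (p - 2) / p := by rw [hs, one_div_div]
  obtain ⟨A, hA1, hA⟩ := exists_A2 s hs1
  obtain ⟨K, hK0, hK⟩ := synth_weighted A hA1
  set K' : ℝ := max 1 (K * (A * 2 ^ (s + 1)) ^ (1 / s)) with hK'
  have hK'1 : 1 ≤ K' := le_max_left _ _
  have hK'0 : 0 < K' := by linarith
  refine ⟨K' ^ (1 / 2 : ℝ), Real.one_le_rpow hK'1 (by norm_num), ?_⟩
  intro V _ _ ρ hρ a0 ε0 a ε c η hc hη hε0 hε hηb
  set h := synth (ε0 * a0) (fun β => ε β * a β) (fun β x y => η β x y * c β x y) with hh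
  set f := synth a0 a c with hf
  set P := av (fun y => |h y| ^ p) with hP
  set Q := av (fun y => |f y| ^ p) with hQ
  have hP0 : 0 ≤ P := av_nonneg (fun y => Real.rpow_nonneg (abs_nonneg _) _)
  have hQ0 : 0 ≤ Q := av_nonneg (fun y => Real.rpow_nonneg (abs_nonneg _) _)
  rcases hP0.eq_or_lt with hP00 | hPpos
  · rw [← hP00]; positivity
  set δ := P ^ ((p - 2) / p) with hδ
  have hδ0 : 0 < δ := Real.rpow_pos_of_pos hPpos _
  set w : (V → Bool) → ℝ := fun y => |h y| ^ (p - 2) + δ with hw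
  have hw0 : ∀ y, 0 < w y := fun y => by
    have := Real.rpow_nonneg (abs_nonneg (h y)) (p - 2)
    simp only [hw]; linarith
  obtain ⟨W, hwW, hWs, hWe, hWF⟩ := hA V (rhoForest ρ hρ) (rhoMax ρ + 1) w hw0
  have hW0 : ∀ y, 0 < W y := fun y => (hw0 y).trans_le (hwW y)
  have key := hK V ρ hρ W hW0
    (by
      intro β x _ y
      rcases prec_form ρ hρ β x with h1 | ⟨t, ht, z, h1⟩
      · rw [h1]; exact hWe y
      · rw [h1]; exact hWF t ht z y)
    (by
      intro β y
      rcases init_form ρ hρ β with h1 | ⟨t, ht, z, h1⟩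
      · rw [h1]; exact hWe y
      · rw [h1]; exact hWF t ht z y)
    a0 ε0 a ε c η hc hη hε0 hε hηb
  -- step 1
  have h1 : P ≤ av (fun y => h y ^ 2 * W y) := by
    refine av_mono (fun y => ?_)
    have e1 : |h y| ^ p = h y ^ 2 * |h y| ^ (p - 2) := by
      have : p = 2 + (p - 2) := by ring
      conv_lhs => rw [this]
      rw [Real.rpow_add_of_nonneg (abs_nonneg _) (by norm_num) hp2.le, Real.rpow_two, sq_abs]
    rw [e1]
    refine mul_le_mul_of_nonneg_left ?_ (sq_nonneg _)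
    refine le_trans ?_ (hwW y)
    simp only [hw]; linarith
  -- step 3
  have h3 : av (fun y => f y ^ 2 * W y) ≤
      Q ^ (2 / p) * (av (fun y => W y ^ s)) ^ (1 / s) := by
    have hc : (p / 2).HolderConjugate s := by
      rw [Real.holderConjugate_iff]
      refine ⟨by linarith, ?_⟩
      rw [hs]
      field_simp
      ring
    have := av_mul_le_Lp_mul_Lq (f := fun y => f y ^ 2) (g := W) (fun y => sq_nonneg _)
      (fun y => (hW0 y).le) hc
    have e2 : (fun y => (f y ^ 2) ^ (p / 2)) = fun y => |f y| ^ p := by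
      funext y
      rw [← sq_abs, ← Real.rpow_natCast, ← Real.rpow_mul (abs_nonneg _)]
      congr 1
      push_cast
      ring
    rw [e2] at this
    have e3 : 1 / (p / 2) = 2 / p := by rw [one_div_div]
    rw [e3] at this
    exact this
  -- step 4
  have h4 : av (fun y => w y ^ s) ≤ 2 ^ (s + 1) * P := by
    have e1 : ∀ y, w y ^ s ≤ 2 ^ s * (|h y| ^ p + P) := by
      intro y
      have e2 : (|h y| ^ (p - 2)) ^ s = |h y| ^ p := by
        rw [← Real.rpow_mul (abs_nonneg _)]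
        congr 1
        rw [hs]
        field_simp
      have e3 : δ ^ s = P := by
        rw [hδ, ← Real.rpow_mul hP0]
        have : (p - 2) / p * s = 1 := by rw [hs]; field_simp
        rw [this, Real.rpow_one]
      have := rpow_add_le (a := |h y| ^ (p - 2)) (b := δ) (s := s)
        (Real.rpow_nonneg (abs_nonneg _) _) hδ0.le hs0.le
      rw [e2, e3] at this
      exact this
    have e4 := av_mono e1
    rw [av_const_mul, av_add, av_const] at e4
    have e5 : (2 : ℝ) ^ (s + 1) = 2 ^ s * 2 := by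
      rw [Real.rpow_add (by norm_num), Real.rpow_one]
    rw [e5]
    have e6 : av (fun y => |h y| ^ p) = P := rfl
    rw [e6] at e4
    linarith
  -- step 5
  have hWs0 : 0 ≤ av (fun y => W y ^ s) := av_nonneg (fun y => Real.rpow_nonneg (hW0 y).le _)
  have hA0 : 0 < A := by linarith
  have h5 : (av (fun y => W y ^ s)) ^ (1 / s) ≤ (A * 2 ^ (s + 1)) ^ (1 / s) * P ^ ((p - 2) / p) := by
    have e1 : av (fun y => W y ^ s) ≤ A * 2 ^ (s + 1) * P := by
      calc av (fun y => W y ^ s) ≤ A * av (fun y => w y ^ s) := hWs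
        _ ≤ A * (2 ^ (s + 1) * P) := by gcongr
        _ = A * 2 ^ (s + 1) * P := by ring
    have e2 := Real.rpow_le_rpow hWs0 e1 (by positivity : 0 ≤ 1 / s)
    rw [Real.mul_rpow (by positivity) hP0] at e2
    rw [hsinv] at e2 ⊢
    exact e2
  have h6 : P ≤ K' * Q ^ (2 / p) * P ^ ((p - 2) / p) := by
    calc P ≤ av (fun y => h y ^ 2 * W y) := h1
      _ ≤ K * av (fun y => f y ^ 2 * W y) := key
      _ ≤ K * (Q ^ (2 / p) * (av (fun y => W y ^ s)) ^ (1 / s)) := by gcongr
      _ ≤ K * (Q ^ (2 / p) * ((A * 2 ^ (s + 1)) ^ (1 / s) * P ^ ((p - 2) / p))) := by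
          gcongr
      _ = K * (A * 2 ^ (s + 1)) ^ (1 / s) * Q ^ (2 / p) * P ^ ((p - 2) / p) := by ring
      _ ≤ K' * Q ^ (2 / p) * P ^ ((p - 2) / p) := by
          gcongr
          exact le_max_right _ _
  have h7 : P ^ (2 / p) ≤ K' * Q ^ (2 / p) := by
    have e1 : P = P ^ (2 / p) * P ^ ((p - 2) / p) := by
      rw [← Real.rpow_add hPpos]
      have : 2 / p + (p - 2) / p = 1 := by field_simp; ring
      rw [this, Real.rpow_one]
    have e2 : P ^ (2 / p) * P ^ ((p - 2) / p) ≤ K' * Q ^ (2 / p) * P ^ ((p - 2) / p) := by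
      rw [← e1]; exact h6
    exact le_of_mul_le_mul_right e2 hδ0
  have h8 := Real.rpow_le_rpow (Real.rpow_nonneg hP0 _) h7 (by positivity : 0 ≤ p / 2)
  rw [Real.mul_rpow hK'0.le (Real.rpow_nonneg hQ0 _), ← Real.rpow_mul hP0, ← Real.rpow_mul hQ0] at h8
  have e9 : 2 / p * (p / 2) = 1 := by field_simp
  rw [e9, Real.rpow_one, Real.rpow_one] at h8
  have e10 : (K' ^ (1 / 2 : ℝ)) ^ p = K' ^ (p / 2) := by
    rw [← Real.rpow_mul hK'0.le]
    congr 1
    ring
  rw [e10]
  exact h8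

/-- The case `p = 2`. -/
theorem synth_Lp_two : ∃ C : ℝ, 1 ≤ C ∧
    ∀ (V : Type) [Fintype V] [LinearOrder V] (ρ : V → V → ℕ) (_ : RhoFun ρ)
      (a0 ε0 : ℝ) (a ε : V → ℝ) (c η : V → V → (V → Bool) → ℝ)
      (_ : ∀ β x, DependsOn (c β x) (prec ρ β x : Set V))
      (_ : ∀ β x, DependsOn (η β x) (prec ρ β x : Set V))
      (_ : |ε0| ≤ 1) (_ : ∀ β, |ε β| ≤ 1) (_ : ∀ β x y, |η β x y| ≤ 1),
      av (fun y => |synth (ε0 * a0) (fun β => ε β * a β)
          (fun β x y => η β x y * c β x y) y| ^ (2 : ℝ))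
        ≤ C ^ (2 : ℝ) * av (fun y => |synth a0 a c y| ^ (2 : ℝ)) := by
  obtain ⟨K, hK0, hK⟩ := synth_weighted 1 le_rfl
  refine ⟨max 1 K, le_max_left _ _, ?_⟩
  intro V _ _ ρ hρ a0 ε0 a ε c η hc hη hε0 hε hηb
  have key := hK V ρ hρ (fun _ => 1) (fun _ => one_pos)
    (by intro β x _ y; simp [ce_const])
    (by intro β y; simp [ce_const])
    a0 ε0 a ε c η hc hη hε0 hε hηb
  simp only [mul_one] at key
  simp only [Real.rpow_two, sq_abs]
  refine key.trans ?_
  have h0 : 0 ≤ av (fun y => synth a0 a c y ^ 2) := av_nonneg (fun y => sq_nonneg _)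
  have h1 : K ≤ (max 1 K) ^ 2 := by
    have h2 : 1 ≤ max 1 K := le_max_left _ _
    have h3 : K ≤ max 1 K := le_max_right _ _
    nlinarith
  gcongr

/-- The case `p < 2`. -/
theorem synth_Lp_lt (p : ℝ) (hp : 1 < p) (hp2 : p < 2) : ∃ C : ℝ, 1 ≤ C ∧
    ∀ (V : Type) [Fintype V] [LinearOrder V] (ρ : V → V → ℕ) (_ : RhoFun ρ)
      (a0 ε0 : ℝ) (a ε : V → ℝ) (c η : V → V → (V → Bool) → ℝ)
      (_ : ∀ β x, DependsOn (c β x) (prec ρ β x : Set V))
      (_ : ∀ β x, DependsOn (η β x) (prec ρ β x : Set V))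
      (_ : |ε0| ≤ 1) (_ : ∀ β, |ε β| ≤ 1) (_ : ∀ β x y, |η β x y| ≤ 1),
      av (fun y => |synth (ε0 * a0) (fun β => ε β * a β) (fun β x y => η β x y * c β x y) y| ^ p)
        ≤ C ^ p * av (fun y => |synth a0 a c y| ^ p) := by
  have hp0 : 0 < p := by linarith
  have hp1 : 0 < p - 1 := by linarith
  set q : ℝ := p / (p - 1) with hq
  have hq2 : 2 < q := by rw [hq, lt_div_iff₀ hp1]; linarith
  have hq0 : 0 < q := by linarith
  have hpq : p.HolderConjugate q := by
    rw [Real.holderConjugate_iff]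
    refine ⟨hp, ?_⟩
    rw [hq]
    field_simp
    ring
  obtain ⟨C, hC1, hC⟩ := synth_Lp_gt q hq2
  have hC0 : 0 < C := by linarith
  refine ⟨C, hC1, ?_⟩
  intro V _ _ ρ hρ a0 ε0 a ε c η hc hη hε0 hε hηb
  set h := synth (ε0 * a0) (fun β => ε β * a β) (fun β x y => η β x y * c β x y) with hh
  set f := synth a0 a c with hf
  set P := av (fun y => |h y| ^ p) with hP
  set Q := av (fun y => |f y| ^ p) with hQ
  have hP0 : 0 ≤ P := av_nonneg (fun y => Real.rpow_nonneg (abs_nonneg _) _)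
  have hQ0 : 0 ≤ Q := av_nonneg (fun y => Real.rpow_nonneg (abs_nonneg _) _)
  rcases hP0.eq_or_lt with hP00 | hPpos
  · rw [← hP00]; positivity
  set g : (V → Bool) → ℝ := fun y => (SignType.sign (h y) : ℝ) * |h y| ^ (p - 1) with hg
  set Tg := synth (ε0 * av g) (fun β => ε β * coefA β g)
    (fun β x y => η β x y * coefC ρ β x g y) with hTg
  have h1 : P = av (fun y => f y * Tg y) := by
    rw [hTg, hf, ← av_mult_symm hρ a0 ε0 a ε hc hη g, hP]
    congr 1
    funext y
    rw [← hh, hg]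
    simp only
    rw [← mul_assoc, self_mul_sign]
    have : p = 1 + (p - 1) := by ring
    conv_lhs => rw [this]
    rw [Real.rpow_add_of_nonneg (abs_nonneg _) zero_le_one hp1.le, Real.rpow_one]
  have h2 : av (fun y => |Tg y| ^ q) ≤ C ^ q * P := by
    have e1 := hC V ρ hρ (av g) ε0 (fun β => coefA β g) ε (fun β x => coefC ρ β x g) η
      (fun β x => dependsOn_coefC ρ β x g) hη hε0 hε hηb
    rw [synth_coef hρ g] at e1
    have e2 : (fun y => |g y| ^ q) = fun y => |h y| ^ p := by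
      funext y
      by_cases hy : h y = 0
      · simp only [hg, hy, sign_zero, SignType.coe_zero, zero_mul, abs_zero]
        rw [Real.zero_rpow hq0.ne', Real.zero_rpow hp0.ne']
      · have e3 : |g y| = |h y| ^ (p - 1) := by
          simp only [hg]
          rw [abs_mul, abs_of_nonneg (Real.rpow_nonneg (abs_nonneg (h y)) (p - 1))]
          have : |(SignType.sign (h y) : ℝ)| = 1 := by
            rcases lt_or_gt_of_ne hy with h' | h'
            · rw [sign_neg h']; simp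
            · rw [sign_pos h']; simp
          rw [this, one_mul]
        rw [e3, ← Real.rpow_mul (abs_nonneg _)]
        congr 1
        rw [hq]
        field_simp
    rw [e2] at e1
    exact e1
  have h3 : av (fun y => f y * Tg y) ≤ Q ^ (1 / p) * (av (fun y => |Tg y| ^ q)) ^ (1 / q) := by
    refine le_trans (av_mono (g := fun y => |f y| * |Tg y|) (fun y => ?_)) ?_
    · rw [← abs_mul]; exact le_abs_self _
    · exact av_mul_le_Lp_mul_Lq (fun y => abs_nonneg _) (fun y => abs_nonneg _) hpq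
  have hTg0 : 0 ≤ av (fun y => |Tg y| ^ q) :=
    av_nonneg (fun y => Real.rpow_nonneg (abs_nonneg _) _)
  have h4 : (av (fun y => |Tg y| ^ q)) ^ (1 / q) ≤ C * P ^ (1 / q) := by
    have e1 := Real.rpow_le_rpow hTg0 h2 (by positivity : 0 ≤ 1 / q)
    rw [Real.mul_rpow (by positivity) hP0, ← Real.rpow_mul hC0.le,
      mul_one_div_cancel hq0.ne', Real.rpow_one] at e1
    exact e1
  have h5 : P ≤ C * Q ^ (1 / p) * P ^ (1 / q) := by
    calc P = av (fun y => f y * Tg y) := h1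
      _ ≤ Q ^ (1 / p) * (av (fun y => |Tg y| ^ q)) ^ (1 / q) := h3
      _ ≤ Q ^ (1 / p) * (C * P ^ (1 / q)) := by gcongr
      _ = C * Q ^ (1 / p) * P ^ (1 / q) := by ring
  have h6 : P ^ (1 / p) ≤ C * Q ^ (1 / p) := by
    have e1 : P = P ^ (1 / p) * P ^ (1 / q) := by
      rw [← Real.rpow_add hPpos]
      have : 1 / p + 1 / q = 1 := by rw [hq]; field_simp; ring
      rw [this, Real.rpow_one]
    have e2 : P ^ (1 / p) * P ^ (1 / q) ≤ C * Q ^ (1 / p) * P ^ (1 / q) := by
      rw [← e1]; exact h5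
    exact le_of_mul_le_mul_right e2 (Real.rpow_pos_of_pos hPpos _)
  have h7 := Real.rpow_le_rpow (Real.rpow_nonneg hP0 _) h6 hp0.le
  rw [Real.mul_rpow hC0.le (Real.rpow_nonneg hQ0 _), ← Real.rpow_mul hP0, ← Real.rpow_mul hQ0,
    one_div_mul_cancel hp0.ne', Real.rpow_one, Real.rpow_one] at h7
  exact h7

/-- E2: the finite inequality, uniform over all finite `V` and all `ρ`. -/
theorem synth_Lp (p : ℝ) (hp : 1 < p) : ∃ C : ℝ, 1 ≤ C ∧
    ∀ (V : Type) [Fintype V] [LinearOrder V] (ρ : V → V → ℕ) (_ : RhoFun ρ)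
      (a0 ε0 : ℝ) (a ε : V → ℝ) (c η : V → V → (V → Bool) → ℝ)
      (_ : ∀ β x, DependsOn (c β x) (prec ρ β x : Set V))
      (_ : ∀ β x, DependsOn (η β x) (prec ρ β x : Set V))
      (_ : |ε0| ≤ 1) (_ : ∀ β, |ε β| ≤ 1) (_ : ∀ β x y, |η β x y| ≤ 1),
      av (fun y => |synth (ε0 * a0) (fun β => ε β * a β) (fun β x y => η β x y * c β x y) y| ^ p)
        ≤ C ^ p * av (fun y => |synth a0 a c y| ^ p) := by
  rcases lt_trichotomy p 2 with h | h | h
  · exact synth_Lp_lt p hp h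
  · subst h
    exact synth_Lp_two
  · exact synth_Lp_gt p h

end Pool.Agent.LpBasis
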