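import Pool.Agent.Hhelper27.LpBasis.Basic

/-!
Expansion of functions on the cube in the Haar type system, orthogonality and uniqueness of the
coefficients.
-/

set_option autoImplicit false

namespace Pool.Agent.LpBasis.Syn

open Finset

set_option linter.unusedSectionVars false

section step

variable {V : Type*} [Fintype V] [DecidableEq V]

theorem sg_mul_self (b : Bool) : sg b * sg b = 1 := by
  cases b <;> simp [sg]

theorem sg_sq (b : Bool) : sg b ^ 2 = 1 := by
  rw [sq, sg_mul_self]

theorem abs_sg (b : Bool) : |sg b| = 1 := by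
  cases b <;> simp [sg]

theorem dependsOn_sg (a : V) {F : Set V} (h : a ∈ F) :
    DependsOn (fun y : V → Bool => sg (y a)) F := by
  intro x y hxy
  simp only [hxy a h]

theorem dependsOn_mul {F : Set V} {f g : (V → Bool) → ℝ} (hf : DependsOn f F)
    (hg : DependsOn g F) : DependsOn (fun y => f y * g y) F := by
  intro x y hxy
  simp only [hf hxy, hg hxy]

theorem dependsOn_add {F : Set V} {f g : (V → Bool) → ℝ} (hf : DependsOn f F)
    (hg : DependsOn g F) : DependsOn (fun y => f y + g y) F := by
  intro x y hxy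
  simp only [hf hxy, hg hxy]

theorem dependsOn_sum {κ : Type*} {F : Set V} (s : Finset κ) {f : κ → (V → Bool) → ℝ}
    (hf : ∀ k ∈ s, DependsOn (f k) F) : DependsOn (fun y => ∑ k ∈ s, f k y) F := by
  intro x y hxy
  exact Finset.sum_congr rfl (fun k hk => hf k hk hxy)

theorem dependsOn_monoS {F G : Set V} {f : (V → Bool) → ℝ} (hf : DependsOn f F) (h : F ⊆ G) :
    DependsOn f G := by
  intro x y hxy
  exact hf (fun i hi => hxy i (h hi))

theorem dependsOn_cst (c : ℝ) (F : Set V) : DependsOn (fun _ : V → Bool => c) F := by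
  intro x y _
  rfl

/-- adding one coordinate -/
theorem ce_insert {F : Finset V} {a : V} (ha : a ∉ F) (f : (V → Bool) → ℝ) (x : V → Bool) :
    ce (insert a F) f x = ce F f x + sg (x a) * ce F (fun y => sg (y a) * f y) x := by
  have h1 := ce_eq_half ha f x
  have h2 := ce_eq_half ha (fun y => sg (y a) * f y) x
  have h3 : ce (insert a F) (fun y => sg (y a) * f y) = fun y => sg (y a) * ce (insert a F) f y :=
    ce_mul_left (dependsOn_sg a (by simp)) f
  rw [h3] at h2
  simp only [Function.update_self] at h2
  rw [h1, h2]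
  cases hx : x a
  · have h4 : Function.update x a false = x := by
      rw [← hx]; exact Function.update_eq_self a x
    rw [h4]
    simp only [sg, if_true, Bool.false_eq_true, if_false]
    ring
  · have h4 : Function.update x a true = x := by
      rw [← hx]; exact Function.update_eq_self a x
    rw [h4]
    simp only [sg, if_true, Bool.false_eq_true, if_false]
    ring

theorem ce_sg {K : Finset V} {a : V} (ha : a ∉ K) :
    ce K (fun y : V → Bool => sg (y a)) = fun _ => 0 := by
  funext x
  rw [ce_eq_half ha]
  have h : ce (insert a K) (fun y : V → Bool => sg (y a)) = fun y => sg (y a) :=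
    ce_of_dependsOn (dependsOn_sg a (by simp))
  rw [h]
  simp [sg]

theorem ce_sg_mul {F G : Finset V} {a : V} (hF : a ∉ F) (hG : a ∉ G) {g : (V → Bool) → ℝ}
    (hg : DependsOn g (G : Set V)) : ce F (fun y => sg (y a) * g y) = fun _ => 0 := by
  have h1 : ce F (fun y => sg (y a) * g y) = ce F (ce (F ∪ G) (fun y => sg (y a) * g y)) := by
    rw [ce_ce, Finset.inter_eq_left.2 Finset.subset_union_left]
  have h2 : ce (F ∪ G) (fun y => sg (y a) * g y) = fun _ => 0 := by
    have h3 : (fun y => sg (y a) * g y) = fun y : V → Bool => g y * sg (y a) := by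
      funext y; ring
    rw [h3, ce_mul_left (dependsOn_monoS hg (by simp))]
    rw [ce_sg (by simp [hF, hG])]
    simp
  rw [h1, h2, ce_const]

theorem av_sg_mul {G : Finset V} {a : V} (hG : a ∉ G) {g : (V → Bool) → ℝ}
    (hg : DependsOn g (G : Set V)) : av (fun y => sg (y a) * g y) = 0 := by
  have h := congrFun (ce_sg_mul (F := ∅) (by simp) hG hg) (fun _ => false)
  rw [ce_empty] at h
  exact h

/-- expansion along a chain of finite sets -/
theorem ce_chain {α : Type*} [LinearOrder α] (S : Finset V) (rk : V → α)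
    (hrk : Set.InjOn rk (S : Set V)) (h : (V → Bool) → ℝ) (x : V → Bool) :
    ce S h x = av h + ∑ v ∈ S, sg (x v) *
      ce (S.filter (fun y => rk y < rk v)) (fun y => sg (y v) * h y) x := by
  revert hrk
  refine Finset.induction_on_max_value (motive := fun S => Set.InjOn rk (S : Set V) →
    ce S h x = av h + ∑ v ∈ S, sg (x v) *
      ce (S.filter (fun y => rk y < rk v)) (fun y => sg (y v) * h y) x) rk S ?_ ?_
  · intro _
    rw [ce_empty]
    simp
  · intro a s has hmax ih hinj
    have hinj' : Set.InjOn rk (s : Set V) := hinj.mono (by simp)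
    have hlt : ∀ y ∈ s, rk y < rk a := by
      intro y hy
      refine lt_of_le_of_ne (hmax y hy) (fun he => ?_)
      have : y = a := hinj (by simp [hy]) (by simp) he
      exact has (this ▸ hy)
    rw [ce_insert has, ih hinj', Finset.sum_insert has]
    have h1 : (insert a s).filter (fun y => rk y < rk a) = s := by
      rw [Finset.filter_insert, if_neg (lt_irrefl _)]
      exact Finset.filter_true_of_mem hlt
    have h2 : ∀ v ∈ s, (insert a s).filter (fun y => rk y < rk v) =
        s.filter (fun y => rk y < rk v) := by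
      intro v hv
      rw [Finset.filter_insert, if_neg (not_lt.2 (hmax v hv))]
    have h3 : ∑ v ∈ s, sg (x v) *
          ce ((insert a s).filter (fun y => rk y < rk v)) (fun y => sg (y v) * h y) x =
        ∑ v ∈ s, sg (x v) *
          ce (s.filter (fun y => rk y < rk v)) (fun y => sg (y v) * h y) x :=
      Finset.sum_congr rfl (fun v hv => by rw [h2 v hv])
    rw [h1, h3]
    ring

/-- uniqueness of the coefficients along a chain: mean value -/
theorem av_chain {α : Type*} [LinearOrder α] (S : Finset V) (rk : V → α)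
    (a0 : ℝ) (F : V → (V → Bool) → ℝ)
    (hF : ∀ v ∈ S, DependsOn (F v) ((S.filter (fun y => rk y < rk v) : Finset V) : Set V)) :
    av (fun x => a0 + ∑ v ∈ S, sg (x v) * F v x) = a0 := by
  rw [av_add, av_const, av_sum]
  rw [Finset.sum_eq_zero, add_zero]
  intro v hv
  exact av_sg_mul (G := S.filter (fun y => rk y < rk v)) (by simp) (hF v hv)

/-- uniqueness of the coefficients along a chain -/
theorem coef_chain {α : Type*} [LinearOrder α] (S : Finset V) (rk : V → α)
    (hrk : Set.InjOn rk (S : Set V)) (a0 : ℝ) (F : V → (V → Bool) → ℝ)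
    (hF : ∀ v ∈ S, DependsOn (F v) ((S.filter (fun y => rk y < rk v) : Finset V) : Set V))
    {v : V} (hv : v ∈ S) :
    ce (S.filter (fun y => rk y < rk v))
      (fun y => sg (y v) * (a0 + ∑ u ∈ S, sg (y u) * F u y)) = F v := by
  set G := S.filter (fun y => rk y < rk v) with hG
  have hvG : v ∉ G := by simp [hG]
  have h1 : (fun y : V → Bool => sg (y v) * (a0 + ∑ u ∈ S, sg (y u) * F u y)) =
      fun y => sg (y v) * a0 + ∑ u ∈ S, sg (y v) * (sg (y u) * F u y) := by
    funext y
    rw [mul_add, Finset.mul_sum]
  rw [h1, ce_add]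
  have h2 : ce G (fun y : V → Bool => sg (y v) * a0) = fun _ => 0 :=
    ce_sg_mul hvG hvG (dependsOn_cst a0 _)
  have h3 : ce G (fun y => ∑ u ∈ S, sg (y v) * (sg (y u) * F u y)) = F v := by
    rw [ce_sum]
    funext x
    rw [Finset.sum_eq_single_of_mem v hv]
    · have h4 : (fun y : V → Bool => sg (y v) * (sg (y v) * F v y)) = F v := by
        funext y
        rw [← mul_assoc, sg_mul_self, one_mul]
      rw [h4, ce_of_dependsOn (hF v hv)]
    · intro u hu huv
      rcases lt_trichotomy (rk u) (rk v) with h | h | h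
      · have huG : u ∈ G := by simp [hG, hu, h]
        have hsub : S.filter (fun y => rk y < rk u) ⊆ G := by
          intro y hy
          simp only [Finset.mem_filter, hG] at hy ⊢
          exact ⟨hy.1, hy.2.trans h⟩
        have h5 := ce_sg_mul hvG hvG (g := fun y => sg (y u) * F u y)
          (dependsOn_mul (dependsOn_sg u (by simpa using huG))
            (dependsOn_monoS (hF u hu) (by exact_mod_cast hsub)))
        rw [h5]
      · exact absurd (hrk hu hv h) huv
      · have huG : u ∉ G := by
          simp only [Finset.mem_filter, hG, not_and]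
          intro _ h'
          exact absurd h' (not_lt.2 h.le)
        have h6 : (fun y : V → Bool => sg (y v) * (sg (y u) * F u y)) =
            fun y => sg (y u) * (sg (y v) * F u y) := by
          funext y; ring
        have h5 := ce_sg_mul (F := G) (G := S.filter (fun y => rk y < rk u)) (a := u) huG (by simp)
          (g := fun y => sg (y v) * F u y)
          (dependsOn_mul (dependsOn_sg v (by simp [hv, h])) (hF u hu))
        rw [h6, h5]
  rw [h2, h3]
  simp

end step

section synth

variable {V : Type*} [Fintype V] [LinearOrder V]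

/-- the coefficient function of `r_β` in the natural filtration -/
noncomputable def coefN (β : V) (g : (V → Bool) → ℝ) : (V → Bool) → ℝ :=
  ce (univ.filter (fun y => y < β)) (fun y => sg (y β) * g y)

/-- the coefficient of `r_β` -/
noncomputable def coefA (β : V) (g : (V → Bool) → ℝ) : ℝ := av (coefN β g)

/-- the coefficient function of `r_β r_x` -/
noncomputable def coefC (ρ : V → V → ℕ) (β x : V) (g : (V → Bool) → ℝ) : (V → Bool) → ℝ :=
  ce (prec ρ β x) (fun y => sg (y x) * coefN β g y)

theorem prec_eq (ρ : V → V → ℕ) (β x : V) :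
    prec ρ β x = (univ.filter (fun y => y < β)).filter (fun y => ρ y β < ρ x β) := by
  rw [prec, Finset.filter_filter]

theorem prec_subset (ρ : V → V → ℕ) (β x : V) : prec ρ β x ⊆ univ.filter (fun y => y < β) := by
  rw [prec_eq]
  exact Finset.filter_subset _ _

theorem notMem_prec (ρ : V → V → ℕ) (β x : V) : x ∉ prec ρ β x := by
  simp [prec]

theorem rho_injOn {ρ : V → V → ℕ} (hρ : RhoFun ρ) (β : V) :
    Set.InjOn (fun y => ρ y β) ((univ.filter (fun y => y < β) : Finset V) : Set V) := by
  intro x hx y hy h
  simp only [Finset.coe_filter, Finset.mem_univ, true_and, Set.mem_ofPred_eq] at hx hy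
  exact hρ.inj x y β hx hy h

theorem dependsOn_coefN (β : V) (g : (V → Bool) → ℝ) :
    DependsOn (coefN β g) ((univ.filter (fun y => y < β) : Finset V) : Set V) :=
  dependsOn_ce _ _

theorem dependsOn_coefC (ρ : V → V → ℕ) (β x : V) (g : (V → Bool) → ℝ) :
    DependsOn (coefC ρ β x g) (prec ρ β x : Set V) :=
  dependsOn_ce _ _

/-- the coefficient function of `r_β`, from the coefficients -/
theorem coefN_eq {ρ : V → V → ℕ} (hρ : RhoFun ρ) (β : V) (g : (V → Bool) → ℝ) (ω : V → Bool) :
    coefN β g ω = coefA β g +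
      ∑ x ∈ univ.filter (fun x => x < β), sg (ω x) * coefC ρ β x g ω := by
  have h1 : ce (univ.filter (fun y => y < β)) (coefN β g) = coefN β g :=
    ce_of_dependsOn (dependsOn_coefN β g)
  have h2 := ce_chain (univ.filter (fun y => y < β)) (fun y => ρ y β) (rho_injOn hρ β)
    (coefN β g) ω
  rw [h1] at h2
  rw [h2, coefA]
  congr 1
  refine Finset.sum_congr rfl (fun x _ => ?_)
  rw [coefC, prec_eq]

/-- the expansion lemma -/
theorem synth_coef {ρ : V → V → ℕ} (hρ : RhoFun ρ) (g : (V → Bool) → ℝ) :
    synth (av g) (fun β => coefA β g) (fun β x => coefC ρ β x g) = g := by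
  funext ω
  have h2 := ce_chain (univ : Finset V) (fun y => y) (fun _ _ _ _ h => h) g ω
  rw [ce_univ] at h2
  rw [h2, synth]
  congr 1
  refine Finset.sum_congr rfl (fun β _ => ?_)
  rw [← coefN_eq hρ β g ω, coefN]

/-- the function with which `r_β` is multiplied -/
noncomputable def inner (a : V → ℝ) (c : V → V → (V → Bool) → ℝ) (β : V) (ω : V → Bool) : ℝ :=
  a β + ∑ x ∈ univ.filter (fun x => x < β), sg (ω x) * c β x ω

theorem synth_eq (a0 : ℝ) (a : V → ℝ) (c : V → V → (V → Bool) → ℝ) :
    synth a0 a c = fun ω => a0 + ∑ β, sg (ω β) * inner a c β ω := rfl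

theorem dependsOn_inner {ρ : V → V → ℕ} (a : V → ℝ) {c : V → V → (V → Bool) → ℝ}
    (hc : ∀ β x, DependsOn (c β x) (prec ρ β x : Set V)) (β : V) :
    DependsOn (inner a c β) ((univ.filter (fun y => y < β) : Finset V) : Set V) := by
  unfold inner
  refine dependsOn_add (dependsOn_cst _ _) (dependsOn_sum _ (fun x hx => ?_))
  refine dependsOn_mul (dependsOn_sg x (by simpa using hx)) ?_
  exact dependsOn_monoS (hc β x) (by exact_mod_cast prec_subset ρ β x)

theorem av_synth {ρ : V → V → ℕ} (a0 : ℝ) (a : V → ℝ) {c : V → V → (V → Bool) → ℝ}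
    (hc : ∀ β x, DependsOn (c β x) (prec ρ β x : Set V)) : av (synth a0 a c) = a0 := by
  rw [synth_eq]
  exact av_chain univ (fun y => y) a0 (inner a c) (fun β _ => dependsOn_inner a hc β)

theorem coefN_synth {ρ : V → V → ℕ} (a0 : ℝ) (a : V → ℝ) {c : V → V → (V → Bool) → ℝ}
    (hc : ∀ β x, DependsOn (c β x) (prec ρ β x : Set V)) (β : V) :
    coefN β (synth a0 a c) = inner a c β := by
  rw [synth_eq, coefN]
  exact coef_chain univ (fun y => y) (fun _ _ _ _ h => h) a0 (inner a c)
    (fun β _ => dependsOn_inner a hc β) (Finset.mem_univ β)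

theorem coefA_synth {ρ : V → V → ℕ} (a0 : ℝ) (a : V → ℝ) {c : V → V → (V → Bool) → ℝ}
    (hc : ∀ β x, DependsOn (c β x) (prec ρ β x : Set V)) (β : V) :
    coefA β (synth a0 a c) = a β := by
  rw [coefA, coefN_synth a0 a hc]
  have h := av_chain (univ.filter (fun y => y < β)) (fun y => ρ y β) (a β) (fun x => c β x)
    (fun x _ => by rw [← prec_eq]; exact hc β x)
  exact h

theorem coefC_synth {ρ : V → V → ℕ} (hρ : RhoFun ρ) (a0 : ℝ) (a : V → ℝ)
    {c : V → V → (V → Bool) → ℝ} (hc : ∀ β x, DependsOn (c β x) (prec ρ β x : Set V)) {β x : V}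
    (hx : x < β) : coefC ρ β x (synth a0 a c) = c β x := by
  rw [coefC, coefN_synth a0 a hc, prec_eq]
  have h := coef_chain (univ.filter (fun y => y < β)) (fun y => ρ y β) (rho_injOn hρ β) (a β)
    (fun x => c β x) (fun x _ => by rw [← prec_eq]; exact hc β x) (v := x) (by simpa using hx)
  exact h

/-- orthogonality -/
theorem av_synth_mul {ρ : V → V → ℕ} (a0 : ℝ) (a : V → ℝ)
    {c : V → V → (V → Bool) → ℝ} (hc : ∀ β x, DependsOn (c β x) (prec ρ β x : Set V))
    (g : (V → Bool) → ℝ) :
    av (fun y => synth a0 a c y * g y) = a0 * av g + ∑ β, (a β * coefA β g +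
      ∑ x ∈ univ.filter (fun x => x < β), av (fun y => c β x y * coefC ρ β x g y)) := by
  have h1 : (fun y => synth a0 a c y * g y) =
      fun y => a0 * g y + ∑ β, inner a c β y * (sg (y β) * g y) := by
    funext y
    rw [synth_eq]
    simp only
    rw [add_mul, Finset.sum_mul]
    congr 1
    refine Finset.sum_congr rfl (fun β _ => by ring)
  rw [h1, av_add, av_const_mul, av_sum]
  congr 1
  refine Finset.sum_congr rfl (fun β _ => ?_)
  have h2 : av (fun y => inner a c β y * (sg (y β) * g y)) =
      av (fun y => inner a c β y * coefN β g y) := by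
    rw [← av_ce (univ.filter (fun y => y < β)) (fun y => inner a c β y * (sg (y β) * g y)),
      ce_mul_left (dependsOn_inner a hc β)]
    rfl
  have h3 : (fun y => inner a c β y * coefN β g y) = fun y => a β * coefN β g y +
      ∑ x ∈ univ.filter (fun x => x < β), c β x y * (sg (y x) * coefN β g y) := by
    funext y
    rw [inner, add_mul, Finset.sum_mul]
    congr 1
    refine Finset.sum_congr rfl (fun x _ => by ring)
  rw [h2, h3, av_add, av_const_mul, av_sum, coefA]
  congr 1
  refine Finset.sum_congr rfl (fun x _ => ?_)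
  rw [← av_ce (prec ρ β x) (fun y => c β x y * (sg (y x) * coefN β g y)), ce_mul_left (hc β x)]
  rfl

/-- symmetry of the multipliers -/
theorem av_mult_symm {ρ : V → V → ℕ} (hρ : RhoFun ρ) (a0 ε0 : ℝ) (a ε : V → ℝ)
    {c η : V → V → (V → Bool) → ℝ} (hc : ∀ β x, DependsOn (c β x) (prec ρ β x : Set V))
    (hη : ∀ β x, DependsOn (η β x) (prec ρ β x : Set V)) (g : (V → Bool) → ℝ) :
    av (fun y => synth (ε0 * a0) (fun β => ε β * a β) (fun β x y => η β x y * c β x y) y * g y) =
    av (fun y => synth a0 a c y *
      synth (ε0 * av g) (fun β => ε β * coefA β g) (fun β x y => η β x y * coefC ρ β x g y) y) := by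
  rw [av_synth_mul (ρ := ρ) _ _ (fun β x => dependsOn_mul (hη β x) (hc β x))]
  have h1 : (fun y => synth a0 a c y *
      synth (ε0 * av g) (fun β => ε β * coefA β g)
        (fun β x y => η β x y * coefC ρ β x g y) y) = fun y =>
      synth (ε0 * av g) (fun β => ε β * coefA β g)
        (fun β x y => η β x y * coefC ρ β x g y) y * synth a0 a c y := by
    funext y; ring
  rw [h1, av_synth_mul (ρ := ρ) _ _ (fun β x => dependsOn_mul (hη β x) (dependsOn_coefC ρ β x g)),
    av_synth (ρ := ρ) a0 a hc]
  congr 1
  · ring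
  refine Finset.sum_congr rfl (fun β _ => ?_)
  rw [coefA_synth (ρ := ρ) a0 a hc]
  congr 1
  · ring
  refine Finset.sum_congr rfl (fun x hx => ?_)
  rw [coefC_synth hρ a0 a hc (by simpa using hx)]
  congr 1
  funext y
  ring

end synth

end Pool.Agent.LpBasis.Syn
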