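import Pool.Agent.Hhelper27.LpBasis.Moments

/-!
The two-weight lemma (from the covering lemma) and the existence of `A_2` majorants.
-/

set_option autoImplicit false
set_option linter.unusedSectionVars false

namespace Pool.Agent.LpBasis

open Finset

/-- geometric sum up to a height -/
theorem tw_geom {b : ℝ} (hb : 1 < b) {θ : ℝ} (hθ : 0 < θ) (hbθ : b = 2 ^ θ) (t : ℝ) (ht : 0 < t)
    (n : ℕ) :
    ∑ i ∈ range n, b ^ i * (if (2 : ℝ) ^ i ≤ t then 1 else 0) ≤ b / (b - 1) * t ^ θ := by
  have hb1 : 0 < b - 1 := by linarith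
  have hb0 : 0 < b := by linarith
  have htθ : 0 < t ^ θ := Real.rpow_pos_of_pos ht θ
  have hpow : ∀ i : ℕ, b ^ i = ((2 : ℝ) ^ i) ^ θ := by
    intro i
    rw [hbθ, ← Real.rpow_natCast, ← Real.rpow_mul (by norm_num), ← Real.rpow_natCast,
      ← Real.rpow_mul (by norm_num), mul_comm]
  by_cases h1 : 1 ≤ t
  · obtain ⟨m, hm1, hm2⟩ := exists_nat_pow_near h1 (by norm_num : (1 : ℝ) < 2)
    have hle : ∑ i ∈ range n, b ^ i * (if (2 : ℝ) ^ i ≤ t then 1 else 0) ≤
        ∑ i ∈ range (m + 1), b ^ i := by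
      have e1 : ∑ i ∈ range n, b ^ i * (if (2 : ℝ) ^ i ≤ t then 1 else 0) =
          ∑ i ∈ (range n).filter (fun i => (2 : ℝ) ^ i ≤ t), b ^ i := by
        rw [Finset.sum_filter]
        apply Finset.sum_congr rfl
        intro i _
        split_ifs <;> simp
      rw [e1]
      apply Finset.sum_le_sum_of_subset_of_nonneg
      · intro i hi
        rw [Finset.mem_filter] at hi
        rw [Finset.mem_range]
        by_contra hc
        push Not at hc
        have : (2 : ℝ) ^ (m + 1) ≤ 2 ^ i := pow_le_pow_right₀ (by norm_num) hc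
        linarith [hi.2]
      · intro i _ _
        positivity
    refine hle.trans ?_
    rw [geom_sum_eq (by linarith : b ≠ 1)]
    have : b ^ m ≤ t ^ θ := by
      rw [hpow]
      exact Real.rpow_le_rpow (by positivity) hm1 hθ.le
    rw [div_mul_eq_mul_div]
    apply div_le_div_of_nonneg_right _ hb1.le
    rw [pow_succ]
    nlinarith
  · have : ∑ i ∈ range n, b ^ i * (if (2 : ℝ) ^ i ≤ t then 1 else 0) = 0 := by
      apply Finset.sum_eq_zero
      intro i _
      have : ¬ ((2 : ℝ) ^ i ≤ t) := by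
        push Not at h1 ⊢
        exact lt_of_lt_of_le h1 (one_le_pow₀ (by norm_num))
      simp [this]
    rw [this]
    positivity

theorem tw_sum6 (n : ℕ) : ∑ j ∈ range n, (1 + 2 * (j : ℝ)) * (1 / 2) ^ j ≤ 6 := by
  have h : ∑ j ∈ range n, (1 + 2 * (j : ℝ)) * (1 / 2) ^ j = 6 - (4 * (n : ℝ) + 6) * (1 / 2) ^ n := by
    induction n with
    | zero => simp
    | succ n ih =>
      rw [Finset.sum_range_succ, ih, pow_succ]
      push_cast
      ring
  rw [h]
  have : 0 ≤ (4 * (n : ℝ) + 6) * (1 / 2) ^ n := by positivity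
  linarith

theorem tw_sum4 (n : ℕ) : ∑ j ∈ range n, (2 : ℝ) ^ (j + 1) * (1 / 4) ^ j ≤ 4 := by
  have h : ∀ j : ℕ, (2 : ℝ) ^ (j + 1) * (1 / 4) ^ j = 2 * (1 / 2) ^ j := by
    intro j
    rw [pow_succ, mul_assoc, mul_comm (2 : ℝ) ((1 / 4) ^ j), ← mul_assoc, ← mul_pow]
    norm_num
    ring
  simp only [h]
  rw [← Finset.mul_sum]
  have : ∑ j ∈ range n, (1 / 2 : ℝ) ^ j ≤ 2 := by
    have h2 : ∑ j ∈ range n, (1 / 2 : ℝ) ^ j = 2 - 2 * (1 / 2) ^ n := by
      induction n with
      | zero => simp
      | succ n ih => rw [Finset.sum_range_succ, ih, pow_succ]; ring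
    rw [h2]
    have : 0 < (1 / 2 : ℝ) ^ n := by positivity
    linarith
  linarith

section core
variable {V : Type*} [Fintype V] [DecidableEq V]

/-- the core of the two-weight lemma, for a weight `≥ 1` and abstract conditional
expectations -/
theorem tw_core {s r c : ℝ} (hr : 1 < r) (hrs : r < s) (hc : 0 < c) (P : ℕ → Finset V) (N : ℕ)
    (hcov : ∀ (w : (V → Bool) → ℝ) (_ : ∀ x, 0 ≤ w x) (lam η : ℝ) (_ : 0 < lam) (_ : 0 < η)
      (_ : η ≤ 1), ∃ u : (V → Bool) → ℝ, (∀ x, u x = 0 ∨ u x = 1) ∧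
        av (fun x => 1 - u x) ≤ c * (1 + Real.log (1 / η)) * (av (fun x => w x ^ r) / lam ^ r) ∧
        ∀ j < N, ∀ x, lam ≤ ce (P j) w x → ce (P j) u x ≤ η)
    (w1 : (V → Bool) → ℝ) (h1 : ∀ x, 1 ≤ w1 x) :
    ∃ W : (V → Bool) → ℝ, (∀ x, 0 < W x) ∧ (∀ x, av w1 ≤ W x) ∧
      av (fun x => W x ^ s) ≤ 2 ^ s * ((10 : ℝ) ^ s * c * 2 ^ r * 6 *
        ((2 : ℝ) ^ (s - r) / (2 ^ (s - r) - 1) * 2 ^ (s - r)) * av (fun x => w1 x ^ s) +
          (av w1) ^ s) ∧
      ∀ j < N, ∀ x, ce (P j) w1 x * ce (P j) (fun y => (W y)⁻¹) x ≤ 1 := by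
  have hs0 : 0 < s := by linarith
  have hr0 : 0 < r := by linarith
  have hw0 : ∀ x, 0 < w1 x := fun x => lt_of_lt_of_le one_pos (h1 x)
  -- truncations
  set wt : ℕ → (V → Bool) → ℝ := fun i x => if (2 : ℝ) ^ i / 2 ≤ w1 x then w1 x else 0 with hwt
  have hwt0 : ∀ i x, 0 ≤ wt i x := by
    intro i x
    simp only [hwt]
    split_ifs
    · exact (hw0 x).le
    · exact le_rfl
  choose! u hu01 huav hucov using fun (i j : ℕ) => hcov (wt i) (hwt0 i) ((2 : ℝ) ^ i / 2)
    ((1 / 4 : ℝ) ^ j) (by positivity) (by positivity) (pow_le_one₀ (by norm_num) (by norm_num))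
  -- sizes
  obtain ⟨I, hI⟩ : ∃ I : ℕ, ∀ x, w1 x < 2 ^ I := by
    obtain ⟨x0, hx0⟩ := Finite.exists_max w1
    obtain ⟨I, hI⟩ := pow_unbounded_of_one_lt (w1 x0) (by norm_num : (1 : ℝ) < 2)
    exact ⟨I, fun x => lt_of_le_of_lt (hx0 x) hI⟩
  set J : ℕ := Fintype.card V + 1 with hJ
  set W0 : (V → Bool) → ℝ := fun y => ∑ i ∈ range I, ∑ j ∈ range (J + 1),
    (10 * 2 ^ i * (1 / 2) ^ j : ℝ) ^ s * (1 - u i j y) with hW0
  have h1u : ∀ i j y, 0 ≤ 1 - u i j y := by
    intro i j y
    rcases hu01 i j y with h | h <;> rw [h] <;> norm_num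
  have hW00 : ∀ y, 0 ≤ W0 y := by
    intro y
    apply Finset.sum_nonneg
    intro i _
    apply Finset.sum_nonneg
    intro j _
    exact mul_nonneg (Real.rpow_nonneg (by positivity) _) (h1u i j y)
  have hm : 0 < av w1 := av_pos hw0
  refine ⟨fun y => W0 y ^ (1 / s) + av w1, ?_, ?_, ?_, ?_⟩
  · intro x
    have : 0 ≤ W0 x ^ (1 / s) := Real.rpow_nonneg (hW00 x) _
    linarith
  · intro x
    have : 0 ≤ W0 x ^ (1 / s) := Real.rpow_nonneg (hW00 x) _
    linarith
  · -- norm
    have hpt : ∀ x, (W0 x ^ (1 / s) + av w1) ^ s ≤ 2 ^ s * (W0 x + av w1 ^ s) := by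
      intro x
      have ha : 0 ≤ W0 x ^ (1 / s) := Real.rpow_nonneg (hW00 x) _
      have hWs : (W0 x ^ (1 / s)) ^ s = W0 x := by
        rw [← Real.rpow_mul (hW00 x), one_div, inv_mul_cancel₀ hs0.ne', Real.rpow_one]
      have hmx : W0 x ^ (1 / s) + av w1 ≤ 2 * max (W0 x ^ (1 / s)) (av w1) := by
        have := le_max_left (W0 x ^ (1 / s)) (av w1)
        have := le_max_right (W0 x ^ (1 / s)) (av w1)
        linarith
      have hmx0 : 0 ≤ max (W0 x ^ (1 / s)) (av w1) := le_max_of_le_left ha
      calc (W0 x ^ (1 / s) + av w1) ^ s ≤ (2 * max (W0 x ^ (1 / s)) (av w1)) ^ s :=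
            Real.rpow_le_rpow (by linarith) hmx hs0.le
        _ = 2 ^ s * (max (W0 x ^ (1 / s)) (av w1)) ^ s := Real.mul_rpow (by norm_num) hmx0
        _ ≤ 2 ^ s * (W0 x + av w1 ^ s) := by
            apply mul_le_mul_of_nonneg_left _ (by positivity)
            rcases max_cases (W0 x ^ (1 / s)) (av w1) with h | h
            · rw [h.1, hWs]
              have : 0 ≤ av w1 ^ s := by positivity
              linarith
            · rw [h.1]
              have := hW00 x
              linarith
    refine (av_mono hpt).trans ?_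
    rw [av_const_mul, av_add, av_const]
    apply mul_le_mul_of_nonneg_left _ (by positivity)
    have hgoal : av W0 ≤ (10 : ℝ) ^ s * c * 2 ^ r * 6 *
        ((2 : ℝ) ^ (s - r) / (2 ^ (s - r) - 1) * 2 ^ (s - r)) * av (fun x => w1 x ^ s) := by
      set θ := s - r with hθ
      have hθ0 : 0 < θ := by rw [hθ]; linarith
      set b : ℝ := 2 ^ θ with hb
      have hb1 : 1 < b := Real.one_lt_rpow (by norm_num) hθ0
      have e1 : av W0 = ∑ i ∈ range I, ∑ j ∈ range (J + 1),
          (10 * 2 ^ i * (1 / 2) ^ j : ℝ) ^ s * av (fun y => 1 - u i j y) := by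
        rw [hW0, av_sum]
        apply Finset.sum_congr rfl
        intro i _
        rw [av_sum]
        apply Finset.sum_congr rfl
        intro j _
        exact av_const_mul _ _
      rw [e1]
      -- bound of one term
      have hterm : ∀ i j : ℕ, (10 * 2 ^ i * (1 / 2) ^ j : ℝ) ^ s * av (fun y => 1 - u i j y) ≤
          (10 ^ s * c * 2 ^ r * ((1 + 2 * (j : ℝ)) * (1 / 2) ^ j)) *
            (b ^ i * av (fun x => wt i x ^ r)) := by
        intro i j
        have hlog : Real.log (1 / (1 / 4 : ℝ) ^ j) ≤ 2 * (j : ℝ) := by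
          rw [one_div, ← inv_pow, Real.log_pow]
          have : Real.log ((1 / 4 : ℝ)⁻¹) ≤ 2 := by
            have h4 : ((1 / 4 : ℝ)⁻¹) = 2 ^ (2 : ℕ) := by norm_num
            rw [h4, Real.log_pow]
            have := Real.log_two_lt_d9
            push_cast
            linarith
          have hj : (0 : ℝ) ≤ j := Nat.cast_nonneg j
          nlinarith
        have ha : 0 ≤ av (fun x => wt i x ^ r) := av_nonneg fun x => Real.rpow_nonneg (hwt0 i x) _
        have hb0 : av (fun y => 1 - u i j y) ≤ c * (1 + 2 * (j : ℝ)) *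
            (av (fun x => wt i x ^ r) / ((2 : ℝ) ^ i / 2) ^ r) := by
          refine (huav i j).trans ?_
          apply mul_le_mul_of_nonneg_right _ (div_nonneg ha (by positivity))
          apply mul_le_mul_of_nonneg_left _ hc.le
          linarith
        have e2 : (10 * 2 ^ i * (1 / 2) ^ j : ℝ) ^ s =
            10 ^ s * ((2 : ℝ) ^ i) ^ s * ((1 / 2 : ℝ) ^ j) ^ s := by
          rw [Real.mul_rpow (by positivity) (by positivity),
            Real.mul_rpow (by positivity) (by positivity)]
        have e3 : ((1 / 2 : ℝ) ^ j) ^ s ≤ (1 / 2 : ℝ) ^ j := by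
          have h0 : (0 : ℝ) < (1 / 2 : ℝ) ^ j := by positivity
          have h1' : (1 / 2 : ℝ) ^ j ≤ 1 := pow_le_one₀ (by norm_num) (by norm_num)
          calc ((1 / 2 : ℝ) ^ j) ^ s ≤ ((1 / 2 : ℝ) ^ j) ^ (1 : ℝ) :=
                Real.rpow_le_rpow_of_exponent_ge h0 h1' (by linarith)
            _ = (1 / 2 : ℝ) ^ j := Real.rpow_one _
        have e4 : ((2 : ℝ) ^ i / 2) ^ r = ((2 : ℝ) ^ i) ^ r / 2 ^ r :=
          Real.div_rpow (by positivity) (by norm_num) r
        have e5 : b ^ i = ((2 : ℝ) ^ i) ^ s / ((2 : ℝ) ^ i) ^ r := by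
          rw [← Real.rpow_sub (by positivity), hb, ← Real.rpow_natCast, ← Real.rpow_mul (by norm_num),
            ← Real.rpow_natCast, ← Real.rpow_mul (by norm_num), mul_comm, hθ]
        calc (10 * 2 ^ i * (1 / 2) ^ j : ℝ) ^ s * av (fun y => 1 - u i j y)
            ≤ (10 ^ s * ((2 : ℝ) ^ i) ^ s * (1 / 2 : ℝ) ^ j) * (c * (1 + 2 * (j : ℝ)) *
            (av (fun x => wt i x ^ r) / ((2 : ℝ) ^ i / 2) ^ r)) := by
              rw [e2]
              apply mul_le_mul _ hb0 (av_nonneg (h1u i j)) (by positivity)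
              exact mul_le_mul_of_nonneg_left e3 (by positivity)
          _ = (10 ^ s * c * 2 ^ r * ((1 + 2 * (j : ℝ)) * (1 / 2) ^ j)) *
            (b ^ i * av (fun x => wt i x ^ r)) := by
              rw [e4, e5]
              field_simp
      calc ∑ i ∈ range I, ∑ j ∈ range (J + 1),
          (10 * 2 ^ i * (1 / 2) ^ j : ℝ) ^ s * av (fun y => 1 - u i j y)
          ≤ ∑ i ∈ range I, ∑ j ∈ range (J + 1),
            (10 ^ s * c * 2 ^ r * ((1 + 2 * (j : ℝ)) * (1 / 2) ^ j)) *
            (b ^ i * av (fun x => wt i x ^ r)) :=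
            Finset.sum_le_sum fun i _ => Finset.sum_le_sum fun j _ => hterm i j
        _ = (10 ^ s * c * 2 ^ r * ∑ j ∈ range (J + 1), (1 + 2 * (j : ℝ)) * (1 / 2) ^ j) *
            ∑ i ∈ range I, b ^ i * av (fun x => wt i x ^ r) := by
            rw [Finset.mul_sum (s := range (J + 1)), Finset.sum_mul_sum, Finset.sum_comm]
        _ ≤ (10 ^ s * c * 2 ^ r * 6) *
            ∑ i ∈ range I, b ^ i * av (fun x => wt i x ^ r) := by
            apply mul_le_mul_of_nonneg_right
            · exact mul_le_mul_of_nonneg_left (tw_sum6 _) (by positivity)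
            · apply Finset.sum_nonneg
              intro i _
              exact mul_nonneg (by positivity) (av_nonneg fun x => Real.rpow_nonneg (hwt0 i x) _)
        _ ≤ (10 ^ s * c * 2 ^ r * 6) * ((b / (b - 1) * 2 ^ θ) * av (fun x => w1 x ^ s)) := by
            apply mul_le_mul_of_nonneg_left _ (by positivity)
            have e6 : ∑ i ∈ range I, b ^ i * av (fun x => wt i x ^ r) =
                av (fun x => ∑ i ∈ range I, b ^ i * wt i x ^ r) := by
              rw [av_sum]
              apply Finset.sum_congr rfl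
              intro i _
              exact (av_const_mul _ _).symm
            rw [e6, ← av_const_mul]
            apply av_mono
            intro x
            have e7 : ∀ i : ℕ, wt i x ^ r =
                w1 x ^ r * (if (2 : ℝ) ^ i ≤ 2 * w1 x then 1 else 0) := by
              intro i
              simp only [hwt]
              by_cases h : (2 : ℝ) ^ i / 2 ≤ w1 x
              · have h' : (2 : ℝ) ^ i ≤ 2 * w1 x := by linarith
                simp [h, h']
              · have h' : ¬ (2 : ℝ) ^ i ≤ 2 * w1 x := by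
                  intro h''; exact h (by linarith)
                simp [h, h', Real.zero_rpow hr0.ne']
            have e8 : ∑ i ∈ range I, b ^ i * wt i x ^ r = w1 x ^ r *
                ∑ i ∈ range I, b ^ i * (if (2 : ℝ) ^ i ≤ 2 * w1 x then 1 else 0) := by
              rw [Finset.mul_sum]
              apply Finset.sum_congr rfl
              intro i _
              rw [e7]; ring
            rw [e8]
            have e9 := tw_geom hb1 hθ0 hb (2 * w1 x) (by have := hw0 x; positivity) I
            calc w1 x ^ r * ∑ i ∈ range I, b ^ i * (if (2 : ℝ) ^ i ≤ 2 * w1 x then 1 else 0)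
                ≤ w1 x ^ r * (b / (b - 1) * (2 * w1 x) ^ θ) :=
                  mul_le_mul_of_nonneg_left e9 (Real.rpow_nonneg (hw0 x).le _)
              _ = b / (b - 1) * 2 ^ θ * w1 x ^ s := by
                  rw [Real.mul_rpow (by norm_num) (hw0 x).le]
                  have : w1 x ^ s = w1 x ^ r * w1 x ^ θ := by
                    rw [← Real.rpow_add (hw0 x), hθ]; congr 1; ring
                  rw [this]; ring
        _ = (10 : ℝ) ^ s * c * 2 ^ r * 6 *
          ((2 : ℝ) ^ θ / (2 ^ θ - 1) * 2 ^ θ) * av (fun x => w1 x ^ s) := by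
            rw [← hb]; ring
    linarith
  · -- the two-weight condition
    intro k hk x
    have hcw1 : 1 ≤ ce (P k) w1 x := by
      have := ce_mono (P k) h1 x
      rw [ce_const] at this
      exact this
    obtain ⟨i, hi1, hi2⟩ := exists_nat_pow_near hcw1 (by norm_num : (1 : ℝ) < 2)
    have hiI : i < I := by
      by_contra hcI
      push Not at hcI
      have h2 : ce (P k) w1 x ≤ 2 ^ I := by
        have := ce_mono (P k) (fun y => (hI y).le) x
        rw [ce_const] at this
        exact this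
      have h3 : ce (P k) w1 x < 2 ^ I := by
        obtain ⟨x0, hx0⟩ := Finite.exists_max w1
        have := ce_mono (P k) (g := fun _ => w1 x0) (fun y => hx0 y) x
        rw [ce_const] at this
        exact lt_of_le_of_lt this (hI x0)
      have h4 : (2 : ℝ) ^ I ≤ 2 ^ i := pow_le_pow_right₀ (by norm_num) hcI
      linarith
    -- the truncation is still large
    have htr : (2 : ℝ) ^ i / 2 ≤ ce (P k) (wt i) x := by
      have h2 : ∀ y, w1 y - wt i y ≤ 2 ^ i / 2 := by
        intro y
        simp only [hwt]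
        split_ifs with h
        · simp; positivity
        · push Not at h; linarith
      have h3 := ce_mono (P k) h2 x
      rw [ce_sub, ce_const] at h3
      linarith
    have hη : ∀ j, ce (P k) (u i j) x ≤ (1 / 4 : ℝ) ^ j := fun j => hucov i j k hk x htr
    -- on the fibre `u i J = 0`
    have hJ0 : ∀ y, u i J ((P k).piecewise x y) = 0 := by
      intro y
      rcases hu01 i J ((P k).piecewise x y) with h | h
      · exact h
      · exfalso
        have h2 : (1 : ℝ) / 2 ^ Fintype.card V ≤ ce (P k) (u i J) x := by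
          have := le_av (f := fun y => u i J ((P k).piecewise x y)) (fun y => by
            rcases hu01 i J ((P k).piecewise x y) with h | h <;> rw [h]
            norm_num) y
          simp only [h] at this
          exact this
        have h3 := h2.trans (hη J)
        have h4 : (1 / 4 : ℝ) ^ J < 1 / 2 ^ Fintype.card V := by
          rw [hJ, div_pow, one_pow]
          apply one_div_lt_one_div_of_lt (by positivity)
          calc (2 : ℝ) ^ Fintype.card V ≤ 4 ^ Fintype.card V :=
                pow_le_pow_left₀ (by norm_num) (by norm_num) _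
            _ < 4 ^ (Fintype.card V + 1) := pow_lt_pow_right₀ (by norm_num) (Nat.lt_succ_self _)
        linarith
    -- pointwise bound of `1/W` on the fibre
    have hpt : ∀ y, ((W0 ((P k).piecewise x y) ^ (1 / s) + av w1))⁻¹ ≤
        (10 * 2 ^ i)⁻¹ * (1 + ∑ j ∈ range J, 2 ^ (j + 1) * u i j ((P k).piecewise x y)) := by
      intro y
      set y' := (P k).piecewise x y with hy'
      have hex : ∃ j, u i j y' = 0 := ⟨J, hJ0 y⟩
      classical
      set j0 := Nat.find hex with hj0
      have hj0u : u i j0 y' = 0 := Nat.find_spec hex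
      have hj0J : j0 ≤ J := Nat.find_min' hex (hJ0 y)
      have hbelow : ∀ j < j0, u i j y' = 1 := by
        intro j hj
        rcases hu01 i j y' with h | h
        · exact absurd h (Nat.find_min hex hj)
        · exact h
      have hWlow : 10 * 2 ^ i * (1 / 2) ^ j0 ≤ W0 y' ^ (1 / s) := by
        have h2 : (10 * 2 ^ i * (1 / 2) ^ j0 : ℝ) ^ s ≤ W0 y' := by
          have h3 : (10 * 2 ^ i * (1 / 2) ^ j0 : ℝ) ^ s * (1 - u i j0 y') ≤ W0 y' := by
            calc (10 * 2 ^ i * (1 / 2) ^ j0 : ℝ) ^ s * (1 - u i j0 y')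
                ≤ ∑ j ∈ range (J + 1), (10 * 2 ^ i * (1 / 2) ^ j : ℝ) ^ s * (1 - u i j y') :=
                  Finset.single_le_sum (f := fun j => (10 * 2 ^ i * (1 / 2) ^ j : ℝ) ^ s *
                    (1 - u i j y')) (fun j _ => mul_nonneg (Real.rpow_nonneg (by positivity) _)
                    (h1u i j y')) (Finset.mem_range.2 (by omega))
              _ ≤ W0 y' := by
                  simp only [hW0]
                  exact Finset.single_le_sum (f := fun i => ∑ j ∈ range (J + 1),
                    (10 * 2 ^ i * (1 / 2) ^ j : ℝ) ^ s * (1 - u i j y'))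
                    (fun i _ => Finset.sum_nonneg fun j _ =>
                      mul_nonneg (Real.rpow_nonneg (by positivity) _) (h1u i j y'))
                    (Finset.mem_range.2 hiI)
          rw [hj0u, sub_zero, mul_one] at h3
          exact h3
        calc 10 * 2 ^ i * (1 / 2) ^ j0 = ((10 * 2 ^ i * (1 / 2) ^ j0 : ℝ) ^ s) ^ (1 / s) := by
              rw [← Real.rpow_mul (by positivity), mul_one_div_cancel hs0.ne', Real.rpow_one]
          _ ≤ W0 y' ^ (1 / s) := Real.rpow_le_rpow (Real.rpow_nonneg (by positivity) _) h2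
              (by positivity)
      have h2 : (W0 y' ^ (1 / s) + av w1)⁻¹ ≤ (10 * 2 ^ i * (1 / 2) ^ j0)⁻¹ := by
        apply inv_anti₀ (by positivity)
        linarith
      refine h2.trans ?_
      rw [mul_inv]
      apply mul_le_mul_of_nonneg_left _ (by positivity)
      have h3 : ((1 / 2 : ℝ) ^ j0)⁻¹ = 2 ^ j0 := by
        rw [← inv_pow]; norm_num
      rw [h3]
      have hnn : ∀ j ∈ range J, 0 ≤ (2 : ℝ) ^ (j + 1) * u i j y' := by
        intro j _
        rcases hu01 i j y' with h | h <;> rw [h]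
        · simp
        · positivity
      rcases Nat.eq_zero_or_pos j0 with h0 | h0
      · rw [h0, pow_zero]
        have := Finset.sum_nonneg hnn
        linarith
      · obtain ⟨j1, hj1⟩ : ∃ j1, j0 = j1 + 1 := ⟨j0 - 1, by omega⟩
        have h4 := Finset.single_le_sum hnn (Finset.mem_range.2 (by omega : j1 < J))
        rw [hbelow j1 (by omega), mul_one, ← hj1] at h4
        linarith
    have hce : ce (P k) (fun y => (W0 y ^ (1 / s) + av w1)⁻¹) x ≤ (2 ^ (i + 1))⁻¹ := by
      have h2 : ce (P k) (fun y => (W0 y ^ (1 / s) + av w1)⁻¹) x ≤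
          av (fun y => (10 * 2 ^ i)⁻¹ *
            (1 + ∑ j ∈ range J, 2 ^ (j + 1) * u i j ((P k).piecewise x y))) := av_mono hpt
      refine h2.trans ?_
      rw [av_const_mul, av_add, av_const, av_sum]
      have h3 : ∑ j ∈ range J, av (fun y => 2 ^ (j + 1) * u i j ((P k).piecewise x y)) ≤ 4 := by
        refine le_trans ?_ (tw_sum4 J)
        apply Finset.sum_le_sum
        intro j _
        rw [av_const_mul]
        exact mul_le_mul_of_nonneg_left (hη j) (by positivity)
      calc (10 * 2 ^ i : ℝ)⁻¹ *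
            (1 + ∑ j ∈ range J, av (fun y => 2 ^ (j + 1) * u i j ((P k).piecewise x y)))
          ≤ (10 * 2 ^ i : ℝ)⁻¹ * 5 := by
            apply mul_le_mul_of_nonneg_left _ (by positivity)
            linarith
        _ = (2 ^ (i + 1))⁻¹ := by
            rw [pow_succ]
            field_simp
            norm_num
    calc ce (P k) w1 x * ce (P k) (fun y => (W0 y ^ (1 / s) + av w1)⁻¹) x
        ≤ 2 ^ (i + 1) * (2 ^ (i + 1))⁻¹ := by
          apply mul_le_mul hi2.le hce _ (by positivity)
          apply ce_nonneg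
          intro y
          have : 0 ≤ W0 y ^ (1 / s) := Real.rpow_nonneg (hW00 y) _
          positivity
      _ = 1 := mul_inv_cancel₀ (by positivity)

end core

/-- C1: two-weight lemma -/
theorem two_weight (s : ℝ) (hs : 1 < s) : ∃ C : ℝ, 1 ≤ C ∧
    ∀ (V : Type) [Fintype V] [DecidableEq V] (T : Forest V) (z : ℕ → V) (N : ℕ)
      (w : (V → Bool) → ℝ) (_ : ∀ x, 0 < w x),
      ∃ W : (V → Bool) → ℝ, (∀ x, 0 < W x) ∧ (∀ x, av w ≤ W x) ∧
        av (fun x => W x ^ s) ≤ C ^ s * av (fun x => w x ^ s) ∧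
        ∀ j < N, ∀ x, ce (T.P j (z j)) w x * ce (T.P j (z j)) (fun y => (W y)⁻¹) x ≤ 1 := by
  have hs0 : 0 < s := by linarith
  -- the choice of `q`
  obtain ⟨q0, hq0⟩ := exists_nat_gt (s / (s - 1))
  set q : ℕ := max q0 2 with hq
  have hq2 : 2 ≤ q := le_max_right _ _
  have hqs : s / (s - 1) < (q : ℝ) := lt_of_lt_of_le hq0 (by exact_mod_cast le_max_left q0 2)
  have hq2' : (2 : ℝ) ≤ q := by exact_mod_cast hq2
  have hs1 : 0 < s - 1 := by linarith
  have hq1 : (0 : ℝ) < (q : ℝ) - 1 := by linarith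
  obtain ⟨c, hc, hcov⟩ := cover q hq2
  set r : ℝ := (q : ℝ) / (q - 1) with hr
  have hr1 : 1 < r := by rw [hr, lt_div_iff₀ hq1]; linarith
  have hrs : r < s := by
    rw [hr, div_lt_iff₀ hq1]
    rw [div_lt_iff₀ hs1] at hqs
    linarith
  set D : ℝ := 2 ^ s * ((10 : ℝ) ^ s * c * 2 ^ r * 6 *
        ((2 : ℝ) ^ (s - r) / (2 ^ (s - r) - 1) * 2 ^ (s - r)) + 1) with hD
  set E : ℝ := D * (2 * 2 ^ s) with hE
  have h2sr : 1 < (2 : ℝ) ^ (s - r) := Real.one_lt_rpow (by norm_num) (by linarith)
  have h2sr' : 0 < (2 : ℝ) ^ (s - r) - 1 := by linarith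
  have hD0 : 0 < D := by rw [hD]; positivity
  have hE0 : 0 < E := by rw [hE]; positivity
  refine ⟨max 1 (E ^ (1 / s)), le_max_left _ _, ?_⟩
  intro V _ _ T z N w hw
  set M : ℝ := (av (fun x => w x ^ s)) ^ (1 / s) with hM
  have hav0 : 0 < av (fun x => w x ^ s) := av_pos fun x => Real.rpow_pos_of_pos (hw x) s
  have hM0 : 0 < M := Real.rpow_pos_of_pos hav0 _
  have hMs : M ^ s = av (fun x => w x ^ s) := by
    rw [hM, ← Real.rpow_mul hav0.le, one_div, inv_mul_cancel₀ hs0.ne', Real.rpow_one]
  set w1 : (V → Bool) → ℝ := fun x => w x / M + 1 with hw1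
  have h1 : ∀ x, 1 ≤ w1 x := by
    intro x
    have : 0 ≤ w x / M := div_nonneg (hw x).le hM0.le
    simp only [hw1]; linarith
  obtain ⟨W, hW0, hWav, hWs, hWc⟩ := tw_core hr1 hrs hc (fun j => T.P j (z j)) N
    (fun w' hw' lam η hl hη hη1 => hcov V T z N w' hw' lam η hl hη hη1) w1 h1
  have hw1s : av (fun x => w1 x ^ s) ≤ 2 * 2 ^ s := by
    have hpt : ∀ x, w1 x ^ s ≤ 2 ^ s * (w x ^ s / M ^ s + 1) := by
      intro x
      have ha : 0 ≤ w x / M := div_nonneg (hw x).le hM0.le
      have hmx : w1 x ≤ 2 * max (w x / M) 1 := by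
        have := le_max_left (w x / M) 1
        have := le_max_right (w x / M) 1
        simp only [hw1]
        linarith
      have hmx0 : 0 ≤ max (w x / M) 1 := le_max_of_le_left ha
      calc w1 x ^ s ≤ (2 * max (w x / M) 1) ^ s :=
            Real.rpow_le_rpow (by linarith [h1 x]) hmx hs0.le
        _ = 2 ^ s * (max (w x / M) 1) ^ s := Real.mul_rpow (by norm_num) hmx0
        _ ≤ 2 ^ s * (w x ^ s / M ^ s + 1) := by
            apply mul_le_mul_of_nonneg_left _ (by positivity)
            rw [← Real.div_rpow (hw x).le hM0.le]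
            rcases max_cases (w x / M) 1 with h | h
            · rw [h.1]; linarith
            · rw [h.1, Real.one_rpow]
              have : 0 ≤ (w x / M) ^ s := by positivity
              linarith
    refine (av_mono hpt).trans ?_
    rw [av_const_mul, av_add, av_const]
    have : av (fun x => w x ^ s / M ^ s) = 1 := by
      have e : (fun x => w x ^ s / M ^ s) = fun x => (M ^ s)⁻¹ * w x ^ s := by
        funext x; rw [div_eq_inv_mul]
      rw [e, av_const_mul, hMs, inv_mul_cancel₀ hav0.ne']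
    rw [this]
    linarith
  have hw1av : av w1 ^ s ≤ av (fun x => w1 x ^ s) := by
    -- Jensen/Hölder
    have hq' : s.HolderConjugate (Real.conjExponent s) := Real.HolderConjugate.conjExponent hs
    have := av_mul_le_Lp_mul_Lq (f := w1) (g := fun _ => 1)
      (fun x => by linarith [h1 x]) (fun x => zero_le_one) hq'
    simp only [mul_one, Real.one_rpow, av_const] at this
    have h3 : 0 ≤ av (fun x => w1 x ^ s) := av_nonneg fun x =>
      Real.rpow_nonneg (by linarith [h1 x]) _
    calc av w1 ^ s ≤ ((av (fun x => w1 x ^ s)) ^ (1 / s)) ^ s := by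
          apply Real.rpow_le_rpow (av_nonneg fun x => by linarith [h1 x]) this hs0.le
      _ = av (fun x => w1 x ^ s) := by
          rw [← Real.rpow_mul h3, one_div, inv_mul_cancel₀ hs0.ne', Real.rpow_one]
  refine ⟨fun x => M * W x, fun x => mul_pos hM0 (hW0 x), ?_, ?_, ?_⟩
  · intro x
    have h2 : av w ≤ M * av w1 := by
      rw [← av_const_mul]
      apply av_mono
      intro y
      simp only [hw1]
      rw [mul_add, mul_div_cancel₀ _ hM0.ne']
      linarith
    exact h2.trans (mul_le_mul_of_nonneg_left (hWav x) hM0.le)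
  · have e : (fun x => (M * W x) ^ s) = fun x => M ^ s * W x ^ s := by
      funext x; rw [Real.mul_rpow hM0.le (hW0 x).le]
    rw [e, av_const_mul, hMs, mul_comm]
    apply mul_le_mul_of_nonneg_right _ hav0.le
    have h3 : 0 ≤ av (fun x => w1 x ^ s) := av_nonneg fun x =>
      Real.rpow_nonneg (by linarith [h1 x]) _
    calc av (fun x => W x ^ s) ≤ 2 ^ s * ((10 : ℝ) ^ s * c * 2 ^ r * 6 *
        ((2 : ℝ) ^ (s - r) / (2 ^ (s - r) - 1) * 2 ^ (s - r)) * av (fun x => w1 x ^ s) +
          (av w1) ^ s) := hWs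
      _ ≤ 2 ^ s * ((10 : ℝ) ^ s * c * 2 ^ r * 6 *
        ((2 : ℝ) ^ (s - r) / (2 ^ (s - r) - 1) * 2 ^ (s - r)) * av (fun x => w1 x ^ s) +
          av (fun x => w1 x ^ s)) := by
          apply mul_le_mul_of_nonneg_left _ (by positivity)
          linarith
      _ = D * av (fun x => w1 x ^ s) := by rw [hD]; ring
      _ ≤ D * (2 * 2 ^ s) := mul_le_mul_of_nonneg_left hw1s hD0.le
      _ = E := hE.symm
      _ = (E ^ (1 / s)) ^ s := by
          rw [← Real.rpow_mul hE0.le, one_div, inv_mul_cancel₀ hs0.ne', Real.rpow_one]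
      _ ≤ (max 1 (E ^ (1 / s))) ^ s :=
          Real.rpow_le_rpow (Real.rpow_nonneg hE0.le _) (le_max_right _ _) hs0.le
  · intro j hj x
    have h2 := hWc j hj x
    have h3 : ce (T.P j (z j)) w x ≤ M * ce (T.P j (z j)) w1 x := by
      have : ce (T.P j (z j)) w x ≤ ce (T.P j (z j)) (fun y => M * w1 y) x := by
        apply ce_mono
        intro y
        simp only [hw1]
        rw [mul_add, mul_div_cancel₀ _ hM0.ne']
        linarith
      rw [ce_const_mul] at this
      exact this
    have h4 : ce (T.P j (z j)) (fun y => (M * W y)⁻¹) x =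
        M⁻¹ * ce (T.P j (z j)) (fun y => (W y)⁻¹) x := by
      have e : (fun y => (M * W y)⁻¹) = fun y => M⁻¹ * (W y)⁻¹ := by
        funext y; rw [mul_inv]
      rw [e, ce_const_mul]
    rw [h4]
    have h5 : 0 ≤ ce (T.P j (z j)) (fun y => (W y)⁻¹) x :=
      ce_nonneg _ (fun y => (inv_pos.2 (hW0 y)).le) x
    calc ce (T.P j (z j)) w x * (M⁻¹ * ce (T.P j (z j)) (fun y => (W y)⁻¹) x)
        ≤ (M * ce (T.P j (z j)) w1 x) * (M⁻¹ * ce (T.P j (z j)) (fun y => (W y)⁻¹) x) :=
          mul_le_mul_of_nonneg_right h3 (by positivity)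
      _ = ce (T.P j (z j)) w1 x * ce (T.P j (z j)) (fun y => (W y)⁻¹) x := by
          field_simp
      _ ≤ 1 := h2

end Pool.Agent.LpBasis
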